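import Pool.Agent.Helper49.CopiesDefs

/-!
# Copies of a tree just above its Turán number
-/

open Finset Fintype

namespace Pool.Agent.Helper49.Copies

open SimpleGraph

theorem card_edgeFinset_inst {V : Type*} (G : SimpleGraph V) (i j : Fintype G.edgeSet) (m : ℕ)
    (h : #(@edgeFinset _ G i) = m) : #(@edgeFinset _ G j) = m := by
  have : i = j := Subsingleton.elim _ _
  subst this
  exact h

/-- Greedy embedding of a tree in a graph of large minimum degree. -/
theorem tree_isContained_aux (k : ℕ) : ∀ {W : Type} [Fintype W] (L : SimpleGraph W),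
    L.IsTree → card W = k + 1 → ∀ {V : Type} [Fintype V] [Nonempty V] (G : SimpleGraph V)
    [DecidableRel G.Adj], (∀ v, k ≤ G.degree v) → L ⊑ G := by
  classical
  induction k with
  | zero =>
    intro W _ L hL hW V _ _ G _ _
    obtain ⟨w, hw⟩ := card_eq_one_iff.mp hW
    have hL0 : ∀ a b, ¬ L.Adj a b := by
      intro a b hab
      exact hab.ne ((hw a).trans (hw b).symm)
    refine ⟨⟨⟨fun _ => Classical.arbitrary V, ?_⟩, ?_⟩⟩
    · intro a b hab; exact absurd hab (hL0 a b)
    · intro a b _; exact (hw a).trans (hw b).symm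
  | succ k ih =>
    intro W _ L hL hW V _ _ G _ hdeg
    have : Nontrivial W := Fintype.one_lt_card_iff_nontrivial.mp (by omega)
    obtain ⟨v, hv⟩ := hL.exists_vert_degree_one_of_nontrivial
    obtain ⟨u, huv, huniq⟩ := degree_eq_one_iff_existsUnique_adj.mp hv
    have hT' : (L.induce ({v}ᶜ : Set W)).IsTree :=
      ⟨hL.connected.induce_compl_singleton_of_degree_eq_one hv, hL.isAcyclic.induce _⟩
    have hcard' : card (({v}ᶜ : Set W)) = k + 1 := by
      rw [Fintype.card_compl_set]; simp [hW]
    obtain ⟨f⟩ := ih (L.induce ({v}ᶜ : Set W)) hT' hcard' G (fun x => by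
      have := hdeg x; omega)
    have huv' : u ∈ ({v}ᶜ : Set W) := by
      simp only [Set.mem_compl_iff, Set.mem_singleton_iff]
      exact fun h => huv.ne' h
    -- image of f
    set I : Finset V := Finset.univ.image f with hI
    have hIcard : #I = k + 1 := by
      have hfi : Function.Injective (⇑f) := f.injective
      rw [hI, Finset.card_image_of_injective _ hfi, Finset.card_univ, hcard']
    have hfu : f ⟨u, huv'⟩ ∈ I := Finset.mem_image_of_mem _ (Finset.mem_univ _)
    have hex : ∃ y ∈ G.neighborFinset (f ⟨u, huv'⟩), y ∉ I := by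
      by_contra hcon
      push Not at hcon
      have hsub : G.neighborFinset (f ⟨u, huv'⟩) ⊆ I.erase (f ⟨u, huv'⟩) := by
        intro y hy
        rw [Finset.mem_erase]
        refine ⟨?_, hcon y hy⟩
        rw [mem_neighborFinset] at hy
        exact hy.ne'
      have h1 := Finset.card_le_card hsub
      rw [Finset.card_erase_of_mem hfu, hIcard, card_neighborFinset_eq_degree] at h1
      have := hdeg (f ⟨u, huv'⟩)
      omega
    obtain ⟨y, hy, hyI⟩ := hex
    rw [mem_neighborFinset] at hy
    have hyf : ∀ a, f a ≠ y := by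
      intro a ha
      exact hyI (ha ▸ Finset.mem_image_of_mem _ (Finset.mem_univ _))
    let g : W → V := fun w => if h : w = v then y else f ⟨w, by simpa using h⟩
    have hgv : g v = y := by simp [g]
    have hgne : ∀ w (h : w ≠ v), g w = f ⟨w, by simpa using h⟩ := by
      intro w h; simp [g, h]
    refine ⟨⟨⟨g, ?_⟩, ?_⟩⟩
    · intro a b hab
      by_cases ha : a = v
      · subst ha
        have hbu : b = u := huniq b hab
        subst hbu
        rw [hgv, hgne b (by simpa using huv')]
        exact hy.symm
      · by_cases hb : b = v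
        · subst hb
          have hau : a = u := huniq a hab.symm
          subst hau
          rw [hgv, hgne a ha]
          exact hy
        · rw [hgne a ha, hgne b hb]
          exact f.toHom.map_rel' (a := ⟨a, by simpa using ha⟩) (b := ⟨b, by simpa using hb⟩) hab
    · intro a b hab
      change g a = g b at hab
      by_cases ha : a = v
      · by_cases hb : b = v
        · rw [ha, hb]
        · rw [ha, hgv, hgne b hb] at hab
          exact absurd hab.symm (hyf _)
      · by_cases hb : b = v
        · rw [hb, hgv, hgne a ha] at hab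
          exact absurd hab (hyf _)
        · rw [hgne a ha, hgne b hb] at hab
          have := f.injective hab
          simpa using this


/-- The extremal number of a tree with `k + 1 ≥ 2` vertices grows by at most `k - 1` when a vertex
is added. -/
theorem extremalNumber_succ_le {W : Type} [Fintype W] (L : SimpleGraph W) (hL : L.IsTree) (k : ℕ)
    (hk : card W = k + 1) (hk1 : 1 ≤ k) (n : ℕ) :
    extremalNumber (n + 1) L ≤ extremalNumber n L + (k - 1) := by
  classical
  conv_lhs => rw [← Fintype.card_fin (n + 1)]
  rw [extremalNumber_le_iff]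
  intro G _ hfree
  obtain ⟨v, hv⟩ : ∃ v, G.degree v ≤ k - 1 := by
    by_contra hcon
    push Not at hcon
    exact hfree (tree_isContained_aux k L hL hk G (fun v => by have := hcon v; omega))
  have h1 := card_edgeFinset_deleteIncidenceSet_le_extremalNumber hfree v
  rw [Fintype.card_fin, Nat.add_sub_cancel] at h1
  have h2 : #(G.deleteIncidenceSet v).edgeFinset = #G.edgeFinset - G.degree v := by
    exact card_edgeFinset_deleteIncidenceSet G v
  omega

theorem extremalNumber_add_le {W : Type} [Fintype W] (L : SimpleGraph W) (hL : L.IsTree) (k : ℕ)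
    (hk : card W = k + 1) (hk1 : 1 ≤ k) (n a : ℕ) :
    extremalNumber (n + a) L ≤ extremalNumber n L + a * (k - 1) := by
  induction a with
  | zero => simp
  | succ a ih =>
    have := extremalNumber_succ_le L hL k hk hk1 (n + a)
    rw [← add_assoc]
    calc _ ≤ _ := this
      _ ≤ extremalNumber n L + a * (k - 1) + (k - 1) := by omega
      _ = _ := by ring

/-- A graph with a prescribed number of edges. -/
theorem exists_graph_card_edges (a e : ℕ) (he : e ≤ a.choose 2) :
    ∃ G : SimpleGraph (Fin a), ∃ _ : DecidableRel G.Adj, #G.edgeFinset = e := by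
  classical
  have h1 : #(⊤ : SimpleGraph (Fin a)).edgeFinset = a.choose 2 := by
    rw [card_edgeFinset_top_eq_card_choose_two, Fintype.card_fin]
  obtain ⟨s, hs, hse⟩ := Finset.exists_subset_card_eq (h1 ▸ he)
  refine ⟨fromEdgeSet (s : Set (Sym2 (Fin a))), inferInstance, ?_⟩
  rw [← hse]
  congr 1
  ext x
  simp only [mem_edgeFinset, edgeSet_fromEdgeSet, Set.mem_sdiff, Finset.mem_coe]
  constructor
  · exact fun h => h.1
  · intro h
    refine ⟨h, ?_⟩
    have := hs h
    rw [mem_edgeFinset] at this
    exact SimpleGraph.not_isDiag_of_mem_edgeSet _ this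

/-- A connected graph that maps into a disjoint sum lies on one side. -/
theorem connected_copy_sum {W V₁ V₂ : Type} {L : SimpleGraph W} (hL : L.Connected)
    {G₁ : SimpleGraph V₁} {G₂ : SimpleGraph V₂} (hfree : L.Free G₁) (f : Copy L (G₁ ⊕g G₂)) :
    ∀ w, ∃ v, f w = Sum.inr v := by
  -- the side is constant
  have hside : ∀ a b, L.Adj a b → ((f a).isLeft = (f b).isLeft) := by
    intro a b hab
    have h := f.toHom.map_rel' hab
    change (G₁ ⊕g G₂).Adj (f a) (f b) at h
    cases ha : f a <;> cases hb : f b <;> simp_all
  have hside' : ∀ a b, ((f a).isLeft = (f b).isLeft) := by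
    intro a b
    obtain ⟨p⟩ := hL.preconnected a b
    induction p with
    | nil => rfl
    | cons h p ih => exact (hside _ _ h).trans ih
  obtain ⟨w0⟩ := hL.nonempty
  by_cases h0 : (f w0).isLeft
  · exfalso
    apply hfree
    have hall : ∀ w, ∃ v, f w = Sum.inl v := by
      intro w
      have : (f w).isLeft = true := by rw [hside' w w0, h0]
      exact Sum.isLeft_iff.mp this
    choose g hg using hall
    refine ⟨⟨⟨g, ?_⟩, ?_⟩⟩
    · intro a b hab
      have h := f.toHom.map_rel' hab
      change (G₁ ⊕g G₂).Adj (f a) (f b) at h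
      rw [hg a, hg b] at h
      simpa using h
    · intro a b hab
      change g a = g b at hab
      apply f.injective
      change f a = f b
      rw [hg a, hg b, hab]
  · intro w
    have : (f w).isLeft = false := by rw [hside' w w0]; simpa using h0
    cases hw : f w with
    | inl v => rw [hw] at this; simp at this
    | inr v => exact ⟨v, rfl⟩

theorem copyCount_le_of_injective {V W ι : Type} [Fintype V] [Fintype W] [Fintype ι]
    {L : SimpleGraph W} (G : SimpleGraph V) (g : Copy L G → ι) (hg : Function.Injective g) :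
    G.copyCount L ≤ Fintype.card ι := by
  classical
  refine (copyCount_le_labelledCopyCount).trans ?_
  rw [labelledCopyCount]
  exact Fintype.card_le_of_injective g hg

theorem minCopies_tree_le {W : Type} [Fintype W] (L : SimpleGraph W) (hL : L.IsTree) (k : ℕ)
    (hk : card W = k + 1) (hk1 : 1 ≤ k) (n : ℕ) (hn : 2 * (k + 1) ≤ n) :
    minCopies n L ≤ (2 * (k + 1)) ^ (k + 1) := by
  classical
  obtain ⟨m, rfl⟩ : ∃ m, n = m + 2 * (k + 1) := ⟨n - 2 * (k + 1), by omega⟩
  set a := 2 * (k + 1) with ha
  have hLne : L ≠ ⊥ := by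
    have : Nontrivial W := Fintype.one_lt_card_iff_nontrivial.mp (by omega)
    obtain ⟨v, hv⟩ := hL.exists_vert_degree_one_of_nontrivial
    obtain ⟨u, huv, -⟩ := degree_eq_one_iff_existsUnique_adj.mp hv
    rintro rfl
    exact huv
  obtain ⟨G₁, _, hG₁⟩ := exists_isExtremal_free (V := Fin m) hLne
  have hG₁free := hG₁.prop
  have hG₁card := card_edgeFinset_of_isExtremal_free hG₁
  rw [Fintype.card_fin] at hG₁card
  have hmono := extremalNumber_add_le L hL k hk hk1 m a
  -- number of edges of the second part
  have he : extremalNumber (m + a) L + 1 - extremalNumber m L ≤ a.choose 2 := by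
    have h2 : a.choose 2 = (k + 1) * (2 * k + 1) := by
      rw [Nat.choose_two_right, ha]
      have : 2 * (k + 1) * (2 * (k + 1) - 1) = 2 * ((k + 1) * (2 * k + 1)) := by
        have : 2 * (k + 1) - 1 = 2 * k + 1 := by omega
        rw [this]; ring
      rw [this]; simp
    rw [h2]
    have h3 : a * (k - 1) + 1 ≤ (k + 1) * (2 * k + 1) := by
      obtain ⟨j, rfl⟩ : ∃ j, k = j + 1 := ⟨k - 1, by omega⟩
      simp only [Nat.add_sub_cancel, ha]
      nlinarith
    omega
  obtain ⟨G₂, _, hG₂card⟩ := exists_graph_card_edges a _ he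
  set G := G₁ ⊕g G₂ with hG
  have hGcard : #G.edgeFinset = #G₁.edgeFinset + #G₂.edgeFinset := by
    have := Fintype.card_congr (edgeSetSumEquiv (G := G₁) (H := G₂))
    rw [Fintype.card_sum] at this
    simp only [edgeFinset, Set.toFinset_card]
    convert this
  have hle : extremalNumber m L ≤ extremalNumber (m + a) L + 1 := by
    by_contra hcon
    have hG₁' : L.Free (G₁ ⊕g (⊥ : SimpleGraph (Fin a))) := by
      rintro ⟨f⟩
      have hf := connected_copy_sum hL.connected hG₁free f
      choose g hg using hf
      have : Nontrivial W := Fintype.one_lt_card_iff_nontrivial.mp (by omega)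
      obtain ⟨v, hv⟩ := hL.exists_vert_degree_one_of_nontrivial
      obtain ⟨u, huv, -⟩ := degree_eq_one_iff_existsUnique_adj.mp hv
      have h := f.toHom.map_rel' huv
      change (G₁ ⊕g (⊥ : SimpleGraph (Fin a))).Adj (f v) (f u) at h
      rw [hg v, hg u] at h
      simp at h
    have h1 := card_edgeFinset_le_extremalNumber hG₁'
    have h2 : #(G₁ ⊕g (⊥ : SimpleGraph (Fin a))).edgeFinset =
        #G₁.edgeFinset + #(⊥ : SimpleGraph (Fin a)).edgeFinset := by
      have := Fintype.card_congr (edgeSetSumEquiv (G := G₁) (H := (⊥ : SimpleGraph (Fin a))))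
      rw [Fintype.card_sum] at this
      simp only [edgeFinset, Set.toFinset_card]
      convert this
    rw [h2, Fintype.card_sum, Fintype.card_fin, Fintype.card_fin] at h1
    omega
  let e : Fin m ⊕ Fin a ≃ Fin (m + a) := finSumFinEquiv
  let G' : SimpleGraph (Fin (m + a)) := G.map e.toEmbedding
  let φ : G ≃g G' := Iso.map e G
  have hG'card : #G'.edgeFinset = extremalNumber (m + a) L + 1 := by
    rw [← Iso.card_edgeFinset_eq φ, hGcard, hG₁card, hG₂card]
    omega
  have hcount : G'.copyCount L ≤ a ^ (k + 1) := by
    have hinr : ∀ f : Copy L G', ∀ w, ∃ v, φ.symm (f w) = Sum.inr v := by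
      intro f
      exact connected_copy_sum hL.connected hG₁free (φ.symm.toCopy.comp f)
    choose g hg using hinr
    have hinj : Function.Injective g := by
      intro f₁ f₂ h
      ext w : 1
      apply φ.symm.injective
      rw [hg, hg, h]
    have h := copyCount_le_of_injective G' g hinj
    rw [Fintype.card_fun, Fintype.card_fin, hk] at h
    exact h
  have hsInf : minCopies (m + a) L ≤ G'.copyCount L := by
    unfold minCopies
    apply Nat.sInf_le
    exact ⟨G', card_edgeFinset_inst _ _ _ _ hG'card, rfl⟩
  exact hsInf.trans hcount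

/-- For every tree with at least two vertices, `A(n; L)` is bounded. -/
theorem minCopies_tree_bounded {W : Type} [Fintype W] (L : SimpleGraph W) (hL : L.IsTree)
    (hW : 2 ≤ card W) : ∃ C, ∀ n, minCopies n L ≤ C := by
  obtain ⟨k, hk⟩ : ∃ k, card W = k + 1 := ⟨card W - 1, by omega⟩
  refine ⟨max ((2 * (k + 1)) ^ (k + 1))
    ((Finset.range (2 * (k + 1))).sup (fun n => minCopies n L)), ?_⟩
  intro n
  by_cases hn : 2 * (k + 1) ≤ n
  · exact (minCopies_tree_le L hL k hk (by omega) n hn).trans (le_max_left _ _)
  · refine le_trans ?_ (le_max_right _ _)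
    exact Finset.le_sup (f := fun n => minCopies n L) (Finset.mem_range.mpr (by omega))

end Pool.Agent.Helper49.Copies
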