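import Pool.Agent.Helper49.CopiesClone

/-!
# Graphs with a critical edge
-/

open Finset Fintype Filter

namespace Pool.Agent.Helper49.Copies

open SimpleGraph

/-- Embedding of a graph with a critical edge, the edge being inside a class. -/
theorem critical_copy {V W : Type} [Fintype W] [DecidableEq V] (J : SimpleGraph W)
    (G : SimpleGraph V) (r : ℕ) (u v : W) (C₀ : (J.deleteEdges {s(u, v)}).Coloring (Fin r))
    (huv : u ≠ v) (hCuv : C₀ u = C₀ v) (j : Fin r) (A : Fin r → Finset V)
    (hA : ∀ i l, i ≠ l → ∀ a ∈ A i, ∀ b ∈ A l, G.Adj a b)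
    (hcard : ∀ i, card W ≤ #(A i)) (w w' : V) (hww : G.Adj w w')
    (hw : ∀ i, i ≠ j → ∀ a ∈ A i, G.Adj w a ∧ G.Adj w' a) (hwj : w ∉ A j) (hwj' : w' ∉ A j) :
    J ⊑ G := by
  classical
  let c : W → Fin r := fun x => Equiv.swap (C₀ u) j (C₀ x)
  have hcu : c u = j := by simp [c]
  have hcv : c v = j := by simp [c, ← hCuv]
  have hc : ∀ a b, J.Adj a b → s(a, b) ≠ s(u, v) → c a ≠ c b := by
    intro a b hab hne h
    have h1 : (J.deleteEdges {s(u, v)}).Adj a b := by
      rw [deleteEdges_adj]; exact ⟨hab, by simpa using hne⟩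
    exact C₀.valid h1 ((Equiv.swap (C₀ u) j).injective h)
  obtain ⟨f, hf⟩ := multipartite_copy (J.deleteEdges {s(u, v)}) G c (by
    intro a b hab
    rw [deleteEdges_adj] at hab
    exact hc a b hab.1 (by simpa using hab.2)) A hA (fun i => (card_le_univ _).trans (hcard i))
  have hfw : ∀ x, f x ≠ w ∧ f x ≠ w' := by
    intro x
    by_cases hx : c x = j
    · have := hf x
      rw [hx] at this
      exact ⟨fun h => hwj (h ▸ this), fun h => hwj' (h ▸ this)⟩
    · have := hw _ hx _ (hf x)
      exact ⟨this.1.ne', this.2.ne'⟩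
  let g : W → V := fun x => if x = u then w else if x = v then w' else f x
  have hgu : g u = w := by simp [g]
  have hgv : g v = w' := by simp [g, huv.symm]
  have hgx : ∀ x, x ≠ u → x ≠ v → g x = f x := by intro x h1 h2; simp [g, h1, h2]
  have hadj_u : ∀ b, J.Adj u b → G.Adj w (g b) := by
    intro b hb
    by_cases hbv : b = v
    · rw [hbv, hgv]; exact hww
    · have hbu : b ≠ u := hb.ne'
      rw [hgx b hbu hbv]
      refine (hw (c b) ?_ _ (hf b)).1
      intro h
      refine hc u b hb ?_ (hcu.trans h.symm)
      intro h2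
      rw [Sym2.eq_iff] at h2
      rcases h2 with ⟨-, h2⟩ | ⟨h2, -⟩
      · exact hbv h2
      · exact huv h2
  have hadj_v : ∀ b, J.Adj v b → G.Adj w' (g b) := by
    intro b hb
    by_cases hbu : b = u
    · rw [hbu, hgu]; exact hww.symm
    · have hbv : b ≠ v := hb.ne'
      rw [hgx b hbu hbv]
      refine (hw (c b) ?_ _ (hf b)).2
      intro h
      refine hc v b hb ?_ (hcv.trans h.symm)
      intro h2
      rw [Sym2.eq_iff] at h2
      rcases h2 with ⟨h2, -⟩ | ⟨-, h2⟩
      · exact huv h2.symm
      · exact hbu h2
  refine ⟨⟨⟨g, ?_⟩, ?_⟩⟩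
  · intro a b hab
    by_cases hau : a = u
    · subst hau; rw [hgu]; exact hadj_u b hab
    by_cases hav : a = v
    · subst hav; rw [hgv]; exact hadj_v b hab
    by_cases hbu : b = u
    · subst hbu; rw [hgu]; exact (hadj_u a hab.symm).symm
    by_cases hbv : b = v
    · subst hbv; rw [hgv]; exact (hadj_v a hab.symm).symm
    rw [hgx a hau hav, hgx b hbu hbv]
    apply f.toHom.map_rel'
    rw [deleteEdges_adj]
    refine ⟨hab, ?_⟩
    simp only [Set.mem_singleton_iff, Sym2.eq_iff]
    rintro (⟨h, -⟩ | ⟨h, -⟩)
    · exact hau h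
    · exact hav h
  · intro a b hab
    change g a = g b at hab
    by_cases hau : a = u
    · by_cases hbu : b = u
      · rw [hau, hbu]
      · exfalso
        rw [hau, hgu] at hab
        by_cases hbv : b = v
        · rw [hbv, hgv] at hab; exact hww.ne hab
        · rw [hgx b hbu hbv] at hab; exact (hfw b).1 hab.symm
    · by_cases hbu : b = u
      · exfalso
        rw [hbu, hgu] at hab
        by_cases hav : a = v
        · rw [hav, hgv] at hab; exact hww.ne hab.symm
        · rw [hgx a hau hav] at hab; exact (hfw a).1 hab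
      · by_cases hav : a = v
        · by_cases hbv : b = v
          · rw [hav, hbv]
          · exfalso
            rw [hav, hgv, hgx b hbu hbv] at hab
            exact (hfw b).2 hab.symm
        · by_cases hbv : b = v
          · exfalso
            rw [hbv, hgv, hgx a hau hav] at hab
            exact (hfw a).2 hab
          · rw [hgx a hau hav, hgx b hbu hbv] at hab
            exact f.injective hab

/-- Embedding of a graph with a critical edge, using one special vertex. -/
theorem critical_copy_vertex {V W : Type} [Fintype W] [DecidableEq V] (J : SimpleGraph W)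
    (G : SimpleGraph V) (r : ℕ) (u v : W) (C₀ : (J.deleteEdges {s(u, v)}).Coloring (Fin r))
    (A : Fin r → Finset V)
    (hA : ∀ i l, i ≠ l → ∀ a ∈ A i, ∀ b ∈ A l, G.Adj a b)
    (hcard : ∀ i, card W ≤ #(A i)) (w : V)
    (hw : ∀ i, ∀ a ∈ A i, G.Adj w a) : J ⊑ G := by
  classical
  obtain ⟨f, hf⟩ := multipartite_copy (J.deleteEdges {s(u, v)}) G (fun x => C₀ x) (by
    intro a b hab
    exact C₀.valid hab) A hA (fun i => (card_le_univ _).trans (hcard i))
  have hfw : ∀ x, f x ≠ w := fun x => (hw _ _ (hf x)).ne'
  let g : W → V := fun x => if x = u then w else f x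
  have hgu : g u = w := by simp [g]
  have hgx : ∀ x, x ≠ u → g x = f x := by intro x h1; simp [g, h1]
  refine ⟨⟨⟨g, ?_⟩, ?_⟩⟩
  · intro a b hab
    by_cases hau : a = u
    · subst hau
      rw [hgu, hgx b hab.ne']
      exact hw _ _ (hf b)
    by_cases hbu : b = u
    · subst hbu
      rw [hgu, hgx a hau]
      exact (hw _ _ (hf a)).symm
    rw [hgx a hau, hgx b hbu]
    apply f.toHom.map_rel'
    rw [deleteEdges_adj]
    refine ⟨hab, ?_⟩
    simp only [Set.mem_singleton_iff, Sym2.eq_iff]
    rintro (⟨h, -⟩ | ⟨-, h⟩)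
    · exact hau h
    · exact hbu h
  · intro a b hab
    change g a = g b at hab
    by_cases hau : a = u
    · by_cases hbu : b = u
      · rw [hau, hbu]
      · rw [hau, hgu, hgx b hbu] at hab
        exact absurd hab.symm (hfw b)
    · by_cases hbu : b = u
      · rw [hbu, hgu, hgx a hau] at hab
        exact absurd hab (hfw a)
      · rw [hgx a hau, hgx b hbu] at hab
        exact f.injective hab

/-- Greedy choice of a complete multipartite configuration. -/
theorem greedy_multipartite {V : Type} [DecidableEq V] (G : SimpleGraph V) [DecidableRel G.Adj]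
    (r m M : ℕ) (S : Fin r → Finset V) (hS : ∀ i, r * m * M + m ≤ #(S i))
    (hmiss : ∀ i l, i ≠ l → ∀ v ∈ S i, #{w ∈ S l | ¬ G.Adj v w} ≤ M) :
    ∃ A : Fin r → Finset V, (∀ i, A i ⊆ S i) ∧ (∀ i, #(A i) = m) ∧
      ∀ i l, i ≠ l → ∀ a ∈ A i, ∀ b ∈ A l, G.Adj a b := by
  classical
  have key : ∀ I : Finset (Fin r), ∃ A : Fin r → Finset V, (∀ i ∈ I, A i ⊆ S i) ∧
      (∀ i ∈ I, #(A i) = m) ∧
      ∀ i ∈ I, ∀ l ∈ I, i ≠ l → ∀ a ∈ A i, ∀ b ∈ A l, G.Adj a b := by
    intro I
    induction I using Finset.induction_on with
    | empty => exact ⟨S, by simp, by simp, by simp⟩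
    | insert i₀ I hi₀ ih =>
      obtain ⟨A, hA1, hA2, hA3⟩ := ih
      have hI : #I ≤ r := by
        have := card_le_univ I
        rwa [Fintype.card_fin] at this
      set Bad := I.biUnion (fun i => (A i).biUnion (fun a => {w ∈ S i₀ | ¬ G.Adj a w})) with hBad
      have hBadcard : #Bad ≤ r * m * M := by
        have h1 : #Bad ≤ #I * (m * M) := by
          apply card_biUnion_le_card_mul
          intro i hi
          rw [← hA2 i hi]
          apply card_biUnion_le_card_mul
          intro a ha
          exact hmiss i i₀ (fun h => hi₀ (h ▸ hi)) a (hA1 i hi ha)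
        calc #Bad ≤ #I * (m * M) := h1
          _ ≤ r * (m * M) := Nat.mul_le_mul_right _ hI
          _ = r * m * M := by ring
      have h2 : m ≤ #(S i₀ \ Bad) := by
        have := le_card_sdiff Bad (S i₀)
        have := hS i₀
        omega
      obtain ⟨B, hB, hBm⟩ := exists_subset_card_eq h2
      have hBadj : ∀ i ∈ I, ∀ a ∈ A i, ∀ b ∈ B, G.Adj a b := by
        intro i hi a ha b hb
        by_contra hcon
        have h3 := Finset.mem_sdiff.mp (hB hb)
        apply h3.2
        rw [hBad, mem_biUnion]
        refine ⟨i, hi, ?_⟩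
        rw [mem_biUnion]
        exact ⟨a, ha, by rw [mem_filter]; exact ⟨h3.1, hcon⟩⟩
      refine ⟨Function.update A i₀ B, ?_, ?_, ?_⟩
      · intro i hi
        by_cases h : i = i₀
        · subst h
          rw [Function.update_self]
          exact hB.trans sdiff_subset
        · rw [Function.update_of_ne h]
          exact hA1 i ((mem_insert.mp hi).resolve_left h)
      · intro i hi
        by_cases h : i = i₀
        · subst h; rw [Function.update_self]; exact hBm
        · rw [Function.update_of_ne h]
          exact hA2 i ((mem_insert.mp hi).resolve_left h)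
      · intro i hi l hl hil a ha b hb
        by_cases h : i = i₀
        · subst h
          have hl' : l ≠ i := hil.symm
          rw [Function.update_self] at ha
          rw [Function.update_of_ne hl'] at hb
          exact (hBadj l ((mem_insert.mp hl).resolve_left hl') b hb a ha).symm
        · rw [Function.update_of_ne h] at ha
          have hi' := (mem_insert.mp hi).resolve_left h
          by_cases h' : l = i₀
          · subst h'
            rw [Function.update_self] at hb
            exact hBadj i hi' a ha b hb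
          · rw [Function.update_of_ne h'] at hb
            exact hA3 i hi' l ((mem_insert.mp hl).resolve_left h') hil a ha b hb
  obtain ⟨A, h1, h2, h3⟩ := key univ
  exact ⟨A, fun i => h1 i (mem_univ _), fun i => h2 i (mem_univ _),
    fun i l => h3 i (mem_univ _) l (mem_univ _)⟩

end Pool.Agent.Helper49.Copies
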