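import Pool.Agent.Helper49.CopiesTypes

/-!
# The number of edges meeting the core
-/

open Finset Fintype Filter

namespace Pool.Agent.Helper49.Copies

open SimpleGraph

theorem turan_lower (n r : ℕ) (hr : 1 ≤ r) :
    (1 - 1 / (r : ℝ)) * (n : ℝ) ^ 2 / 2 - (r : ℝ) ^ 2 ≤ #(turanGraph n r).edgeFinset := by
  rw [card_edgeFinset_turanGraph]
  have hrR : (1 : ℝ) ≤ r := by exact_mod_cast hr
  have h1 : (n ^ 2 - (n % r) ^ 2) * (r - 1) <
      ((n ^ 2 - (n % r) ^ 2) * (r - 1) / (2 * r) + 1) * (2 * r) := by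
    have := Nat.div_add_mod ((n ^ 2 - (n % r) ^ 2) * (r - 1)) (2 * r)
    have h2 := Nat.mod_lt ((n ^ 2 - (n % r) ^ 2) * (r - 1)) (by omega : 0 < 2 * r)
    nlinarith
  have hmod : n % r < r := Nat.mod_lt _ (by omega)
  have hle : (n % r) ^ 2 ≤ n ^ 2 := Nat.pow_le_pow_left (Nat.mod_le _ _) 2
  have h1' : ((n : ℝ) ^ 2 - ((n % r : ℕ) : ℝ) ^ 2) * (r - 1) ≤
      ((((n ^ 2 - (n % r) ^ 2) * (r - 1) / (2 * r) : ℕ) : ℝ) + 1) * (2 * r) := by
    have h2 : (((n ^ 2 - (n % r) ^ 2) * (r - 1) : ℕ) : ℝ) ≤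
        (((((n ^ 2 - (n % r) ^ 2) * (r - 1) / (2 * r) + 1) * (2 * r) : ℕ)) : ℝ) := by
      exact_mod_cast h1.le
    rw [Nat.cast_mul, Nat.cast_sub hle, Nat.cast_sub hr] at h2
    push_cast at h2
    exact h2
  have h3 : ((n % r : ℕ) : ℝ) ≤ r := by exact_mod_cast hmod.le
  have h3' : (0 : ℝ) ≤ ((n % r : ℕ) : ℝ) := Nat.cast_nonneg _
  set x : ℝ := (((n ^ 2 - (n % r) ^ 2) * (r - 1) / (2 * r) : ℕ) : ℝ) with hx
  push_cast
  have h4 : (0 : ℝ) ≤ (((n % r).choose 2 : ℕ) : ℝ) := Nat.cast_nonneg _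
  have h5 : ((n : ℝ) ^ 2 - r ^ 2) * (r - 1) ≤ (x + 1) * (2 * r) := by
    refine le_trans ?_ h1'
    apply mul_le_mul_of_nonneg_right _ (by linarith)
    nlinarith
  have h6 : ((n : ℝ) ^ 2 - r ^ 2) * (r - 1) / (2 * r) ≤ x + 1 := by
    rw [div_le_iff₀ (by positivity)]; exact h5
  have h7 : ((n : ℝ) ^ 2 - r ^ 2) * (r - 1) / (2 * r) =
      (1 - 1 / (r : ℝ)) * (n : ℝ) ^ 2 / 2 - r * (r - 1) / 2 := by
    field_simp
  have h8 : (r : ℝ) * (r - 1) / 2 + 1 ≤ r ^ 2 + 1 := by nlinarith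
  have h9 : (r : ℝ) * (r - 1) / 2 + 1 ≤ r ^ 2 := by nlinarith
  linarith

theorem turan_free {W : Type} (L : SimpleGraph W) (r : ℕ) (hr : 1 ≤ r)
    (hL : ¬ L.Colorable r) (n : ℕ) : L.Free (turanGraph n r) := by
  rintro ⟨f⟩
  apply hL
  refine ⟨Coloring.mk (fun w => ⟨(f w : ℕ) % r, Nat.mod_lt _ (by omega)⟩) ?_⟩
  intro a b hab h
  have h1 := f.toHom.map_rel' hab
  change (turanGraph n r).Adj (f a) (f b) at h1
  rw [turanGraph_adj] at h1
  apply h1
  simpa using h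

theorem two_mul_card_edges {V : Type} [Fintype V] (G : SimpleGraph V) [DecidableRel G.Adj] :
    2 * #G.edgeFinset = dsum G univ univ := by
  classical
  rw [← sum_degrees_eq_twice_card_edges]
  unfold dsum
  apply Finset.sum_congr rfl
  intro v _
  rw [← card_neighborFinset_eq_degree]
  congr 1
  ext w
  rw [mem_neighborFinset, mem_filter]
  simp

/-- Edges of `G`: inside the core, between core and outside, and outside. -/
theorem two_mul_card_edges_le {V : Type} [Fintype V] [DecidableEq V] (G : SimpleGraph V)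
    [DecidableRel G.Adj] (D : Finset V) :
    2 * #G.edgeFinset = dsum G D D + 2 * dsum G (univ \ D) D + dsum G (univ \ D) (univ \ D) := by
  rw [two_mul_card_edges]
  have h1 : (univ : Finset V) = D ∪ (univ \ D) := by
    rw [Finset.union_sdiff_of_subset (subset_univ D)]
  have h2 : Disjoint D (univ \ D) := Finset.disjoint_sdiff
  conv_lhs => rw [h1]
  rw [dsum_union_left G _ _ _ h2, dsum_union_right G _ _ _ h2, dsum_union_right G _ _ _ h2,
    dsum_comm G D (univ \ D)]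
  ring

theorem dsum_le_extremal {V W : Type} [Fintype V] [DecidableEq V] (G : SimpleGraph V)
    [DecidableRel G.Adj] (J : SimpleGraph W) (U : Finset V)
    (hU : ∀ f : Copy J G, ∃ w, f w ∉ U) : dsum G U U ≤ 2 * extremalNumber (#U) J := by
  classical
  rw [dsum_self_eq]
  have hfree : J.Free (G.induce (U : Set V)) := by
    rintro ⟨f⟩
    obtain ⟨w, hw⟩ := hU ((Copy.induce G _).comp f)
    exact hw (by exact_mod_cast (f w).2)
  have h1 := card_edgeFinset_le_extremalNumber hfree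
  have h2 : card (U : Set V) = #U := by simp
  rw [h2] at h1
  omega

/-- Edges between the core and the rest. -/
theorem core_bound {W ι : Type} [Fintype W] [Fintype ι] [DecidableEq ι] {L : SimpleGraph W}
    (c : W → ι) (hc : ∀ a b, L.Adj a b → c a = c b) (i₀ : ι) (hcs : ∀ i, ∃ a, c a = i)
    (r : ℕ) (hr : 1 ≤ r)
    (C : L.Coloring (Fin (r + 1))) (hC0 : ∀ i, ∃ w, c w = i ∧ C w = 0)
    (hC1 : ∀ i, ∃ w, c w = i ∧ C w ≠ 0) (hnc : ¬ L.Colorable r) (d : ℕ) (ε : ℝ) (hε : 0 < ε) : ∃ C' : ℝ,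
    ∀ᶠ n : ℕ in atTop, ∀ (G : SimpleGraph (Fin n)) [DecidableRel G.Adj],
      #G.edgeFinset = extremalNumber n L + 1 → ∀ D : Finset (Fin n), #D ≤ d →
      (∀ (f : Copy L G) (w : W), f w ∈ D) → ∀ (f₀ : Copy L G) (label : Fin n → ι),
      (∀ w, label (f₀ w) = c w) →
      (∀ S : Finset ι, (dsum G (univ \ D) (D.filter (fun x => label x ∈ S)) : ℝ) + (#S / r) * n ≤
        n * ((1 - 1 / (r : ℝ)) * #(D.filter (fun x => label x ∈ S)) +
          #{w | C w = 0 ∧ c w ∈ S} / r + ε)) ∧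
      (1 - 1 / (r : ℝ)) * (#(univ \ D) : ℝ) ^ 2 - C' * #(univ \ D) ≤
        dsum G (univ \ D) (univ \ D) := by
  classical
  set m := card W with hm
  set B : ℕ := card ι * (r * (2 ^ d * m * d)) with hB
  set η : ℝ := ε / (4 * (d + 1)) with hη
  have hη0 : 0 < η := by positivity
  have hrR : (1 : ℝ) ≤ r := by exact_mod_cast hr
  obtain ⟨t₀, ht₀⟩ := exists_cover r m hr η hη0
  obtain ⟨t, ht1, ht2, ht3⟩ : ∃ t, t₀ ≤ t ∧ 2 ^ d * m < t ∧ (4 * B / ε : ℝ) ≤ t := by
    refine ⟨max t₀ (max (2 ^ d * m + 1) ⌈(4 * B / ε : ℝ)⌉₊), le_max_left _ _, ?_, ?_⟩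
    · exact lt_of_lt_of_le (Nat.lt_succ_self _) ((le_max_left _ _).trans (le_max_right _ _))
    · refine (Nat.le_ceil _).trans ?_
      exact_mod_cast (le_max_right _ _).trans (le_max_right _ _)
  set C' : ℝ := 2 * r ^ 2 + d ^ 2 + 2 * d with hC'
  obtain ⟨N₀, hN₀⟩ := ht₀ t ht1 C'
  refine ⟨C', ?_⟩
  filter_upwards [eventually_ge_atTop (N₀ + d + 1)] with n hn G _ hG D hDd hD f₀ label hlabel
  set U : Finset (Fin n) := univ \ D with hU
  have hUcard : #U = n - #D := by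
    rw [hU, card_sdiff_of_subset (subset_univ _), Finset.card_univ, Fintype.card_fin]
  have hUN : N₀ ≤ #U := by omega
  have hU1 : 1 ≤ #U := by omega
  have hU1' : (1 : ℝ) ≤ #U := by exact_mod_cast hU1
  have hUn : #U ≤ n := by omega
  have hUn' : (#U : ℝ) ≤ n := by exact_mod_cast hUn
  have hDd' : (#D : ℝ) ≤ d := by exact_mod_cast hDd
  have hD0 : (0 : ℝ) ≤ #D := Nat.cast_nonneg _
  -- density
  have hdense : (1 - 1 / (r : ℝ)) * (#U : ℝ) ^ 2 - C' * #U ≤ dsum G U U := by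
    have h1 := two_mul_card_edges_le G D
    have h2 : #(turanGraph n r).edgeFinset ≤ extremalNumber n L := by
      have := card_edgeFinset_le_extremalNumber (turan_free L r hr hnc n)
      rwa [Fintype.card_fin] at this
    have h3 := turan_lower n r hr
    have h4 : (#(turanGraph n r).edgeFinset : ℝ) ≤ #G.edgeFinset := by
      exact_mod_cast (by omega : #(turanGraph n r).edgeFinset ≤ #G.edgeFinset)
    have h5 : dsum G D D ≤ #D * #D := dsum_le G D D
    have h6 : dsum G U D ≤ #U * #D := dsum_le G U D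
    have h1' : (2 : ℝ) * #G.edgeFinset = dsum G D D + 2 * dsum G U D + dsum G U U := by
      exact_mod_cast h1
    have h5' : (dsum G D D : ℝ) ≤ #D * #D := by exact_mod_cast h5
    have h6' : (dsum G U D : ℝ) ≤ #U * #D := by exact_mod_cast h6
    have h7 : (#D : ℝ) * #D ≤ d ^ 2 := by nlinarith
    have h8 : (#U : ℝ) * #D ≤ #U * d := mul_le_mul_of_nonneg_left hDd' (by linarith)
    have h9 : (1 - 1 / (r : ℝ)) * (#U : ℝ) ^ 2 ≤ (1 - 1 / (r : ℝ)) * (n : ℝ) ^ 2 := by
      apply mul_le_mul_of_nonneg_left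
      · nlinarith
      · have : (1 : ℝ) / r ≤ 1 := by rw [div_le_one (by linarith)]; exact hrR
        linarith
    have h10 : (2 * (r : ℝ) ^ 2 + d ^ 2) ≤ (2 * (r : ℝ) ^ 2 + d ^ 2) * #U :=
      le_mul_of_one_le_right (by positivity) hU1'
    have h11 : C' * #U = (2 * (r : ℝ) ^ 2 + d ^ 2) * #U + 2 * (#U * d) := by rw [hC']; ring
    rw [h11]
    linarith
  refine ⟨?_, hdense⟩
  -- cover
  obtain ⟨Z, q, hZ, hZU⟩ := hN₀ G (L.induce {w | c w = i₀})
    ⟨Coloring.mk (fun a => C a) (fun {a b} hab => C.valid hab)⟩ (Fintype.card_subtype_le _) U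
    (by
      intro f
      by_contra hcon
      push Not at hcon
      refine piece_free c hc D hD f₀ i₀ (hcs i₀) f ?_
      intro a ha
      exact (mem_sdiff.mp (hcon a)).2 ha) hUN hdense
  intro S
  set k := #S with hk
  set σ := #{w | C w = 0 ∧ c w ∈ S} with hσ
  set D₁ := D.filter (fun x => label x ∈ S) with hD₁
  have hD₁D : #D₁ ≤ #D := card_filter_le _ _
  have hDd' : (#D₁ : ℝ) ≤ d := by exact_mod_cast hD₁D.trans hDd
  have hkσ : k ≤ σ := by
    choose w hw hw' using hC0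
    rw [hk, hσ]
    refine card_le_card_of_injOn w ?_ ?_
    · intro i hi
      rw [mem_coe, mem_filter, hw i]
      exact ⟨mem_univ _, hw' i, hi⟩
    · intro i _ j _ hij
      rw [← hw i, ← hw j, hij]
  set BT : ℕ := t * ((r - 1) * #D₁ + (σ - k)) + B with hBT
  have htile : ∀ T, IsTile G r t T → tileSet T ⊆ U →
      ∑ v ∈ tileSet T, #{x ∈ D₁ | G.Adj v x} ≤ BT := by
    intro T hT hTU
    have h1 := tile_core_total c hc D hD f₀ label hlabel S r hr C hC1 t d hDd ht2 T hT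
      (fun v hv => (mem_sdiff.mp (hTU hv)).2)
    unfold dsum at h1
    rw [← hk, ← hσ, ← hm, ← hD₁] at h1
    have h2 : t * ((r - 1) * #D₁ + σ) = t * ((r - 1) * #D₁ + (σ - k)) + k * t := by
      obtain ⟨l, hl⟩ := Nat.exists_eq_add_of_le hkσ
      rw [hl, Nat.add_sub_cancel_left]
      ring
    have h3 : k * (r * (2 ^ d * m * d)) ≤ B := by
      rw [hB]
      exact Nat.mul_le_mul_right _ (card_le_univ S)
    omega
  have hZsum : dsum G Z D₁ ≤ q * BT := hZ.sum_le _ _ htile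
  have hZA : Disjoint Z (U \ Z) := Finset.disjoint_sdiff
  have hZAU : Z ∪ (U \ Z) = U := Finset.union_sdiff_of_subset hZ.subset
  have h1 : dsum G U D₁ ≤ q * BT + #(U \ Z) * #D₁ := by
    calc dsum G U D₁ = dsum G (Z ∪ (U \ Z)) D₁ := by rw [hZAU]
      _ = dsum G Z D₁ + dsum G (U \ Z) D₁ := dsum_union_left G _ _ _ hZA
      _ ≤ _ := Nat.add_le_add hZsum (dsum_le G _ _)
  have h2 : (dsum G U D₁ : ℝ) ≤ q * BT + #(U \ Z) * #D₁ := by exact_mod_cast h1
  have hZcard := hZ.card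
  have hZn : q * (r * t) ≤ n := by
    rw [← hZcard]
    exact (card_le_card hZ.subset).trans hUn
  have ht0 : (0 : ℝ) < t := by
    have : 0 < t := by omega
    exact_mod_cast this
  have hZn' : (q : ℝ) * (r * t) ≤ n := by exact_mod_cast hZn
  have hn0 : (0 : ℝ) ≤ n := Nat.cast_nonneg _
  -- the last term
  have h3 : (#(U \ Z) : ℝ) * #D₁ ≤ ε / 4 * n := by
    have e1 : (#(U \ Z) : ℝ) * #D₁ ≤ (η * #U) * d :=
      mul_le_mul hZU hDd' (Nat.cast_nonneg _) (by positivity)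
    have e2 : (η * #U) * d ≤ (η * n) * (d + 1) := by
      apply mul_le_mul _ (by linarith) (by positivity) (by positivity)
      exact mul_le_mul_of_nonneg_left hUn' hη0.le
    have e3 : (η * n) * (d + 1) = ε / 4 * n := by
      rw [hη]; field_simp
    linarith
  -- the main term
  have h4 : (q : ℝ) * BT ≤ n * (((r - 1) * #D₁ + (σ - k)) / r + ε / 4) := by
    have e1 : (BT : ℝ) = t * ((r - 1) * #D₁ + (σ - k)) + B := by
      rw [hBT]
      push_cast [Nat.cast_sub hr, Nat.cast_sub hkσ]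
      ring
    have e2 : (q : ℝ) * BT = (q * (r * t)) * (((r - 1) * #D₁ + (σ - k)) / r + B / (r * t)) := by
      rw [e1]
      field_simp
    have e3 : (B : ℝ) / (r * t) ≤ ε / 4 := by
      rw [div_le_iff₀ hε] at ht3
      rw [div_le_iff₀ (by positivity)]
      have : ε * (t : ℝ) ≤ ε * (r * t) := by
        apply mul_le_mul_of_nonneg_left _ hε.le
        exact le_mul_of_one_le_left ht0.le hrR
      linarith
    have e4 : (0 : ℝ) ≤ ((r - 1) * #D₁ + (σ - k)) / r + B / (r * t) := by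
      have : (0 : ℝ) ≤ r - 1 := by linarith
      have : (0 : ℝ) ≤ (σ : ℝ) - k := by
        have : (k : ℝ) ≤ σ := by exact_mod_cast hkσ
        linarith
      positivity
    rw [e2]
    calc (q * (r * t) : ℝ) * (((r - 1) * #D₁ + (σ - k)) / r + B / (r * t))
        ≤ n * (((r - 1) * #D₁ + (σ - k)) / r + B / (r * t)) :=
          mul_le_mul_of_nonneg_right hZn' e4
      _ ≤ n * (((r - 1) * #D₁ + (σ - k)) / r + ε / 4) := by
          apply mul_le_mul_of_nonneg_left _ hn0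
          linarith
  have h5 : (n : ℝ) * (((r - 1) * #D₁ + (σ - k)) / r + ε / 4) + (k / r) * n =
      n * ((1 - 1 / (r : ℝ)) * #D₁ + σ / r + ε / 4) := by
    field_simp
    ring
  have h6 : (n : ℝ) * ((1 - 1 / (r : ℝ)) * #D₁ + σ / r + ε) =
      n * ((1 - 1 / (r : ℝ)) * #D₁ + σ / r + ε / 4) + ε / 4 * n + (ε / 2) * n := by ring
  have h7 : 0 ≤ (ε / 2) * n := by positivity
  rw [h6]
  linarith

end Pool.Agent.Helper49.Copies
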