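import Mathlib

/-!
# Graphs of large girth with many edges (Erdős–Sachs argument)
-/

open Finset Fintype Filter

namespace Pool.Agent.Helper49.Copies

open SimpleGraph

/-- Vertices that can be reached by a walk of length at most `r`. -/
theorem card_ball_le {V : Type} [Fintype V] [DecidableEq V] (G : SimpleGraph V)
    [DecidableRel G.Adj] (Δ : ℕ) (hΔ : ∀ v, G.degree v ≤ Δ) (u : V) (r : ℕ) :
    ∃ S : Finset V, #S ≤ (Δ + 1) ^ r ∧ ∀ v (p : G.Walk u v), p.length ≤ r → v ∈ S := by
  classical
  induction r with
  | zero =>
    refine ⟨{u}, by simp, ?_⟩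
    intro v p hp
    have : p.length = 0 := by omega
    have := Walk.eq_of_length_eq_zero this
    simp [this]
  | succ r ih =>
    obtain ⟨S, hS, hS'⟩ := ih
    refine ⟨S.biUnion (fun a => insert a (G.neighborFinset a)), ?_, ?_⟩
    · refine (card_biUnion_le_card_mul _ _ (Δ + 1) ?_).trans ?_
      · intro a _
        refine (card_insert_le _ _).trans ?_
        rw [card_neighborFinset_eq_degree]
        exact Nat.add_le_add_right (hΔ a) 1
      · rw [pow_succ]
        exact Nat.mul_le_mul_right _ hS
    · intro v p hp
      rw [mem_biUnion]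
      by_cases h0 : p.length ≤ r
      · exact ⟨v, hS' v p h0, mem_insert_self _ _⟩
      · have hnn : ¬ p.Nil := by
          intro hn
          have := Walk.length_eq_zero_iff.mpr hn
          omega
        refine ⟨p.penultimate, ?_, ?_⟩
        · apply hS' _ p.dropLast
          have := Walk.length_dropLast_add_one hnn
          omega
        · rw [mem_insert, mem_neighborFinset]
          exact Or.inr (p.adj_penultimate hnn)

/-- Adding an edge between two vertices that are far apart creates no short cycle. -/
theorem sup_edge_free {V : Type} (G : SimpleGraph V) (ℓ : ℕ)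
    (hG : ∀ m, 3 ≤ m → m ≤ ℓ → (cycleGraph m).Free G) (u v : V)
    (huv : ∀ p : G.Walk u v, ℓ ≤ p.length) (m : ℕ) (hm3 : 3 ≤ m) (hmℓ : m ≤ ℓ) :
    (cycleGraph m).Free (G ⊔ edge u v) := by
  classical
  rintro ⟨f⟩
  have hm0 : 0 < m := by omega
  let F : ℕ → V := fun j => f ⟨j % m, Nat.mod_lt _ hm0⟩
  have hFper : ∀ a, F (a + m) = F a := by
    intro a; simp [F]
  have hFinj : ∀ a b, F a = F b → a % m = b % m := by
    intro a b hab
    have := f.injective hab
    simpa using this
  have hwin : ∀ i a b, i ≤ a → a < i + m → i ≤ b → b < i + m → F a = F b → a = b := by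
    intro i a b h1 h2 h3 h4 hab
    have h5 := hFinj a b hab
    have h6 : (m : ℤ) ∣ (b : ℤ) - a := (Nat.modEq_iff_dvd).mp h5
    obtain ⟨c, hc⟩ := h6
    have h7 : c = 0 := by
      by_contra hne
      rcases lt_or_gt_of_ne hne with h | h
      · nlinarith
      · nlinarith
    rw [h7] at hc
    omega
  have hadj : ∀ a, (G ⊔ edge u v).Adj (F a) (F (a + 1)) := by
    intro a
    apply f.toHom.map_rel'
    rw [cycleGraph_adj']
    right
    have hx : a % m < m := Nat.mod_lt _ hm0
    have h1 : (a + 1) % m = (a % m + 1) % m := by rw [Nat.mod_add_mod]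
    rw [Fin.sub_def]
    change (m - a % m + (a + 1) % m) % m = 1
    rw [h1]
    by_cases h : a % m + 1 = m
    · rw [h, Nat.mod_self, add_zero]
      have : m - a % m = 1 := by omega
      rw [this]
      exact Nat.mod_eq_of_lt (by omega)
    · rw [Nat.mod_eq_of_lt (show a % m + 1 < m by omega)]
      have : m - a % m + (a % m + 1) = 1 + m := by omega
      rw [this, Nat.add_mod_right]
      exact Nat.mod_eq_of_lt (by omega)
  have key : ∃ i, F i ≠ F (i + 1) ∧ s(F i, F (i + 1)) = s(u, v) ∨ ∀ a, G.Adj (F a) (F (a + 1)) := by
    by_cases hall : ∀ a, G.Adj (F a) (F (a + 1))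
    · exact ⟨0, Or.inr hall⟩
    · push Not at hall
      obtain ⟨i, hi⟩ := hall
      have h2 := hadj i
      refine ⟨i, Or.inl ⟨h2.ne, ?_⟩⟩
      rw [sup_adj, edge_adj] at h2
      rcases h2 with h2 | h2
      · exact absurd h2 hi
      · rcases h2.1 with ⟨h5, h6⟩ | ⟨h5, h6⟩
        · rw [h5, h6]
        · rw [h5, h6]; exact Sym2.eq_swap
  obtain ⟨i, ⟨-, hi⟩ | hall⟩ := key
  · have hG' : ∀ a, i < a → a < i + m → G.Adj (F a) (F (a + 1)) := by
      intro a ha1 ha2
      have h1 := hadj a
      rw [sup_adj, edge_adj] at h1
      rcases h1 with h1 | h1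
      · exact h1
      · exfalso
        have h2 : s(F a, F (a + 1)) = s(F i, F (i + 1)) := by
          rw [hi]
          rcases h1.1 with ⟨h5, h6⟩ | ⟨h5, h6⟩
          · rw [h5, h6]
          · rw [h5, h6]; exact Sym2.eq_swap
        rw [Sym2.eq_iff] at h2
        rcases h2 with ⟨h3, -⟩ | ⟨h3, h4⟩
        · have := hwin i a i (by omega) (by omega) (by omega) (by omega) h3
          omega
        · have h5 := hwin i a (i + 1) (by omega) (by omega) (by omega) (by omega) h3
          subst h5
          have := hwin i (i + 1 + 1) i (by omega) (by omega) (by omega) (by omega) h4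
          omega
    have hwalk : ∀ j, j < m → ∃ p : G.Walk (F (i + 1)) (F (i + 1 + j)), p.length = j := by
      intro j
      induction j with
      | zero => intro _; exact ⟨Walk.nil, rfl⟩
      | succ j ih =>
        intro hj
        obtain ⟨p, hp⟩ := ih (by omega)
        refine ⟨p.concat (hG' (i + 1 + j) (by omega) (by omega)), ?_⟩
        rw [Walk.length_concat, hp]
    obtain ⟨p, hp⟩ := hwalk (m - 1) (by omega)
    have hlast : F (i + 1 + (m - 1)) = F i := by
      have : i + 1 + (m - 1) = i + m := by omega
      rw [this, hFper]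
    have hex : ∃ p : G.Walk (F (i + 1)) (F i), p.length = m - 1 :=
      ⟨p.copy rfl hlast, by rw [Walk.length_copy, hp]⟩
    obtain ⟨q, hq⟩ := hex
    rw [Sym2.eq_iff] at hi
    rcases hi with ⟨h1, h2⟩ | ⟨h1, h2⟩
    · have := huv (q.reverse.copy h1 h2)
      rw [Walk.length_copy, Walk.length_reverse, hq] at this
      omega
    · have := huv (q.copy h2 h1)
      rw [Walk.length_copy, hq] at this
      omega
  · apply hG m hm3 hmℓ
    have hval : ∀ x y : Fin m, (x - y).val = 1 → G.Adj (f x) (f y) := by
      intro x y hxy
      have h1 : x.val = (y.val + 1) % m := by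
        rw [Fin.sub_def] at hxy
        change (m - y.val + x.val) % m = 1 at hxy
        have hx := x.isLt
        have hy := y.isLt
        by_cases hyx : x.val < y.val
        · rw [Nat.mod_eq_of_lt (by omega)] at hxy
          have h2 : x.val = 0 ∧ y.val + 1 = m := by omega
          rw [h2.2, Nat.mod_self]; exact h2.1
        · have h3 : m - y.val + x.val = (x.val - y.val) + m := by omega
          rw [h3, Nat.add_mod_right, Nat.mod_eq_of_lt (by omega)] at hxy
          rw [Nat.mod_eq_of_lt (by omega)]
          omega
      have h2 : f x = F (y.val + 1) := by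
        simp only [F]
        congr 1
        exact Fin.ext h1
      have h3 : f y = F y.val := by
        simp only [F]
        congr 1
        exact Fin.ext (Nat.mod_eq_of_lt y.isLt).symm
      rw [h2, h3]
      exact (hall _).symm
    refine ⟨⟨⟨f, ?_⟩, f.injective⟩⟩
    intro a b hab
    rw [cycleGraph_adj'] at hab
    rcases hab with h | h
    · exact hval a b h
    · exact (hval b a h).symm

/-- Graphs without short cycles and with arbitrarily large average degree. -/
theorem exists_girth (ℓ K : ℕ) : ∀ᶠ n : ℕ in atTop, ∃ G : SimpleGraph (Fin n),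
    ∃ _ : DecidableRel G.Adj,
    (∀ m, 3 ≤ m → m ≤ ℓ → (cycleGraph m).Free G) ∧ K * n ≤ #G.edgeFinset := by
  classical
  set Δ := 2 * K + 2 with hΔ
  filter_upwards [eventually_ge_atTop ((K + 1) * (Δ + 1) ^ (ℓ + 1))] with n hn
  let P : SimpleGraph (Fin n) → Prop := fun G => (∀ v, G.degree v ≤ Δ) ∧
    ∀ m, 3 ≤ m → m ≤ ℓ → (cycleGraph m).Free G
  have hne : (univ.filter P).Nonempty := by
    refine ⟨⊥, ?_⟩
    rw [mem_filter]
    refine ⟨mem_univ _, ?_, ?_⟩
    · intro v; simp
    · intro m hm3 _
      apply free_bot
      intro h
      have h1 : (cycleGraph m).Adj ⟨0, by omega⟩ ⟨1, by omega⟩ := by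
        rw [cycleGraph_adj']
        right
        rw [Fin.sub_def]
        change (m - 0 + 1) % m = 1
        rw [Nat.sub_zero, Nat.add_mod_left, Nat.mod_eq_of_lt (by omega)]
      rw [h] at h1
      exact h1
  obtain ⟨G, hG, hmax⟩ := exists_max_image (univ.filter P) (fun G => #G.edgeFinset) hne
  rw [mem_filter] at hG
  obtain ⟨-, hdeg, hcyc⟩ := hG
  refine ⟨G, inferInstance, hcyc, ?_⟩
  -- the vertices of small degree
  have hsmall : #(univ.filter (fun v => G.degree v < Δ)) ≤ (Δ + 1) ^ (ℓ + 1) := by
    rcases (univ.filter (fun v => G.degree v < Δ)).eq_empty_or_nonempty with h | ⟨u, hu⟩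
    · rw [h]; simp
    · obtain ⟨S, hS, hS'⟩ := card_ball_le G Δ hdeg u (ℓ + 1)
      refine (card_le_card ?_).trans hS
      intro v hv
      by_contra hvS
      rw [mem_filter] at hu hv
      have hne : u ≠ v := by
        rintro rfl
        exact hvS (hS' u Walk.nil (by simp))
      have hnadj : ¬ G.Adj u v := by
        intro hadj
        exact hvS (hS' v (Walk.cons hadj Walk.nil) (by simp))
      have hfar : ∀ p : G.Walk u v, ℓ ≤ p.length := by
        intro p
        by_contra hcon
        exact hvS (hS' v p (by omega))
      obtain ⟨G', hG'⟩ : ∃ G' : SimpleGraph (Fin n), G' = G ⊔ edge u v := ⟨_, rfl⟩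
      have hadj' : ∀ a b, G'.Adj a b ↔ G.Adj a b ∨ ((a = u ∧ b = v ∨ a = v ∧ b = u) ∧ a ≠ b) := by
        intro a b
        rw [hG', sup_adj, edge_adj]
      have hP : P G' := by
        refine ⟨?_, ?_⟩
        · intro w
          by_cases hwu : w = u
          · have hsub : G'.neighborFinset w ⊆ insert v (G.neighborFinset w) := by
              intro x hx
              rw [mem_neighborFinset, hadj'] at hx
              rw [mem_insert, mem_neighborFinset]
              rcases hx with hx | ⟨⟨-, h⟩ | ⟨h1, h2⟩, h3⟩
              · exact Or.inr hx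
              · exact Or.inl h
              · exact absurd (hwu.symm.trans h1) hne
            have h1 := card_le_card hsub
            have h2 := card_insert_le v (G.neighborFinset w)
            rw [card_neighborFinset_eq_degree] at h1 h2
            have h3 : G.degree w < Δ := by rw [hwu]; exact hu.2
            omega
          · by_cases hwv : w = v
            · have hsub : G'.neighborFinset w ⊆ insert u (G.neighborFinset w) := by
                intro x hx
                rw [mem_neighborFinset, hadj'] at hx
                rw [mem_insert, mem_neighborFinset]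
                rcases hx with hx | ⟨⟨h, -⟩ | ⟨-, h⟩, -⟩
                · exact Or.inr hx
                · exact absurd h hwu
                · exact Or.inl h
              have h1 := card_le_card hsub
              have h2 := card_insert_le u (G.neighborFinset w)
              rw [card_neighborFinset_eq_degree] at h1 h2
              have h3 : G.degree w < Δ := by rw [hwv]; exact hv.2
              omega
            · have hsub : G'.neighborFinset w ⊆ G.neighborFinset w := by
                intro x hx
                rw [mem_neighborFinset, hadj'] at hx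
                rw [mem_neighborFinset]
                rcases hx with hx | ⟨⟨h, -⟩ | ⟨h, -⟩, -⟩
                · exact hx
                · exact absurd h hwu
                · exact absurd h hwv
              have h1 := card_le_card hsub
              rw [card_neighborFinset_eq_degree, card_neighborFinset_eq_degree] at h1
              exact h1.trans (hdeg w)
        · rw [hG']
          exact sup_edge_free G ℓ hcyc u v hfar
      have h1 := hmax G' (by rw [mem_filter]; exact ⟨mem_univ _, hP⟩)
      have h2 : #G.edgeFinset < #G'.edgeFinset := by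
        apply card_lt_card
        rw [edgeFinset_ssubset_edgeFinset]
        refine lt_of_le_of_ne ?_ ?_
        · intro a b hab
          rw [hadj']; exact Or.inl hab
        · intro heq
          apply hnadj
          rw [heq, hadj']
          exact Or.inr ⟨Or.inl ⟨rfl, rfl⟩, hne⟩
      omega
  have hsum := G.sum_degrees_eq_twice_card_edges
  have hlow : Δ * (n - (Δ + 1) ^ (ℓ + 1)) ≤ ∑ v, G.degree v := by
    have h1 : #(univ.filter (fun v => ¬ G.degree v < Δ)) * Δ ≤ ∑ v, G.degree v := by
      rw [← smul_eq_mul]
      refine (Finset.card_nsmul_le_sum _ (fun v => G.degree v) Δ ?_).trans ?_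
      · intro v hv
        rw [mem_filter] at hv
        omega
      · exact Finset.sum_le_sum_of_subset (filter_subset _ _)
    have h2 := card_filter_add_card_filter_not (s := (univ : Finset (Fin n)))
      (fun v => G.degree v < Δ)
    rw [Finset.card_univ, Fintype.card_fin] at h2
    refine le_trans ?_ h1
    rw [mul_comm]
    apply Nat.mul_le_mul_right
    omega
  rw [hsum] at hlow
  have h5 : (K + 1) * (n - (Δ + 1) ^ (ℓ + 1)) ≤ #G.edgeFinset := by
    have : Δ * (n - (Δ + 1) ^ (ℓ + 1)) = 2 * ((K + 1) * (n - (Δ + 1) ^ (ℓ + 1))) := by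
      rw [hΔ]; ring
    omega
  refine le_trans ?_ h5
  rw [Nat.mul_sub, add_mul, one_mul]
  omega

end Pool.Agent.Helper49.Copies
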