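import Pool.Agent.Helper49.CopiesCore
import Pool.Agent.Helper49.CopiesGirth

/-!
# Families of disconnected graphs `L` with `A(n; L) → ∞`
-/

open Finset Fintype Filter

namespace Pool.Agent.Helper49.Copies

open SimpleGraph

/-- The extremal number of a forest is at most linear. -/
theorem extremalNumber_forest_le {W : Type} [Fintype W] [Nonempty W] (J : SimpleGraph W)
    (hJ : J.IsAcyclic) (m : ℕ) : extremalNumber m J ≤ card W * m := by
  classical
  obtain ⟨T, hJT, -, hT⟩ := (connected_top : (⊤ : SimpleGraph W).Connected).exists_isTree_le_of_le_of_isAcyclic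
    le_top hJ
  have h1 : extremalNumber m J ≤ extremalNumber m T :=
    IsContained.extremalNumber_le (IsContained.of_le hJT)
  refine h1.trans ?_
  obtain ⟨k, hk⟩ : ∃ k, card W = k + 1 := ⟨card W - 1, by have := Fintype.card_pos (α := W); omega⟩
  have h0 : extremalNumber 0 T = 0 := by
    rw [← Nat.le_zero]
    conv_lhs => rw [← Fintype.card_fin 0]
    rw [extremalNumber_le_iff]
    intro G _ _
    have : G = ⊥ := Subsingleton.elim _ _
    subst this
    simp
  rcases Nat.eq_zero_or_pos k with rfl | hk1
  · -- single vertex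
    rcases Nat.eq_zero_or_pos m with rfl | hm
    · rw [h0]; exact Nat.zero_le _
    · have : extremalNumber m T = 0 := by
        rw [← Nat.le_zero]
        conv_lhs => rw [← Fintype.card_fin m]
        rw [extremalNumber_le_iff]
        intro G _ hfree
        exfalso
        apply hfree
        have : Nonempty (Fin m) := ⟨⟨0, hm⟩⟩
        exact tree_isContained_aux 0 T hT hk G (fun v => Nat.zero_le _)
      rw [this]; exact Nat.zero_le _
  · have h2 := extremalNumber_add_le T hT k hk hk1 0 m
    rw [zero_add, h0, zero_add] at h2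
    refine h2.trans ?_
    rw [hk, mul_comm]
    exact Nat.mul_le_mul_right _ (by omega)

/-- Bound for the number of edges of a graph with few copies. -/
theorem card_edges_le_of_core {W : Type} [Fintype W] {L : SimpleGraph W} {n : ℕ}
    {G : SimpleGraph (Fin n)} [DecidableRel G.Adj] (D : Finset (Fin n))
    (hD : ∀ (f : Copy L G) (w : W), f w ∈ D) (f₀ : Copy L G) (i : L.ConnectedComponent) :
    #G.edgeFinset ≤ #D * n + extremalNumber (n - #D) (L.induce i.supp) := by
  classical
  have h1 := card_edges_le G D
  have h2 : ∑ x ∈ D, G.degree x ≤ #D * n := by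
    rw [← smul_eq_mul]
    apply Finset.sum_le_card_nsmul
    intro x _
    have := G.degree_lt_card_verts x
    rw [Fintype.card_fin] at this
    exact this.le
  have hfree : (L.induce i.supp).Free (G.induce ((D : Set (Fin n))ᶜ)) := by
    rintro ⟨g⟩
    have hi : ∃ a, L.connectedComponentMk a = i := i.exists_rep
    refine piece_free L.connectedComponentMk (fun a b hab => ?_) D hD f₀ i hi
      ((Copy.induce G _).comp g) ?_
    · exact ConnectedComponent.connectedComponentMk_eq_of_adj hab
    · intro a
      have h := (g a).2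
      rw [Set.mem_compl_iff, Finset.mem_coe] at h
      exact h
  have h3 := card_edgeFinset_le_extremalNumber hfree
  have h4 : card ((D : Set (Fin n))ᶜ : Set (Fin n)) = n - #D := by
    rw [Fintype.card_compl_set]; simp
  rw [h4] at h3
  omega

theorem copy_of_extremal {W : Type} [Fintype W] {L : SimpleGraph W} {n : ℕ}
    {G : SimpleGraph (Fin n)} [DecidableRel G.Adj]
    (hG : #G.edgeFinset = extremalNumber n L + 1) : L ⊑ G := by
  apply IsContained.of_extremalNumber_lt_card_edgeFinset
  rw [Fintype.card_fin]; omega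

/-- An isolated vertex: `A(n; L) → ∞`. -/
theorem tendsto_isolated {W : Type} [Fintype W] (L : SimpleGraph W) (hL : L ≠ ⊥)
    (a : W) (ha : ∀ b, ¬ L.Adj a b) : Tendsto (fun n => minCopies n L) atTop atTop := by
  classical
  apply tendsto_minCopies_of L hL
  intro d
  filter_upwards [eventually_gt_atTop d] with n hn G _ hG D hDd hD
  obtain ⟨f₀⟩ := copy_of_extremal hG
  obtain ⟨x, hx⟩ : ∃ x, x ∉ D := by
    by_contra hcon
    push Not at hcon
    have := card_le_card (fun y _ => hcon y : (univ : Finset (Fin n)) ⊆ D)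
    rw [Finset.card_univ, Fintype.card_fin] at this
    omega
  refine piece_free (fun w => decide (w = a)) ?_ D hD f₀ true ⟨a, by simp⟩
    ⟨⟨fun _ => x, ?_⟩, ?_⟩ (fun _ => hx)
  · intro u v huv
    have h1 : u ≠ a := fun h => ha v (h ▸ huv)
    have h2 : v ≠ a := fun h => ha u (h ▸ huv.symm)
    simp [h1, h2]
  · intro u v huv
    have h1 : (u : W) = a := by simpa using u.2
    have h2 : L.Adj (u : W) (v : W) := huv
    rw [h1] at h2
    exact absurd h2 (ha _)
  · intro u v _
    have h1 : (u : W) = a := by simpa using u.2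
    have h2 : (v : W) = a := by simpa using v.2
    exact Subtype.ext (h1.trans h2.symm)

/-- A graph with a cycle has arbitrarily large extremal numbers per vertex. -/
theorem eventually_le_extremalNumber {W : Type} [Fintype W] (L : SimpleGraph W)
    (hL : ¬ L.IsAcyclic) (K : ℕ) : ∀ᶠ n : ℕ in atTop, K * n ≤ extremalNumber n L := by
  classical
  obtain ⟨m, hm3, hm⟩ : ∃ m, 3 ≤ m ∧ cycleGraph m ⊑ L := by
    by_contra hcon
    apply hL
    rw [isAcyclic_iff_free_cycleGraph]
    intro m hm h
    exact hcon ⟨m, hm, h⟩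
  filter_upwards [exists_girth (card W) K] with n hn
  obtain ⟨G, _, hG, hGK⟩ := hn
  refine hGK.trans ?_
  conv_rhs => rw [← Fintype.card_fin n]
  apply card_edgeFinset_le_extremalNumber
  intro hLG
  have hmW : m ≤ card W := by
    obtain ⟨f⟩ := hm
    have := Fintype.card_le_of_injective f f.injective
    rwa [Fintype.card_fin] at this
  exact hG m hm3 hmW (hm.trans hLG)

/-- A forest component and a cycle: `A(n; L) → ∞`. -/
theorem tendsto_acyclic_component {W : Type} [Fintype W] (L : SimpleGraph W)
    (hL : ¬ L.IsAcyclic) (i : L.ConnectedComponent) (hi : (L.induce i.supp).IsAcyclic) :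
    Tendsto (fun n => minCopies n L) atTop atTop := by
  classical
  have hLne : L ≠ ⊥ := by rintro rfl; exact hL isAcyclic_bot
  apply tendsto_minCopies_of L hLne
  intro d
  filter_upwards [eventually_le_extremalNumber L hL (d + card W + 1), eventually_gt_atTop 0]
    with n hn hn0 G _ hG D hDd hD
  obtain ⟨f₀⟩ := copy_of_extremal hG
  have h1 := card_edges_le_of_core D hD f₀ i
  have : Nonempty i.supp := by
    obtain ⟨a, ha⟩ := i.exists_rep
    exact ⟨⟨a, ha⟩⟩
  have h2 := extremalNumber_forest_le (L.induce i.supp) hi (n - #D)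
  have h3 : card i.supp ≤ card W := Fintype.card_subtype_le _
  have h4 : card i.supp * (n - #D) ≤ card W * n :=
    Nat.mul_le_mul h3 (Nat.sub_le _ _)
  have h5 : #D * n ≤ d * n := Nat.mul_le_mul_right _ hDd
  have h6 : (d + card W + 1) * n = d * n + card W * n + n := by ring
  omega

/-- The general criterion with hubs. -/
theorem tendsto_of_hubs {W ι : Type} [Fintype W] [Fintype ι] [DecidableEq ι]
    (L : SimpleGraph W) (hiso : ∀ a, ∃ b, L.Adj a b) (c : W → ι) (hcs : ∀ i, ∃ a, c a = i)
    (hc : ∀ a b, L.Adj a b → c a = c b) (hι : 2 ≤ card ι) (θ : ℕ → ℕ → ℕ)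
    (hθ : ∀ d, ∀ᶠ n : ℕ in atTop, d * θ d n + card ι ^ 2 ≤ n)
    (hHP : ∀ d, ∀ᶠ n : ℕ in atTop, ∀ (G : SimpleGraph (Fin n)) [DecidableRel G.Adj],
      #G.edgeFinset = extremalNumber n L + 1 → ∀ D : Finset (Fin n), #D ≤ d →
      (∀ (f : Copy L G) (w : W), f w ∈ D) → ∀ x, θ d n ≤ G.degree x → ∀ i,
      ∀ R : Finset (Fin n), #R ≤ d + card ι + card W → x ∉ R →
      ∃ g : Copy (L.induce {w | c w = i}) G, ∀ a, g a ∉ R) :
    Tendsto (fun n => minCopies n L) atTop atTop := by
  classical
  have hLne : L ≠ ⊥ := by
    rintro rfl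
    have : Nonempty ι := Fintype.card_pos_iff.mp (by omega)
    obtain ⟨a, -⟩ := hcs (Classical.arbitrary ι)
    obtain ⟨b, hb⟩ := hiso a
    exact hb
  have hpc : ∀ i, ∃ a b : W, a ≠ b ∧ c a = i ∧ c b = i := by
    intro i
    obtain ⟨a, ha⟩ := hcs i
    obtain ⟨b, hb⟩ := hiso a
    exact ⟨a, b, hb.ne, ha, by rw [← hc a b hb, ha]⟩
  apply tendsto_minCopies_of L hLne
  intro d
  filter_upwards [hHP d, hθ d, eventually_ge_atTop (card ι)] with n hn hnθ hnι G _ hG D hDd hD
  obtain ⟨f₀⟩ := copy_of_extremal hG
  set X := D.filter (fun x => θ d n ≤ G.degree x) with hX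
  refine false_of_hubs c hc hι hpc D hD f₀ X ?_ (d + card ι + card W) (by omega) ?_
  · by_contra hcon
    push Not at hcon
    have h1 := sum_degree_core hiso c hcs hc (by omega : extremalNumber n L < #G.edgeFinset) D hD
      f₀ (card ι - 1) (by omega)
    have h2 : ∑ x ∈ D, G.degree x ≤ #X * n + d * θ d n := by
      rw [← Finset.sum_filter_add_sum_filter_not D (fun x => θ d n ≤ G.degree x)]
      refine Nat.add_le_add ?_ ?_
      · rw [← smul_eq_mul]
        apply Finset.sum_le_card_nsmul
        intro x _
        have := G.degree_lt_card_verts x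
        rw [Fintype.card_fin] at this
        exact this.le
      · refine le_trans (Finset.sum_le_card_nsmul _ _ (θ d n) ?_) ?_
        · intro x hx
          rw [mem_filter] at hx
          omega
        · rw [smul_eq_mul]
          exact Nat.mul_le_mul_right _ ((card_filter_le _ _).trans hDd)
    have h3 : #X * n ≤ (card ι - 2) * n := Nat.mul_le_mul_right _ (by omega)
    obtain ⟨k, hk⟩ : ∃ k, card ι = k + 2 := ⟨card ι - 2, by omega⟩
    rw [hk] at h1 h3 hnθ hnι
    have h4 : k + 2 - 1 = k + 1 := by omega
    have h5 : k + 2 - 2 = k := by omega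
    rw [h4] at h1
    rw [h5] at h3
    obtain ⟨l, rfl⟩ : ∃ l, n = l + (k + 1) := ⟨n - (k + 1), by omega⟩
    rw [Nat.add_sub_cancel] at h1
    have h6 : (k + 1) * l < k * (l + (k + 1)) + d * θ d (l + (k + 1)) := by omega
    nlinarith
  · intro x hx i R hR hxR
    rw [hX, mem_filter] at hx
    exact hn G hG D hDd hD x hx.2 i R hR hxR

/-- A star can be embedded at any vertex of large degree, avoiding a given set. -/
theorem star_copy {V W : Type} [Fintype V] [Fintype W] [DecidableEq V] [DecidableEq W]
    {L : SimpleGraph W} (G : SimpleGraph V) [DecidableRel G.Adj] (P : Set W)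
    [DecidablePred (· ∈ P)] (u : W)
    (hu : ∀ a b, a ∈ P → b ∈ P → L.Adj a b → a = u ∨ b = u) (x : V) (R : Finset V)
    (hdeg : #(univ.filter (fun a => a ∈ P ∧ a ≠ u)) + #R ≤ G.degree x) :
    ∃ g : Copy (L.induce P) G, (∀ a : P, (a : W) = u → g a = x) ∧
      ∀ a : P, (a : W) ≠ u → G.Adj x (g a) ∧ g a ∉ R := by
  classical
  have hcard : Fintype.card (univ.filter (fun a => a ∈ P ∧ a ≠ u) : Finset W) ≤
      Fintype.card (G.neighborFinset x \ R : Finset V) := by
    have h1 := le_card_sdiff R (G.neighborFinset x)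
    rw [card_neighborFinset_eq_degree] at h1
    rw [Fintype.card_coe, Fintype.card_coe]
    omega
  obtain ⟨φ⟩ := Function.Embedding.nonempty_of_card_le hcard
  have hmem : ∀ a : P, (a : W) ≠ u → (a : W) ∈ univ.filter (fun a => a ∈ P ∧ a ≠ u) := by
    intro a ha
    rw [mem_filter]
    exact ⟨mem_univ _, a.2, ha⟩
  have hφ : ∀ a, G.Adj x (φ a) ∧ (φ a : V) ∉ R := by
    intro a
    have := (φ a).2
    rw [Finset.mem_sdiff, mem_neighborFinset] at this
    exact this
  let g : P → V := fun a => if h : (a : W) = u then x else φ ⟨a, hmem a h⟩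
  have hgu : ∀ a : P, (a : W) = u → g a = x := by
    intro a h; simp [g, h]
  have hgn : ∀ a : P, ∀ h : (a : W) ≠ u, g a = φ ⟨a, hmem a h⟩ := by
    intro a h; simp [g, h]
  refine ⟨⟨⟨g, ?_⟩, ?_⟩, hgu, ?_⟩
  · intro a b hab
    rcases hu a b a.2 b.2 hab with h | h
    · have hb : (b : W) ≠ u := by
        rintro rfl
        exact hab.ne (Subtype.ext h)
      rw [hgu a h, hgn b hb]
      exact (hφ _).1
    · have ha : (a : W) ≠ u := by
        rintro rfl
        exact hab.ne (Subtype.ext h.symm)
      rw [hgu b h, hgn a ha]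
      exact (hφ _).1.symm
  · intro a b hab
    change g a = g b at hab
    by_cases h1 : (a : W) = u
    · by_cases h2 : (b : W) = u
      · exact Subtype.ext (h1.trans h2.symm)
      · rw [hgu a h1, hgn b h2] at hab
        exact absurd hab (hφ _).1.ne
    · by_cases h2 : (b : W) = u
      · rw [hgu b h2, hgn a h1] at hab
        exact absurd hab (hφ _).1.ne'
      · rw [hgn a h1, hgn b h2] at hab
        have := φ.injective (Subtype.ext hab)
        rw [Subtype.mk.injEq] at this
        exact Subtype.ext this
  · intro a ha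
    change G.Adj x (g a) ∧ g a ∉ R
    rw [hgn a ha]
    exact hφ _

/-- Star forests: `A(n; L) → ∞`. -/
theorem tendsto_stars {W : Type} [Fintype W] (L : SimpleGraph W) (hLne : L ≠ ⊥)
    (hL : ¬ L.Connected)
    (hstar : ∀ i : L.ConnectedComponent, ∃ u, L.connectedComponentMk u = i ∧
      ∀ a b, L.connectedComponentMk a = i → L.Adj a b → a = u ∨ b = u) :
    Tendsto (fun n => minCopies n L) atTop atTop := by
  classical
  by_cases hiso : ∀ a, ∃ b, L.Adj a b
  · have hι : 2 ≤ card L.ConnectedComponent := by
      by_contra hcon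
      apply hL
      have hW : Nonempty W := by
        by_contra h
        rw [not_nonempty_iff] at h
        apply hLne
        exact Subsingleton.elim _ _
      have hsub : Subsingleton L.ConnectedComponent := by
        rw [← Fintype.card_le_one_iff_subsingleton]; omega
      refine ⟨fun a b => ?_⟩
      exact ConnectedComponent.exact (Subsingleton.elim _ _)
    refine tendsto_of_hubs L hiso L.connectedComponentMk (fun i => i.exists_rep)
      (fun a b hab => ConnectedComponent.connectedComponentMk_eq_of_adj hab) hι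
      (fun d _ => d + card L.ConnectedComponent + card W + card W) ?_ ?_
    · intro d
      exact eventually_ge_atTop _
    · intro d
      filter_upwards with n G _ hG D hDd hD x hx i R hR hxR
      obtain ⟨u, hu, hu'⟩ := hstar i
      obtain ⟨g, hg1, hg2⟩ := star_copy G {w | L.connectedComponentMk w = i} u
        (fun a b ha _ hab => hu' a b ha hab) x R (by
          have := card_le_univ (univ.filter
            (fun a : W => a ∈ {w | L.connectedComponentMk w = i} ∧ a ≠ u))
          omega)
      refine ⟨g, ?_⟩
      intro a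
      by_cases h : (a : W) = u
      · rw [hg1 a h]; exact hxR
      · exact (hg2 a h).2
  · push Not at hiso
    obtain ⟨a, ha⟩ := hiso
    exact tendsto_isolated L hLne a ha

end Pool.Agent.Helper49.Copies
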