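import Pool.Agent.Helper49.CopiesTree

/-!
# Few copies of `L`: all of them lie in a bounded set
-/

open Finset Fintype Filter

namespace Pool.Agent.Helper49.Copies

open SimpleGraph

/-- All copies of `L` in `G` lie in a set of size at most `copyCount * |V(L)|`. -/
theorem exists_core {V W : Type} [Fintype V] [Fintype W] (G : SimpleGraph V)
    (L : SimpleGraph W) :
    ∃ D : Finset V, #D ≤ G.copyCount L * card W ∧ ∀ (f : Copy L G) (w : W), f w ∈ D := by
  classical
  refine ⟨(univ.filter (fun G' : G.Subgraph => Nonempty (L ≃g G'.coe))).biUnion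
    (fun G' => G'.verts.toFinset), ?_, ?_⟩
  · rw [copyCount]
    refine card_biUnion_le_card_mul _ _ _ ?_
    intro G' hG'
    rw [mem_filter] at hG'
    obtain ⟨-, ⟨e⟩⟩ := hG'
    rw [Set.toFinset_card, ← Fintype.card_congr e.toEquiv]
  · intro f w
    rw [mem_biUnion]
    refine ⟨f.toSubgraph, ?_, ?_⟩
    · rw [mem_filter]
      exact ⟨mem_univ _, ⟨f.isoToSubgraph⟩⟩
    · rw [Set.mem_toFinset]
      simp

/-- If `n ≥ |V(L)|` and `L` has an edge then there are graphs with `ex(n; L) + 1` edges. -/
theorem exists_graph_card_eq {W : Type} [Fintype W] (L : SimpleGraph W) (hL : L ≠ ⊥) (n : ℕ)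
    (hn : card W ≤ n) : ∃ G : SimpleGraph (Fin n), ∃ _ : DecidableRel G.Adj,
    #G.edgeFinset = extremalNumber n L + 1 := by
  classical
  apply exists_graph_card_edges
  obtain ⟨G, _, hG⟩ := exists_isExtremal_free (V := Fin n) hL
  have hcard := card_edgeFinset_of_isExtremal_free hG
  rw [Fintype.card_fin] at hcard
  rw [← hcard]
  have h1 : #(⊤ : SimpleGraph (Fin n)).edgeFinset = n.choose 2 := by
    rw [card_edgeFinset_top_eq_card_choose_two, Fintype.card_fin]
  rw [← h1]
  apply Finset.card_lt_card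
  rw [edgeFinset_ssubset_edgeFinset]
  refine lt_of_le_of_ne le_top ?_
  rintro rfl
  apply hG.prop
  obtain ⟨e⟩ : Nonempty (W ↪ Fin n) := by
    rw [Function.Embedding.nonempty_iff_card_le]; simpa using hn
  exact ⟨⟨⟨e, fun {a b} hab => by
    rw [top_adj]; exact fun h => hab.ne (e.injective h)⟩, e.injective⟩⟩

theorem tendsto_minCopies_of {W : Type} [Fintype W] (L : SimpleGraph W) (hL : L ≠ ⊥)
    (h : ∀ d : ℕ, ∀ᶠ n : ℕ in atTop, ∀ (G : SimpleGraph (Fin n)) [DecidableRel G.Adj],
      #G.edgeFinset = extremalNumber n L + 1 → ∀ D : Finset (Fin n), #D ≤ d →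
      (∀ (f : Copy L G) (w : W), f w ∈ D) → False) :
    Tendsto (fun n => minCopies n L) atTop atTop := by
  classical
  rw [tendsto_atTop]
  intro C
  filter_upwards [h (C * card W), eventually_ge_atTop (card W)] with n hn hn'
  unfold minCopies
  have hne : {c | ∃ G : SimpleGraph (Fin n),
      #G.edgeFinset = extremalNumber n L + 1 ∧ G.copyCount L = c}.Nonempty := by
    obtain ⟨G, _, hG⟩ := exists_graph_card_eq L hL n hn'
    exact ⟨_, G, card_edgeFinset_inst _ _ _ _ hG, rfl⟩
  apply le_csInf hne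
  rintro c ⟨G, hG, rfl⟩
  by_contra hcon
  push Not at hcon
  obtain ⟨D, hD, hD'⟩ := exists_core G L
  exact hn G hG D (hD.trans (Nat.mul_le_mul_right _ hcon.le)) hD'

/-- Gluing copies of the pieces of `L` (unions of components) to a copy of `L`. -/
theorem glue {V W ι : Type} {L : SimpleGraph W} {G : SimpleGraph V} (c : W → ι)
    (hc : ∀ a b, L.Adj a b → c a = c b)
    (g : ∀ i, Copy (L.induce {w | c w = i}) G)
    (hg : ∀ i j, i ≠ j → ∀ a b, g i a ≠ g j b) :
    ∃ f : Copy L G, ∀ w, f w = g (c w) ⟨w, rfl⟩ := by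
  refine ⟨⟨⟨fun w => g (c w) ⟨w, rfl⟩, ?_⟩, ?_⟩, fun w => rfl⟩
  · intro a b hab
    have hcab := hc a b hab
    have key : ∀ (i : ι) (ha : c a = i) (hb : c b = i), G.Adj (g i ⟨a, ha⟩) (g i ⟨b, hb⟩) := by
      intro i ha hb
      exact (g i).toHom.map_rel' (a := ⟨a, ha⟩) (b := ⟨b, hb⟩) hab
    have h := key (c a) rfl hcab.symm
    have h2 : g (c a) ⟨b, hcab.symm⟩ = g (c b) ⟨b, rfl⟩ := by
      have : ∀ (i : ι) (hi : c b = i), g i ⟨b, hi⟩ = g (c b) ⟨b, rfl⟩ := by
        intro i hi; subst hi; rfl
      exact this _ _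
    rw [h2] at h
    exact h
  · intro a b hab
    change g (c a) ⟨a, rfl⟩ = g (c b) ⟨b, rfl⟩ at hab
    by_cases hcab : c a = c b
    · have : ∀ (i : ι) (hi : c b = i), g i ⟨b, hi⟩ = g (c b) ⟨b, rfl⟩ := by
        intro i hi; subst hi; rfl
      rw [← this (c a) hcab.symm] at hab
      have := (g (c a)).injective hab
      simpa using this
    · exact absurd hab (hg _ _ hcab _ _)

/-- The piece of a copy of `L`. -/
def piece {V W ι : Type} {L : SimpleGraph W} {G : SimpleGraph V} (c : W → ι) (f : Copy L G)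
    (i : ι) : Copy (L.induce {w | c w = i}) G :=
  f.comp (Copy.induce L {w | c w = i})

theorem piece_apply {V W ι : Type} {L : SimpleGraph W} {G : SimpleGraph V} (c : W → ι)
    (f : Copy L G) (i : ι) (a : {w | c w = i}) : piece c f i a = f a := rfl

/-- Number of edges: edges meeting `D` plus the other ones. -/
theorem card_edges_le {V : Type} [Fintype V] [DecidableEq V] (G : SimpleGraph V)
    [DecidableRel G.Adj] (D : Finset V) :
    #G.edgeFinset ≤ ∑ x ∈ D, G.degree x + #(G.induce ((D : Set V)ᶜ)).edgeFinset := by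
  classical
  have hsub : G.edgeFinset ⊆ (D.biUnion (fun x => G.incidenceFinset x)) ∪
      (G.induce ((D : Set V)ᶜ)).edgeFinset.image (Sym2.map (fun a : ((D : Set V)ᶜ : Set V) => (a : V))) := by
    intro e
    induction e using Sym2.inductionOn with | hf a b =>
    intro he
    rw [mem_edgeFinset, mem_edgeSet] at he
    rw [mem_union]
    by_cases ha : a ∈ D
    · left
      rw [mem_biUnion]
      exact ⟨a, ha, by rw [mem_incidenceFinset, mk'_mem_incidenceSet_iff]; exact ⟨he, Or.inl rfl⟩⟩
    · by_cases hb : b ∈ D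
      · left
        rw [mem_biUnion]
        exact ⟨b, hb, by rw [mem_incidenceFinset, mk'_mem_incidenceSet_iff]; exact ⟨he, Or.inr rfl⟩⟩
      · right
        rw [mem_image]
        refine ⟨s(⟨a, by simpa using ha⟩, ⟨b, by simpa using hb⟩), ?_, by simp⟩
        rw [mem_edgeFinset, mem_edgeSet]
        exact he
  refine (card_le_card hsub).trans ((card_union_le _ _).trans ?_)
  refine Nat.add_le_add (card_biUnion_le.trans ?_) card_image_le
  apply le_of_eq
  apply Finset.sum_congr rfl
  intro x _
  rw [card_incidenceFinset_eq_degree]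

/-- Choosing disjoint copies of pieces through hubs. -/
theorem exists_disjoint_pieces {V W ι : Type} [Fintype W] [DecidableEq V]
    [DecidableEq ι] {L : SimpleGraph W} {G : SimpleGraph V} (c : W → ι) (h : ι → V) (ρ : ℕ)
    (s : Finset ι) :
    (∀ i ∈ s, ∀ j ∈ s, h i = h j → i = j) →
    (∀ i ∈ s, ∀ R : Finset V, #R ≤ ρ → h i ∉ R →
      ∃ g : Copy (L.induce {w | c w = i}) G, ∀ a, g a ∉ R) →
    ∀ R₀ : Finset V, #R₀ + #s + card W ≤ ρ → (∀ i ∈ s, h i ∉ R₀) →
    ∃ g : ∀ i, i ∈ s → Copy (L.induce {w | c w = i}) G,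
      (∀ i hi a, g i hi a ∉ R₀) ∧ ∀ i hi j hj, i ≠ j → ∀ a b, g i hi a ≠ g j hj b := by
  classical
  induction s using Finset.induction_on with
  | empty =>
    intro _ _ R₀ _ _
    exact ⟨fun i hi => absurd hi (by simp), fun i hi => absurd hi (by simp),
      fun i hi => absurd hi (by simp)⟩
  | insert i₀ s hi₀ ih =>
    intro hinj hHP R₀ hR₀ hh
    rw [card_insert_of_notMem hi₀] at hR₀
    obtain ⟨g, hg1, hg2⟩ := ih
      (fun i hi j hj hij => hinj i (mem_insert_of_mem hi) j (mem_insert_of_mem hj) hij)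
      (fun i hi => hHP i (mem_insert_of_mem hi)) (insert (h i₀) R₀)
      (by have := card_insert_le (h i₀) R₀; omega)
      (by
        intro i hi
        rw [mem_insert, not_or]
        refine ⟨fun hcon => ?_, hh i (mem_insert_of_mem hi)⟩
        exact hi₀ (hinj i (mem_insert_of_mem hi) i₀ (mem_insert_self _ _) hcon ▸ hi))
    -- the used vertices
    let U : Finset V := (univ : Finset W).biUnion
      (fun w => if hw : c w ∈ s then {g (c w) hw ⟨w, rfl⟩} else ∅)
    have hU : #U ≤ card W := by
      refine (card_biUnion_le_card_mul _ _ 1 ?_).trans (by simp)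
      intro w _
      split_ifs <;> simp
    have hUmem : ∀ i hi a, g i hi a ∈ U := by
      intro i hi a
      obtain ⟨w, rfl⟩ := a
      rw [mem_biUnion]
      refine ⟨w, mem_univ _, ?_⟩
      rw [dif_pos hi]
      simp
    have hUh : h i₀ ∉ U := by
      intro hmem
      rw [mem_biUnion] at hmem
      obtain ⟨w, -, hw⟩ := hmem
      split_ifs at hw with hcw
      · rw [mem_singleton] at hw
        have := hg1 (c w) hcw ⟨w, rfl⟩
        rw [← hw] at this
        exact this (mem_insert_self _ _)
      · simp at hw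
    obtain ⟨g₀, hg₀⟩ := hHP i₀ (mem_insert_self _ _) (R₀ ∪ U)
      (by have := card_union_le R₀ U; omega)
      (by
        rw [mem_union, not_or]
        exact ⟨hh i₀ (mem_insert_self _ _), hUh⟩)
    have hg₀' : ∀ a, g₀ a ∉ R₀ ∧ g₀ a ∉ U := by
      intro a
      have := hg₀ a
      rw [mem_union, not_or] at this
      exact this
    let g' : ∀ i, i ∈ insert i₀ s → Copy (L.induce {w | c w = i}) G := fun i hi =>
      if hi' : i = i₀ then hi' ▸ g₀ else g i (mem_of_mem_insert_of_ne hi hi')
    have hg'0 : ∀ h', g' i₀ h' = g₀ := by intro h'; simp [g']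
    have hg'1 : ∀ i hi (hi' : i ≠ i₀), g' i hi = g i (mem_of_mem_insert_of_ne hi hi') := by
      intro i hi hi'; simp [g', hi']
    refine ⟨g', ?_, ?_⟩
    · intro i hi a
      by_cases hi' : i = i₀
      · subst hi'
        rw [hg'0 hi]
        exact (hg₀' a).1
      · rw [hg'1 i hi hi']
        have := hg1 i (mem_of_mem_insert_of_ne hi hi') a
        rw [mem_insert, not_or] at this
        exact this.2
    · intro i hi j hj hij a b
      by_cases hi' : i = i₀
      · subst hi'
        have hj' : j ≠ i := fun h => hij h.symm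
        rw [hg'0 hi, hg'1 j hj hj']
        intro hcon
        exact (hg₀' a).2 (hcon ▸ hUmem _ _ _)
      · by_cases hj' : j = i₀
        · subst hj'
          rw [hg'0 hj, hg'1 i hi hi']
          intro hcon
          exact (hg₀' b).2 (hcon ▸ hUmem _ _ _)
        · rw [hg'1 i hi hi', hg'1 j hj hj']
          exact hg2 i _ j _ hij a b

/-- Contradiction from `k - 1` hubs. -/
theorem false_of_hubs {V W ι : Type} [Fintype V] [Fintype W] [DecidableEq V] [Fintype ι]
    [DecidableEq ι] {L : SimpleGraph W} {G : SimpleGraph V} (c : W → ι)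
    (hc : ∀ a b, L.Adj a b → c a = c b) (hι : 2 ≤ card ι)
    (hpc : ∀ i, ∃ a b : W, a ≠ b ∧ c a = i ∧ c b = i) (D : Finset V)
    (hD : ∀ (f : Copy L G) (w : W), f w ∈ D) (f₀ : Copy L G) (X : Finset V)
    (hX : card ι ≤ #X + 1) (ρ : ℕ) (hρ : #D + card ι + card W ≤ ρ)
    (hHP : ∀ x ∈ X, ∀ i, ∀ R : Finset V, #R ≤ ρ → x ∉ R →
      ∃ g : Copy (L.induce {w | c w = i}) G, ∀ a, g a ∉ R) : False := by
  classical
  obtain ⟨X', hX'X, hX'⟩ : ∃ X' ⊆ X, #X' = card ι - 1 := exists_subset_card_eq (by omega)
  -- a piece avoiding X'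
  obtain ⟨i₀, hi₀⟩ : ∃ i₀, ∀ w, c w = i₀ → f₀ w ∉ X' := by
    by_contra hcon
    push Not at hcon
    have h1 : card ι ≤ #((univ.filter (fun w => f₀ w ∈ X')).image c) := by
      rw [← Finset.card_univ]
      apply card_le_card
      intro i _
      obtain ⟨w, hw, hw'⟩ := hcon i
      rw [mem_image]
      exact ⟨w, by simpa using hw', hw⟩
    have h2 : #(univ.filter (fun w => f₀ w ∈ X')) ≤ #X' := by
      apply card_le_card_of_injOn (fun w => f₀ w)
      · intro w hw; simpa using hw
      · intro a _ b _ hab; exact f₀.injective hab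
    have := card_image_le (s := univ.filter (fun w => f₀ w ∈ X')) (f := c)
    omega
  -- hubs
  obtain ⟨hub, hhubX, hhubinj⟩ : ∃ hub : ι → V, (∀ i, i ≠ i₀ → hub i ∈ X') ∧
      ∀ i, i ≠ i₀ → ∀ j, j ≠ i₀ → hub i = hub j → i = j := by
    have hcard : Fintype.card {i // i ≠ i₀} ≤ Fintype.card X' := by
      rw [Fintype.card_coe, hX', Fintype.card_subtype_compl, Fintype.card_subtype_eq]
    obtain ⟨e⟩ := Function.Embedding.nonempty_of_card_le hcard
    have hne : Nonempty V := ⟨f₀ (hpc i₀).choose⟩
    refine ⟨fun i => if hi : i ≠ i₀ then (e ⟨i, hi⟩ : V) else Classical.arbitrary V, ?_, ?_⟩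
    · intro i hi
      simp only [hi, ne_eq, not_false_eq_true, dif_pos]
      exact (e ⟨i, hi⟩).2
    · intro i hi j hj hij
      simp only [hi, hj, ne_eq, not_false_eq_true, dif_pos] at hij
      have := e.injective (Subtype.ext hij)
      simpa using this
  obtain ⟨g, hg1, hg2⟩ := exists_disjoint_pieces (L := L) (G := G) c hub ρ (univ.erase i₀)
    (by
      intro i hi j hj hij
      exact hhubinj i (by simpa using hi) j (by simpa using hj) hij)
    (by
      intro i hi R hR hiR
      exact hHP _ (hX'X (hhubX i (by simpa using hi))) i R hR hiR)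
    (D \ X')
    (by
      have h1 := card_le_card (sdiff_subset : D \ X' ⊆ D)
      have h2 := card_le_card (subset_univ (univ.erase i₀))
      rw [Finset.card_univ] at h2
      omega)
    (by
      intro i hi
      have := hhubX i (by simpa using hi)
      simp [this])
  let g' : ∀ i, Copy (L.induce {w | c w = i}) G := fun i =>
    if hi : i = i₀ then piece c f₀ i else g i (by simpa using hi)
  have hg'0 : g' i₀ = piece c f₀ i₀ := by simp [g']
  have hg'1 : ∀ i (hi : i ≠ i₀), g' i = g i (by simpa using hi) := by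
    intro i hi; simp [g', hi]
  have hpiece : ∀ a, piece c f₀ i₀ a ∈ D \ X' := by
    intro a
    rw [piece_apply, Finset.mem_sdiff]
    exact ⟨hD f₀ a, hi₀ a a.2⟩
  obtain ⟨f, hf⟩ := glue c hc g' (by
    intro i j hij a b
    by_cases hi : i = i₀
    · subst hi
      have hj : j ≠ i := fun h => hij h.symm
      rw [hg'0, hg'1 j hj]
      intro hcon
      exact hg1 j (by simpa using hj) b (hcon ▸ hpiece a)
    · by_cases hj : j = i₀
      · subst hj
        rw [hg'0, hg'1 i hi]
        intro hcon
        exact hg1 i (by simpa using hi) a (hcon ▸ hpiece b)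
      · rw [hg'1 i hi, hg'1 j hj]
        exact hg2 i _ j _ hij a b)
  -- all vertices of the other pieces lie in X'
  have hinX : ∀ w, c w ≠ i₀ → f w ∈ X' := by
    intro w hw
    by_contra hcon
    have h1 := hD f w
    have h2 := hg1 (c w) (by simpa using hw) ⟨w, rfl⟩
    apply h2
    rw [Finset.mem_sdiff]
    rw [hf w, hg'1 (c w) hw] at h1 hcon
    exact ⟨h1, hcon⟩
  have h1 : #(univ.filter (fun w => c w ≠ i₀)) ≤ #X' := by
    apply card_le_card_of_injOn (fun w => f w)
    · intro w hw
      exact hinX w (by simpa using hw)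
    · intro a _ b _ hab; exact f.injective hab
  have h2 : 2 * (card ι - 1) ≤ #(univ.filter (fun w => c w ≠ i₀)) := by
    have h3 : #(univ.erase i₀) * 2 ≤ #(univ.filter (fun w => c w ≠ i₀)) := by
      rw [card_eq_sum_card_fiberwise (f := c) (t := univ.erase i₀)
        (by intro w hw; simpa using hw)]
      rw [← smul_eq_mul]
      apply Finset.card_nsmul_le_sum
      intro i hi
      obtain ⟨a, b, hab, ha, hb⟩ := hpc i
      have hi' : i ≠ i₀ := by simpa using hi
      have : ({a, b} : Finset W) ⊆
          (univ.filter (fun w => c w ≠ i₀)).filter (fun w => c w = i) := by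
        intro w hw
        simp only [mem_insert, mem_singleton] at hw
        rcases hw with rfl | rfl
        · simp [ha, hi']
        · simp [hb, hi']
      have h4 := card_le_card this
      rw [card_pair hab] at h4
      exact h4
    rw [card_erase_of_mem (mem_univ _), Finset.card_univ] at h3
    omega
  omega

/-- Outside the core there is no copy of any piece of `L`. -/
theorem piece_free {V W ι : Type} [Fintype W] [DecidableEq V]
    [DecidableEq ι] {L : SimpleGraph W} {G : SimpleGraph V} (c : W → ι)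
    (hc : ∀ a b, L.Adj a b → c a = c b) (D : Finset V)
    (hD : ∀ (f : Copy L G) (w : W), f w ∈ D) (f₀ : Copy L G) (i : ι) (hi : ∃ a, c a = i)
    (g : Copy (L.induce {w | c w = i}) G) (hg : ∀ a, g a ∉ D) : False := by
  classical
  let g' : ∀ j, Copy (L.induce {w | c w = j}) G := fun j =>
    if hj : j = i then hj ▸ g else piece c f₀ j
  have hg'0 : g' i = g := by simp [g']
  have hg'1 : ∀ j (hj : j ≠ i), g' j = piece c f₀ j := by
    intro j hj; simp [g', hj]
  obtain ⟨f, hf⟩ := glue c hc g' (by
    intro j l hjl a b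
    by_cases hj : j = i
    · subst hj
      have hl : l ≠ j := fun h => hjl h.symm
      rw [hg'0, hg'1 l hl]
      intro hcon
      exact hg a (hcon ▸ hD f₀ b)
    · by_cases hl : l = i
      · subst hl
        rw [hg'0, hg'1 j hj]
        intro hcon
        exact hg b (hcon ▸ hD f₀ a)
      · rw [hg'1 j hj, hg'1 l hl, piece_apply, piece_apply]
        intro hcon
        have : (a : W) = b := f₀.injective hcon
        apply hjl
        rw [← a.2, ← b.2, this])
  obtain ⟨a, rfl⟩ := hi
  have h1 := hD f a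
  rw [hf a, hg'0] at h1
  exact hg _ h1

/-- The comparison graph: `X` joined completely to its complement, `G` outside `D`. -/
def hubGraph {V : Type} (G : SimpleGraph V) (X D : Finset V) : SimpleGraph V where
  Adj u v := (u ∈ X ∧ v ∉ X) ∨ (u ∉ X ∧ v ∈ X) ∨ (u ∉ D ∧ v ∉ D ∧ G.Adj u v)
  symm := ⟨by
    intro u v h
    rcases h with h | h | h
    · exact Or.inr (Or.inl ⟨h.2, h.1⟩)
    · exact Or.inl ⟨h.2, h.1⟩
    · exact Or.inr (Or.inr ⟨h.2.1, h.1, h.2.2.symm⟩)⟩
  loopless := ⟨by
    intro u h
    rcases h with h | h | h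
    · exact h.2 h.1
    · exact h.1 h.2
    · exact h.2.2.ne rfl⟩

theorem hubGraph_card {V : Type} [Fintype V] [DecidableEq V] (G : SimpleGraph V)
    [DecidableRel G.Adj] (X D : Finset V) (hXD : X ⊆ D) [DecidableRel (hubGraph G X D).Adj] :
    #X * (card V - #X) + #(G.induce ((D : Set V)ᶜ)).edgeFinset ≤
      #(hubGraph G X D).edgeFinset := by
  classical
  have h1 : #((X ×ˢ Xᶜ).image (fun p => s(p.1, p.2))) = #X * (card V - #X) := by
    rw [card_image_of_injOn, card_product, card_compl]
    intro p hp q hq hpq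
    simp only [coe_product, Set.mem_prod, mem_coe, coe_compl, Set.mem_compl_iff] at hp hq
    simp only [Sym2.eq_iff] at hpq
    rcases hpq with ⟨h1, h2⟩ | ⟨h1, h2⟩
    · exact Prod.ext h1 h2
    · exact absurd (h1 ▸ hp.1) hq.2
  have h2 : #((G.induce ((D : Set V)ᶜ)).edgeFinset.image
      (Sym2.map (fun a : ((D : Set V)ᶜ : Set V) => (a : V)))) =
      #(G.induce ((D : Set V)ᶜ)).edgeFinset := by
    apply card_image_of_injective
    exact Sym2.map.injective Subtype.val_injective
  rw [← h1, ← h2, ← card_union_of_disjoint]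
  · apply card_le_card
    intro e he
    rw [mem_union] at he
    rcases he with he | he
    · rw [mem_image] at he
      obtain ⟨p, hp, rfl⟩ := he
      rw [mem_product, mem_compl] at hp
      rw [mem_edgeFinset, mem_edgeSet]
      exact Or.inl hp
    · rw [mem_image] at he
      obtain ⟨e, he, rfl⟩ := he
      induction e using Sym2.inductionOn with | hf a b =>
      rw [mem_edgeFinset, mem_edgeSet] at he
      rw [Sym2.map_mk, mem_edgeFinset, mem_edgeSet]
      have ha := a.2
      have hb := b.2
      simp only [Set.mem_compl_iff, mem_coe] at ha hb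
      exact Or.inr (Or.inr ⟨ha, hb, he⟩)
  · rw [Finset.disjoint_left]
    intro e he he'
    rw [mem_image] at he he'
    obtain ⟨p, hp, rfl⟩ := he
    obtain ⟨e, he, heq⟩ := he'
    induction e using Sym2.inductionOn with | hf a b =>
    rw [mem_product, mem_compl] at hp
    simp only [Sym2.map_mk, Sym2.eq_iff] at heq
    have ha := a.2
    have hb := b.2
    simp only [Set.mem_compl_iff, mem_coe] at ha hb
    rcases heq with ⟨h1, h2⟩ | ⟨h1, h2⟩
    · exact ha (h1 ▸ hXD hp.1)
    · exact hb (h2 ▸ hXD hp.1)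

theorem hubGraph_free {V W ι : Type} [Fintype V] [Fintype W] [DecidableEq V] [Fintype ι]
    [DecidableEq ι] {L : SimpleGraph W} (hiso : ∀ a, ∃ b, L.Adj a b) {G : SimpleGraph V}
    (c : W → ι) (hcs : ∀ i, ∃ a, c a = i)
    (hc : ∀ a b, L.Adj a b → c a = c b) (D : Finset V)
    (hD : ∀ (f : Copy L G) (w : W), f w ∈ D) (f₀ : Copy L G) (X : Finset V)
    (hX : #X < card ι) : L.Free (hubGraph G X D) := by
  classical
  rintro ⟨f⟩
  obtain ⟨i₀, hi₀⟩ : ∃ i₀, ∀ w, c w = i₀ → f w ∉ X := by
    by_contra hcon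
    push Not at hcon
    have h1 : card ι ≤ #((univ.filter (fun w => f w ∈ X)).image c) := by
      rw [← Finset.card_univ]
      apply card_le_card
      intro i _
      obtain ⟨w, hw, hw'⟩ := hcon i
      rw [mem_image]
      exact ⟨w, by simpa using hw', hw⟩
    have h2 : #(univ.filter (fun w => f w ∈ X)) ≤ #X := by
      apply card_le_card_of_injOn (fun w => f w)
      · intro w hw; simpa using hw
      · intro a _ b _ hab; exact f.injective hab
    have := card_image_le (s := univ.filter (fun w => f w ∈ X)) (f := c)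
    omega
  have hadj : ∀ a b, c a = i₀ → L.Adj a b → f a ∉ D ∧ f b ∉ D ∧ G.Adj (f a) (f b) := by
    intro a b ha hab
    have hb : c b = i₀ := by rw [← hc a b hab, ha]
    have h := f.toHom.map_rel' hab
    change (hubGraph G X D).Adj (f a) (f b) at h
    rcases h with h | h | h
    · exact absurd h.1 (hi₀ a ha)
    · exact absurd h.2 (hi₀ b hb)
    · exact h
  let g : Copy (L.induce {w | c w = i₀}) G :=
    ⟨⟨fun a => f a, fun {a b} hab => (hadj a b a.2 hab).2.2⟩,
      fun a b hab => Subtype.ext (f.injective hab)⟩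
  refine piece_free c hc D hD f₀ i₀ (hcs i₀) g ?_
  intro a
  obtain ⟨b, hb⟩ := hiso a
  exact (hadj a b a.2 hb).1

/-- The degrees in the core are large. -/
theorem sum_degree_core {W ι : Type} [Fintype W] [Fintype ι]
    [DecidableEq ι] {L : SimpleGraph W} (hiso : ∀ a, ∃ b, L.Adj a b) {n : ℕ}
    {G : SimpleGraph (Fin n)} [DecidableRel G.Adj]
    (c : W → ι) (hcs : ∀ i, ∃ a, c a = i)
    (hc : ∀ a b, L.Adj a b → c a = c b) (hG : extremalNumber n L < #G.edgeFinset)
    (D : Finset (Fin n))
    (hD : ∀ (f : Copy L G) (w : W), f w ∈ D) (f₀ : Copy L G) (k : ℕ) (hk : k < card ι) :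
    k * (n - k) < ∑ x ∈ D, G.degree x := by
  classical
  have hDcard : card ι ≤ #D := by
    have h1 : card ι ≤ card W := Fintype.card_le_of_surjective c (fun i => hcs i)
    have h2 : card W ≤ #D := by
      rw [← Finset.card_univ]
      exact card_le_card_of_injOn (fun w => f₀ w) (fun w _ => hD f₀ w)
        (fun a _ b _ hab => f₀.injective hab)
    omega
  obtain ⟨X, hXD, hX⟩ : ∃ X ⊆ D, #X = k := exists_subset_card_eq (by omega)
  have h1 := card_edgeFinset_le_extremalNumber
    (hubGraph_free hiso c hcs hc D hD f₀ X (by omega))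
  have h2 := hubGraph_card G X D hXD
  have h3 := card_edges_le G D
  rw [Fintype.card_fin, hX] at h2
  rw [Fintype.card_fin] at h1
  omega

end Pool.Agent.Helper49.Copies
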