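import Pool.Agent.Helper49.CopiesCommon

/-!
# A small colour class
-/

open Finset Fintype Filter

namespace Pool.Agent.Helper49.Copies

open SimpleGraph

/-- The comparison graph: `X` joined completely to its complement, `G` outside `D`, the other
vertices of `D` joined to `N`. -/
def cloneGraph {V : Type} (G : SimpleGraph V) (X D N : Finset V) : SimpleGraph V where
  Adj u v := (u ∈ X ∧ v ∉ X) ∨ (u ∉ X ∧ v ∈ X) ∨ (u ∉ D ∧ v ∉ D ∧ G.Adj u v) ∨
    (u ∈ D ∧ u ∉ X ∧ v ∈ N ∧ v ∉ D) ∨ (v ∈ D ∧ v ∉ X ∧ u ∈ N ∧ u ∉ D)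
  symm := ⟨by
    intro u v h
    rcases h with h | h | h | h | h
    · exact Or.inr (Or.inl ⟨h.2, h.1⟩)
    · exact Or.inl ⟨h.2, h.1⟩
    · exact Or.inr (Or.inr (Or.inl ⟨h.2.1, h.1, h.2.2.symm⟩))
    · exact Or.inr (Or.inr (Or.inr (Or.inr h)))
    · exact Or.inr (Or.inr (Or.inr (Or.inl h)))⟩
  loopless := ⟨by
    intro u h
    rcases h with h | h | h | h | h
    · exact h.2 h.1
    · exact h.1 h.2
    · exact h.2.2.ne rfl
    · exact h.2.2.2 h.1
    · exact h.2.2.2 h.1⟩

theorem cloneGraph_card {V : Type} [Fintype V] [DecidableEq V] (G : SimpleGraph V)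
    [DecidableRel G.Adj] (X D N : Finset V) (hXD : X ⊆ D) (hN : N ⊆ univ \ D)
    [DecidableRel (cloneGraph G X D N).Adj] :
    2 * (#X * #(univ \ D) + (#D - #X) * #N) + dsum G (univ \ D) (univ \ D) ≤
      2 * #(cloneGraph G X D N).edgeFinset := by
  classical
  rw [two_mul_card_edges_le (cloneGraph G X D N) D]
  have h1 : dsum G (univ \ D) (univ \ D) =
      dsum (cloneGraph G X D N) (univ \ D) (univ \ D) := by
    unfold dsum
    apply Finset.sum_congr rfl
    intro u hu
    congr 1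
    ext v
    rw [mem_filter, mem_filter]
    have hu' := (mem_sdiff.mp hu).2
    constructor
    · rintro ⟨hv, huv⟩
      have hv' := (mem_sdiff.mp hv).2
      exact ⟨hv, Or.inr (Or.inr (Or.inl ⟨hu', hv', huv⟩))⟩
    · rintro ⟨hv, huv⟩
      have hv' := (mem_sdiff.mp hv).2
      refine ⟨hv, ?_⟩
      rcases huv with h | h | h | h | h
      · exact absurd (hXD h.1) hu'
      · exact absurd (hXD h.2) hv'
      · exact h.2.2
      · exact absurd h.1 hu'
      · exact absurd h.1 hv'
  have h2 : #X * #(univ \ D) + (#D - #X) * #N ≤ dsum (cloneGraph G X D N) (univ \ D) D := by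
    rw [dsum_comm]
    have hdisj : Disjoint X (D \ X) := Finset.disjoint_sdiff
    have h3 := dsum_union_left (cloneGraph G X D N) X (D \ X) (univ \ D) hdisj
    rw [Finset.union_sdiff_of_subset hXD] at h3
    rw [h3]
    refine Nat.add_le_add ?_ ?_
    · unfold dsum
      rw [← smul_eq_mul]
      apply Finset.card_nsmul_le_sum
      intro x hx
      apply card_le_card
      intro u hu
      rw [mem_filter]
      exact ⟨hu, Or.inl ⟨hx, fun h => (mem_sdiff.mp hu).2 (hXD h)⟩⟩
    · unfold dsum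
      rw [← card_sdiff_of_subset hXD, ← smul_eq_mul]
      apply Finset.card_nsmul_le_sum
      intro x hx
      apply card_le_card
      intro u hu
      rw [mem_filter]
      have hx' := mem_sdiff.mp hx
      exact ⟨hN hu, Or.inr (Or.inr (Or.inr (Or.inl ⟨hx'.1, hx'.2, hu,
        (mem_sdiff.mp (hN hu)).2⟩)))⟩
  omega

theorem cloneGraph_free {V W ι : Type} [Fintype V] [Fintype W] [DecidableEq V] [Fintype ι]
    [DecidableEq ι] {L : SimpleGraph W} {G : SimpleGraph V}
    (c : W → ι) (hcs : ∀ i, ∃ a, c a = i)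
    (hc : ∀ a b, L.Adj a b → c a = c b) (D : Finset V)
    (hD : ∀ (f : Copy L G) (w : W), f w ∈ D) (f₀ : Copy L G) (X : Finset V)
    (hX : #X < card ι) (N Z : Finset V) (hZ : Z ⊆ univ \ D) (hZW : card W ≤ #Z)
    (hZN : ∀ z ∈ Z, ∀ y ∈ N, G.Adj z y) : L.Free (cloneGraph G X D N) := by
  classical
  rintro ⟨f⟩
  obtain ⟨i₀, hi₀⟩ : ∃ i₀, ∀ w, c w = i₀ → f w ∉ X := by
    by_contra hcon
    push Not at hcon
    have h1 : card ι ≤ #((univ.filter (fun w => f w ∈ X)).image c) := by
      rw [← Finset.card_univ]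
      apply card_le_card
      intro i _
      obtain ⟨w, hw, hw'⟩ := hcon i
      rw [mem_image]
      exact ⟨w, by simpa using hw', hw⟩
    have h2 : #(univ.filter (fun w => f w ∈ X)) ≤ #X := by
      apply card_le_card_of_injOn (fun w => f w)
      · intro w hw; simpa using hw
      · intro a _ b _ hab; exact f.injective hab
    have := card_image_le (s := univ.filter (fun w => f w ∈ X)) (f := c)
    omega
  -- replace the vertices in `D`
  set S := Z \ ((univ.filter (fun w => f w ∉ D)).image (fun w => f w)) with hS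
  have hemb : Nonempty ({w // f w ∈ D} ↪ S) := by
    rw [Function.Embedding.nonempty_iff_card_le, Fintype.card_subtype, Fintype.card_coe]
    have h1 : #{w | f w ∈ D} + #{w | ¬ f w ∈ D} = card W := by
      rw [Finset.card_filter_add_card_filter_not, Finset.card_univ]
    have h2 : #Z - #((univ.filter (fun w => f w ∉ D)).image (fun w => f w)) ≤ #S :=
      le_card_sdiff _ _
    have h3 := card_image_le (s := univ.filter (fun w => f w ∉ D)) (f := fun w => f w)
    omega
  obtain ⟨e⟩ := hemb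
  let g : W → V := fun w => if h : f w ∈ D then (e ⟨w, h⟩ : V) else f w
  have hg1 : ∀ w (h : f w ∈ D), g w = e ⟨w, h⟩ := fun w h => by simp [g, h]
  have hg2 : ∀ w, f w ∉ D → g w = f w := fun w h => by simp [g, h]
  have hgZ : ∀ w, f w ∈ D → g w ∈ Z := by
    intro w h
    rw [hg1 w h]
    exact (mem_sdiff.mp (e ⟨w, h⟩).2).1
  have hgne : ∀ w w', f w ∈ D → f w' ∉ D → g w ≠ g w' := by
    intro w w' h h' heq
    rw [hg1 w h, hg2 w' h'] at heq
    apply (mem_sdiff.mp (e ⟨w, h⟩).2).2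
    rw [mem_image]
    exact ⟨w', by simpa using h', heq.symm⟩
  have hinj : Function.Injective g := by
    intro a b hab
    by_cases ha : f a ∈ D
    · by_cases hb : f b ∈ D
      · rw [hg1 a ha, hg1 b hb] at hab
        have := e.injective (Subtype.ext hab)
        simpa using this
      · exact absurd hab (hgne a b ha hb)
    · by_cases hb : f b ∈ D
      · exact absurd hab.symm (hgne b a hb ha)
      · rw [hg2 a ha, hg2 b hb] at hab
        exact f.injective hab
  have hgD : ∀ w, g w ∉ D := by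
    intro w
    by_cases h : f w ∈ D
    · exact (mem_sdiff.mp (hZ (hgZ w h))).2
    · rw [hg2 w h]; exact h
  have hadj : ∀ a b, c a = i₀ → L.Adj a b → G.Adj (g a) (g b) := by
    intro a b ha hab
    have hb : c b = i₀ := by rw [← hc a b hab, ha]
    have h := f.toHom.map_rel' hab
    change (cloneGraph G X D N).Adj (f a) (f b) at h
    rcases h with h | h | h | h | h
    · exact absurd h.1 (hi₀ a ha)
    · exact absurd h.2 (hi₀ b hb)
    · rw [hg2 a h.1, hg2 b h.2.1]
      exact h.2.2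
    · rw [hg2 b h.2.2.2]
      exact hZN _ (hgZ a h.1) _ h.2.2.1
    · rw [hg2 a h.2.2.2]
      exact (hZN _ (hgZ b h.1) _ h.2.2.1).symm
  exact piece_free c hc D hD f₀ i₀ (hcs i₀)
    ⟨⟨fun a => g a, fun {a b} hab => hadj a b a.2 hab⟩,
      fun a b hab => Subtype.ext (hinj hab)⟩ (fun a => hgD a)

theorem clone_real {r n D U N k σ d x : ℝ} (hr : 1 ≤ r) (hD0 : 0 ≤ D)
    (hDd : D ≤ d) (hU : U = n - D) (hU0 : 0 ≤ U) (hkD : k - 1 ≤ D) (hk : 1 ≤ k)
    (hσ : σ ≤ 2 * k - 2)
    (hN : (1 - 1 / r - 1 / (4 * r * (d + 1))) * U ≤ N)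
    (h1 : 2 * ((k - 1) * U + (D - (k - 1)) * N) ≤ d ^ 2 + 2 * x)
    (h3 : x + k / r * n ≤ n * ((1 - 1 / r) * D + σ / r + 1 / (4 * r))) :
    1 / (2 * r) * n ≤ 4 * d ^ 2 := by
  have hr0 : 0 < r := by linarith
  have hd0 : 0 ≤ d := by linarith
  have hn0 : 0 ≤ n := by linarith
  have hinv : 1 / r ≤ 1 := by rw [div_le_one hr0]; exact hr
  have hinv0 : 0 ≤ 1 / r := by positivity
  have e1 : (D - (k - 1)) * ((1 - 1 / r - 1 / (4 * r * (d + 1))) * U) ≤ (D - (k - 1)) * N :=
    mul_le_mul_of_nonneg_left hN (by linarith)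
  have e2 : (D - (k - 1)) * (1 / (4 * r * (d + 1)) * U) ≤ 1 / (4 * r) * n := by
    have a1 : D - (k - 1) ≤ d + 1 := by linarith
    have a2 : 1 / (4 * r * (d + 1)) * U ≤ 1 / (4 * r * (d + 1)) * n :=
      mul_le_mul_of_nonneg_left (by linarith) (by positivity)
    have a3 : (D - (k - 1)) * (1 / (4 * r * (d + 1)) * U) ≤
        (d + 1) * (1 / (4 * r * (d + 1)) * n) :=
      mul_le_mul a1 a2 (by positivity) (by linarith)
    have a4 : (d + 1) * (1 / (4 * r * (d + 1)) * n) = 1 / (4 * r) * n := by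
      field_simp
    linarith
  have e3 : (σ - k) / r * n ≤ (k - 2) / r * n := by
    apply mul_le_mul_of_nonneg_right _ hn0
    apply div_le_div_of_nonneg_right _ hr0.le
    linarith
  have e4 : (k - 1) * U + (D - (k - 1)) * ((1 - 1 / r) * U) =
      (k - 1) / r * n + (1 - 1 / r) * D * n - (k - 1) / r * D - (1 - 1 / r) * D * D := by
    rw [hU]; field_simp; ring
  have e5 : (D - (k - 1)) * ((1 - 1 / r - 1 / (4 * r * (d + 1))) * U) =
      (D - (k - 1)) * ((1 - 1 / r) * U) - (D - (k - 1)) * (1 / (4 * r * (d + 1)) * U) := by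
    ring
  have e6 : n * ((1 - 1 / r) * D + σ / r + 1 / (4 * r)) - k / r * n =
      (1 - 1 / r) * D * n + (σ - k) / r * n + 1 / (4 * r) * n := by ring
  have e7 : (k - 1) / r * n = (k - 2) / r * n + 1 / r * n := by ring
  have e8 : 1 / r * n = 1 / (2 * r) * n + 1 / (4 * r) * n + 1 / (4 * r) * n := by
    field_simp; ring
  have e9 : (k - 1) / r * D ≤ d ^ 2 := by
    have a1 : (k - 1) / r ≤ d := by
      rw [div_le_iff₀ hr0]
      nlinarith
    have a2 : (k - 1) / r * D ≤ d * d := mul_le_mul a1 hDd hD0 hd0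
    linarith
  have e10 : (1 - 1 / r) * D * D ≤ d ^ 2 := by
    have a1 : (1 - 1 / r) * D ≤ d := by nlinarith
    have a2 : (1 - 1 / r) * D * D ≤ d * d := mul_le_mul a1 hDd hD0 hd0
    linarith
  nlinarith [sq_nonneg d]

/-- A small colour class: `A(n; L) → ∞`. -/
theorem tendsto_small_class {W ι : Type} [Fintype W] [Fintype ι] [DecidableEq ι]
    (L : SimpleGraph W) (c : W → ι) (hc : ∀ a b, L.Adj a b → c a = c b) (r : ℕ) (hr : 1 ≤ r)
    (C : L.Coloring (Fin (r + 1))) (hnc : ∀ i, ¬ (L.induce {w | c w = i}).Colorable r)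
    (i₀ : ι) (hσ : #{w | C w = 0} + 2 ≤ 2 * card ι) :
    Tendsto (fun n => minCopies n L) atTop atTop := by
  classical
  have hC0 : ∀ (i : ι), ∃ w, c w = i ∧ C w = 0 := by
    intro i
    by_contra hcon
    push Not at hcon
    apply hnc i
    refine ⟨Coloring.mk (fun a => (C a).pred (hcon a a.2)) ?_⟩
    intro a b hab h
    exact C.valid hab (Fin.pred_inj.mp h)
  have hC1 : ∀ (i : ι), ∃ w, c w = i ∧ C w ≠ 0 := by
    intro i
    by_contra hcon
    push Not at hcon
    apply hnc i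
    refine ⟨Coloring.mk (fun _ => ⟨0, by omega⟩) ?_⟩
    intro a b hab _
    exact C.valid hab ((hcon a a.2).trans (hcon b b.2).symm)
  have hcs : ∀ i, ∃ a, c a = i := by
    intro i
    obtain ⟨w, hw, -⟩ := hC0 i
    exact ⟨w, hw⟩
  have hncL : ¬ L.Colorable r := by
    rintro ⟨C⟩
    exact hnc i₀ ⟨Coloring.mk (fun a => C a) (fun {a b} hab => C.valid hab)⟩
  have hLne : L ≠ ⊥ := by
    rintro rfl
    apply hncL
    exact ⟨Coloring.mk (fun _ => ⟨0, by omega⟩) (fun {a b} hab => absurd hab (by simp))⟩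
  set σ := #{w | C w = 0} with hσdef
  have hk1 : 1 ≤ card ι := by omega
  have hrR : (1 : ℝ) ≤ r := by exact_mod_cast hr
  apply tendsto_minCopies_of L hLne
  intro d
  obtain ⟨C', hC'⟩ := core_bound c hc i₀ hcs r hr C hC0 hC1 hncL d (1 / (4 * r)) (by positivity)
  obtain ⟨N₀, hN₀⟩ := exists_common r (card W) hr (1 / (4 * r * (d + 1))) (by positivity) C'
  filter_upwards [hC', eventually_ge_atTop (N₀ + d),
    eventually_gt_atTop ⌈4 * (d : ℝ) ^ 2 * (2 * r)⌉₊] with n hn hnN hnK G _ hG D hDd hD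
  obtain ⟨f₀⟩ := copy_of_extremal hG
  obtain ⟨label, hlabel⟩ := exists_label c i₀ f₀
  obtain ⟨h1, h1'⟩ := hn G hG D hDd hD f₀ label hlabel
  replace h1 := h1 univ
  have hDuniv : D.filter (fun x => label x ∈ (univ : Finset ι)) = D := by
    apply Finset.filter_true_of_mem
    intro x _
    exact mem_univ _
  have hCuniv : #{w | C w = 0 ∧ c w ∈ (univ : Finset ι)} = #{w | C w = 0} := by
    congr 1
    ext w
    simp
  rw [hDuniv, hCuniv, Finset.card_univ] at h1
  set U : Finset (Fin n) := univ \ D with hU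
  have hUcard : #U + #D = n := by
    rw [hU, card_sdiff_of_subset (subset_univ _), Finset.card_univ, Fintype.card_fin]
    have := card_le_univ D
    rw [Fintype.card_fin] at this
    omega
  have hιD : card ι ≤ #D := by
    have h1 : card ι ≤ card W := Fintype.card_le_of_surjective c (fun i => hcs i)
    have h2 : card W ≤ #D := by
      rw [← Finset.card_univ]
      exact card_le_card_of_injOn (fun w => f₀ w) (fun w _ => hD f₀ w)
        (fun a _ b _ hab => f₀.injective hab)
    omega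
  obtain ⟨Z', N', hZ', hN', hZcard, hZN, hNcard⟩ := hN₀ G (L.induce {w | c w = i₀})
    ⟨Coloring.mk (fun a => C a) (fun {a b} hab => C.valid hab)⟩ (Fintype.card_subtype_le _) U
    (by
      intro f
      by_contra hcon
      push Not at hcon
      refine piece_free c hc D hD f₀ i₀ (hcs i₀) f ?_
      intro a ha
      exact (mem_sdiff.mp (hcon a)).2 ha) (by omega) h1'
  obtain ⟨X, hXD, hX⟩ : ∃ X ⊆ D, #X = card ι - 1 := exists_subset_card_eq (by omega)
  have h2 := card_edgeFinset_le_extremalNumber (cloneGraph_free c hcs hc D hD f₀ X (by omega)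
    N' Z' hZ' hZcard hZN)
  rw [Fintype.card_fin] at h2
  have h3 := cloneGraph_card G X D N' hXD hN'
  have h4 := two_mul_card_edges_le G D
  have h5 : dsum G D D ≤ d ^ 2 := by
    refine (dsum_le G D D).trans ?_
    rw [pow_two]
    exact Nat.mul_le_mul hDd hDd
  rw [← hU] at h3 h4
  have h6 : 2 * (#X * #U + (#D - #X) * #N') ≤ d ^ 2 + 2 * dsum G U D := by omega
  rw [hX] at h6
  have e1 : ((card ι - 1 : ℕ) : ℝ) = (card ι : ℝ) - 1 := by
    rw [Nat.cast_sub hk1]; simp
  have e2 : ((#D - (card ι - 1) : ℕ) : ℝ) = (#D : ℝ) - ((card ι : ℝ) - 1) := by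
    rw [Nat.cast_sub (by omega), e1]
  have h7 : 2 * (((card ι : ℝ) - 1) * #U + ((#D : ℝ) - ((card ι : ℝ) - 1)) * #N') ≤
      d ^ 2 + 2 * dsum G U D := by
    rw [← e2, ← e1]
    exact_mod_cast h6
  have hσR : (σ : ℝ) ≤ 2 * card ι - 2 := by
    have : (σ : ℝ) + 2 ≤ 2 * card ι := by exact_mod_cast hσ
    linarith
  have hfin := clone_real (r := r) (n := n) (D := #D) (U := #U) (N := #N') (k := card ι) (σ := σ)
    (d := d) (x := dsum G U D) hrR (Nat.cast_nonneg _) (by exact_mod_cast hDd)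
    (by rw [eq_sub_iff_add_eq]; exact_mod_cast hUcard) (Nat.cast_nonneg _)
    (by
      have : (card ι : ℝ) ≤ #D := by exact_mod_cast hιD
      linarith) (by exact_mod_cast hk1) hσR hNcard h7 h1
  have h8 : 4 * (d : ℝ) ^ 2 * (2 * r) < n :=
    lt_of_le_of_lt (Nat.le_ceil _) (by exact_mod_cast hnK)
  have h9 : 1 / (2 * (r : ℝ)) * n = n / (2 * r) := by ring
  rw [h9, div_le_iff₀ (by positivity)] at hfin
  linarith

end Pool.Agent.Helper49.Copies
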