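import Pool.Agent.Helper49.CopiesCrit

/-!
# Many vertices with a large common neighbourhood
-/

open Finset Fintype Filter

namespace Pool.Agent.Helper49.Copies

open SimpleGraph

/-- The combinatorial core: from one tile with many edges to `U`. -/
theorem common_of_tile {V W : Type} [Fintype W] [DecidableEq V] (G : SimpleGraph V)
    [DecidableRel G.Adj] (J : SimpleGraph W) (r : ℕ) (hr : 2 ≤ r) (hJ : J.Colorable (r + 1))
    (U : Finset V) (hU : ∀ f : Copy J G, ∃ w, f w ∉ U) (t : ℕ) (T : Fin r → Finset V)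
    (hT : IsTile G r t T) (hTU : tileSet T ⊆ U) (m : ℕ) (hm : card W ≤ m) (ht : 2 * m ≤ t)
    (M : ℕ) (hM : #U * ((r - 1) * t + m) + m * 2 ^ (r * t) * (r * t) ≤
      dsum G (tileSet T) U + M * t) :
    ∃ Z' N', Z' ⊆ U ∧ N' ⊆ U ∧ m ≤ #Z' ∧ (∀ z ∈ Z', ∀ y ∈ N', G.Adj z y) ∧
      #U ≤ #N' + m * 2 ^ (r * t) + (#U / r + 1) + m * (2 * M) := by
  classical
  set R := {w ∈ U | ∀ j, m ≤ #{v ∈ T j | G.Adj w v}} with hR
  have hRcard : #R ≤ m * 2 ^ (r * t) := card_rich_le G J r hJ U hU t T hT hTU m hm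
  let j : V → Fin r := fun w => if h : ∃ j, #{v ∈ T j | G.Adj w v} < m then h.choose
    else ⟨0, by omega⟩
  have hj : ∀ w ∈ U \ R, #{v ∈ T (j w) | G.Adj w v} < m := by
    intro w hw
    rw [Finset.mem_sdiff, hR, mem_filter, not_and] at hw
    have h1 := hw.2 hw.1
    push Not at h1
    simp only [j]
    rw [dif_pos h1]
    exact h1.choose_spec
  obtain ⟨js, -, hjs⟩ := exists_card_fiber_le_of_card_le_mul (s := U \ R)
    (t := (univ : Finset (Fin r))) (f := j) (n := #U / r + 1) ⟨⟨0, by omega⟩, mem_univ _⟩ (by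
      rw [Finset.card_univ, Fintype.card_fin]
      refine (card_le_card sdiff_subset).trans ?_
      have := Nat.div_add_mod (#U) r
      have h2 := Nat.mod_lt (#U) (by omega : 0 < r)
      rw [Nat.mul_add, mul_one]
      omega)
  set Wj := {w ∈ U \ R | j w = js} with hWj
  set A := {w ∈ U \ R | ¬ j w = js} with hA
  have hAW : #Wj + #A = #(U \ R) := Finset.card_filter_add_card_filter_not _
  have hAU : A ⊆ U := (filter_subset _ _).trans sdiff_subset
  have hRU : R ⊆ U := filter_subset _ _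
  have hUR : #(U \ R) + #R = #U := Finset.card_sdiff_add_card_eq_card hRU
  -- degrees to the tile
  set x : V → ℕ := fun w => #{v ∈ tileSet T | G.Adj w v} with hx
  have hxsum : dsum G (tileSet T) U = ∑ w ∈ U, x w := by
    rw [dsum_comm]; rfl
  have hxA : ∀ w ∈ A, #{z ∈ T js | ¬ G.Adj w z} + x w ≤ (r - 1) * t + m := by
    intro w hw
    rw [hA, mem_filter] at hw
    have h1 := hj w hw.1
    have h2 : x w = ∑ i, #{v ∈ T i | G.Adj w v} := hT.card_filter _
    rw [← Finset.add_sum_erase _ _ (mem_univ js), ← Finset.add_sum_erase _ _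
      (mem_erase.mpr ⟨hw.2, mem_univ _⟩)] at h2
    have h3 : #{z ∈ T js | ¬ G.Adj w z} + #{v ∈ T js | G.Adj w v} = t := by
      rw [add_comm, Finset.card_filter_add_card_filter_not, hT.1]
    have h4 : ∑ i ∈ (univ.erase js).erase (j w), #{v ∈ T i | G.Adj w v} ≤ (r - 2) * t := by
      have h5 : #((univ.erase js).erase (j w)) = r - 2 := by
        rw [card_erase_of_mem (mem_erase.mpr ⟨hw.2, mem_univ _⟩), card_erase_of_mem (mem_univ _),
          Finset.card_univ, Fintype.card_fin]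
        omega
      rw [← h5, ← smul_eq_mul]
      apply Finset.sum_le_card_nsmul
      intro i _
      refine (card_filter_le _ _).trans ?_
      rw [hT.1 i]
    have h6 : (r - 1) * t = (r - 2) * t + t := by
      obtain ⟨r', rfl⟩ : ∃ r', r = r' + 2 := ⟨r - 2, by omega⟩
      have e1 : r' + 2 - 1 = r' + 1 := by omega
      have e2 : r' + 2 - 2 = r' := by omega
      rw [e1, e2]; ring
    omega
  have hxW : ∀ w ∈ Wj, x w ≤ (r - 1) * t + m := by
    intro w hw
    rw [hWj, mem_filter] at hw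
    have h1 := hj w hw.1
    have h2 : x w = ∑ i, #{v ∈ T i | G.Adj w v} := hT.card_filter _
    rw [← Finset.add_sum_erase _ _ (mem_univ (j w))] at h2
    have h4 : ∑ i ∈ univ.erase (j w), #{v ∈ T i | G.Adj w v} ≤ (r - 1) * t := by
      have h5 : #(univ.erase (j w)) = r - 1 := by
        rw [card_erase_of_mem (mem_univ _), Finset.card_univ, Fintype.card_fin]
      rw [← h5, ← smul_eq_mul]
      apply Finset.sum_le_card_nsmul
      intro i _
      refine (card_filter_le _ _).trans ?_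
      rw [hT.1 i]
    omega
  have hxR : ∀ w ∈ R, x w ≤ r * t := by
    intro w _
    refine (card_filter_le _ _).trans ?_
    rw [hT.card]
  -- total number of missing pairs
  have hmiss : ∑ z ∈ T js, #{w ∈ A | ¬ G.Adj z w} ≤ M * t := by
    have h1 : ∑ z ∈ T js, #{w ∈ A | ¬ G.Adj z w} = ∑ w ∈ A, #{z ∈ T js | ¬ G.Adj w z} := by
      simp_rw [Finset.card_filter]
      rw [Finset.sum_comm]
      simp_rw [G.adj_comm]
    have h2 : ∑ w ∈ U, x w = ∑ w ∈ A, x w + ∑ w ∈ Wj, x w + ∑ w ∈ R, x w := by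
      rw [← Finset.sum_sdiff hRU, ← Finset.sum_filter_add_sum_filter_not (U \ R)
        (fun w => j w = js)]
      rw [← hWj, ← hA]
      ring
    have h3 : ∑ w ∈ A, (#{z ∈ T js | ¬ G.Adj w z} + x w) ≤ #A * ((r - 1) * t + m) := by
      rw [← smul_eq_mul]
      exact Finset.sum_le_card_nsmul _ _ _ hxA
    have h4 : ∑ w ∈ Wj, x w ≤ #Wj * ((r - 1) * t + m) := by
      rw [← smul_eq_mul]
      exact Finset.sum_le_card_nsmul _ _ _ hxW
    have h5 : ∑ w ∈ R, x w ≤ m * 2 ^ (r * t) * (r * t) := by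
      refine (Finset.sum_le_card_nsmul _ _ _ hxR).trans ?_
      rw [smul_eq_mul]
      exact Nat.mul_le_mul_right _ hRcard
    rw [Finset.sum_add_distrib] at h3
    have h6 : #A * ((r - 1) * t + m) + #Wj * ((r - 1) * t + m) ≤ #U * ((r - 1) * t + m) := by
      rw [← Nat.add_mul]
      apply Nat.mul_le_mul_right
      omega
    rw [hxsum] at hM
    omega
  -- good vertices of the tile class
  have hgood : m ≤ #{z ∈ T js | #{w ∈ A | ¬ G.Adj z w} ≤ 2 * M} := by
    by_contra hcon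
    push Not at hcon
    have h1 : #{z ∈ T js | #{w ∈ A | ¬ G.Adj z w} ≤ 2 * M} +
        #{z ∈ T js | ¬ #{w ∈ A | ¬ G.Adj z w} ≤ 2 * M} = t := by
      rw [Finset.card_filter_add_card_filter_not, hT.1]
    have h2 : #{z ∈ T js | ¬ #{w ∈ A | ¬ G.Adj z w} ≤ 2 * M} * (2 * M + 1) ≤
        ∑ z ∈ T js, #{w ∈ A | ¬ G.Adj z w} := by
      refine le_trans ?_ (Finset.sum_le_sum_of_subset (filter_subset
        (fun z => ¬ #{w ∈ A | ¬ G.Adj z w} ≤ 2 * M) (T js)))
      rw [← smul_eq_mul]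
      apply Finset.card_nsmul_le_sum
      intro z hz
      rw [mem_filter] at hz
      omega
    set b := #{z ∈ T js | ¬ #{w ∈ A | ¬ G.Adj z w} ≤ 2 * M} with hb
    have h3 : t < 2 * b := by omega
    have h4 : b * (2 * M + 1) ≤ M * t := h2.trans hmiss
    have h5 : M * t ≤ M * (2 * b) := Nat.mul_le_mul_left _ h3.le
    have h6 : 0 < b := by omega
    nlinarith
  obtain ⟨Z', hZ', hZ'm⟩ := exists_subset_card_eq hgood
  refine ⟨Z', {w ∈ A | ∀ z ∈ Z', G.Adj z w}, ?_, (filter_subset _ _).trans hAU, hZ'm.ge, ?_, ?_⟩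
  · intro z hz
    have := hZ' hz
    rw [mem_filter] at this
    exact hTU (by rw [mem_tileSet]; exact ⟨js, this.1⟩)
  · intro z hz y hy
    rw [mem_filter] at hy
    exact hy.2 z hz
  · have h1 : #A ≤ #{w ∈ A | ∀ z ∈ Z', G.Adj z w} + m * (2 * M) := by
      have h2 : A ⊆ {w ∈ A | ∀ z ∈ Z', G.Adj z w} ∪
          Z'.biUnion (fun z => {w ∈ A | ¬ G.Adj z w}) := by
        intro w hw
        rw [mem_union]
        by_cases h : ∀ z ∈ Z', G.Adj z w
        · left; rw [mem_filter]; exact ⟨hw, h⟩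
        · right
          push Not at h
          obtain ⟨z, hz, hz'⟩ := h
          rw [mem_biUnion]
          exact ⟨z, hz, by rw [mem_filter]; exact ⟨hw, hz'⟩⟩
      refine (card_le_card h2).trans ((card_union_le _ _).trans (Nat.add_le_add_left ?_ _))
      rw [← hZ'm]
      apply card_biUnion_le_card_mul
      intro z hz
      have := hZ' hz
      rw [mem_filter] at this
      exact this.2
    omega

theorem common_real {r t N C' C₁ η η₁ m x : ℝ} (hr : 2 ≤ r) (ht : 1 ≤ t) (hm : 0 ≤ m)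
    (hη : 0 < η) (hη₁ : 0 < η₁) (hη₁' : η₁ ≤ 1 / 4) (hη₁m : 2 * m * r * η₁ ≤ η / 8)
    (htm : 2 * m ^ 2 / t ≤ η / 8) (hC₁ : 0 ≤ C₁) (hN : 4 * |C'| + 8 ≤ N)
    (hNbig : C₁ + 1 + 2 * m * (r * |C'| + 2 + C₁ * r) ≤ η / 2 * N)
    (hx : r * t * ((1 - 1 / r - η₁) * N - C') - 1 ≤ x) :
    ∃ M : ℕ, N * ((r - 1) * t + m) + C₁ * (r * t) ≤ x + M * t ∧
      (1 - 1 / r - η) * N ≤ N - C₁ - (N / r + 1) - m * (2 * M) := by
  have hr0 : 0 < r := by linarith
  have ht0 : 0 < t := by linarith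
  have hN0 : 0 ≤ N := by have := abs_nonneg C'; linarith
  set Mr : ℝ := ((m / t) + r * η₁) * N + r * |C'| + 1 + C₁ * r with hMr
  have hMr0 : 0 ≤ Mr := by
    have := abs_nonneg C'
    positivity
  refine ⟨⌈Mr⌉₊, ?_, ?_⟩
  · have h1 : Mr ≤ ⌈Mr⌉₊ := Nat.le_ceil _
    have h2 : Mr * t ≤ ⌈Mr⌉₊ * t := mul_le_mul_of_nonneg_right h1 ht0.le
    have h3 : Mr * t = m * N + r * η₁ * N * t + r * |C'| * t + t + C₁ * r * t := by
      rw [hMr]; field_simp
    have h4 : r * t * ((1 - 1 / r - η₁) * N - C') =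
        (r - 1) * t * N - r * η₁ * N * t - r * C' * t := by
      field_simp
    have h5 : r * C' * t ≤ r * |C'| * t := by
      apply mul_le_mul_of_nonneg_right _ ht0.le
      exact mul_le_mul_of_nonneg_left (le_abs_self _) hr0.le
    nlinarith
  · have h1 : (⌈Mr⌉₊ : ℝ) ≤ Mr + 1 := (Nat.ceil_lt_add_one hMr0).le
    have h2 : m * (2 * (⌈Mr⌉₊ : ℝ)) ≤ 2 * m * (Mr + 1) := by
      nlinarith
    have h3 : 2 * m * (Mr + 1) = (2 * m ^ 2 / t) * N + (2 * m * r * η₁) * N +
        2 * m * (r * |C'| + 2 + C₁ * r) := by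
      rw [hMr]; ring
    have h4 : (2 * m ^ 2 / t) * N ≤ η / 8 * N := mul_le_mul_of_nonneg_right htm hN0
    have h5 : (2 * m * r * η₁) * N ≤ η / 8 * N := mul_le_mul_of_nonneg_right hη₁m hN0
    have h6 : (1 - 1 / r - η) * N = N - N / r - η * N := by ring
    have h7 : 0 ≤ η / 4 * N := by positivity
    linarith

/-- In a dense `J`-free graph, `χ(J) ≤ r + 1`, many vertices have a common neighbourhood of
size almost `(1 - 1/r) n`. -/
theorem exists_common (r m : ℕ) (hr : 1 ≤ r) (η : ℝ) (hη : 0 < η) (C' : ℝ) : ∃ N₀ : ℕ,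
    ∀ {V W : Type} [Fintype V] [DecidableEq V] [Fintype W]
    (G : SimpleGraph V) [DecidableRel G.Adj] (J : SimpleGraph W), J.Colorable (r + 1) →
    card W ≤ m → ∀ U : Finset V, (∀ f : Copy J G, ∃ w, f w ∉ U) → N₀ ≤ #U →
    (1 - 1 / (r : ℝ)) * (#U : ℝ) ^ 2 - C' * #U ≤ dsum G U U →
    ∃ Z' N', Z' ⊆ U ∧ N' ⊆ U ∧ m ≤ #Z' ∧ (∀ z ∈ Z', ∀ y ∈ N', G.Adj z y) ∧
      (1 - 1 / (r : ℝ) - η) * #U ≤ #N' := by
  classical
  rcases Nat.lt_or_ge r 2 with hr2 | hr2
  · obtain rfl : r = 1 := by omega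
    refine ⟨m, ?_⟩
    intro V W _ _ _ G _ J _ _ U _ hN _
    refine ⟨U, ∅, Finset.Subset.refl _, empty_subset _, hN, by simp, ?_⟩
    have : (0 : ℝ) ≤ #U := Nat.cast_nonneg _
    have h2 : 0 ≤ η * #U := by positivity
    simp
    linarith
  · have hrR : (2 : ℝ) ≤ r := by exact_mod_cast hr2
    set η₁ : ℝ := min (1 / 4) (η / (16 * (m + 1) * r)) with hη₁
    have hη₁0 : 0 < η₁ := lt_min (by norm_num) (by positivity)
    have hη₁' : η₁ ≤ 1 / 4 := min_le_left _ _
    have hη₁m : 2 * (m : ℝ) * r * η₁ ≤ η / 8 := by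
      have h1 : η₁ ≤ η / (16 * (m + 1) * r) := min_le_right _ _
      have h2 : 2 * (m : ℝ) * r * η₁ ≤ 2 * (m + 1) * r * (η / (16 * (m + 1) * r)) := by
        apply mul_le_mul _ h1 hη₁0.le (by positivity)
        nlinarith
      have h3 : 2 * ((m : ℝ) + 1) * r * (η / (16 * (m + 1) * r)) = η / 8 := by
        field_simp; norm_num
      linarith
    obtain ⟨t₀, ht₀⟩ := exists_cover r m hr η₁ hη₁0
    obtain ⟨t, ht1, ht2, ht3, ht4⟩ : ∃ t, t₀ ≤ t ∧ 2 * m ≤ t ∧ (16 * m ^ 2 / η : ℝ) ≤ t ∧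
        1 ≤ t := by
      refine ⟨max (max t₀ 1) (max (2 * m) ⌈(16 * m ^ 2 / η : ℝ)⌉₊), ?_, ?_, ?_, ?_⟩
      · exact (le_max_left _ _).trans (le_max_left _ _)
      · exact (le_max_left _ _).trans (le_max_right _ _)
      · refine (Nat.le_ceil _).trans ?_
        exact_mod_cast (le_max_right _ _).trans (le_max_right _ _)
      · exact (le_max_right _ _).trans (le_max_left _ _)
    have htR : (1 : ℝ) ≤ t := by exact_mod_cast ht4
    have htm : 2 * (m : ℝ) ^ 2 / t ≤ η / 8 := by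
      rw [div_le_iff₀ hη] at ht3
      rw [div_le_iff₀ (by linarith)]
      linarith
    obtain ⟨N₁, hN₁⟩ := ht₀ t ht1 C'
    set C₁ : ℕ := m * 2 ^ (r * t) with hC₁
    set KK : ℝ := C₁ + 1 + 2 * m * (r * |C'| + 2 + C₁ * r) with hKK
    refine ⟨max N₁ (max ⌈4 * |C'| + 8⌉₊ ⌈KK / (η / 2)⌉₊), ?_⟩
    intro V W _ _ _ G _ J hJ hJm U hU hN hdense
    have hNN₁ : N₁ ≤ #U := (le_max_left _ _).trans hN
    have hN2 : 4 * |C'| + 8 ≤ (#U : ℝ) := by
      refine (Nat.le_ceil _).trans ?_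
      exact_mod_cast ((le_max_left _ _).trans (le_max_right _ _)).trans hN
    have hN3 : KK ≤ η / 2 * #U := by
      have h1 : KK / (η / 2) ≤ (#U : ℝ) := by
        refine (Nat.le_ceil _).trans ?_
        exact_mod_cast ((le_max_right _ _).trans (le_max_right _ _)).trans hN
      rw [div_le_iff₀ (by positivity)] at h1
      linarith
    obtain ⟨Z, q, hZ, hZU⟩ := hN₁ G J hJ hJm U hU hNN₁ hdense
    have hC'0 := abs_nonneg C'
    have hU0 : (0 : ℝ) < #U := by linarith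
    have hrinv : (1 : ℝ) / r ≤ 1 / 2 := one_div_le_one_div_of_le (by norm_num) hrR
    have hpos : 0 ≤ (1 - 1 / (r : ℝ) - η₁) * #U - C' := by
      have h1 : (1 / 4 : ℝ) ≤ 1 - 1 / (r : ℝ) - η₁ := by linarith
      have h2 : (1 / 4 : ℝ) * #U ≤ (1 - 1 / (r : ℝ) - η₁) * #U :=
        mul_le_mul_of_nonneg_right h1 hU0.le
      have h3 := le_abs_self C'
      linarith
    -- a tile with many edges
    obtain ⟨T, hT, hTU, hTx⟩ : ∃ T, IsTile G r t T ∧ tileSet T ⊆ U ∧
        (r : ℝ) * t * ((1 - 1 / (r : ℝ) - η₁) * #U - C') - 1 ≤ dsum G (tileSet T) U := by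
      by_contra hcon
      push Not at hcon
      set β : ℝ := (r : ℝ) * t * ((1 - 1 / (r : ℝ) - η₁) * #U - C') - 1 with hβ
      have hβ0 : 0 ≤ β + 1 := by
        rw [hβ]
        have : 0 ≤ (r : ℝ) * t * ((1 - 1 / (r : ℝ) - η₁) * #U - C') := by positivity
        linarith
      have hZcard := hZ.card
      have hZA : Disjoint Z (U \ Z) := Finset.disjoint_sdiff
      have hZAU : Z ∪ (U \ Z) = U := Finset.union_sdiff_of_subset hZ.subset
      have hcardU : #U = q * (r * t) + #(U \ Z) := by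
        rw [← hZcard, ← card_union_of_disjoint hZA, hZAU]
      have hcardU' : (#U : ℝ) = q * (r * t) + #(U \ Z) := by exact_mod_cast hcardU
      have hq : 0 < q := by
        rcases Nat.eq_zero_or_pos q with h0 | h0
        · exfalso
          rw [h0] at hcardU'
          simp only [Nat.cast_zero, zero_mul, zero_add] at hcardU'
          nlinarith
        · exact h0
      have hβpos : 0 ≤ β := by
        obtain ⟨T, hT, hTU⟩ : ∃ T, IsTile G r t T ∧ tileSet T ⊆ U := by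
          clear hcon hdense hZU hZcard hZA hZAU hcardU hcardU'
          cases hZ with
          | nil => exact absurd hq (lt_irrefl _)
          | cons T h1 hT hTU => exact ⟨T, hT, hTU.trans sdiff_subset⟩
        have := hcon T hT hTU
        have h2 : (0 : ℝ) ≤ dsum G (tileSet T) U := Nat.cast_nonneg _
        linarith
      have h1 : dsum G Z U ≤ q * ⌊β⌋₊ := by
        apply hZ.sum_le
        intro T hT hTU
        have := hcon T hT hTU
        exact Nat.le_floor this.le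
      have h2 : (dsum G Z U : ℝ) ≤ q * β := by
        have e1 : (dsum G Z U : ℝ) ≤ q * (⌊β⌋₊ : ℕ) := by exact_mod_cast h1
        have e2 : ((⌊β⌋₊ : ℕ) : ℝ) ≤ β := Nat.floor_le hβpos
        have e3 : (q : ℝ) * (⌊β⌋₊ : ℕ) ≤ q * β := mul_le_mul_of_nonneg_left e2 (Nat.cast_nonneg _)
        linarith
      have h3 : dsum G U U = dsum G Z U + dsum G (U \ Z) U := by
        conv_lhs => rw [← hZAU, dsum_union_left G Z (U \ Z) (Z ∪ (U \ Z)) hZA, hZAU]
      have h4 : dsum G (U \ Z) U ≤ #(U \ Z) * #U := dsum_le G _ _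
      have h3' : (dsum G U U : ℝ) = dsum G Z U + dsum G (U \ Z) U := by exact_mod_cast h3
      have h4' : (dsum G (U \ Z) U : ℝ) ≤ #(U \ Z) * #U := by exact_mod_cast h4
      have h5 : (#(U \ Z) : ℝ) * #U ≤ (η₁ * #U) * #U := mul_le_mul_of_nonneg_right hZU hU0.le
      have h6 : (q : ℝ) * (r * t) ≤ #U := by
        have : (0 : ℝ) ≤ #(U \ Z) := Nat.cast_nonneg _
        linarith
      have h7 : (q : ℝ) * β = (q * (r * t)) * ((1 - 1 / (r : ℝ) - η₁) * #U - C') - q := by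
        rw [hβ]; ring
      have h8 : ((q : ℝ) * (r * t)) * ((1 - 1 / (r : ℝ) - η₁) * #U - C') ≤
          #U * ((1 - 1 / (r : ℝ) - η₁) * #U - C') := mul_le_mul_of_nonneg_right h6 hpos
      have h9 : (#U : ℝ) * ((1 - 1 / (r : ℝ) - η₁) * #U - C') =
          (1 - 1 / (r : ℝ)) * (#U : ℝ) ^ 2 - C' * #U - (η₁ * #U) * #U := by ring
      have h10 : (1 : ℝ) ≤ q := by exact_mod_cast hq
      linarith
    obtain ⟨M, hM1, hM2⟩ := common_real (r := r) (t := t) (N := #U) (C' := C') (C₁ := C₁)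
      (η := η) (η₁ := η₁) (m := m) (x := dsum G (tileSet T) U)
      hrR htR (Nat.cast_nonneg _) hη hη₁0 hη₁' hη₁m htm (Nat.cast_nonneg _) hN2 hN3 hTx
    have hM1' : #U * ((r - 1) * t + m) + m * 2 ^ (r * t) * (r * t) ≤
        dsum G (tileSet T) U + M * t := by
      have e1 : (((#U * ((r - 1) * t + m) + m * 2 ^ (r * t) * (r * t) : ℕ)) : ℝ) ≤
          ((dsum G (tileSet T) U + M * t : ℕ) : ℝ) := by
        rw [← hC₁]
        push_cast [Nat.cast_sub hr]
        exact hM1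
      exact_mod_cast e1
    obtain ⟨Z', N', h1, h2, h3, h4, h5⟩ := common_of_tile G J r hr2 hJ U hU t T hT hTU m hJm ht2
      M hM1'
    refine ⟨Z', N', h1, h2, h3, h4, hM2.trans ?_⟩
    have e1 : (#U : ℝ) ≤ #N' + C₁ + (((#U / r : ℕ) : ℝ) + 1) + m * (2 * M) := by
      exact_mod_cast h5
    have e2 : (((#U / r : ℕ)) : ℝ) ≤ #U / r := Nat.cast_div_le
    linarith

end Pool.Agent.Helper49.Copies
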