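import Pool.Agent.Helper49.CopiesBound

/-!
# A component with small extremal number
-/

open Finset Fintype Filter

namespace Pool.Agent.Helper49.Copies

open SimpleGraph

theorem turan_degree_le (n r : ℕ) (x : Fin n) : (turanGraph n r).degree x + n / r ≤ n := by
  classical
  have h1 : #{w : Fin n | (x : ℕ) % r ≠ (w : ℕ) % r} + #{w : Fin n | ¬ (x : ℕ) % r ≠ (w : ℕ) % r}
      = n := by
    rw [Finset.card_filter_add_card_filter_not, Finset.card_univ, Fintype.card_fin]
  have h2 : (turanGraph n r).degree x = #{w : Fin n | (x : ℕ) % r ≠ (w : ℕ) % r} := by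
    rw [← card_neighborFinset_eq_degree]
    congr 1
    ext w
    rw [mem_neighborFinset, turanGraph_adj, mem_filter]
    simp
  have h3 : n / r ≤ #{w : Fin n | ¬ (x : ℕ) % r ≠ (w : ℕ) % r} := by
    rcases Nat.eq_zero_or_pos r with rfl | hr
    · simp
    have hlt : ∀ j : Fin (n / r), (j : ℕ) * r + (x : ℕ) % r < n := by
      intro j
      have h4 : (j : ℕ) + 1 ≤ n / r := j.2
      have h5 := Nat.mul_le_mul_right r h4
      have h6 := Nat.div_mul_le_self n r
      have h7 := Nat.mod_lt (x : ℕ) hr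
      nlinarith
    have h4 : #(univ : Finset (Fin (n / r))) ≤ #{w : Fin n | ¬ (x : ℕ) % r ≠ (w : ℕ) % r} := by
      refine card_le_card_of_injOn (fun j => (⟨(j : ℕ) * r + (x : ℕ) % r, hlt j⟩ : Fin n)) ?_ ?_
      · intro j _
        rw [mem_coe, mem_filter]
        refine ⟨mem_univ _, ?_⟩
        simp [Nat.add_mod]
      · intro i _ j _ hij
        simp only [Fin.mk.injEq] at hij
        have : (i : ℕ) * r = (j : ℕ) * r := by omega
        exact Fin.ext (Nat.eq_of_mul_eq_mul_right hr this)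
    rwa [Finset.card_univ, Fintype.card_fin] at h4
  omega

theorem hub_turan_free {W : Type} [Fintype W] (L : SimpleGraph W) (n r : ℕ) (hr : 1 ≤ r)
    (X : Finset (Fin n)) (hX : ∀ C : L.Coloring (Fin (r + 1)), #X < #{w | C w = 0}) :
    L.Free (hubGraph (turanGraph n r) X X) := by
  classical
  rintro ⟨f⟩
  let C : L.Coloring (Fin (r + 1)) := Coloring.mk
    (fun w => if f w ∈ X then 0 else (⟨(f w : ℕ) % r, Nat.mod_lt _ (by omega)⟩ : Fin r).succ) (by
      intro a b hab
      have h1 := f.toHom.map_rel' hab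
      change (hubGraph (turanGraph n r) X X).Adj (f a) (f b) at h1
      rcases h1 with h | h | h
      · rw [if_pos h.1, if_neg h.2]
        exact (Fin.succ_ne_zero _).symm
      · rw [if_neg h.1, if_pos h.2]
        exact Fin.succ_ne_zero _
      · rw [if_neg h.1, if_neg h.2.1]
        intro h4
        have h5 := h.2.2
        rw [turanGraph_adj] at h5
        apply h5
        have h6 := Fin.succ_injective _ h4
        simpa using h6)
  have h1 := hX C
  have h2 : #{w | C w = 0} ≤ #X := by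
    refine card_le_card_of_injOn (fun w => f w) ?_ ?_
    · intro w hw
      rw [mem_coe, mem_filter] at hw
      by_contra hcon
      have hcon : f w ∉ X := hcon
      have h3 : C w = (⟨(f w : ℕ) % r, Nat.mod_lt _ (by omega)⟩ : Fin r).succ := by
        change (if f w ∈ X then 0 else _) = _
        rw [if_neg hcon]
      rw [h3] at hw
      exact Fin.succ_ne_zero _ hw.2
    · intro a _ b _ hab
      exact f.injective hab
  omega

theorem hub_turan_lower {W : Type} [Fintype W] (L : SimpleGraph W) (n r a : ℕ) (hr : 1 ≤ r)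
    (han : a ≤ n) (ha : ∀ C : L.Coloring (Fin (r + 1)), a < #{w | C w = 0}) :
    a * (n - a) + #(turanGraph n r).edgeFinset ≤ extremalNumber n L + a * (n - n / r) := by
  classical
  obtain ⟨X, -, hX⟩ : ∃ X ⊆ (univ : Finset (Fin n)), #X = a :=
    exists_subset_card_eq (by rw [Finset.card_univ, Fintype.card_fin]; exact han)
  have h1 := card_edgeFinset_le_extremalNumber (hub_turan_free L n r hr X (by rw [hX]; exact ha))
  rw [Fintype.card_fin] at h1
  have h2 := hubGraph_card (turanGraph n r) X X (Finset.Subset.refl _)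
  rw [Fintype.card_fin, hX] at h2
  have h3 := card_edges_le (turanGraph n r) X
  have h4 : ∑ x ∈ X, (turanGraph n r).degree x ≤ a * (n - n / r) := by
    rw [← hX, ← smul_eq_mul]
    apply Finset.sum_le_card_nsmul
    intro x _
    have := turan_degree_le n r x
    omega
  omega

theorem crit_real {r n D U a k σ c₀ ε δ e x ex d : ℝ} (hr : 1 ≤ r) (hD0 : 0 ≤ D)
    (hDd : D ≤ d) (hU : U = n - D) (ha : a = σ - 1)
    (hδ : δ = (k - 1) / r - c₀) (hε : ε = δ / 2)
    (h1 : (1 - 1 / r) * n ^ 2 / 2 - r ^ 2 + a * (n - a) - a * (n - (n / r - 1)) ≤ e)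
    (h2 : 2 * e ≤ d ^ 2 + 2 * x + 2 * ex)
    (h3 : x + k / r * n ≤ n * ((1 - 1 / r) * D + σ / r + ε))
    (h4 : ex ≤ (1 - 1 / r) * U ^ 2 / 2 + c₀ * U) :
    δ / 2 * n ≤ r ^ 2 + a ^ 2 + a + d ^ 2 + |c₀| * d := by
  have hr0 : 0 < r := by linarith
  have hinv : 1 / r ≤ 1 := by rw [div_le_one hr0]; exact hr
  have hinv0 : 0 ≤ 1 / r := by positivity
  have h5 : (1 - 1 / r) * D ^ 2 / 2 ≤ d ^ 2 / 2 := by
    have e1 : D ^ 2 ≤ d ^ 2 := by nlinarith
    have e2 : (1 - 1 / r) * D ^ 2 ≤ 1 * d ^ 2 :=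
      mul_le_mul (by linarith) e1 (by positivity) (by norm_num)
    linarith
  have h6 : -(c₀ * D) ≤ |c₀| * d := by
    have e1 : -(c₀ * D) ≤ |c₀| * D := by
      rw [← neg_mul]
      exact mul_le_mul_of_nonneg_right (neg_le_abs c₀) hD0
    have e2 : |c₀| * D ≤ |c₀| * d := mul_le_mul_of_nonneg_left hDd (abs_nonneg _)
    linarith
  have h7 : (1 - 1 / r) * U ^ 2 / 2 = (1 - 1 / r) * n ^ 2 / 2 - (1 - 1 / r) * D * n +
      (1 - 1 / r) * D ^ 2 / 2 := by rw [hU]; ring
  have h8 : a * (n - a) - a * (n - (n / r - 1)) = (σ - 1) / r * n - a ^ 2 - a := by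
    rw [ha]; ring
  have h9 : c₀ * U = c₀ * n - c₀ * D := by rw [hU]; ring
  have h10 : n * ((1 - 1 / r) * D + σ / r + ε) =
      (1 - 1 / r) * D * n + σ / r * n + ε * n := by ring
  have h11 : (σ - 1) / r * n + k / r * n = σ / r * n + (k - 1) / r * n := by ring
  have h12 : δ * n = (k - 1) / r * n - c₀ * n := by rw [hδ]; ring
  have h13 : ε * n = δ / 2 * n := by rw [hε]
  have h14 : δ / 2 * n + δ / 2 * n = δ * n := by ring
  linarith

/-- The graph `G` without the edges inside `D`. -/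
def coreless {V : Type} (G : SimpleGraph V) (D : Finset V) : SimpleGraph V where
  Adj u v := G.Adj u v ∧ ¬ (u ∈ D ∧ v ∈ D)
  symm := ⟨fun _ _ h => ⟨h.1.symm, fun h' => h.2 ⟨h'.2, h'.1⟩⟩⟩
  loopless := ⟨fun _ h => h.1.ne rfl⟩

theorem dsum_part_le {n : ℕ} {W ι : Type} [Fintype W] [DecidableEq ι] {L : SimpleGraph W}
    {G : SimpleGraph (Fin n)} [DecidableRel G.Adj] (c : W → ι)
    (hc : ∀ a b, L.Adj a b → c a = c b) (D : Finset (Fin n))
    (hD : ∀ (f : Copy L G) (w : W), f w ∈ D) (f₀ : Copy L G) (label : Fin n → ι)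
    (hlabel : ∀ w, label (f₀ w) = c w) (i : ι)
    (hedge : ∃ a b : {w | c w = i}, (L.induce {w | c w = i}).Adj a b) :
    2 * dsum G (univ \ D) (D.filter (fun x => label x = i)) + dsum G (univ \ D) (univ \ D) ≤
      2 * extremalNumber (#(univ \ D) + #(D.filter (fun x => label x = i)))
        (L.induce {w | c w = i}) := by
  classical
  set U : Finset (Fin n) := univ \ D with hU
  set D₀ := D.filter (fun x => label x = i) with hD₀
  have hdisj : Disjoint U D₀ := by
    rw [Finset.disjoint_left]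
    intro x hx hx'
    exact (Finset.mem_sdiff.mp hx).2 (mem_filter.mp hx').1
  have h1 := dsum_le_extremal (coreless G D) (L.induce {w | c w = i}) (U ∪ D₀) (by
    intro f
    by_contra hcon
    push Not at hcon
    let g : Copy (L.induce {w | c w = i}) G :=
      ⟨⟨fun a => f a, fun {a b} hab => (f.toHom.map_rel' hab).1⟩, f.injective⟩
    by_cases hex : ∃ a, g a ∉ D
    · refine piece_part_free c hc D hD f₀ label hlabel i g ?_ hex
      intro a
      have := hcon a
      rw [mem_union] at this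
      rcases this with h | h
      · exact Or.inr (Finset.mem_sdiff.mp h).2
      · exact Or.inl h
    · push Not at hex
      obtain ⟨a, b, hab⟩ := hedge
      exact (f.toHom.map_rel' hab).2 ⟨hex a, hex b⟩)
  rw [card_union_of_disjoint hdisj, dsum_union_left _ _ _ _ hdisj, dsum_union_right _ _ _ _ hdisj,
    dsum_union_right _ _ _ _ hdisj, dsum_comm _ D₀ U] at h1
  have h2 : ∀ B : Finset (Fin n), dsum (coreless G D) U B = dsum G U B := by
    intro B
    unfold dsum
    apply Finset.sum_congr rfl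
    intro x hx
    congr 1
    ext y
    rw [mem_filter, mem_filter]
    constructor
    · exact fun h => ⟨h.1, h.2.1⟩
    · exact fun h => ⟨h.1, h.2, fun h' => (Finset.mem_sdiff.mp hx).2 h'.1⟩
  rw [h2, h2] at h1
  omega

set_option maxHeartbeats 1000000 in
/-- A component with small extremal number. -/
theorem tendsto_sparse {W ι : Type} [Fintype W] [Fintype ι] [DecidableEq ι] (L : SimpleGraph W)
    (c : W → ι) (hc : ∀ a b, L.Adj a b → c a = c b) (r : ℕ) (hr : 1 ≤ r)
    (hcol : L.Colorable (r + 1)) (hnc : ∀ i, ¬ (L.induce {w | c w = i}).Colorable r)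
    (i₀ : ι) (σ₀ : ℕ)
    (hσ₀ : ∀ C : (L.induce {w | c w = i₀}).Coloring (Fin (r + 1)), σ₀ ≤ #{w | C w = 0})
    (c₀ : ℝ) (hc₀ : c₀ < (σ₀ + card ι - 2) / r)
    (hex : ∀ᶠ m : ℕ in atTop, (extremalNumber m (L.induce {w | c w = i₀}) : ℝ) ≤
      (1 - 1 / r) * m ^ 2 / 2 + c₀ * m) :
    Tendsto (fun n => minCopies n L) atTop atTop := by
  classical
  -- colour classes in the pieces
  have hC0 : ∀ (C : L.Coloring (Fin (r + 1))) (i : ι), ∃ w, c w = i ∧ C w = 0 := by
    intro C i
    by_contra hcon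
    push Not at hcon
    apply hnc i
    refine ⟨Coloring.mk (fun a => (C a).pred (hcon a a.2)) ?_⟩
    intro a b hab h
    exact C.valid hab (Fin.pred_inj.mp h)
  have hC1 : ∀ (C : L.Coloring (Fin (r + 1))) (i : ι), ∃ w, c w = i ∧ C w ≠ 0 := by
    intro C i
    by_contra hcon
    push Not at hcon
    apply hnc i
    refine ⟨Coloring.mk (fun _ => ⟨0, by omega⟩) ?_⟩
    intro a b hab _
    exact C.valid hab ((hcon a a.2).trans (hcon b b.2).symm)
  have hedge : ∃ a b : {w | c w = i₀}, (L.induce {w | c w = i₀}).Adj a b := by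
    by_contra hcon
    push Not at hcon
    apply hnc i₀
    exact ⟨Coloring.mk (fun _ => ⟨0, by omega⟩) (fun {a b} hab => absurd hab (hcon a b))⟩
  have hcs : ∀ i, ∃ a, c a = i := by
    intro i
    obtain ⟨C⟩ := hcol
    obtain ⟨w, hw, -⟩ := hC0 C i
    exact ⟨w, hw⟩
  have hncL : ¬ L.Colorable r := by
    rintro ⟨C⟩
    exact hnc i₀ ⟨Coloring.mk (fun a => C a) (fun {a b} hab => C.valid hab)⟩
  have hLne : L ≠ ⊥ := by
    rintro rfl
    apply hncL
    exact ⟨Coloring.mk (fun _ => ⟨0, by omega⟩) (fun {a b} hab => absurd hab (by simp))⟩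
  -- a colouring with smallest class
  obtain ⟨C, hCmin⟩ : ∃ C : L.Coloring (Fin (r + 1)), ∀ C' : L.Coloring (Fin (r + 1)),
      #{w | C w = 0} ≤ #{w | C' w = 0} := by
    have hex : ∃ s, ∃ C : L.Coloring (Fin (r + 1)), #{w | C w = 0} = s := by
      obtain ⟨C⟩ := hcol
      exact ⟨_, C, rfl⟩
    obtain ⟨C, hC⟩ := Nat.find_spec hex
    exact ⟨C, fun C' => by rw [hC]; exact Nat.find_min' hex ⟨C', rfl⟩⟩
  set σ := #{w | C w = 0} with hσ
  have hσ1 : 1 ≤ σ := by
    obtain ⟨w, -, hw⟩ := hC0 C i₀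
    rw [hσ, Nat.succ_le_iff, Finset.card_pos]
    exact ⟨w, by rw [mem_filter]; exact ⟨mem_univ _, hw⟩⟩
  set σ' := #{w | C w = 0 ∧ c w ∈ univ.erase i₀} with hσ'
  set σ'' := #{w | C w = 0 ∧ c w = i₀} with hσ''
  have hσsum : σ' + σ'' = σ := by
    rw [hσ, ← Finset.card_filter_add_card_filter_not (s := {w | C w = 0}) (fun w => c w = i₀),
      add_comm]
    congr 1
    · rw [Finset.filter_filter]
    · rw [Finset.filter_filter, hσ']
      congr 1
      ext w
      simp
  have hσ₀'' : σ₀ ≤ σ'' := by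
    refine (hσ₀ (Coloring.mk (fun a => C a) (fun {a b} hab => C.valid hab))).trans ?_
    rw [← Finset.card_map (Function.Embedding.subtype _)]
    apply card_le_card
    intro w hw
    rw [Finset.mem_map] at hw
    obtain ⟨a, ha, rfl⟩ := hw
    rw [mem_filter] at ha ⊢
    exact ⟨mem_univ _, ha.2, a.2⟩
  have hrR : (1 : ℝ) ≤ r := by exact_mod_cast hr
  set k' : ℝ := (card ι : ℝ) - 1 + σ'' with hk'
  set δ : ℝ := (k' - 1) / r - c₀ with hδ
  have hδ0 : 0 < δ := by
    have h1 : ((σ₀ : ℝ) + card ι - 2) / r ≤ (k' - 1) / r := by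
      apply div_le_div_of_nonneg_right _ (by linarith)
      have : (σ₀ : ℝ) ≤ σ'' := by exact_mod_cast hσ₀''
      rw [hk']
      linarith
    rw [hδ]; linarith
  apply tendsto_minCopies_of L hLne
  intro d
  obtain ⟨C', hC'⟩ := core_bound c hc i₀ hcs r hr C (hC0 C) (hC1 C) hncL d (δ / 2) (by linarith)
  obtain ⟨M, hM⟩ := eventually_atTop.mp hex
  set K : ℝ := (r : ℝ) ^ 2 + ((σ : ℝ) - 1) ^ 2 + ((σ : ℝ) - 1) + d ^ 2 + |c₀| * d with hK
  filter_upwards [hC', eventually_ge_atTop (M + d), eventually_ge_atTop σ,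
    eventually_gt_atTop ⌈2 * K / δ⌉₊] with n hn hnM hnσ hnK G _ hG D hDd hD
  obtain ⟨f₀⟩ := copy_of_extremal hG
  obtain ⟨label, hlabel⟩ := exists_label c i₀ f₀
  obtain ⟨h1, -⟩ := hn G hG D hDd hD f₀ label hlabel
  replace h1 := h1 (univ.erase i₀)
  have h2 := two_mul_card_edges_le G D
  have h3 := dsum_part_le c hc D hD f₀ label hlabel i₀ hedge
  set U : Finset (Fin n) := univ \ D with hU
  set D₁ := D.filter (fun x => label x ∈ univ.erase i₀) with hD₁
  set D₀ := D.filter (fun x => label x = i₀) with hD₀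
  have hUcard : #U + #D = n := by
    rw [hU, card_sdiff_of_subset (subset_univ _), Finset.card_univ, Fintype.card_fin]
    have := card_le_univ D
    rw [Fintype.card_fin] at this
    omega
  have hD01 : D = D₀ ∪ D₁ := by
    ext x
    rw [mem_union, hD₀, hD₁, mem_filter, mem_filter]
    simp only [mem_erase, mem_univ, and_true]
    tauto
  have hdisj : Disjoint D₀ D₁ := by
    rw [Finset.disjoint_left]
    intro x hx hx'
    rw [hD₀, mem_filter] at hx
    rw [hD₁, mem_filter] at hx'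
    exact (mem_erase.mp hx'.2).1 hx.2
  have hDcard : #D = #D₀ + #D₁ := by
    conv_lhs => rw [hD01]
    exact card_union_of_disjoint hdisj
  have hUD : dsum G U D = dsum G U D₀ + dsum G U D₁ := by
    conv_lhs => rw [hD01]
    exact dsum_union_right G U D₀ D₁ hdisj
  have h4 : dsum G D D ≤ d ^ 2 := by
    refine (dsum_le G D D).trans ?_
    rw [pow_two]
    exact Nat.mul_le_mul hDd hDd
  have h5 := hM (#U + #D₀) (by omega)
  have h6 := hub_turan_lower L n r (σ - 1) hr (by omega) (fun C' => by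
    have := hCmin C'
    omega)
  have h7 := turan_lower n r hr
  have h8 : (((σ - 1 : ℕ) : ℝ)) = (σ : ℝ) - 1 := by
    rw [Nat.cast_sub hσ1]; simp
  have h9 : (n : ℝ) / r - 1 ≤ ((n / r : ℕ) : ℝ) := by
    have h10 := Nat.div_add_mod n r
    have h11 := Nat.mod_lt n (by omega : 0 < r)
    have h12 : n < (n / r + 1) * r := by nlinarith
    have h13 : (n : ℝ) ≤ ((n / r : ℕ) + 1) * r := by exact_mod_cast h12.le
    have h14 : (n : ℝ) / r ≤ ((n / r : ℕ) : ℝ) + 1 := by
      rw [div_le_iff₀ (by linarith)]; exact h13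
    linarith
  have hιcard : 1 ≤ card ι := Fintype.card_pos_iff.mpr ⟨i₀⟩
  have hfin := crit_real (r := r) (n := n) (D := #D₁) (U := (#U + #D₀ : ℕ)) (a := (σ : ℝ) - 1)
    (k := k') (σ := σ) (c₀ := c₀) (ε := δ / 2) (δ := δ) (e := #G.edgeFinset)
    (x := dsum G U D₁) (ex := extremalNumber (#U + #D₀) (L.induce {w | c w = i₀})) (d := d)
    hrR (Nat.cast_nonneg _) (by
      have : #D₁ ≤ d := by omega
      exact_mod_cast this)
    (by
      rw [eq_sub_iff_add_eq]
      have : #U + #D₀ + #D₁ = n := by omega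
      exact_mod_cast this) rfl hδ rfl
    (by
      have e1 : (((σ - 1) * (n - (σ - 1)) + #(turanGraph n r).edgeFinset : ℕ) : ℝ) ≤
          ((extremalNumber n L + (σ - 1) * (n - n / r) : ℕ) : ℝ) := by exact_mod_cast h6
      have e2 : n / r ≤ n := Nat.div_le_self _ _
      rw [Nat.cast_add, Nat.cast_add, Nat.cast_mul, Nat.cast_mul, Nat.cast_sub e2,
        Nat.cast_sub (by omega : σ - 1 ≤ n), h8] at e1
      have e3 : (#G.edgeFinset : ℝ) = extremalNumber n L + 1 := by exact_mod_cast hG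
      have e4 : (0 : ℝ) ≤ (σ : ℝ) - 1 := by rw [← h8]; exact Nat.cast_nonneg _
      have e5 : ((σ : ℝ) - 1) * (n - ((n / r : ℕ) : ℝ)) ≤ ((σ : ℝ) - 1) * (n - (n / r - 1)) := by
        apply mul_le_mul_of_nonneg_left _ e4
        linarith
      linarith)
    (by
      have e1 : 2 * (#G.edgeFinset : ℝ) = dsum G D D + 2 * (dsum G U D₀ + dsum G U D₁) +
          dsum G U U := by
        rw [hUD] at h2
        exact_mod_cast h2
      have e2 : (dsum G D D : ℝ) ≤ d ^ 2 := by exact_mod_cast h4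
      have e3 : 2 * (dsum G U D₀ : ℝ) + dsum G U U ≤
          2 * extremalNumber (#U + #D₀) (L.induce {w | c w = i₀}) := by
        exact_mod_cast h3
      linarith)
    (by
      have e1 : (#(univ.erase i₀) : ℝ) = (card ι : ℝ) - 1 := by
        rw [card_erase_of_mem (mem_univ _), Finset.card_univ, Nat.cast_sub hιcard]
        simp
      rw [e1, ← hσ'] at h1
      have e2 : (σ : ℝ) = σ' + σ'' := by exact_mod_cast hσsum.symm
      have e3 : (dsum G U D₁ : ℝ) + k' / r * n =
          (dsum G U D₁ + ((card ι : ℝ) - 1) / r * n) + σ'' / r * n := by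
        rw [hk']; ring
      have e4 : (n : ℝ) * ((1 - 1 / (r : ℝ)) * #D₁ + σ / r + δ / 2) =
          n * ((1 - 1 / (r : ℝ)) * #D₁ + σ' / r + δ / 2) + σ'' / r * n := by
        rw [e2]; ring
      rw [e3, e4]
      linarith)
    h5
  have h10 : 2 * K / δ < n := lt_of_le_of_lt (Nat.le_ceil _) (by exact_mod_cast hnK)
  rw [div_lt_iff₀ hδ0] at h10
  rw [← hK] at hfin
  linarith

end Pool.Agent.Helper49.Copies
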