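import Mathlib

/-!
# The function `A(n; L)`
-/

open Finset Fintype

namespace Pool.Agent.Helper49.Copies

open SimpleGraph

/-- `A(n; L)`: the least number of copies of `L` (subgraphs isomorphic to `L`) in a graph with `n`
vertices and exactly `ex(n; L) + 1` edges. -/
noncomputable def minCopies (n : ℕ) {W : Type*} (L : SimpleGraph W) : ℕ :=
  open Classical in
  sInf {c | ∃ G : SimpleGraph (Fin n),
    #G.edgeFinset = extremalNumber n L + 1 ∧ G.copyCount L = c}

end Pool.Agent.Helper49.Copies
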