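import Pool.Agent.Helper49.CopiesMain

/-!
# Disjoint unions of bipartite graphs with feedback number one
-/

open Finset Fintype Filter

namespace Pool.Agent.Helper49.Copies

open SimpleGraph

/-- Pruning to large minimum degree. -/
theorem exists_prune {V : Type} [DecidableEq V] (G : SimpleGraph V)
    [DecidableRel G.Adj] (A U : Finset V) (t : ℕ)
    (h : t * (#A + #U) < #((A ×ˢ U).filter (fun p => G.Adj p.1 p.2))) :
    ∃ A' ⊆ A, ∃ U' ⊆ U, A'.Nonempty ∧ U'.Nonempty ∧
      (∀ a ∈ A', t ≤ #(U'.filter (fun b => G.Adj a b))) ∧
      (∀ b ∈ U', t ≤ #(A'.filter (fun a => G.Adj a b))) := by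
  classical
  let φ : Finset V × Finset V → ℤ := fun q =>
    (#((q.1 ×ˢ q.2).filter (fun p => G.Adj p.1 p.2)) : ℤ) - t * (#q.1 + #q.2)
  obtain ⟨⟨A', U'⟩, hmem, hmax⟩ := exists_max_image (A.powerset ×ˢ U.powerset) φ
    ⟨(A, U), by simp⟩
  rw [mem_product, mem_powerset, mem_powerset] at hmem
  have hpos : 0 < φ (A', U') := by
    refine lt_of_lt_of_le ?_ (hmax (A, U) (by simp))
    simp only [φ]
    have : ((t * (#A + #U) : ℕ) : ℤ) < (#((A ×ˢ U).filter (fun p => G.Adj p.1 p.2)) : ℤ) := by
      exact_mod_cast h
    push_cast at this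
    linarith
  have hne : ((A' ×ˢ U').filter (fun p => G.Adj p.1 p.2)).Nonempty := by
    rw [← card_pos]
    simp only [φ] at hpos
    have : (0 : ℤ) ≤ t * (#A' + #U') := by positivity
    have h2 : (0 : ℤ) < (#((A' ×ˢ U').filter (fun p => G.Adj p.1 p.2)) : ℤ) := by linarith
    exact_mod_cast h2
  obtain ⟨p, hp⟩ := hne
  rw [mem_filter, mem_product] at hp
  refine ⟨A', hmem.1, U', hmem.2, ⟨p.1, hp.1.1⟩, ⟨p.2, hp.1.2⟩, ?_, ?_⟩
  · intro a ha
    have h1 := hmax (A'.erase a, U') (by
      rw [mem_product, mem_powerset, mem_powerset]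
      exact ⟨(erase_subset _ _).trans hmem.1, hmem.2⟩)
    simp only [φ] at h1
    have h2 : #((A' ×ˢ U').filter (fun p => G.Adj p.1 p.2)) ≤
        #(((A'.erase a) ×ˢ U').filter (fun p => G.Adj p.1 p.2)) +
          #(U'.filter (fun b => G.Adj a b)) := by
      have h3 : (A' ×ˢ U').filter (fun p => G.Adj p.1 p.2) ⊆
          ((A'.erase a) ×ˢ U').filter (fun p => G.Adj p.1 p.2) ∪
            (U'.filter (fun b => G.Adj a b)).image (fun b => (a, b)) := by
        intro p hp
        rw [mem_filter, mem_product] at hp
        rw [mem_union, mem_filter, mem_product, mem_erase, mem_image]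
        by_cases h : p.1 = a
        · right
          exact ⟨p.2, by rw [mem_filter]; exact ⟨hp.1.2, h ▸ hp.2⟩, Prod.ext h.symm rfl⟩
        · left
          exact ⟨⟨⟨h, hp.1.1⟩, hp.1.2⟩, hp.2⟩
      exact (card_le_card h3).trans ((card_union_le _ _).trans
        (Nat.add_le_add_left card_image_le _))
    have h4 := card_erase_add_one ha
    have h5 : (#(A'.erase a) : ℤ) + 1 = #A' := by exact_mod_cast h4
    have h6 : (#((A' ×ˢ U').filter (fun p => G.Adj p.1 p.2)) : ℤ) ≤
        #(((A'.erase a) ×ˢ U').filter (fun p => G.Adj p.1 p.2)) +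
          #(U'.filter (fun b => G.Adj a b)) := by exact_mod_cast h2
    rw [← h5] at h1
    have h7 : (t : ℤ) ≤ #(U'.filter (fun b => G.Adj a b)) := by linarith
    exact_mod_cast h7
  · intro b hb
    have h1 := hmax (A', U'.erase b) (by
      rw [mem_product, mem_powerset, mem_powerset]
      exact ⟨hmem.1, (erase_subset _ _).trans hmem.2⟩)
    simp only [φ] at h1
    have h2 : #((A' ×ˢ U').filter (fun p => G.Adj p.1 p.2)) ≤
        #((A' ×ˢ (U'.erase b)).filter (fun p => G.Adj p.1 p.2)) +
          #(A'.filter (fun a => G.Adj a b)) := by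
      have h3 : (A' ×ˢ U').filter (fun p => G.Adj p.1 p.2) ⊆
          (A' ×ˢ (U'.erase b)).filter (fun p => G.Adj p.1 p.2) ∪
            (A'.filter (fun a => G.Adj a b)).image (fun a => (a, b)) := by
        intro p hp
        rw [mem_filter, mem_product] at hp
        rw [mem_union, mem_filter, mem_product, mem_erase, mem_image]
        by_cases h : p.2 = b
        · right
          exact ⟨p.1, by rw [mem_filter]; exact ⟨hp.1.1, h ▸ hp.2⟩, Prod.ext rfl h.symm⟩
        · left
          exact ⟨⟨hp.1.1, ⟨h, hp.1.2⟩⟩, hp.2⟩
      exact (card_le_card h3).trans ((card_union_le _ _).trans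
        (Nat.add_le_add_left card_image_le _))
    have h4 := card_erase_add_one hb
    have h5 : (#(U'.erase b) : ℤ) + 1 = #U' := by exact_mod_cast h4
    have h6 : (#((A' ×ˢ U').filter (fun p => G.Adj p.1 p.2)) : ℤ) ≤
        #((A' ×ˢ (U'.erase b)).filter (fun p => G.Adj p.1 p.2)) +
          #(A'.filter (fun a => G.Adj a b)) := by exact_mod_cast h2
    rw [← h5] at h1
    have h7 : (t : ℤ) ≤ #(A'.filter (fun a => G.Adj a b)) := by linarith
    exact_mod_cast h7

/-- A finite nonempty forest has a vertex with at most one neighbour. -/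
theorem exists_leaf {W : Type} [Fintype W] [Nonempty W] (F : SimpleGraph W)
    (hF : F.IsAcyclic) : ∃ v u : W, ∀ z, F.Adj v z → z = u := by
  classical
  obtain ⟨T, hFT, -, hT⟩ :=
    (connected_top : (⊤ : SimpleGraph W).Connected).exists_isTree_le_of_le_of_isAcyclic
    le_top hF
  rcases subsingleton_or_nontrivial W with hs | hn
  · exact ⟨Classical.arbitrary W, Classical.arbitrary W, fun z _ => Subsingleton.elim _ _⟩
  · obtain ⟨v, hv⟩ := hT.exists_vert_degree_one_of_nontrivial
    obtain ⟨u, -, huniq⟩ := degree_eq_one_iff_existsUnique_adj.mp hv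
    exact ⟨v, u, fun z hz => huniq z (hFT hz)⟩

/-- Greedy embedding of a 2-coloured forest into a bipartite pair of large minimum degree. -/
theorem forest_embed {V : Type} [DecidableEq V] (G : SimpleGraph V) [DecidableRel G.Adj]
    (A U : Finset V) (hA : A.Nonempty) (hU : U.Nonempty) (t : ℕ)
    (hAU : ∀ a ∈ A, t ≤ #(U.filter (fun b => G.Adj a b)))
    (hUA : ∀ b ∈ U, t ≤ #(A.filter (fun a => G.Adj a b))) (k : ℕ) (hkt : k ≤ t) :
    ∀ {W : Type} [Fintype W] (F : SimpleGraph W), F.IsAcyclic → card W = k →
    ∀ col : W → Bool, (∀ a b, F.Adj a b → col a ≠ col b) →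
    ∃ f : Copy F G, (∀ w, col w = true → f w ∈ A) ∧ ∀ w, col w = false → f w ∈ U := by
  classical
  have hAt : t ≤ #A := by
    obtain ⟨b, hb⟩ := hU
    exact (hUA b hb).trans (card_filter_le _ _)
  have hUt : t ≤ #U := by
    obtain ⟨a, ha⟩ := hA
    exact (hAU a ha).trans (card_filter_le _ _)
  induction k with
  | zero =>
    intro W _ F _ hW col _
    have : IsEmpty W := Fintype.card_eq_zero_iff.mp hW
    exact ⟨⟨⟨fun w => isEmptyElim w, fun {a} => isEmptyElim a⟩, fun a => isEmptyElim a⟩,
      fun w => isEmptyElim w, fun w => isEmptyElim w⟩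
  | succ k ih =>
    intro W _ F hF hW col hcol
    have : Nonempty W := Fintype.card_pos_iff.mp (by omega)
    obtain ⟨v, u, huniq⟩ := exists_leaf F hF
    have hcard' : card (({v}ᶜ : Set W)) = k := by
      rw [Fintype.card_compl_set]; simp [hW]
    obtain ⟨f, hf1, hf2⟩ := ih (by omega) (F.induce ({v}ᶜ : Set W)) (hF.induce _) hcard'
      (fun w => col w) (fun a b hab => hcol a b hab)
    set I : Finset V := Finset.univ.image f with hI
    have hIcard : #I ≤ k := by
      rw [hI]
      refine card_image_le.trans ?_
      rw [Finset.card_univ, hcard']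
    -- the new vertex
    obtain ⟨y, hyI, hyA, hyU, hyadj⟩ : ∃ y, y ∉ I ∧ (col v = true → y ∈ A) ∧
        (col v = false → y ∈ U) ∧ ∀ (hu : u ≠ v), F.Adj v u → G.Adj y (f ⟨u, hu⟩) := by
      have hpick : ∀ S : Finset V, t ≤ #S → ∃ y ∈ S, y ∉ I := by
        intro S hS
        by_contra hcon
        push Not at hcon
        have := card_le_card (fun y hy => hcon y hy : S ⊆ I)
        omega
      by_cases hvu : F.Adj v u
      · have huv : u ≠ v := hvu.ne'
        have hne := hcol v u hvu
        cases hc : col v
        · have hcu : col u = true := by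
            cases h : col u
            · exact absurd (hc.trans h.symm) hne
            · rfl
          have h1 := hAU _ (hf1 ⟨u, huv⟩ hcu)
          obtain ⟨y, hy, hyI⟩ := hpick _ h1
          rw [mem_filter] at hy
          exact ⟨y, hyI, by simp, fun _ => hy.1, fun _ _ => hy.2.symm⟩
        · have hcu : col u = false := by
            cases h : col u
            · rfl
            · exact absurd (hc.trans h.symm) hne
          have h1 := hUA _ (hf2 ⟨u, huv⟩ hcu)
          obtain ⟨y, hy, hyI⟩ := hpick _ h1
          rw [mem_filter] at hy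
          exact ⟨y, hyI, fun _ => hy.1, by simp, fun _ _ => hy.2⟩
      · cases hc : col v
        · obtain ⟨y, hy, hyI⟩ := hpick U hUt
          exact ⟨y, hyI, by simp, fun _ => hy, fun _ h => absurd h hvu⟩
        · obtain ⟨y, hy, hyI⟩ := hpick A hAt
          exact ⟨y, hyI, fun _ => hy, by simp, fun _ h => absurd h hvu⟩
    have hyf : ∀ a, f a ≠ y := by
      intro a ha
      exact hyI (ha ▸ Finset.mem_image_of_mem _ (Finset.mem_univ _))
    let g : W → V := fun w => if h : w = v then y else f ⟨w, by simpa using h⟩
    have hgv : g v = y := by simp [g]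
    have hgne : ∀ w (h : w ≠ v), g w = f ⟨w, by simpa using h⟩ := by
      intro w h; simp [g, h]
    refine ⟨⟨⟨g, ?_⟩, ?_⟩, ?_, ?_⟩
    · intro a b hab
      by_cases ha : a = v
      · have hb : b ≠ v := by rintro rfl; exact hab.ne ha
        rw [ha] at hab
        have hbu : b = u := huniq b hab
        rw [ha, hgv, hgne b hb]
        subst hbu
        exact hyadj hb hab
      · by_cases hb : b = v
        · rw [hb] at hab
          have hau : a = u := huniq a hab.symm
          rw [hb, hgv, hgne a ha]
          subst hau
          exact (hyadj ha hab.symm).symm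
        · rw [hgne a ha, hgne b hb]
          exact f.toHom.map_rel' (a := ⟨a, by simpa using ha⟩) (b := ⟨b, by simpa using hb⟩) hab
    · intro a b hab
      change g a = g b at hab
      by_cases ha : a = v
      · by_cases hb : b = v
        · rw [ha, hb]
        · rw [ha, hgv, hgne b hb] at hab
          exact absurd hab.symm (hyf _)
      · by_cases hb : b = v
        · rw [hb, hgv, hgne a ha] at hab
          exact absurd hab (hyf _)
        · rw [hgne a ha, hgne b hb] at hab
          have := f.injective hab
          simpa using this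
    · intro w hw
      change g w ∈ A
      by_cases h : w = v
      · rw [h, hgv]; exact hyA (h ▸ hw)
      · rw [hgne w h]; exact hf1 _ hw
    · intro w hw
      change g w ∈ U
      by_cases h : w = v
      · rw [h, hgv]; exact hyU (h ▸ hw)
      · rw [hgne w h]; exact hf2 _ hw

/-- Monotonicity of the extremal number in the number of vertices. -/
theorem extremalNumber_mono_left {W : Type} (L : SimpleGraph W) (hiso : ∀ a, ∃ b, L.Adj a b)
    {m n : ℕ} (hmn : m ≤ n) : extremalNumber m L ≤ extremalNumber n L := by
  classical
  conv_lhs => rw [← Fintype.card_fin m]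
  rw [extremalNumber_le_iff]
  intro G _ hfree
  let e : Fin m ↪ Fin n := Fin.castLEEmb hmn
  obtain ⟨G', hG'⟩ : ∃ G' : SimpleGraph (Fin n), G' = G.map e := ⟨_, rfl⟩
  have hadj' : ∀ x y, G'.Adj x y → ∃ a b, G.Adj a b ∧ e a = x ∧ e b = y := by
    intro x y h
    rw [hG', SimpleGraph.map_adj] at h
    exact h
  have hfree' : L.Free G' := by
    rintro ⟨f⟩
    apply hfree
    have hex : ∀ a, ∃ x, e x = f a := by
      intro a
      obtain ⟨b, hb⟩ := hiso a
      have h := f.toHom.map_rel' hb
      change G'.Adj (f a) (f b) at h
      obtain ⟨x, y, -, hx, -⟩ := hadj' _ _ h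
      exact ⟨x, hx⟩
    choose g hg using hex
    refine ⟨⟨⟨g, ?_⟩, ?_⟩⟩
    · intro a b hab
      have h := f.toHom.map_rel' hab
      change G'.Adj (f a) (f b) at h
      rw [← hg a, ← hg b] at h
      obtain ⟨x, y, hxy, hx, hy⟩ := hadj' _ _ h
      rw [← e.injective hx, ← e.injective hy]
      exact hxy
    · intro a b hab
      change g a = g b at hab
      apply f.injective
      change f a = f b
      rw [← hg a, ← hg b, hab]
  have h1 := card_edgeFinset_le_extremalNumber hfree'
  rw [Fintype.card_fin] at h1
  refine le_trans ?_ h1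
  have h2 : #(G.edgeFinset.image (Sym2.map e)) ≤ #G'.edgeFinset := by
    apply card_le_card
    intro s hs
    rw [mem_image] at hs
    obtain ⟨s, hs, rfl⟩ := hs
    induction s using Sym2.inductionOn with | hf a b =>
    rw [mem_edgeFinset, mem_edgeSet] at hs
    rw [Sym2.map_mk, mem_edgeFinset, mem_edgeSet, hG', SimpleGraph.map_adj]
    exact ⟨a, b, hs, rfl, rfl⟩
  rwa [card_image_of_injective _ (Sym2.map.injective e.injective)] at h2

/-- Disjoint unions of at least two bipartite graphs, each with a cycle and each having a vertex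
whose deletion destroys all cycles: `A(n; L) → ∞`. -/
theorem tendsto_feedback {W : Type} [Fintype W] (L : SimpleGraph W)
    (hcon : ¬ L.Connected) (hbip : L.Colorable 2)
    (hcyc : ∀ i : L.ConnectedComponent, ¬ (L.induce i.supp).IsAcyclic)
    (hfb : ∀ i : L.ConnectedComponent, ∃ v ∈ i.supp, (L.induce (i.supp \ {v})).IsAcyclic)
    (hne : Nonempty W) :
    Tendsto (fun n => minCopies n L) atTop atTop := by
  classical
  -- no isolated vertices
  have hiso : ∀ a, ∃ b, L.Adj a b := by
    intro a
    by_contra hno
    push Not at hno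
    apply hcyc (L.connectedComponentMk a)
    have hsupp : ∀ x ∈ (L.connectedComponentMk a).supp, x = a := by
      intro x hx
      have hr : L.Reachable x a := ConnectedComponent.exact hx
      obtain ⟨p⟩ := hr.symm
      cases p with
      | nil => rfl
      | cons h _ => exact absurd h (hno _)
    have : Subsingleton (L.connectedComponentMk a).supp := by
      refine ⟨fun x y => Subtype.ext ?_⟩
      rw [hsupp x x.2, hsupp y y.2]
    exact IsAcyclic.of_subsingleton
  obtain ⟨C⟩ := hbip
  let col : W → Bool := fun w => decide (C w = 0)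
  have hcol : ∀ a b, L.Adj a b → col a ≠ col b := by
    intro a b hab h
    have h1 := C.valid hab
    have h2 : ∀ x : Fin 2, x = 0 ∨ x = 1 := by decide
    simp only [col, decide_eq_decide] at h
    rcases h2 (C a) with h3 | h3 <;> rcases h2 (C b) with h4 | h4 <;> simp_all
  have hι : 2 ≤ card L.ConnectedComponent := by
    by_contra hcon'
    apply hcon
    have hsub : Subsingleton L.ConnectedComponent := by
      rw [← Fintype.card_le_one_iff_subsingleton]; omega
    refine ⟨fun a b => ?_⟩
    exact ConnectedComponent.exact (Subsingleton.elim _ _)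
  set k := card L.ConnectedComponent with hk
  refine tendsto_of_hubs L hiso L.connectedComponentMk (fun i => i.exists_rep)
    (fun a b hab => ConnectedComponent.connectedComponentMk_eq_of_adj hab) hι
    (fun d n => n / (2 * (d + 1))) ?_ ?_
  · intro d
    filter_upwards [eventually_ge_atTop (2 * k ^ 2)] with n hn
    have h1 : d * (n / (2 * (d + 1))) * 2 ≤ n := by
      calc d * (n / (2 * (d + 1))) * 2 = (2 * d) * (n / (2 * (d + 1))) := by ring
        _ ≤ (2 * (d + 1)) * (n / (2 * (d + 1))) := Nat.mul_le_mul_right _ (by omega)
        _ ≤ n := Nat.mul_div_le _ _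
    rw [← hk]
    omega
  · intro d
    set ρ := d + k + card W with hρ
    set t := card W with ht
    set K := (2 * (d + ρ + 1) + 2 * t + 1) * (4 * (d + 1)) with hK
    obtain ⟨N₀, hN₀⟩ := eventually_atTop.mp (exists_girth (card W) K)
    filter_upwards [eventually_ge_atTop (4 * (d + 1) * (d + ρ + N₀ + 1))] with
      n hn G _ hG D hDd hD x hx i R hR hxR
    obtain ⟨f₀⟩ := copy_of_extremal hG
    set A := G.neighborFinset x \ (D ∪ R) with hA
    set U := (univ : Finset (Fin n)) \ (insert x (D ∪ R)) with hU
    have hDR : #(D ∪ R) ≤ d + ρ := (card_union_le _ _).trans (Nat.add_le_add hDd hR)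
    have hAcard : n ≤ 4 * (d + 1) * #A ∧ N₀ ≤ #A := by
      have h1 := le_card_sdiff (D ∪ R) (G.neighborFinset x)
      rw [card_neighborFinset_eq_degree, ← hA] at h1
      have h2 : n < 2 * (d + 1) * (G.degree x + 1) := by
        have := Nat.lt_mul_div_succ n (show 0 < 2 * (d + 1) by omega)
        refine this.trans_le ?_
        exact Nat.mul_le_mul_left _ (by omega)
      have h3 : G.degree x + 1 ≤ #A + (d + ρ + 1) := by omega
      have h4 : n < 2 * (d + 1) * (#A + (d + ρ + 1)) := h2.trans_le (Nat.mul_le_mul_left _ h3)
      constructor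
      · by_contra hc
        push Not at hc
        nlinarith
      · by_contra hc
        push Not at hc
        nlinarith
    -- many edges at A
    have hmany : t * (#A + #U) < #((A ×ˢ U).filter (fun p => G.Adj p.1 p.2)) := by
      by_contra hc
      push Not at hc
      obtain ⟨H, _, hH, hHK⟩ := hN₀ #A hAcard.2
      set S := insert x (D ∪ R) ∪ A with hS
      have hAS : A ⊆ S := subset_union_right
      have hins : #(insert x (D ∪ R)) ≤ d + ρ + 1 := (card_insert_le _ _).trans (by omega)
      -- edges meeting S
      have hdegA : ∀ a ∈ A, G.degree a ≤ #(U.filter (fun b => G.Adj a b)) + (d + ρ + 1) := by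
        intro a _
        rw [← card_neighborFinset_eq_degree]
        have hsub : G.neighborFinset a ⊆ U.filter (fun b => G.Adj a b) ∪ insert x (D ∪ R) := by
          intro y hy
          rw [mem_neighborFinset] at hy
          rw [mem_union, mem_filter, hU, Finset.mem_sdiff]
          by_cases h : y ∈ insert x (D ∪ R)
          · exact Or.inr h
          · exact Or.inl ⟨⟨mem_univ _, h⟩, hy⟩
        exact (card_le_card hsub).trans ((card_union_le _ _).trans (Nat.add_le_add_left hins _))
      have hsumA : ∑ a ∈ A, G.degree a ≤ t * (#A + #U) + #A * (d + ρ + 1) := by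
        refine (Finset.sum_le_sum hdegA).trans ?_
        rw [Finset.sum_add_distrib, Finset.sum_const, smul_eq_mul]
        refine Nat.add_le_add_right (le_trans (le_of_eq ?_) hc) _
        rw [card_filter, Finset.sum_product]
        apply Finset.sum_congr rfl
        intro a _
        rw [card_filter]
      have hn1 : ∀ T : Finset (Fin n), #T ≤ n := by
        intro T
        have := card_le_univ T
        rwa [Fintype.card_fin] at this
      have hsumS : ∑ y ∈ S, G.degree y ≤ (2 * (d + ρ + 1) + 2 * t) * n := by
        have h1 : ∑ y ∈ S, G.degree y ≤ ∑ y ∈ insert x (D ∪ R), G.degree y +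
            ∑ y ∈ A, G.degree y := by
          have := Finset.sum_union_inter (s₁ := insert x (D ∪ R)) (s₂ := A)
            (f := fun y => G.degree y)
          rw [← hS] at this
          omega
        have h2 : ∑ y ∈ insert x (D ∪ R), G.degree y ≤ (d + ρ + 1) * n := by
          refine (Finset.sum_le_card_nsmul _ _ n ?_).trans ?_
          · intro y _
            have := G.degree_lt_card_verts y
            rw [Fintype.card_fin] at this
            exact this.le
          · rw [smul_eq_mul]
            exact Nat.mul_le_mul_right _ hins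
        have h3 : t * (#A + #U) ≤ t * (n + n) :=
          Nat.mul_le_mul_left _ (Nat.add_le_add (hn1 _) (hn1 _))
        have h4 : #A * (d + ρ + 1) ≤ n * (d + ρ + 1) := Nat.mul_le_mul_right _ (hn1 _)
        have h5 : (2 * (d + ρ + 1) + 2 * t) * n = (d + ρ + 1) * n + t * (n + n) +
            n * (d + ρ + 1) := by ring
        omega
      have hedges := card_edges_le G S
      -- the comparison graph
      have hfree1 : (L.induce {w | L.connectedComponentMk w = i}).Free
          (G.induce ((S : Set (Fin n))ᶜ)) := by
        rintro ⟨g⟩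
        refine piece_free L.connectedComponentMk
          (fun a b hab => ConnectedComponent.connectedComponentMk_eq_of_adj hab) D hD f₀ i
          i.exists_rep ((Copy.induce G _).comp g) ?_
        intro a haD
        have h := (g a).2
        have hDS : ∀ y ∈ D, y ∈ S := by
          intro y hy
          rw [hS, mem_union, mem_insert, mem_union]
          exact Or.inl (Or.inr (Or.inl hy))
        exact h (Finset.mem_coe.2 (hDS _ haD))
      have hfree : L.Free ((G.induce ((S : Set (Fin n))ᶜ)) ⊕g H) := by
        rintro ⟨f⟩
        have hconn : (L.induce {w | L.connectedComponentMk w = i}).Connected :=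
          i.connected_toSimpleGraph
        have h1 := connected_copy_sum hconn hfree1 (piece L.connectedComponentMk f i)
        choose g hg using h1
        have h2 : (L.induce {w | L.connectedComponentMk w = i}) ⊑ H := by
          refine ⟨⟨⟨g, ?_⟩, ?_⟩⟩
          · intro a b hab
            have h := (piece L.connectedComponentMk f i).toHom.map_rel' hab
            change ((G.induce ((S : Set (Fin n))ᶜ)) ⊕g H).Adj
              (piece L.connectedComponentMk f i a) (piece L.connectedComponentMk f i b) at h
            rw [hg a, hg b] at h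
            simpa using h
          · intro a b hab
            change g a = g b at hab
            apply (piece L.connectedComponentMk f i).injective
            change piece L.connectedComponentMk f i a = piece L.connectedComponentMk f i b
            rw [hg a, hg b, hab]
        have h3 : ¬ (L.induce {w | L.connectedComponentMk w = i}).IsAcyclic := hcyc i
        apply h3
        rw [isAcyclic_iff_free_cycleGraph]
        intro m hm hmL
        have hmW : m ≤ card W := by
          obtain ⟨e⟩ := hmL
          have := Fintype.card_le_of_injective (fun j => ((e j : _) : W))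
            (fun a b hab => e.injective (Subtype.ext hab))
          rwa [Fintype.card_fin] at this
        exact hH m hm hmW (hmL.trans h2)
      have h1 := card_edgeFinset_le_extremalNumber hfree
      have h2 : #((G.induce ((S : Set (Fin n))ᶜ)) ⊕g H).edgeFinset =
          #(G.induce ((S : Set (Fin n))ᶜ)).edgeFinset + #H.edgeFinset := by
        have := Fintype.card_congr (edgeSetSumEquiv (G := G.induce ((S : Set (Fin n))ᶜ)) (H := H))
        rw [Fintype.card_sum] at this
        simp only [edgeFinset, Set.toFinset_card]
        convert this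
      have h3 : card (((S : Set (Fin n))ᶜ : Set (Fin n)) ⊕ Fin #A) ≤ n := by
        rw [Fintype.card_sum, Fintype.card_fin, Fintype.card_compl_set, Fintype.card_fin]
        have h4 := card_le_card hAS
        have h5 := hn1 S
        simp only [Finset.coe_sort_coe, Fintype.card_coe]
        omega
      have h4 := h1.trans (extremalNumber_mono_left L hiso h3)
      rw [h2] at h4
      have h5 : (2 * (d + ρ + 1) + 2 * t + 1) * n ≤ K * #A := by
        rw [hK, mul_assoc]
        exact Nat.mul_le_mul_left _ hAcard.1
      have h6 : (2 * (d + ρ + 1) + 2 * t + 1) * n = (2 * (d + ρ + 1) + 2 * t) * n + n := by ring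
      omega
    obtain ⟨A', hA', U', hU', hA'ne, hU'ne, hAU, hUA⟩ := exists_prune G A U t hmany
    obtain ⟨v, hv, hvF⟩ := hfb i
    have hkt : card (i.supp \ {v} : Set W) ≤ t := Fintype.card_subtype_le _
    let col' : (i.supp \ {v} : Set W) → Bool := fun w => xor (col w) (col v)
    obtain ⟨f, hf1, hf2⟩ := forest_embed G A' U' hA'ne hU'ne t hAU hUA _ hkt
      (L.induce (i.supp \ {v})) hvF rfl col' (by
        intro a b hab h
        have h1 := hcol a b hab
        simp only [col'] at h
        apply h1
        revert h
        cases col a <;> cases col b <;> cases col v <;> simp)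
    have hfx : ∀ a, f a ≠ x ∧ f a ∉ R := by
      intro a
      have hU2 : f a ∈ U := by
        cases h : col' a
        · exact hU' (hf2 a h)
        · have h1 := hA' (hf1 a h)
          rw [hA, Finset.mem_sdiff, mem_neighborFinset] at h1
          rw [hU, Finset.mem_sdiff, mem_insert, not_or]
          exact ⟨mem_univ _, h1.1.ne', h1.2⟩
      rw [hU, Finset.mem_sdiff, mem_insert, mem_union] at hU2
      push Not at hU2
      exact ⟨hU2.2.1, hU2.2.2.2⟩
    let g : {w | L.connectedComponentMk w = i} → Fin n := fun w =>
      if h : (w : W) = v then x else f ⟨w, ⟨w.2, h⟩⟩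
    have hgv : ∀ w : {w | L.connectedComponentMk w = i}, (w : W) = v → g w = x := by
      intro w h; simp [g, h]
    have hgn : ∀ w : {w | L.connectedComponentMk w = i}, ∀ h : (w : W) ≠ v,
        g w = f ⟨w, ⟨w.2, h⟩⟩ := by
      intro w h; simp [g, h]
    have hxv : ∀ w : {w | L.connectedComponentMk w = i}, ∀ h : (w : W) ≠ v, L.Adj v w →
        G.Adj x (g w) := by
      intro w h hvw
      rw [hgn w h]
      have h1 : col' ⟨w, ⟨w.2, h⟩⟩ = true := by
        have h2 := hcol v w hvw
        simp only [col']
        revert h2
        cases col v <;> cases col (w : W) <;> simp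
      have h2 := hA' (hf1 _ h1)
      rw [hA, Finset.mem_sdiff, mem_neighborFinset] at h2
      exact h2.1
    refine ⟨⟨⟨g, ?_⟩, ?_⟩, ?_⟩
    · intro a b hab
      have hab' : L.Adj (a : W) (b : W) := hab
      by_cases ha : (a : W) = v
      · have hb : (b : W) ≠ v := by rintro rfl; exact hab'.ne ha
        rw [hgv a ha]
        exact hxv b hb (ha ▸ hab')
      · by_cases hb : (b : W) = v
        · rw [hgv b hb]
          exact (hxv a ha (hb ▸ hab'.symm)).symm
        · rw [hgn a ha, hgn b hb]
          exact f.toHom.map_rel' (a := ⟨a, ⟨a.2, ha⟩⟩) (b := ⟨b, ⟨b.2, hb⟩⟩) hab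
    · intro a b hab
      change g a = g b at hab
      by_cases ha : (a : W) = v
      · by_cases hb : (b : W) = v
        · exact Subtype.ext (ha.trans hb.symm)
        · rw [hgv a ha, hgn b hb] at hab
          exact absurd hab.symm (hfx _).1
      · by_cases hb : (b : W) = v
        · rw [hgv b hb, hgn a ha] at hab
          exact absurd hab (hfx _).1
        · rw [hgn a ha, hgn b hb] at hab
          have := f.injective hab
          exact Subtype.ext (congrArg (fun z : (i.supp \ {v} : Set W) => (z : W)) this)
    · intro a
      change g a ∉ R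
      by_cases ha : (a : W) = v
      · rw [hgv a ha]; exact hxR
      · rw [hgn a ha]; exact (hfx _).2

end Pool.Agent.Helper49.Copies
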