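import Pool.Agent.Helper49.CopiesPath
import Pool.Agent.Helper49.CopiesFeedback

/-!
# Disconnected graphs: the final statements
-/

open Finset Fintype Filter

namespace Pool.Agent.Helper49.Copies

open SimpleGraph

theorem two_le_card_components {W : Type} [Fintype W] (L : SimpleGraph W) (hcon : ¬ L.Connected)
    (hne : Nonempty W) : 2 ≤ Nat.card L.ConnectedComponent := by
  classical
  by_contra h
  push Not at h
  apply hcon
  have hfin : Finite L.ConnectedComponent := Quot.finite _
  have h1 : Nat.card L.ConnectedComponent ≤ 1 := by omega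
  rw [Finite.card_le_one_iff_subsingleton] at h1
  rw [connected_iff]
  refine ⟨?_, hne⟩
  intro a b
  exact ConnectedComponent.exact (Subsingleton.elim _ _)

theorem fin_two_cases (x : Fin 2) : x = 0 ∨ x = 1 := by
  omega

/-- Every class of every proper 2-colouring of a path on `ℓ` vertices has at least
`ℓ / 2` vertices. -/
theorem path_class {W : Type} [Finite W] (J : SimpleGraph W) (ℓ : ℕ)
    (e : J ≃g pathGraph ℓ) (C : J.Coloring (Fin 2)) : ℓ / 2 ≤ (C.colorClass 0).ncard := by
  classical
  have hlt : ∀ i : Fin (ℓ / 2), 2 * (i : ℕ) + 1 < ℓ := by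
    intro i
    have := i.2
    omega
  let a : Fin (ℓ / 2) → W := fun i => e.symm ⟨2 * (i : ℕ), by have := hlt i; omega⟩
  let b : Fin (ℓ / 2) → W := fun i => e.symm ⟨2 * (i : ℕ) + 1, hlt i⟩
  have hab : ∀ i, J.Adj (a i) (b i) := by
    intro i
    rw [← e.map_adj_iff]
    simp only [a, b, RelIso.apply_symm_apply, pathGraph_adj]
    left; trivial
  let g : Fin (ℓ / 2) → W := fun i => if C (a i) = 0 then a i else b i
  have hg : ∀ i, C (g i) = 0 := by
    intro i
    by_cases h : C (a i) = 0
    · simp [g, h]
    · simp only [g, h, if_false]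
      have h1 := C.valid (hab i)
      rcases fin_two_cases (C (b i)) with h2 | h2
      · exact h2
      · exact absurd (((fin_two_cases (C (a i))).resolve_left h).trans h2.symm) h1
  have hinj : Function.Injective g := by
    intro i j hij
    have key : ∀ i, ((e (g i) : Fin ℓ) : ℕ) / 2 = i := by
      intro i
      by_cases h : C (a i) = 0
      · simp only [g, h, if_true, a, RelIso.apply_symm_apply]
        omega
      · simp only [g, h, if_false, b, RelIso.apply_symm_apply]
        omega
    apply Fin.ext
    rw [← key i, ← key j, hij]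
  calc ℓ / 2 = (Set.range g).ncard := by
        rw [← Set.image_univ, Set.ncard_image_of_injective _ hinj, Set.ncard_univ,
          Nat.card_eq_fintype_card, Fintype.card_fin]
    _ ≤ (C.colorClass 0).ncard := by
        refine Set.ncard_le_ncard ?_ (Set.toFinite _)
        rintro _ ⟨i, rfl⟩
        exact hg i

/-- A connected graph with a single edge has extremal number zero. -/
theorem ex_single_edge {X : Type} (J : SimpleGraph X) (hconn : J.Connected) (u v : X)
    (huv : J.Adj u v) (hJ : (J.deleteEdges {s(u, v)}).Colorable 1) (m : ℕ) :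
    extremalNumber m J = 0 := by
  classical
  have hadj : ∀ a b, J.Adj a b → s(a, b) = s(u, v) := by
    intro a b hab
    by_contra hne
    obtain ⟨C⟩ := hJ
    have h1 : (J.deleteEdges {s(u, v)}).Adj a b := by
      rw [deleteEdges_adj]
      exact ⟨hab, by simpa using hne⟩
    exact C.valid h1 (Subsingleton.elim _ _)
  have hall : ∀ x : X, x = u ∨ x = v := by
    intro x
    obtain ⟨p⟩ := hconn.preconnected x u
    cases p with
    | nil => exact Or.inl rfl
    | cons hx _ =>
      have h1 := hadj _ _ hx
      rw [Sym2.eq_iff] at h1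
      rcases h1 with ⟨h1, -⟩ | ⟨h1, -⟩
      · exact Or.inl h1
      · exact Or.inr h1
  rw [← Nat.le_zero]
  conv_lhs => rw [← Fintype.card_fin m]
  rw [extremalNumber_le_iff]
  intro G _ hfree
  rw [Nat.le_zero, Finset.card_eq_zero, Finset.eq_empty_iff_forall_notMem]
  intro e he
  induction e using Sym2.inductionOn with | hf a b =>
  rw [mem_edgeFinset, mem_edgeSet] at he
  apply hfree
  refine ⟨⟨⟨fun x => if x = u then a else b, ?_⟩, ?_⟩⟩
  · intro x y hxy
    rcases hall x with rfl | rfl
    · rcases hall y with rfl | rfl
      · exact absurd rfl hxy.ne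
      · simp only [if_true, if_neg hxy.ne', he]
    · rcases hall y with rfl | rfl
      · simp only [if_true, if_neg hxy.ne]
        exact he.symm
      · exact absurd rfl hxy.ne
  · intro x y hxy
    change (if x = u then a else b) = (if y = u then a else b) at hxy
    rcases hall x with rfl | rfl
    · rcases hall y with rfl | rfl
      · rfl
      · rw [if_pos rfl, if_neg huv.ne'] at hxy
        exact absurd hxy he.ne
    · rcases hall y with rfl | rfl
      · rw [if_pos rfl, if_neg huv.ne'] at hxy
        exact absurd hxy.symm he.ne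
      · rfl

theorem deleteEdges_eq_self {X : Type} (J : SimpleGraph X) (e : Sym2 X) (he : e ∉ J.edgeSet) :
    J.deleteEdges {e} = J := by
  ext a b
  rw [deleteEdges_adj]
  constructor
  · exact fun h => h.1
  · intro h
    refine ⟨h, ?_⟩
    rw [Set.mem_singleton_iff]
    rintro rfl
    exact he h

theorem path_colorable {X : Type} (J : SimpleGraph X) (ℓ : ℕ) (e : J ≃g pathGraph ℓ) :
    J.Colorable 2 := by
  refine ⟨Coloring.mk (fun x => ⟨((e x : Fin ℓ) : ℕ) % 2, by omega⟩) ?_⟩
  intro a b hab h
  have h1 := (e.map_adj_iff).mpr hab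
  rw [pathGraph_adj] at h1
  simp only [Fin.mk.injEq] at h
  omega

/-- The trivial bound for trees. -/
theorem extremalNumber_tree_le {X : Type} [Fintype X] (J : SimpleGraph X) (hJ : J.IsTree)
    (k : ℕ) (hk : card X = k + 2) (m : ℕ) : extremalNumber m J ≤ k * m := by
  have h0 : extremalNumber 0 J = 0 := by
    rw [← Nat.le_zero]
    conv_lhs => rw [← Fintype.card_fin 0]
    rw [extremalNumber_le_iff]
    intro G _ _
    have : G = ⊥ := Subsingleton.elim _ _
    subst this
    simp
  have h2 := extremalNumber_add_le J hJ (k + 1) (by omega) (by omega) 0 m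
  rw [zero_add, h0, zero_add, Nat.add_sub_cancel, mul_comm] at h2
  exact h2

/-- The criterion for components. -/
theorem tendsto_component {W : Type} [Fintype W] (L : SimpleGraph W) (r : ℕ) (hr : 1 ≤ r)
    (hcol : L.Colorable (r + 1)) (hnc : ¬ L.Colorable r) (hcon : ¬ L.Connected)
    (i : L.ConnectedComponent)
    (h : (∃ e, ((L.induce {w | L.connectedComponentMk w = i}).deleteEdges {e}).Colorable r) ∨
      (∃ ℓ, Nonempty (L.induce {w | L.connectedComponentMk w = i} ≃g pathGraph ℓ)) ∨
      ((L.induce {w | L.connectedComponentMk w = i}).IsAcyclic ∧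
        ∀ C : (L.induce {w | L.connectedComponentMk w = i}).Coloring (Fin 2),
        (C.colorClass 1).ncard < Nat.card L.ConnectedComponent) ∨
      (∃ (σ : ℕ) (c : ℝ), (∀ C : (L.induce {w | L.connectedComponentMk w = i}).Coloring
        (Fin (r + 1)), σ ≤ (C.colorClass 0).ncard) ∧
        c < ((σ : ℝ) + Nat.card L.ConnectedComponent - 2) / r ∧
        ∀ᶠ n : ℕ in atTop, (extremalNumber n (L.induce {w | L.connectedComponentMk w = i}) : ℝ) ≤
          (1 - 1 / (r : ℝ)) * n ^ 2 / 2 + c * n)) :
    Tendsto (fun n => minCopies n L) atTop atTop := by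
  classical
  have hne : Nonempty W := by
    by_contra hne
    rw [not_nonempty_iff] at hne
    exact hnc ⟨Coloring.mk (fun w => (hne.false w).elim) (fun {a} => (hne.false a).elim)⟩
  have hfin : Finite L.ConnectedComponent := Quot.finite _
  let inst1 : Fintype L.ConnectedComponent := Fintype.ofFinite _
  have hι := two_le_card_components L hcon hne
  have hc : ∀ a b, L.Adj a b → L.connectedComponentMk a = L.connectedComponentMk b :=
    fun a b hab => ConnectedComponent.connectedComponentMk_eq_of_adj hab
  by_cases hsmall : ∃ j : L.ConnectedComponent,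
      (L.induce {w | L.connectedComponentMk w = j}).Colorable r
  · obtain ⟨j, hj⟩ := hsmall
    exact tendsto_chromatic L L.connectedComponentMk hc r hr hnc j j.exists_rep hj
  push Not at hsmall
  have hrR : (1 : ℝ) ≤ r := by exact_mod_cast hr
  have hιR : (2 : ℝ) ≤ Nat.card L.ConnectedComponent := by exact_mod_cast hι
  -- reformulation of the criterion
  have crit : ∀ (σ : ℕ) (c : ℝ), (∀ C : (L.induce {w | L.connectedComponentMk w = i}).Coloring
        (Fin (r + 1)), σ ≤ (C.colorClass 0).ncard) →
        c < ((σ : ℝ) + Nat.card L.ConnectedComponent - 2) / r →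
        (∀ᶠ n : ℕ in atTop, (extremalNumber n (L.induce {w | L.connectedComponentMk w = i}) : ℝ) ≤
          (1 - 1 / (r : ℝ)) * n ^ 2 / 2 + c * n) →
        Tendsto (fun n => minCopies n L) atTop atTop := by
    intro σ c hσ hc₀ hex
    rw [Nat.card_eq_fintype_card] at hc₀
    refine tendsto_sparse L L.connectedComponentMk hc r hr hcol hsmall i σ ?_ c hc₀ hex
    intro C
    refine (hσ C).trans ?_
    rw [Set.ncard_eq_toFinset_card']
    apply card_le_card
    intro w hw
    rw [Set.mem_toFinset] at hw
    rw [mem_filter]
    exact ⟨mem_univ _, hw⟩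
  -- classes of component `i` are nonempty
  have hclass : ∀ C : (L.induce {w | L.connectedComponentMk w = i}).Coloring (Fin (r + 1)),
      1 ≤ (C.colorClass 0).ncard := by
    intro C
    by_contra hcon
    push Not at hcon
    have hempty : C.colorClass 0 = ∅ := by
      rw [← Set.ncard_eq_zero]
      omega
    apply hsmall i
    have h0 : ∀ a, C a ≠ 0 := by
      intro a ha
      have : a ∈ C.colorClass 0 := ha
      rw [hempty] at this
      exact this
    refine ⟨Coloring.mk (fun a => (C a).pred (h0 a)) ?_⟩
    intro a b hab h
    exact C.valid hab (Fin.pred_inj.mp h)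
  have hconn : (L.induce {w | L.connectedComponentMk w = i}).Connected :=
    i.connected_toSimpleGraph
  rcases h with ⟨e, he⟩ | ⟨ℓ, ⟨e⟩⟩ | ⟨hac, hcl⟩ | ⟨σ, c, hσ, hc₀, hex⟩
  · -- one edge
    have hmem : e ∈ (L.induce {w | L.connectedComponentMk w = i}).edgeSet := by
      by_contra hmem
      apply hsmall i
      rw [deleteEdges_eq_self _ e hmem] at he
      exact he
    induction e using Sym2.inductionOn with | hf u v =>
    rw [mem_edgeSet] at hmem
    refine crit 1 0 hclass ?_ ?_
    · apply div_pos _ (by linarith)
      push_cast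
      linarith
    · rcases Nat.lt_or_ge r 2 with hr2 | hr2
      · obtain rfl : r = 1 := by omega
        filter_upwards with m
        rw [ex_single_edge _ hconn u v hmem he m]
        simp
      · filter_upwards [ex_critical _ r hr2 u v hmem he (hsmall i)] with m hm
        linarith
  · -- a path
    have hr1 : r = 1 := by
      by_contra hne1
      exact hsmall i ((path_colorable _ ℓ e).mono (by omega))
    subst hr1
    have hne2 : 2 ≤ ℓ := by
      by_contra hlt
      push Not at hlt
      apply hsmall i
      refine ⟨Coloring.mk (fun _ => ⟨0, by omega⟩) ?_⟩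
      intro a b hab _
      have h1 := (e.map_adj_iff).mpr hab
      rw [pathGraph_adj] at h1
      have h2 := (e a).2
      have h3 := (e b).2
      omega
    obtain ⟨d, rfl⟩ : ∃ d, ℓ = d + 2 := ⟨ℓ - 2, by omega⟩
    refine crit ((d + 2) / 2) ((d : ℝ) / 2) (fun C => path_class _ _ e C) ?_ ?_
    · have h1 : (d : ℝ) + 1 ≤ 2 * (((d + 2) / 2 : ℕ) : ℝ) := by
        have : d + 1 ≤ 2 * ((d + 2) / 2) := by omega
        exact_mod_cast this
      simp only [Nat.cast_one, div_one]
      linarith
    · filter_upwards with m
      have h1 : extremalNumber m (L.induce {w | L.connectedComponentMk w = i}) =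
          extremalNumber m (pathGraph (d + 2)) := extremalNumber_congr_right e
      have h2 := extremalNumber_path_le m d
      have h3 : (2 : ℝ) * extremalNumber m (pathGraph (d + 2)) ≤ d * m := by exact_mod_cast h2
      rw [h1]
      simp only [Nat.cast_one, div_one, sub_self, zero_mul, zero_div, zero_add]
      linarith
  · -- a small tree
    have hr1 : r = 1 := by
      by_contra hne1
      exact hsmall i (hac.colorable_two.mono (by omega))
    subst hr1
    obtain ⟨C₁⟩ := hac.colorable_two
    -- sizes
    have hsplit : ∀ C : (L.induce {w | L.connectedComponentMk w = i}).Coloring (Fin 2),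
        (C.colorClass 0).ncard + (C.colorClass 1).ncard =
          Fintype.card {w | L.connectedComponentMk w = i} := by
      intro C
      rw [← Nat.card_eq_fintype_card, ← Set.ncard_univ, ← Set.ncard_union_eq]
      · congr 1
        ext x
        simp only [Set.mem_union, Set.mem_univ, iff_true]
        rcases fin_two_cases (C x) with h | h
        · exact Or.inl h
        · exact Or.inr h
      · rw [Set.disjoint_left]
        intro x hx hx'
        have h1 : C x = 0 := hx
        have h2 : C x = 1 := hx'
        rw [h1] at h2
        exact absurd h2 (by decide)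
    have htree : (L.induce {w | L.connectedComponentMk w = i}).IsTree := ⟨hconn, hac⟩
    have hcard2 : 2 ≤ Fintype.card {w | L.connectedComponentMk w = i} := by
      by_contra hlt
      push Not at hlt
      apply hsmall i
      have hsub : Subsingleton {w | L.connectedComponentMk w = i} := by
        rw [← Fintype.card_le_one_iff_subsingleton]; omega
      refine ⟨Coloring.mk (fun _ => 0) ?_⟩
      intro a b hab
      exact absurd (Subsingleton.elim a b) hab.ne
    obtain ⟨k, hk⟩ : ∃ k, Fintype.card {w | L.connectedComponentMk w = i} = k + 2 :=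
      ⟨_, (Nat.sub_add_cancel hcard2).symm⟩
    set K := Nat.card L.ConnectedComponent with hK
    refine crit (k + 3 - K) (k : ℝ) ?_ ?_ ?_
    · intro C
      have h1 := hsplit C
      have h2 := hcl C
      omega
    · have h1 := hsplit C₁
      have h2 := hcl C₁
      simp only [Nat.cast_one, div_one]
      have h3 : (k : ℝ) + 3 ≤ ((k + 3 - K : ℕ) : ℝ) + K := by
        have : k + 3 ≤ (k + 3 - K) + K := by omega
        exact_mod_cast this
      linarith
    · filter_upwards with m
      have h1 := extremalNumber_tree_le _ htree k hk m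
      have h2 : (extremalNumber m (L.induce {w | L.connectedComponentMk w = i}) : ℝ) ≤ k * m := by
        exact_mod_cast h1
      simp only [Nat.cast_one, div_one, sub_self, zero_mul, zero_div, zero_add]
      exact h2
  · exact crit σ c hσ hc₀ hex

/-- A small colour class. -/
theorem tendsto_class {W : Type} [Fintype W] (L : SimpleGraph W) (r : ℕ) (hr : 1 ≤ r)
    (hnc : ¬ L.Colorable r) (C : L.Coloring (Fin (r + 1))) (x : Fin (r + 1))
    (hC : (C.colorClass x).ncard + 2 ≤ 2 * Nat.card L.ConnectedComponent) :
    Tendsto (fun n => minCopies n L) atTop atTop := by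
  classical
  have hne : Nonempty W := by
    by_contra hne
    rw [not_nonempty_iff] at hne
    exact hnc ⟨Coloring.mk (fun w => (hne.false w).elim) (fun {a} => (hne.false a).elim)⟩
  have hfin : Finite L.ConnectedComponent := Quot.finite _
  let inst1 : Fintype L.ConnectedComponent := Fintype.ofFinite _
  have hc : ∀ a b, L.Adj a b → L.connectedComponentMk a = L.connectedComponentMk b :=
    fun a b hab => ConnectedComponent.connectedComponentMk_eq_of_adj hab
  by_cases hsmall : ∃ j : L.ConnectedComponent,
      (L.induce {w | L.connectedComponentMk w = j}).Colorable r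
  · obtain ⟨j, hj⟩ := hsmall
    exact tendsto_chromatic L L.connectedComponentMk hc r hr hnc j j.exists_rep hj
  push Not at hsmall
  -- permute the colours
  let C' : L.Coloring (Fin (r + 1)) := Coloring.mk (fun w => Equiv.swap x 0 (C w)) (by
    intro a b hab h
    exact C.valid hab ((Equiv.swap x 0).injective h))
  obtain ⟨w₀⟩ := hne
  refine tendsto_small_class L L.connectedComponentMk hc r hr C' hsmall
    (L.connectedComponentMk w₀) ?_
  rw [Nat.card_eq_fintype_card] at hC
  refine le_trans (Nat.add_le_add_right ?_ 2) hC
  rw [Set.ncard_eq_toFinset_card']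
  apply card_le_card
  intro w hw
  rw [mem_filter] at hw
  rw [Set.mem_toFinset]
  have h1 : Equiv.swap x 0 (C w) = 0 := hw.2
  have h2 : C w = x := by
    have h3 : Equiv.swap x 0 x = 0 := Equiv.swap_apply_left x 0
    exact (Equiv.swap x 0).injective (h1.trans h3.symm)
  exact h2

/-- Disconnected graphs with a cycle. -/
theorem tendsto_cyclic {W : Type} [Fintype W] (L : SimpleGraph W) (hcon : ¬ L.Connected)
    (hcyc : ¬ L.IsAcyclic)
    (h : (∃ i : L.ConnectedComponent, (L.induce i.supp).IsAcyclic) ∨
      (L.Colorable 2 ∧ ∀ i : L.ConnectedComponent,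
        ∃ v ∈ i.supp, (L.induce (i.supp \ {v})).IsAcyclic)) :
    Tendsto (fun n => minCopies n L) atTop atTop := by
  classical
  by_cases hac : ∃ i : L.ConnectedComponent, (L.induce i.supp).IsAcyclic
  · obtain ⟨i, hi⟩ := hac
    exact tendsto_acyclic_component L hcyc i hi
  · rcases h with h | ⟨hbip, hfb⟩
    · exact absurd h hac
    · push Not at hac
      have hne : Nonempty W := by
        by_contra hne
        rw [not_nonempty_iff] at hne
        exact hcyc (fun v => (hne.false v).elim)
      exact tendsto_feedback L hcon hbip hac hfb hne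

end Pool.Agent.Helper49.Copies
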