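import Pool.Agent.Helper49.CopiesPartite

/-!
# Extremal numbers of graphs with a critical edge
-/

open Finset Fintype Filter

namespace Pool.Agent.Helper49.Copies

open SimpleGraph

/-- Classes from a tile. -/
theorem classes_of_tile {V W : Type} [Fintype V] [Fintype W] [DecidableEq V]
    (J : SimpleGraph W) (G : SimpleGraph V) [DecidableRel G.Adj] (r : ℕ) (hr : 1 ≤ r) (u v : W)
    (C₀ : (J.deleteEdges {s(u, v)}).Coloring (Fin r)) (huv : u ≠ v) (hCuv : C₀ u = C₀ v)
    (hfree : J.Free G) (t : ℕ) (ht : 6 * card W ≤ t) (T : Fin r → Finset V)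
    (hT : IsTile G r t T) :
    ∃ (Gd : Finset V) (j : V → Fin r),
      (∀ w ∈ Gd, ∀ w' ∈ Gd, j w = j w' → ¬ G.Adj w w') ∧
      (#(univ \ Gd)) * t + 4 * ∑ x ∈ tileSet T, G.degree x ≤
        4 * (card V * ((r - 1) * t + card W)) +
          (4 * (r * t) + t) * (card W * 2 ^ (r * t)) := by
  classical
  set m := card W with hm
  have hJ : J.Colorable (r + 1) := by
    refine ⟨Coloring.mk (fun x => if x = u then Fin.last r else (C₀ x).castSucc) ?_⟩
    intro a b hab h
    by_cases hau : a = u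
    · rw [if_pos hau] at h
      have hbu : b ≠ u := by rintro rfl; exact hab.ne hau
      rw [if_neg hbu] at h
      exact absurd h.symm (Fin.castSucc_lt_last _).ne
    · rw [if_neg hau] at h
      by_cases hbu : b = u
      · rw [if_pos hbu] at h
        exact absurd h (Fin.castSucc_lt_last _).ne
      · rw [if_neg hbu] at h
        have h1 : (J.deleteEdges {s(u, v)}).Adj a b := by
          rw [deleteEdges_adj]
          refine ⟨hab, ?_⟩
          simp only [Set.mem_singleton_iff, Sym2.eq_iff]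
          rintro (⟨h2, -⟩ | ⟨-, h2⟩)
          · exact hau h2
          · exact hbu h2
        exact C₀.valid h1 (Fin.castSucc_injective _ h)
  have hm2 : 2 ≤ m := by
    have := Finset.card_pair huv
    have h1 := card_le_univ ({u, v} : Finset W)
    omega
  set R := {w ∈ (univ : Finset V) | ∀ j, m ≤ #{v ∈ T j | G.Adj w v}} with hR
  have hRcard : #R ≤ m * 2 ^ (r * t) := card_rich_le G J r hJ univ
    (fun f => absurd ⟨f⟩ hfree) t T hT (subset_univ _) m le_rfl
  let j : V → Fin r := fun w => if h : ∃ j, #{v ∈ T j | G.Adj w v} < m then h.choose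
    else ⟨0, by omega⟩
  have hj : ∀ w, w ∉ R → #{v ∈ T (j w) | G.Adj w v} < m := by
    intro w hw
    rw [hR, mem_filter, not_and] at hw
    have h1 := hw (mem_univ _)
    push Not at h1
    simp only [j]
    rw [dif_pos h1]
    exact h1.choose_spec
  set x : V → ℕ := fun w => #{v ∈ tileSet T | G.Adj w v} with hx
  have hxsum : ∀ w, x w = ∑ i, #{v ∈ T i | G.Adj w v} := fun w => hT.card_filter _
  have hxle : ∀ w, w ∉ R → x w ≤ (r - 1) * t + m := by
    intro w hw
    have h1 := hj w hw
    rw [hxsum, ← Finset.add_sum_erase _ _ (mem_univ (j w))]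
    have h4 : ∑ i ∈ univ.erase (j w), #{v ∈ T i | G.Adj w v} ≤ (r - 1) * t := by
      have h5 : #(univ.erase (j w)) = r - 1 := by
        rw [card_erase_of_mem (mem_univ _), Finset.card_univ, Fintype.card_fin]
      rw [← h5, ← smul_eq_mul]
      apply Finset.sum_le_card_nsmul
      intro i _
      refine (card_filter_le _ _).trans ?_
      rw [hT.1 i]
    omega
  set Gd : Finset V := {w | w ∉ R ∧ 4 * ((r - 1) * t) ≤ 4 * x w + t} with hGd
  -- good vertices miss few vertices of the other classes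
  have hgood : ∀ w ∈ Gd, ∀ i, i ≠ j w → 4 * #{v ∈ T i | ¬ G.Adj w v} + 4 ≤ t + 4 * m := by
    intro w hw i hi
    rw [hGd, mem_filter] at hw
    obtain ⟨-, hwR, hwx⟩ := hw
    have h1 := hj w hwR
    rw [hxsum, ← Finset.add_sum_erase _ _ (mem_univ (j w)), ← Finset.add_sum_erase _ _
      (mem_erase.mpr ⟨hi, mem_univ _⟩)] at hwx
    have h3 : #{v ∈ T i | G.Adj w v} + #{v ∈ T i | ¬ G.Adj w v} = t := by
      rw [Finset.card_filter_add_card_filter_not, hT.1]
    have h5 : #((univ.erase (j w)).erase i) + 2 = r := by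
      rw [card_erase_of_mem (mem_erase.mpr ⟨hi, mem_univ _⟩), card_erase_of_mem (mem_univ _),
        Finset.card_univ, Fintype.card_fin]
      have h6 : 2 ≤ r := by
        have h7 : #({i, j w} : Finset (Fin r)) = 2 := Finset.card_pair hi
        have h8 := card_le_univ ({i, j w} : Finset (Fin r))
        rw [Fintype.card_fin] at h8
        omega
      omega
    have h4 : ∑ l ∈ (univ.erase (j w)).erase i, #{v ∈ T l | G.Adj w v} ≤
        #((univ.erase (j w)).erase i) * t := by
      rw [← smul_eq_mul]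
      apply Finset.sum_le_card_nsmul
      intro l _
      refine (card_filter_le _ _).trans ?_
      rw [hT.1 l]
    have h6 : (r - 1) * t = #((univ.erase (j w)).erase i) * t + t := by
      have : r - 1 = #((univ.erase (j w)).erase i) + 1 := by omega
      rw [this]; ring
    omega
  refine ⟨Gd, j, ?_, ?_⟩
  · intro w hw w' hw' hjj hadj
    apply hfree
    set A : Fin r → Finset V := fun i => if i = j w then T i \ {w, w'} else
      {v ∈ T i | G.Adj w v ∧ G.Adj w' v} with hA
    have hA1 : A (j w) = T (j w) \ {w, w'} := by simp [hA]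
    have hA2 : ∀ i, i ≠ j w → A i = {v ∈ T i | G.Adj w v ∧ G.Adj w' v} := by
      intro i hi; simp [hA, hi]
    have hAT : ∀ i, A i ⊆ T i := by
      intro i
      by_cases hi : i = j w
      · subst hi; rw [hA1]; exact sdiff_subset
      · rw [hA2 i hi]; exact filter_subset _ _
    refine critical_copy J G r u v C₀ huv hCuv (j w) A
      (fun i l hil a ha b hb => hT.2 i l hil a (hAT i ha) b (hAT l hb)) ?_ w w' hadj ?_ ?_ ?_
    · intro i
      by_cases hi : i = j w
      · subst hi
        rw [hA1]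
        have h1 := le_card_sdiff {w, w'} (T (j w))
        have h2 : #({w, w'} : Finset V) ≤ 2 := card_le_two
        rw [hT.1] at h1
        omega
      · rw [hA2 i hi]
        have h1 : T i ⊆ {v ∈ T i | G.Adj w v ∧ G.Adj w' v} ∪ ({v ∈ T i | ¬ G.Adj w v} ∪
            {v ∈ T i | ¬ G.Adj w' v}) := by
          intro y hy
          simp only [mem_union, mem_filter]
          tauto
        have h2 := (card_le_card h1).trans ((card_union_le _ _).trans
          (Nat.add_le_add_left (card_union_le _ _) _))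
        have h3 := hgood w hw i hi
        have h4 := hgood w' hw' i (by rw [← hjj]; exact hi)
        rw [hT.1] at h2
        omega
    · intro i hi a ha
      rw [hA2 i hi, mem_filter] at ha
      exact ha.2
    · intro h
      rw [hA1, Finset.mem_sdiff] at h
      exact h.2 (by simp)
    · intro h
      rw [hA1, Finset.mem_sdiff] at h
      exact h.2 (by simp)
  · -- count
    set Bd : Finset V := {w | w ∉ R ∧ ¬ 4 * ((r - 1) * t) ≤ 4 * x w + t} with hBd
    have h1 : #(univ \ Gd) ≤ #R + #Bd := by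
      refine (card_le_card ?_).trans (card_union_le _ _)
      intro w hw
      rw [mem_union]
      by_cases hwR : w ∈ R
      · exact Or.inl hwR
      · right
        rw [Finset.mem_sdiff, hGd, mem_filter, not_and] at hw
        rw [hBd, mem_filter]
        exact ⟨mem_univ _, hwR, fun h => hw.2 (mem_univ _) ⟨hwR, h⟩⟩
    have h2 : ∑ y ∈ tileSet T, G.degree y = ∑ w, x w := by
      have h3 : ∑ y ∈ tileSet T, G.degree y = dsum G (tileSet T) univ := by
        unfold dsum
        apply Finset.sum_congr rfl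
        intro y _
        rw [← card_neighborFinset_eq_degree]
        congr 1
        ext w
        rw [mem_neighborFinset, mem_filter]
        simp
      rw [h3, dsum_comm]
      rfl
    have h3 : ∑ w, x w = ∑ w ∈ R, x w + ∑ w ∈ univ \ R, x w := by
      rw [add_comm, Finset.sum_sdiff (subset_univ R)]
    have h4 : ∑ w ∈ R, x w ≤ m * 2 ^ (r * t) * (r * t) := by
      refine (Finset.sum_le_card_nsmul R x (r * t) ?_).trans ?_
      · intro w _
        refine (card_filter_le _ _).trans ?_
        rw [hT.card]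
      · rw [smul_eq_mul]
        exact Nat.mul_le_mul_right _ hRcard
    have h5 : ∑ w ∈ univ \ R, (4 * x w + if w ∈ Bd then t else 0) ≤
        #(univ \ R) * (4 * ((r - 1) * t + m)) := by
      rw [← smul_eq_mul]
      apply Finset.sum_le_card_nsmul
      intro w hw
      have hwR := (Finset.mem_sdiff.mp hw).2
      split_ifs with h
      · rw [hBd, mem_filter] at h
        omega
      · have := hxle w hwR
        omega
    rw [Finset.sum_add_distrib, ← Finset.mul_sum, ← Finset.sum_filter, Finset.sum_const,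
      smul_eq_mul] at h5
    have h6 : {w ∈ univ \ R | w ∈ Bd} = Bd := by
      ext w
      rw [mem_filter, Finset.mem_sdiff]
      constructor
      · exact fun h => h.2
      · intro h
        have h' := h
        rw [hBd, mem_filter] at h'
        exact ⟨⟨mem_univ _, h'.2.1⟩, h⟩
    rw [h6] at h5
    have h7 : #(univ \ R) * (4 * ((r - 1) * t + m)) ≤ 4 * (card V * ((r - 1) * t + m)) := by
      have : #(univ \ R) ≤ card V := card_le_univ _
      calc #(univ \ R) * (4 * ((r - 1) * t + m)) ≤ card V * (4 * ((r - 1) * t + m)) :=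
            Nat.mul_le_mul_right _ this
        _ = _ := by ring
    have h8 : #(univ \ Gd) * t ≤ (m * 2 ^ (r * t)) * t + #Bd * t := by
      rw [← Nat.add_mul]
      exact Nat.mul_le_mul_right _ (h1.trans (Nat.add_le_add_right hRcard _))
    rw [h2, h3]
    have h9 : (4 * (r * t) + t) * (m * 2 ^ (r * t)) =
        4 * (m * 2 ^ (r * t) * (r * t)) + m * 2 ^ (r * t) * t := by ring
    rw [h9]
    omega

theorem mindeg_real {B t S n m r' C₁ θ : ℝ} (ht : 1 ≤ t) (hn : 0 ≤ n) (hr' : 0 ≤ r')
    (hC₁ : 0 ≤ C₁)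
    (h1 : n * (r' * t) - θ / 16 * n * t ≤ S)
    (h3 : B * t + 4 * S ≤ 4 * (n * (r' * t + m)) + (4 * ((r' + 1) * t) + t) * C₁)
    (h4 : 16 * m ≤ t * θ) (h5 : 2 * (5 * (r' + 1) * C₁) ≤ n * θ) : B ≤ θ * n := by
  have ht0 : 0 < t := by linarith
  have e1 : 4 * n * m ≤ θ / 4 * n * t := by
    have := mul_le_mul_of_nonneg_left h4 hn
    nlinarith
  have e2 : (4 * ((r' + 1) * t) + t) * C₁ ≤ (5 * (r' + 1) * C₁) * t := by
    have : 0 ≤ r' * (C₁ * t) := by positivity
    nlinarith
  have e3 : (5 * (r' + 1) * C₁) * t ≤ θ / 2 * n * t := by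
    apply mul_le_mul_of_nonneg_right _ ht0.le
    linarith
  have e4 : 4 * (n * (r' * t + m)) = 4 * (n * (r' * t)) + 4 * n * m := by ring
  have e5 : B * t ≤ θ * n * t := by
    rw [e4] at h3
    have e6 : 4 * (θ / 16 * n * t) + θ / 4 * n * t + θ / 2 * n * t = θ * n * t := by ring
    linarith
  exact le_of_mul_le_mul_right e5 ht0

/-- A graph with a critical edge and large minimum degree forces colourability. -/
theorem partite_of_minDegree {W : Type} [Fintype W] (J : SimpleGraph W) (r : ℕ) (hr : 2 ≤ r)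
    (u v : W) (C₀ : (J.deleteEdges {s(u, v)}).Coloring (Fin r)) (huv : u ≠ v)
    (hCuv : C₀ u = C₀ v) : ∃ ε : ℝ, 0 < ε ∧ ∃ N₀ : ℕ, ∀ n ≥ N₀, ∀ (G : SimpleGraph (Fin n))
    [DecidableRel G.Adj], J.Free G → (∀ x, (1 - 1 / (r : ℝ) - ε) * n ≤ G.degree x) →
    G.Colorable r := by
  classical
  set m := card W with hm
  have hrR : (2 : ℝ) ≤ r := by exact_mod_cast hr
  have hm0 : (0 : ℝ) ≤ m := Nat.cast_nonneg _
  set BIG : ℝ := 3 * (r * m * (r + 1)) + 3 * m + 2 * (r + 1) + r + 2 with hBIG
  have hBIG0 : 0 < BIG := by positivity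
  have hBIGr : (r : ℝ) ≤ BIG := by
    have : 0 ≤ (r : ℝ) * m * (r + 1) := by positivity
    linarith
  set θ : ℝ := 1 / (r * BIG) with hθ
  have hθ0 : 0 < θ := by positivity
  set ε : ℝ := θ / (16 * r) with hε
  have hε0 : 0 < ε := by positivity
  have hεθ : ε ≤ θ := by
    rw [hε]
    apply div_le_self hθ0.le
    linarith
  obtain ⟨r', rfl⟩ : ∃ r', r = r' + 1 := ⟨r - 1, by omega⟩
  have hr' : (1 : ℝ) ≤ r' := by
    have : 1 ≤ r' := by omega
    exact_mod_cast this
  have hcast : (((r' + 1 : ℕ)) : ℝ) = (r' : ℝ) + 1 := by push_cast; ring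
  set ε' : ℝ := 1 / (2 * r' * (r' + 1)) with hε'
  have hε'0 : 0 < ε' := by positivity
  have hεε' : 1 - 1 / (r' : ℝ) + ε' ≤ 1 - 1 / ((r' + 1 : ℕ) : ℝ) - ε := by
    have h1 : 1 / (r' : ℝ) - 1 / ((r' + 1 : ℕ) : ℝ) = 2 * ε' := by
      rw [hcast, hε']; field_simp; ring
    have h2 : ε ≤ ε' := by
      rw [hε, hθ, hε', hcast, div_div]
      apply one_div_le_one_div_of_le (by positivity)
      have h3 : (r' : ℝ) ≤ BIG := by rw [hcast] at hBIGr; linarith
      have h4 : 2 * (r' : ℝ) * (r' + 1) ≤ 2 * BIG * (r' + 1) := by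
        apply mul_le_mul_of_nonneg_right _ (by positivity)
        linarith
      have h5 : 2 * BIG * ((r' : ℝ) + 1) ≤ (r' + 1) * BIG * (16 * (r' + 1)) := by
        have : 0 ≤ BIG * (r' + 1) := by positivity
        nlinarith
      linarith
    linarith
  obtain ⟨t, ht1, ht2, ht3⟩ : ∃ t, 6 * m ≤ t ∧ (16 * m / θ : ℝ) ≤ t ∧ 1 ≤ t := by
    refine ⟨max (6 * m) (max 1 ⌈(16 * m / θ : ℝ)⌉₊), le_max_left _ _, ?_, ?_⟩
    · refine (Nat.le_ceil _).trans ?_
      exact_mod_cast (le_max_right _ _).trans (le_max_right _ _)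
    · exact (le_max_left _ _).trans (le_max_right _ _)
  have htR : (1 : ℝ) ≤ t := by exact_mod_cast ht3
  obtain ⟨N₁, hN₁⟩ := eventually_atTop.mp
    (eventually_completeEquipartiteGraph_isContained_of_minDegree hε'0 r' t)
  set C₁ : ℕ := m * 2 ^ ((r' + 1) * t) with hC₁
  refine ⟨ε, hε0, max N₁ (max ⌈2 * (5 * (r' + 1) * C₁) / θ⌉₊ ⌈1 / θ⌉₊), ?_⟩
  intro n hn G _ hfree hdeg
  have hnN₁ : N₁ ≤ n := (le_max_left _ _).trans hn
  have hn2 : 2 * (5 * (r' + 1) * C₁) / θ ≤ (n : ℝ) := by
    refine (Nat.le_ceil _).trans ?_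
    exact_mod_cast ((le_max_left _ _).trans (le_max_right _ _)).trans hn
  have hn3 : 1 / θ ≤ (n : ℝ) := by
    refine (Nat.le_ceil _).trans ?_
    exact_mod_cast ((le_max_right _ _).trans (le_max_right _ _)).trans hn
  have hn0 : (0 : ℝ) ≤ n := Nat.cast_nonneg _
  rw [div_le_iff₀ hθ0] at hn2 hn3
  -- a tile
  have hmin : (G.minDegree : ℝ) ≥ (1 - 1 / (r' : ℝ) + ε') * n := by
    have hnpos : 0 < n := by
      rcases Nat.eq_zero_or_pos n with h | h
      · exfalso
        rw [h] at hn3
        simp at hn3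
        linarith
      · exact h
    have : Nonempty (Fin n) := ⟨⟨0, hnpos⟩⟩
    obtain ⟨x, hx⟩ := G.exists_minimal_degree_vertex
    rw [hx]
    have h1 := hdeg x
    have h2 : (1 - 1 / (r' : ℝ) + ε') * n ≤ (1 - 1 / ((r' + 1 : ℕ) : ℝ) - ε) * n :=
      mul_le_mul_of_nonneg_right hεε' hn0
    linarith
  have hcont := hN₁ n hnN₁ hmin
  obtain ⟨T, hT⟩ : ∃ T, IsTile G (r' + 1) t T := by
    obtain ⟨T, hT, -⟩ := isTile_of_copy G (r' + 1) t univ (by
      obtain ⟨f⟩ := hcont
      refine ⟨⟨⟨fun a => ⟨f a, by simp⟩, ?_⟩, ?_⟩⟩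
      · intro a b hab
        exact f.toHom.map_rel' hab
      · intro a b hab
        exact f.injective (congrArg Subtype.val hab))
    exact ⟨T, hT⟩
  obtain ⟨Gd, j, hind, hcount⟩ := classes_of_tile J G (r' + 1) (by omega) u v C₀ huv hCuv hfree t
    ht1 T hT
  rw [Fintype.card_fin, ← hC₁] at hcount
  set s : ℝ := θ * n with hs
  have hs0 : 0 ≤ s := by positivity
  have hs1 : 1 ≤ s := by rw [hs]; linarith
  have hGd : (#(univ \ Gd) : ℝ) ≤ s := by
    have h1 : (((r' + 1 : ℕ) : ℝ) * t) * ((1 - 1 / ((r' + 1 : ℕ) : ℝ) - ε) * n) ≤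
        ((∑ x ∈ tileSet T, G.degree x : ℕ) : ℝ) := by
      have h2 : #(tileSet T) • ((1 - 1 / ((r' + 1 : ℕ) : ℝ) - ε) * n) ≤
          ∑ x ∈ tileSet T, (G.degree x : ℝ) := Finset.card_nsmul_le_sum _ _ _ (fun x _ => hdeg x)
      rw [hT.card, nsmul_eq_mul] at h2
      push_cast at h2 ⊢
      exact h2
    have h3 : (#(univ \ Gd) : ℝ) * t + 4 * ((∑ x ∈ tileSet T, G.degree x : ℕ) : ℝ) ≤
        4 * (n * (r' * t + m)) + (4 * ((r' + 1) * t) + t) * C₁ := by
      have := hcount
      rw [Nat.add_sub_cancel] at this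
      exact_mod_cast this
    rw [hcast] at h1
    have h4 : (((r' : ℝ) + 1) * t) * ((1 - 1 / ((r' : ℝ) + 1) - ε) * n) =
        n * (r' * t) - (r' + 1) * ε * n * t := by
      field_simp
      ring
    rw [h4] at h1
    have h5 : ((r' : ℝ) + 1) * ε = θ / 16 := by
      rw [hε, hcast]; field_simp
    rw [h5] at h1
    rw [div_le_iff₀ hθ0] at ht2
    exact mindeg_real htR hn0 (by linarith) (Nat.cast_nonneg _) h1 h3 ht2 hn2
  refine colorable_of_classes J G (r' + 1) (by omega) u v C₀ huv hCuv hfree Gd j hind s hs0 hGd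
    ?_ ?_
  · intro x
    have h1 := hdeg x
    rw [Fintype.card_fin]
    have h2 : ε * n ≤ s := mul_le_mul_of_nonneg_right hεθ hn0
    linarith
  · rw [Fintype.card_fin]
    have h1 : (n : ℝ) / ((r' + 1 : ℕ) : ℝ) = BIG * s := by
      rw [hs, hθ]; field_simp
    rw [h1, hBIG, ← hm]
    have h2 : (3 : ℝ) * m ≤ 3 * m * s := le_mul_of_one_le_right (by positivity) hs1
    nlinarith

end Pool.Agent.Helper49.Copies
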