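import Pool.Agent.Helper49.CopiesCritical

/-!
# Graphs of large minimum degree without a graph with a critical edge are partite
-/

open Finset Fintype Filter

namespace Pool.Agent.Helper49.Copies

open SimpleGraph

theorem colorable_of_classes {V W : Type} [Fintype V] [Fintype W] [DecidableEq V]
    (J : SimpleGraph W) (G : SimpleGraph V) [DecidableRel G.Adj] (r : ℕ) (hr : 1 ≤ r) (u v : W)
    (C₀ : (J.deleteEdges {s(u, v)}).Coloring (Fin r)) (huv : u ≠ v) (hCuv : C₀ u = C₀ v)
    (hfree : J.Free G) (Gd : Finset V) (j : V → Fin r)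
    (hind : ∀ w ∈ Gd, ∀ w' ∈ Gd, j w = j w' → ¬ G.Adj w w') (s : ℝ) (hs : 0 ≤ s)
    (hGd : (#(univ \ Gd) : ℝ) ≤ s)
    (hdeg : ∀ x, (1 - 1 / (r : ℝ)) * card V - s ≤ G.degree x)
    (hbig : 3 * ((r : ℝ) * card W * ((r + 1) * s) + card W) + 2 * ((r + 1) * s) + r * s + 2 ≤
      card V / r) : G.Colorable r := by
  classical
  set n : ℝ := (card V : ℝ) with hn
  set m := card W with hm
  have hrR : (1 : ℝ) ≤ r := by exact_mod_cast hr
  set Vc : Fin r → Finset V := fun i => {w ∈ Gd | j w = i} with hVc
  have hVcind : ∀ i, ∀ w ∈ Vc i, ∀ w' ∈ Vc i, ¬ G.Adj w w' := by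
    intro i w hw w' hw'
    rw [hVc, mem_filter] at hw hw'
    exact hind w hw.1 w' hw'.1 (hw.2.trans hw'.2.symm)
  have hsumVc : ∑ i, #(Vc i) = #Gd :=
    (card_eq_sum_card_fiberwise (fun _ _ => by simp)).symm
  have hGdcard : (n : ℝ) - s ≤ #Gd := by
    have h1 : #(univ \ Gd) + #Gd = card V := by
      rw [Finset.card_sdiff_add_card_eq_card (subset_univ _), Finset.card_univ]
    have h2 : (#(univ \ Gd) : ℝ) + #Gd = n := by rw [hn]; exact_mod_cast h1
    linarith
  have hn0 : 0 ≤ n := Nat.cast_nonneg _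
  -- upper bound for the classes
  have hdegsplit : ∀ (x : V) (i : Fin r), (∀ w ∈ Vc i, ¬ G.Adj x w) →
      G.degree x + #(Vc i) ≤ card V := by
    intro x i h
    rw [← card_neighborFinset_eq_degree, ← card_union_of_disjoint]
    · exact card_le_univ _
    · rw [Finset.disjoint_left]
      intro w hw hw'
      rw [mem_neighborFinset] at hw
      exact h w hw' hw
  have hVcup : ∀ i, (#(Vc i) : ℝ) ≤ n / r + s := by
    intro i
    rcases (Vc i).eq_empty_or_nonempty with h | ⟨w, hw⟩
    · rw [h]
      simp only [Finset.card_empty, Nat.cast_zero]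
      positivity
    · have h1 := hdegsplit w i (hVcind i w hw)
      have h2 : (G.degree w : ℝ) + #(Vc i) ≤ n := by rw [hn]; exact_mod_cast h1
      have h3 := hdeg w
      have h4 : (1 - 1 / (r : ℝ)) * n = n - n / r := by ring
      rw [h4] at h3
      linarith
  -- lower bound for the classes
  have hVclow : ∀ i, n / r - r * s ≤ #(Vc i) := by
    intro i
    have h1 : #(Vc i) + ∑ l ∈ univ.erase i, #(Vc l) = #Gd := by
      rw [Finset.add_sum_erase univ (fun l => #(Vc l)) (mem_univ i), hsumVc]
    have h2 : ((∑ l ∈ univ.erase i, #(Vc l) : ℕ) : ℝ) ≤ (r - 1) * (n / r + s) := by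
      push_cast
      have h3 : #(univ.erase i) = r - 1 := by
        rw [card_erase_of_mem (mem_univ _), Finset.card_univ, Fintype.card_fin]
      calc ∑ l ∈ univ.erase i, (#(Vc l) : ℝ) ≤ #(univ.erase i) • (n / r + s) :=
            Finset.sum_le_card_nsmul _ _ _ (fun l _ => hVcup l)
        _ = (r - 1) * (n / r + s) := by
            rw [h3, nsmul_eq_mul, Nat.cast_sub hr]; simp
    have h3 : (#(Vc i) : ℝ) + ((∑ l ∈ univ.erase i, #(Vc l) : ℕ) : ℝ) = #Gd := by
      exact_mod_cast h1
    have h4 : ((r : ℝ) - 1) * (n / r + s) = n - n / r + (r - 1) * s := by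
      field_simp
    rw [h4] at h2
    linarith
  -- missing neighbours of good vertices
  set M : ℕ := ⌊((r : ℝ) + 1) * s⌋₊ with hM
  have hMle : (M : ℝ) ≤ (r + 1) * s := Nat.floor_le (by positivity)
  have hmissVc : ∀ i l, i ≠ l → ∀ w ∈ Vc i, #{x ∈ Vc l | ¬ G.Adj w x} ≤ M := by
    intro i l hil w hw
    apply Nat.le_floor
    have h1 : G.degree w + #(Vc i) + #{x ∈ Vc l | ¬ G.Adj w x} ≤ card V := by
      rw [← card_neighborFinset_eq_degree, ← card_union_of_disjoint, ← card_union_of_disjoint]
      · exact card_le_univ _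
      · rw [Finset.disjoint_left]
        intro x hx hx'
        rw [mem_filter] at hx'
        rw [mem_union, mem_neighborFinset] at hx
        rcases hx with hx | hx
        · exact hx'.2 hx
        · have h2 := hx'.1
          rw [hVc, mem_filter] at hx h2
          exact hil (hx.2.symm.trans h2.2)
      · rw [Finset.disjoint_left]
        intro x hx hx'
        rw [mem_neighborFinset] at hx
        exact hVcind i w hw x hx' hx
    have h2 : (G.degree w : ℝ) + #(Vc i) + #{x ∈ Vc l | ¬ G.Adj w x} ≤ n := by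
      rw [hn]; exact_mod_cast h1
    have h3 := hdeg w
    have h4 := hVclow i
    have h5 : (1 - 1 / (r : ℝ)) * n = n - n / r := by ring
    rw [h5] at h3
    linarith
  set Λ : ℕ := r * m * M + m with hΛ
  have hΛle : (Λ : ℝ) ≤ r * m * ((r + 1) * s) + m := by
    rw [hΛ]
    push_cast
    have : (r : ℝ) * m * M ≤ r * m * ((r + 1) * s) :=
      mul_le_mul_of_nonneg_left hMle (by positivity)
    linarith
  -- every vertex has a class with few neighbours
  have hclass : ∀ x : V, ∃ i, #{y ∈ Vc i | G.Adj x y} < Λ := by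
    intro x
    by_contra hcon
    push Not at hcon
    obtain ⟨A, hA1, hA2, hA3⟩ := greedy_multipartite G r m M
      (fun i => {y ∈ Vc i | G.Adj x y}) hcon (by
        intro i l hil w hw
        rw [mem_filter] at hw
        refine (card_le_card ?_).trans (hmissVc i l hil w hw.1)
        intro y hy
        rw [mem_filter, mem_filter] at hy
        rw [mem_filter]
        exact ⟨hy.1.1, hy.2⟩)
    apply hfree
    exact critical_copy_vertex J G r u v C₀ A hA3 (fun i => (hA2 i).ge) x (by
      intro i a ha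
      have := hA1 i ha
      rw [mem_filter] at this
      exact this.2)
  choose j' hj' using hclass
  have hmiss : ∀ x : V, ∀ l, l ≠ j' x →
      (#{y ∈ Vc l | ¬ G.Adj x y} : ℝ) ≤ Λ + (r + 1) * s := by
    intro x l hl
    have h1 : G.degree x ≤ #(univ \ Gd) + ∑ i, #{y ∈ Vc i | G.Adj x y} := by
      rw [← card_neighborFinset_eq_degree]
      have h2 : G.neighborFinset x ⊆ (univ \ Gd) ∪
          univ.biUnion (fun i => {y ∈ Vc i | G.Adj x y}) := by
        intro y hy
        rw [mem_neighborFinset] at hy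
        rw [mem_union]
        by_cases hyG : y ∈ Gd
        · right
          rw [mem_biUnion]
          exact ⟨j y, mem_univ _, by
            rw [mem_filter, hVc, mem_filter]; exact ⟨⟨hyG, rfl⟩, hy⟩⟩
        · left
          rw [Finset.mem_sdiff]
          exact ⟨mem_univ _, hyG⟩
      refine (card_le_card h2).trans ((card_union_le _ _).trans
        (Nat.add_le_add_left card_biUnion_le _))
    rw [← Finset.add_sum_erase _ _ (mem_univ (j' x)), ← Finset.add_sum_erase _ _
      (mem_erase.mpr ⟨hl, mem_univ _⟩)] at h1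
    have h3 : ((∑ i ∈ (univ.erase (j' x)).erase l, #{y ∈ Vc i | G.Adj x y} : ℕ) : ℝ) +
        (n / r + s) ≤ (r - 1) * (n / r + s) := by
      have h5 : #((univ.erase (j' x)).erase l) + 2 = r := by
        rw [card_erase_of_mem (mem_erase.mpr ⟨hl, mem_univ _⟩), card_erase_of_mem (mem_univ _),
          Finset.card_univ, Fintype.card_fin]
        have h6 : 2 ≤ r := by
          have h7 : #({l, j' x} : Finset (Fin r)) = 2 := Finset.card_pair hl
          have h8 := card_le_univ ({l, j' x} : Finset (Fin r))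
          rw [Fintype.card_fin] at h8
          omega
        omega
      have h6 : ((∑ i ∈ (univ.erase (j' x)).erase l, #{y ∈ Vc i | G.Adj x y} : ℕ) : ℝ) ≤
          #((univ.erase (j' x)).erase l) • (n / r + s) := by
        push_cast
        apply Finset.sum_le_card_nsmul
        intro i _
        refine le_trans ?_ (hVcup i)
        exact_mod_cast card_filter_le _ _
      rw [nsmul_eq_mul] at h6
      have h7 : ((#((univ.erase (j' x)).erase l) : ℕ) : ℝ) = r - 2 := by
        have : ((#((univ.erase (j' x)).erase l) + 2 : ℕ) : ℝ) = r := by exact_mod_cast h5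
        push_cast at this
        linarith
      rw [h7] at h6
      linarith
    have h4 : #{y ∈ Vc l | G.Adj x y} + #{y ∈ Vc l | ¬ G.Adj x y} = #(Vc l) :=
      Finset.card_filter_add_card_filter_not _
    have h1' : (G.degree x : ℝ) ≤ #(univ \ Gd) + (#{y ∈ Vc (j' x) | G.Adj x y} +
        (#{y ∈ Vc l | G.Adj x y} +
        ((∑ i ∈ (univ.erase (j' x)).erase l, #{y ∈ Vc i | G.Adj x y} : ℕ) : ℝ))) := by
      exact_mod_cast h1
    have h4' : (#{y ∈ Vc l | G.Adj x y} : ℝ) + #{y ∈ Vc l | ¬ G.Adj x y} = #(Vc l) := by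
      exact_mod_cast h4
    have h5 : (#{y ∈ Vc (j' x) | G.Adj x y} : ℝ) ≤ Λ := by exact_mod_cast (hj' x).le
    have h6 := hVcup l
    have h7 := hdeg x
    have h8 : (1 - 1 / (r : ℝ)) * n = n - n / r := by ring
    have h9 : ((r : ℝ) - 1) * (n / r + s) = n - n / r + (r - 1) * s := by field_simp
    rw [h8] at h7
    rw [h9] at h3
    linarith
  refine ⟨Coloring.mk j' ?_⟩
  intro x x' hxx' hj
  apply hfree
  set S : Fin r → Finset V := fun i => if i = j' x then Vc i \ {x, x'} else
    {y ∈ Vc i | G.Adj x y ∧ G.Adj x' y} with hS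
  have hS1 : S (j' x) = Vc (j' x) \ {x, x'} := by simp [hS]
  have hS2 : ∀ i, i ≠ j' x → S i = {y ∈ Vc i | G.Adj x y ∧ G.Adj x' y} := by
    intro i hi; simp [hS, hi]
  have hSV : ∀ i, S i ⊆ Vc i := by
    intro i
    by_cases hi : i = j' x
    · subst hi; rw [hS1]; exact sdiff_subset
    · rw [hS2 i hi]; exact filter_subset _ _
  have hScard : ∀ i, Λ ≤ #(S i) := by
    intro i
    by_cases hi : i = j' x
    · subst hi
      rw [hS1]
      have h1 := le_card_sdiff {x, x'} (Vc (j' x))
      have h2 : #({x, x'} : Finset V) ≤ 2 := card_le_two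
      have h3 := hVclow (j' x)
      have h4 : (Λ : ℝ) + 2 ≤ #(Vc (j' x)) := by
        have e1 : (0 : ℝ) ≤ r * m * ((r + 1) * s) + m := by positivity
        have e2 : 0 ≤ ((r : ℝ) + 1) * s := by positivity
        linarith
      have h5 : Λ + 2 ≤ #(Vc (j' x)) := by exact_mod_cast h4
      omega
    · rw [hS2 i hi]
      have h1 : Vc i ⊆ {y ∈ Vc i | G.Adj x y ∧ G.Adj x' y} ∪ ({y ∈ Vc i | ¬ G.Adj x y} ∪
          {y ∈ Vc i | ¬ G.Adj x' y}) := by
        intro y hy
        simp only [mem_union, mem_filter]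
        tauto
      have h2 := (card_le_card h1).trans ((card_union_le _ _).trans
        (Nat.add_le_add_left (card_union_le _ _) _))
      have h3 := hmiss x i hi
      have h4 := hmiss x' i (by rw [← hj]; exact hi)
      have h5 := hVclow i
      have h2' : (#(Vc i) : ℝ) ≤ #{y ∈ Vc i | G.Adj x y ∧ G.Adj x' y} +
          (#{y ∈ Vc i | ¬ G.Adj x y} + #{y ∈ Vc i | ¬ G.Adj x' y}) := by exact_mod_cast h2
      have h6 : (Λ : ℝ) ≤ #{y ∈ Vc i | G.Adj x y ∧ G.Adj x' y} := by linarith
      exact_mod_cast h6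
  obtain ⟨A, hA1, hA2, hA3⟩ := greedy_multipartite G r m M S hScard (by
    intro i l hil w hw
    refine (card_le_card ?_).trans (hmissVc i l hil w (hSV i hw))
    intro y hy
    rw [mem_filter] at hy ⊢
    exact ⟨hSV l hy.1, hy.2⟩)
  refine critical_copy J G r u v C₀ huv hCuv (j' x) A hA3 (fun i => (hA2 i).ge) x x' hxx' ?_ ?_ ?_
  · intro i hi a ha
    have := hA1 i ha
    rw [hS2 i hi, mem_filter] at this
    exact this.2
  · intro h
    have := hA1 _ h
    rw [hS1, Finset.mem_sdiff] at this
    exact this.2 (by simp)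
  · intro h
    have := hA1 _ h
    rw [hS1, Finset.mem_sdiff] at this
    exact this.2 (by simp)

end Pool.Agent.Helper49.Copies
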