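import Pool.Agent.Helper49.CopiesSimonovits

/-!
# The Erdős–Gallai theorem for paths
-/

open Finset Fintype Filter

namespace Pool.Agent.Helper49.Copies

open SimpleGraph

theorem rotate_extend {V : Type} (G : SimpleGraph V) (A B : List V) 
    (hchain : (A ++ B).IsChain G.Adj) (hnd : (A ++ B).Nodup)
    (h1 : ∀ x ∈ A.getLast?, ∀ y ∈ B.getLast?, G.Adj x y)
    (h2 : ∀ x ∈ A.head?, ∀ y ∈ B.head?, G.Adj x y) (hA : A ≠ []) (hB : B ≠ [])
    (z y : V) (hz : z ∈ A ++ B) (hy : y ∉ A ++ B) (hzy : G.Adj z y) :
    ∃ l : List V, l.IsChain G.Adj ∧ l.Nodup ∧ l.length = (A ++ B).length + 1 ∧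
      ∀ x ∈ l, x = y ∨ x ∈ A ++ B := by
  rw [List.isChain_append] at hchain
  obtain ⟨hcA, hcB, -⟩ := hchain
  set c := A ++ B.reverse with hc
  have hcc : c.IsChain G.Adj := by
    rw [hc, List.isChain_append]
    refine ⟨hcA, ?_, ?_⟩
    · rw [List.isChain_reverse]
      exact hcB.imp (fun a b h => h.symm)
    · intro x hx y hy
      rw [List.head?_reverse] at hy
      exact h1 x hx y hy
  have hperm : c.Perm (A ++ B) := by
    rw [hc]
    exact List.Perm.append_left _ (List.reverse_perm B)
  have hclose : ∀ x ∈ c.getLast?, ∀ y ∈ c.head?, G.Adj x y := by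
    intro x hx y hy
    rw [hc, List.getLast?_append_of_ne_nil _ (by simpa using hB), List.getLast?_reverse] at hx
    rw [hc, List.head?_append_of_ne_nil _ hA] at hy
    exact (h2 y hy x hx).symm
  have hzc : z ∈ c := hperm.mem_iff.mpr hz
  obtain ⟨X, Y, hXY⟩ := List.append_of_mem hzc
  rw [hXY] at hcc hclose hperm
  rw [List.isChain_append] at hcc
  obtain ⟨hcX, hcY, -⟩ := hcc
  have hperm2 : (y :: ((z :: Y) ++ X)).Perm (y :: (A ++ B)) := by
    apply List.Perm.cons
    exact (List.perm_append_comm).trans hperm
  refine ⟨y :: ((z :: Y) ++ X), ?_, ?_, ?_, ?_⟩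
  · rw [List.isChain_cons]
    refine ⟨?_, ?_⟩
    · intro w hw
      simp only [List.cons_append, List.head?_cons, Option.mem_def, Option.some.injEq] at hw
      subst hw
      exact hzy.symm
    · rw [List.isChain_append]
      refine ⟨hcY, hcX, ?_⟩
      intro a ha b hb
      apply hclose
      · rw [List.getLast?_append_of_ne_nil _ (by simp)]
        exact ha
      · rcases X with _ | ⟨x, X⟩
        · simp at hb
        · simpa using hb
  · rw [hperm2.nodup_iff, List.nodup_cons]
    exact ⟨hy, hnd⟩
  · rw [hperm2.length_eq, List.length_cons]
  · intro x hx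
    rw [hperm2.mem_iff, List.mem_cons] at hx
    exact hx

theorem dsum_erase {V : Type} [DecidableEq V] (G : SimpleGraph V) [DecidableRel G.Adj]
    (U : Finset V) (v : V) (hv : v ∈ U) :
    dsum G U U = dsum G (U.erase v) (U.erase v) + 2 * #{w ∈ U | G.Adj v w} := by
  have h1 : U = {v} ∪ U.erase v := by
    ext x
    simp only [mem_union, mem_singleton, mem_erase]
    constructor
    · intro hx
      by_cases h : x = v
      · exact Or.inl h
      · exact Or.inr ⟨h, hx⟩
    · rintro (h | h)
      · rw [h]; exact hv
      · exact h.2
  have hd : Disjoint {v} (U.erase v) := by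
    rw [Finset.disjoint_singleton_left]
    exact notMem_erase v U
  have h2 : dsum G U U = dsum G {v} {v} + dsum G {v} (U.erase v) +
      (dsum G (U.erase v) {v} + dsum G (U.erase v) (U.erase v)) := by
    conv_lhs => rw [h1]
    rw [dsum_union_left _ _ _ _ hd, dsum_union_right _ _ _ _ hd, dsum_union_right _ _ _ _ hd]
  have h3 : dsum G {v} {v} = 0 := by
    unfold dsum
    simp [Finset.filter_singleton]
  have h4 : dsum G {v} (U.erase v) = #{w ∈ U | G.Adj v w} := by
    unfold dsum
    rw [Finset.sum_singleton]
    congr 1
    ext x
    rw [mem_filter, mem_filter, mem_erase]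
    constructor
    · rintro ⟨⟨_, hx⟩, h⟩; exact ⟨hx, h⟩
    · rintro ⟨hx, h⟩; exact ⟨⟨h.ne', hx⟩, h⟩
  rw [h2, h3, dsum_comm G (U.erase v) {v}, h4]
  ring

/-- **Erdős–Gallai**: more than `d |U| / 2` edges in `U` give a path with `d + 2` vertices. -/
theorem exists_long_path {V : Type} [DecidableEq V] (G : SimpleGraph V) [DecidableRel G.Adj]
    (d : ℕ) : ∀ (N : ℕ) (U : Finset V), #U ≤ N → d * #U < dsum G U U →
    ∃ l : List V, l.IsChain G.Adj ∧ l.Nodup ∧ (∀ x ∈ l, x ∈ U) ∧ d + 2 ≤ l.length := by
  classical
  intro N
  induction N with
  | zero =>
    intro U hU h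
    have : U = ∅ := by rw [← Finset.card_eq_zero]; omega
    subst this
    simp [dsum] at h
  | succ N ih =>
    intro U hU h
    by_cases hlow : ∃ v ∈ U, 2 * #{w ∈ U | G.Adj v w} ≤ d
    · obtain ⟨v, hv, hvd⟩ := hlow
      have h1 := dsum_erase G U v hv
      have h2 := card_erase_of_mem hv
      have h3 : 1 ≤ #U := Finset.card_pos.mpr ⟨v, hv⟩
      obtain ⟨l, hl1, hl2, hl3, hl4⟩ := ih (U.erase v) (by omega) (by
        rw [h2]
        obtain ⟨c, hc⟩ : ∃ c, #U = c + 1 := ⟨#U - 1, by omega⟩
        rw [hc, Nat.mul_add, mul_one] at h
        rw [hc, Nat.add_sub_cancel]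
        omega)
      exact ⟨l, hl1, hl2, fun x hx => (mem_erase.mp (hl3 x hx)).2, hl4⟩
    · push Not at hlow
      by_contra hcon
      push Not at hcon
      obtain ⟨u₀, hu₀⟩ : U.Nonempty := by
        rw [Finset.nonempty_iff_ne_empty]
        rintro rfl
        simp [dsum] at h
      -- a longest path
      have hex : ∃ m, ∃ l : List V, l.IsChain G.Adj ∧ l.Nodup ∧ (∀ x ∈ l, x ∈ U) ∧
          l.length + m = d + 2 := by
        have := hcon [u₀] (by simp) (by simp) (by simpa using hu₀)
        exact ⟨d + 1, [u₀], by simp, by simp, by simpa using hu₀, by simp; omega⟩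
      obtain ⟨l, hlc, hln, hlU, hlm⟩ := Nat.find_spec hex
      set m := Nat.find hex with hm
      have hmax : ∀ l' : List V, l'.IsChain G.Adj → l'.Nodup → (∀ x ∈ l', x ∈ U) →
          l'.length ≤ l.length := by
        intro l' h1 h2 h3
        by_contra hgt
        push Not at hgt
        have h4 := hcon l' h1 h2 h3
        have h5 : d + 2 - l'.length < m := by omega
        exact Nat.find_min hex h5 ⟨l', h1, h2, h3, by omega⟩
      have hlen := hcon l hlc hln hlU
      have hl0 : l ≠ [] := by
        rintro rfl
        have := hmax [u₀] (by simp) (by simp) (by simpa using hu₀)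
        simp at this
      have hlpos : 0 < l.length := List.length_pos_iff.mpr hl0
      have hfirst : l[0] ∈ U := hlU _ (List.getElem_mem _)
      have hlast : l[l.length - 1] ∈ U := hlU _ (List.getElem_mem _)
      -- neighbours of the first vertex are on the path
      have hnb0 : ∀ y ∈ U, G.Adj l[0] y → y ∈ l := by
        intro y hyU hy
        by_contra hyl
        have := hmax (y :: l) (by
          rw [List.isChain_cons]
          refine ⟨?_, hlc⟩
          intro w hw
          have : w = l[0] := by
            rw [List.head?_eq_getElem?, Option.mem_def, List.getElem?_eq_getElem hlpos] at hw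
            exact (Option.some.inj hw).symm
          rw [this]; exact hy.symm) (List.nodup_cons.mpr ⟨hyl, hln⟩) (by
          intro x hx
          rcases List.mem_cons.mp hx with h | h
          · rw [h]; exact hyU
          · exact hlU x h)
        simp at this
      have hnb1 : ∀ y ∈ U, G.Adj l[l.length - 1] y → y ∈ l := by
        intro y hyU hy
        by_contra hyl
        have := hmax (l ++ [y]) (by
          rw [List.isChain_append]
          refine ⟨hlc, by simp, ?_⟩
          intro w hw v hv
          have h1 : w = l[l.length - 1] := by
            rw [List.getLast?_eq_getElem?, Option.mem_def, List.getElem?_eq_getElem (by omega)]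
              at hw
            exact (Option.some.inj hw).symm
          have h2 : v = y := by simpa using hv.symm
          rw [h1, h2]; exact hy) (by
          rw [List.nodup_append]
          refine ⟨hln, by simp, ?_⟩
          intro a ha b hb
          have : b = y := by simpa using hb
          rw [this]
          rintro rfl
          exact hyl ha) (by
          intro x hx
          rcases List.mem_append.mp hx with h | h
          · exact hlU x h
          · have : x = y := by simpa using h
            rw [this]; exact hyU)
        simp at this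
      -- crossing
      let p : ℕ → V := fun i => l.getD i u₀
      have hp : ∀ i (hi : i < l.length), p i = l[i] := by
        intro i hi
        simp [p, List.getD_eq_getElem?_getD, List.getElem?_eq_getElem hi]
      set P₀ := (Finset.range (l.length - 1)).filter (fun i => G.Adj l[0] (p (i + 1))) with hP₀
      set P₁ := (Finset.range (l.length - 1)).filter (fun i => G.Adj l[l.length - 1] (p i)) with hP₁
      have hc0 : #{w ∈ U | G.Adj l[0] w} ≤ #P₀ := by
        refine (card_le_card ?_).trans (card_image_le (f := fun i => p (i + 1)))
        intro w hw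
        rw [mem_filter] at hw
        obtain ⟨j, hj, hjw⟩ := List.mem_iff_getElem.mp (hnb0 w hw.1 hw.2)
        rw [mem_image]
        have hj0 : j ≠ 0 := by
          rintro rfl
          exact hw.2.ne hjw
        refine ⟨j - 1, ?_, ?_⟩
        · rw [hP₀, mem_filter, mem_range]
          refine ⟨by omega, ?_⟩
          have : j - 1 + 1 = j := by omega
          rw [this, hp j hj, hjw]
          exact hw.2
        · have : j - 1 + 1 = j := by omega
          rw [this, hp j hj, hjw]
      have hc1 : #{w ∈ U | G.Adj l[l.length - 1] w} ≤ #P₁ := by
        refine (card_le_card ?_).trans (card_image_le (f := fun i => p i))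
        intro w hw
        rw [mem_filter] at hw
        obtain ⟨j, hj, hjw⟩ := List.mem_iff_getElem.mp (hnb1 w hw.1 hw.2)
        rw [mem_image]
        have hj0 : j ≠ l.length - 1 := by
          rintro rfl
          exact hw.2.ne hjw
        refine ⟨j, ?_, ?_⟩
        · rw [hP₁, mem_filter, mem_range]
          refine ⟨by omega, ?_⟩
          rw [hp j hj, hjw]
          exact hw.2
        · rw [hp j hj, hjw]
      obtain ⟨i, hi⟩ : (P₀ ∩ P₁).Nonempty := by
        rw [← Finset.card_pos]
        have h1 := Finset.card_union_add_card_inter P₀ P₁
        have h2 : #(P₀ ∪ P₁) ≤ l.length - 1 := by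
          rw [← Finset.card_range (l.length - 1)]
          exact card_le_card (union_subset (filter_subset _ _) (filter_subset _ _))
        have h3 := hlow _ hfirst
        have h4 := hlow _ hlast
        omega
      rw [mem_inter, hP₀, hP₁, mem_filter, mem_filter, mem_range] at hi
      obtain ⟨⟨hi1, hi2⟩, -, hi3⟩ := hi
      rw [hp _ (by omega)] at hi2
      rw [hp _ (by omega)] at hi3
      set A := l.take (i + 1) with hA
      set B := l.drop (i + 1) with hB
      have hAB : A ++ B = l := List.take_append_drop _ _
      have hAne : A ≠ [] := by
        rw [← List.length_pos_iff, hA, List.length_take]; omega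
      have hBne : B ≠ [] := by
        rw [← List.length_pos_iff, hB, List.length_drop]; omega
      have hclosed : ∀ z ∈ l, ∀ y ∈ U, G.Adj z y → y ∈ l := by
        intro z hz y hyU hzy
        by_contra hyl
        obtain ⟨l', h1, h2, h3, h4⟩ := rotate_extend G A B (by rw [hAB]; exact hlc)
          (by rw [hAB]; exact hln) (by
            intro x hx y hy
            have e1 : x = l[i] := by
              rw [hA, List.getLast?_take, if_neg (by omega), Option.mem_def] at hx
              have : i + 1 - 1 = i := by omega
              rw [this, List.getElem?_eq_getElem (by omega : i < l.length)] at hx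
              simpa using hx.symm
            have e2 : y = l[l.length - 1] := by
              rw [hB, List.getLast?_drop, if_neg (by omega), List.getLast?_eq_getElem?,
                Option.mem_def, List.getElem?_eq_getElem (by omega)] at hy
              simpa using hy.symm
            rw [e1, e2]; exact hi3.symm) (by
            intro x hx y hy
            have e1 : x = l[0] := by
              rw [hA, List.head?_take, if_neg (by omega), List.head?_eq_getElem?,
                Option.mem_def, List.getElem?_eq_getElem hlpos] at hx
              simpa using hx.symm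
            have e2 : y = l[i + 1] := by
              rw [hB, List.head?_drop, Option.mem_def,
                List.getElem?_eq_getElem (by omega : i + 1 < l.length)] at hy
              simpa using hy.symm
            rw [e1, e2]; exact hi2) hAne hBne z y (by rw [hAB]; exact hz)
            (by rw [hAB]; exact hyl) hzy
        rw [hAB] at h3 h4
        have := hmax l' h1 h2 (by
          intro x hx
          rcases h4 x hx with h | h
          · rw [h]; exact hyU
          · exact hlU x h)
        omega
      -- remove the path
      set S := l.toFinset with hS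
      have hSU : S ⊆ U := by
        intro x hx
        exact hlU x (List.mem_toFinset.mp hx)
      have hScard : #S = l.length := List.toFinset_card_of_nodup hln
      have hdisj : Disjoint S (U \ S) := Finset.disjoint_sdiff
      have hU2 : S ∪ (U \ S) = U := Finset.union_sdiff_of_subset hSU
      have hcross : dsum G S (U \ S) = 0 := by
        unfold dsum
        apply Finset.sum_eq_zero
        intro z hz
        rw [Finset.card_eq_zero, Finset.filter_eq_empty_iff]
        intro y hy hzy
        have hy' := Finset.mem_sdiff.mp hy
        exact hy'.2 (List.mem_toFinset.mpr (hclosed z (List.mem_toFinset.mp hz) y hy'.1 hzy))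
      have hSS : dsum G S S ≤ #S * d := by
        unfold dsum
        rw [← smul_eq_mul]
        apply Finset.sum_le_card_nsmul
        intro z hz
        have h1 : {w ∈ S | G.Adj z w} ⊆ S.erase z := by
          intro w hw
          rw [mem_filter] at hw
          rw [mem_erase]
          exact ⟨hw.2.ne', hw.1⟩
        have h2 := card_le_card h1
        rw [card_erase_of_mem hz] at h2
        omega
      have htot : dsum G U U = dsum G S S + dsum G (U \ S) (U \ S) := by
        conv_lhs => rw [← hU2]
        rw [dsum_union_left _ _ _ _ hdisj, dsum_union_right _ _ _ _ hdisj,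
          dsum_union_right _ _ _ _ hdisj, dsum_comm G (U \ S) S, hcross]
        ring
      have hcardU : #S + #(U \ S) = #U := by
        rw [← card_union_of_disjoint hdisj, hU2]
      have h5 : d * #(U \ S) < dsum G (U \ S) (U \ S) := by
        have : d * #U = #S * d + d * #(U \ S) := by rw [← hcardU]; ring
        omega
      obtain ⟨l', h1, h2, h3, h4⟩ := ih (U \ S) (by omega) h5
      exact absurd h4 (not_le.mpr (hcon l' h1 h2 (fun x hx => (Finset.mem_sdiff.mp (h3 x hx)).1)))

/-- The extremal number of a path. -/
theorem extremalNumber_path_le (n d : ℕ) : 2 * extremalNumber n (pathGraph (d + 2)) ≤ d * n := by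
  classical
  by_contra hcon
  push Not at hcon
  have h1 : d * n / 2 < extremalNumber n (pathGraph (d + 2)) := by omega
  conv_rhs at h1 => rw [← Fintype.card_fin n]
  rw [lt_extremalNumber_iff] at h1
  obtain ⟨G, _, hfree, hG⟩ := h1
  have h2 := two_mul_card_edges G
  obtain ⟨l, hl1, hl2, -, hl4⟩ := exists_long_path G d (#(univ : Finset (Fin n))) univ le_rfl (by
    rw [← h2, Finset.card_univ, Fintype.card_fin]
    omega)
  apply hfree
  rw [List.isChain_iff_getElem] at hl1
  refine ⟨⟨⟨fun i => l[(i : ℕ)]'(by omega), ?_⟩, ?_⟩⟩
  · intro a b hab
    rw [pathGraph_adj] at hab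
    rcases hab with h | h
    · have := hl1 a (by omega)
      simpa [h] using this
    · have := hl1 b (by omega)
      have h3 := this.symm
      simpa [h] using h3
  · intro a b hab
    have : (a : ℕ) = b := (List.Nodup.getElem_inj_iff hl2).mp hab
    exact Fin.ext this

end Pool.Agent.Helper49.Copies
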