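import Pool.Agent.Helper49.CopiesMinDeg

/-!
# Extremal numbers of graphs with a critical edge, and components of small chromatic number
-/

open Finset Fintype Filter

namespace Pool.Agent.Helper49.Copies

open SimpleGraph

theorem colorable_edges_le {n r : ℕ} (hr : 1 ≤ r) (G : SimpleGraph (Fin n)) [DecidableRel G.Adj]
    (hG : G.Colorable r) : (#G.edgeFinset : ℝ) ≤ (1 - 1 / (r : ℝ)) * n ^ 2 / 2 := by
  classical
  have h1 := (hG.cliqueFree (Nat.lt_succ_self r)).card_edgeFinset_le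
  rw [Fintype.card_fin] at h1
  have h2 : #G.edgeFinset ≤ #(turanGraph n r).edgeFinset := by
    rw [card_edgeFinset_turanGraph]; exact h1
  have h3 : 2 * r * #(turanGraph n r).edgeFinset ≤ (r - 1) * n ^ 2 :=
    mul_card_edgeFinset_turanGraph_le
  have h4 : 2 * r * #G.edgeFinset ≤ (r - 1) * n ^ 2 :=
    (Nat.mul_le_mul_left _ h2).trans h3
  have hrR : (1 : ℝ) ≤ r := by exact_mod_cast hr
  have h5 : (2 : ℝ) * r * #G.edgeFinset ≤ (r - 1) * n ^ 2 := by
    have : ((2 * r * #G.edgeFinset : ℕ) : ℝ) ≤ (((r - 1) * n ^ 2 : ℕ) : ℝ) := by exact_mod_cast h4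
    push_cast [Nat.cast_sub hr] at this
    exact this
  have h6 : (1 - 1 / (r : ℝ)) * n ^ 2 / 2 = (r - 1) * n ^ 2 / (2 * r) := by
    field_simp
  rw [h6, le_div_iff₀ (by positivity)]
  linarith

/-- Simonovits' theorem (upper bound): a graph with a critical edge. -/
theorem ex_critical {W : Type} [Fintype W] (J : SimpleGraph W) (r : ℕ) (hr : 2 ≤ r)
    (u v : W) (huv : J.Adj u v) (hC : (J.deleteEdges {s(u, v)}).Colorable r)
    (hnc : ¬ J.Colorable r) : ∀ᶠ m : ℕ in atTop,
    (extremalNumber m J : ℝ) ≤ (1 - 1 / (r : ℝ)) * m ^ 2 / 2 := by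
  classical
  obtain ⟨C₀⟩ := hC
  have hCuv : C₀ u = C₀ v := by
    by_contra hne
    apply hnc
    refine ⟨Coloring.mk (fun x => C₀ x) ?_⟩
    intro a b hab h
    by_cases h1 : s(a, b) = s(u, v)
    · rw [Sym2.eq_iff] at h1
      rcases h1 with ⟨rfl, rfl⟩ | ⟨rfl, rfl⟩
      · exact hne h
      · exact hne h.symm
    · refine C₀.valid (v := a) (w := b) ?_ h
      rw [deleteEdges_adj]
      exact ⟨hab, by simpa using h1⟩
  obtain ⟨ε, hε, N₀, hN₀⟩ := partite_of_minDegree J r hr u v C₀ huv.ne hCuv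
  have hrR : (2 : ℝ) ≤ r := by exact_mod_cast hr
  have hinv : 1 / (r : ℝ) ≤ 1 := by rw [div_le_one (by linarith)]; linarith
  have hinv0 : 0 ≤ 1 / (r : ℝ) := by positivity
  set f : ℕ → ℝ := fun m => (1 - 1 / (r : ℝ)) * m ^ 2 / 2 with hf
  have hf0 : ∀ m, 0 ≤ f m := by
    intro m
    have : 0 ≤ 1 - 1 / (r : ℝ) := by linarith
    simp only [hf]
    positivity
  have hstep : ∀ m, N₀ ≤ m + 1 → (extremalNumber (m + 1) J : ℝ) ≤
      max (f (m + 1)) (extremalNumber m J + (1 - 1 / (r : ℝ) - ε) * ((m + 1 : ℕ) : ℝ)) := by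
    intro m hm
    conv_lhs => rw [← Fintype.card_fin (m + 1)]
    rw [extremalNumber_le_iff_of_nonneg _ ((hf0 (m + 1)).trans (le_max_left _ _))]
    intro G _ hfree
    by_cases hdeg : ∀ x, (1 - 1 / (r : ℝ) - ε) * ((m + 1 : ℕ) : ℝ) ≤ G.degree x
    · exact (colorable_edges_le (by omega) G (hN₀ (m + 1) hm G hfree hdeg)).trans (le_max_left _ _)
    · push Not at hdeg
      obtain ⟨x, hx⟩ := hdeg
      have h1 := card_edgeFinset_deleteIncidenceSet_le_extremalNumber hfree x
      rw [G.card_edgeFinset_deleteIncidenceSet x, Fintype.card_fin, Nat.add_sub_cancel] at h1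
      have h2 : #G.edgeFinset ≤ extremalNumber m J + G.degree x := by omega
      have h3 : (#G.edgeFinset : ℝ) ≤ extremalNumber m J + G.degree x := by exact_mod_cast h2
      refine le_trans ?_ (le_max_right _ _)
      linarith
  set N₁ : ℕ := max N₀ ⌈1 / ε⌉₊ with hN₁
  set A : ℝ := (extremalNumber N₁ J : ℝ) with hA
  have hind : ∀ i : ℕ, (extremalNumber (N₁ + i) J : ℝ) ≤ f (N₁ + i) + max 0 (A - i / 2) := by
    intro i
    induction i with
    | zero =>
      have h1 := le_max_right 0 (A - (0 : ℕ) / 2)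
      have h2 := hf0 (N₁ + 0)
      simp only [Nat.add_zero, Nat.cast_zero, zero_div, sub_zero] at h1 h2 ⊢
      linarith
    | succ i ih =>
      have h1 := hstep (N₁ + i) (by have := le_max_left N₀ ⌈1 / ε⌉₊; omega)
      have hM : 1 ≤ ε * ((N₁ + i + 1 : ℕ) : ℝ) := by
        have h2 : 1 / ε ≤ (N₁ : ℝ) := (Nat.le_ceil _).trans (by exact_mod_cast le_max_right _ _)
        rw [div_le_iff₀ hε] at h2
        push_cast
        have h3 : (0 : ℝ) ≤ i := Nat.cast_nonneg _
        nlinarith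
      have hfs : f (N₁ + i) + (1 - 1 / (r : ℝ)) * ((N₁ + i + 1 : ℕ) : ℝ) =
          f (N₁ + i + 1) + (1 - 1 / (r : ℝ)) / 2 := by
        simp only [hf]
        push_cast
        ring
      have hmax1 := le_max_left 0 (A - ((i + 1 : ℕ) : ℝ) / 2)
      have hmax2 := le_max_right 0 (A - ((i + 1 : ℕ) : ℝ) / 2)
      have hadd : N₁ + (i + 1) = N₁ + i + 1 := by ring
      rw [hadd]
      refine h1.trans (max_le ?_ ?_)
      · linarith
      · have h4 : max 0 (A - (i : ℝ) / 2) - 1 / 2 ≤ max 0 (A - ((i + 1 : ℕ) : ℝ) / 2) := by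
          rcases le_total 0 (A - (i : ℝ) / 2) with h | h
          · rw [max_eq_right h]
            push_cast at hmax2 ⊢
            linarith
          · rw [max_eq_left h]
            linarith
        have h5 : (1 - 1 / (r : ℝ) - ε) * ((N₁ + i + 1 : ℕ) : ℝ) =
            (1 - 1 / (r : ℝ)) * ((N₁ + i + 1 : ℕ) : ℝ) - ε * ((N₁ + i + 1 : ℕ) : ℝ) := by ring
        rw [h5]
        linarith
  filter_upwards [eventually_ge_atTop (N₁ + ⌈2 * A⌉₊)] with m hm
  obtain ⟨i, rfl⟩ : ∃ i, m = N₁ + i := ⟨m - N₁, by omega⟩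
  have h1 := hind i
  have h2 : 2 * A ≤ (i : ℝ) := (Nat.le_ceil _).trans (by
    have : ⌈2 * A⌉₊ ≤ i := by omega
    exact_mod_cast this)
  have h3 : max 0 (A - (i : ℝ) / 2) = 0 := max_eq_left (by linarith)
  rw [h3, add_zero] at h1
  exact h1

/-- A colourable graph is contained in large complete multipartite graphs. -/
theorem contained_equipartite {W : Type} [Fintype W] (J : SimpleGraph W) (r : ℕ)
    (hJ : J.Colorable r) : J ⊑ completeEquipartiteGraph r (card W) := by
  classical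
  obtain ⟨C⟩ := hJ
  obtain ⟨f, -⟩ := multipartite_copy J (completeEquipartiteGraph r (card W)) (fun w => C w)
    (fun a b hab => C.valid hab) (fun i => univ.image (fun x : Fin (card W) => (i, x))) (by
      intro i j hij a ha b hb
      rw [mem_image] at ha hb
      obtain ⟨x, -, rfl⟩ := ha
      obtain ⟨y, -, rfl⟩ := hb
      simpa using hij) (by
      intro i
      rw [card_image_of_injective _ (fun a b h => by simpa using h), Finset.card_univ,
        Fintype.card_fin]
      exact card_le_univ _)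
  exact ⟨f⟩

/-- A component of smaller chromatic number. -/
theorem tendsto_chromatic {W ι : Type} [Fintype W] [DecidableEq ι]
    (L : SimpleGraph W) (c : W → ι) (hc : ∀ a b, L.Adj a b → c a = c b) (r : ℕ) (hr : 1 ≤ r)
    (hL : ¬ L.Colorable r) (i₀ : ι) (hi₀ : ∃ a, c a = i₀)
    (hi : (L.induce {w | c w = i₀}).Colorable r) :
    Tendsto (fun n => minCopies n L) atTop atTop := by
  classical
  have hLne : L ≠ ⊥ := by
    rintro rfl
    apply hL
    exact ⟨Coloring.mk (fun _ => ⟨0, by omega⟩) (fun {a b} hab => absurd hab (by simp))⟩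
  rcases Nat.lt_or_ge r 2 with hr2 | hr2
  · obtain rfl : r = 1 := by omega
    obtain ⟨a, ha⟩ := hi₀
    apply tendsto_isolated L hLne a
    intro b hab
    obtain ⟨C⟩ := hi
    have h1 : (L.induce {w | c w = i₀}).Adj ⟨a, ha⟩ ⟨b, by
      change c b = i₀
      rw [← hc a b hab, ha]⟩ := hab
    exact C.valid h1 (Subsingleton.elim _ _)
  · obtain ⟨r', rfl⟩ : ∃ r', r = r' + 1 := ⟨r - 1, by omega⟩
    have hr' : 1 ≤ r' := by omega
    have hr'R : (1 : ℝ) ≤ r' := by exact_mod_cast hr'
    set ε : ℝ := 1 / (2 * r' * (r' + 1)) with hε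
    have hε0 : 0 < ε := by positivity
    apply tendsto_minCopies_of L hLne
    intro d
    obtain ⟨M, hM⟩ := eventually_atTop.mp
      (es_edges r' (Fintype.card {w | c w = i₀}) hr' hε0)
    set K : ℝ := (d : ℝ) ^ 2 + 2 * d + 2 * (r' + 1) ^ 2 with hK
    filter_upwards [eventually_ge_atTop (M + d), eventually_ge_atTop 1,
      eventually_gt_atTop ⌈K / ε⌉₊] with n hnM hn1 hnK G _ hG D hDd hD
    obtain ⟨f₀⟩ := copy_of_extremal hG
    set U : Finset (Fin n) := univ \ D with hU
    have hUcard : #U + #D = n := by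
      rw [hU, card_sdiff_of_subset (subset_univ _), Finset.card_univ, Fintype.card_fin]
      have := card_le_univ D
      rw [Fintype.card_fin] at this
      omega
    have h2 := two_mul_card_edges_le G D
    have h3 : dsum G U U ≤ 2 * extremalNumber (#U) (L.induce {w | c w = i₀}) := by
      apply dsum_le_extremal
      intro f
      by_contra hcon
      push Not at hcon
      refine piece_free c hc D hD f₀ i₀ hi₀ f ?_
      intro a ha
      exact (mem_sdiff.mp (hcon a)).2 ha
    have h4 : extremalNumber (#U) (L.induce {w | c w = i₀}) ≤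
        extremalNumber (#U) (completeEquipartiteGraph (r' + 1) (Fintype.card {w | c w = i₀})) :=
      (contained_equipartite _ _ hi).extremalNumber_le
    have h5 := hM (#U) (by omega)
    have h6 : dsum G D D ≤ d ^ 2 := by
      refine (dsum_le G D D).trans ?_
      rw [pow_two]
      exact Nat.mul_le_mul hDd hDd
    have h7 : dsum G U D ≤ n * d := (dsum_le G U D).trans (Nat.mul_le_mul (by omega) hDd)
    have h8 : #(turanGraph n (r' + 1)).edgeFinset ≤ extremalNumber n L := by
      have := card_edgeFinset_le_extremalNumber (turan_free L (r' + 1) hr hL n)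
      rwa [Fintype.card_fin] at this
    have h9 := turan_lower n (r' + 1) hr
    have hU' : (#U : ℝ) ≤ n := by
      have : #U ≤ n := by omega
      exact_mod_cast this
    have hn0 : (1 : ℝ) ≤ n := by exact_mod_cast hn1
    have e1 : 2 * (#G.edgeFinset : ℝ) = dsum G D D + 2 * dsum G U D + dsum G U U := by
      exact_mod_cast h2
    have e2 : (dsum G D D : ℝ) ≤ d ^ 2 := by exact_mod_cast h6
    have e3 : (dsum G U U : ℝ) ≤ 2 * extremalNumber (#U) (L.induce {w | c w = i₀}) := by
      exact_mod_cast h3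
    have e4 : (extremalNumber (#U) (L.induce {w | c w = i₀}) : ℝ) ≤
        extremalNumber (#U) (completeEquipartiteGraph (r' + 1) (Fintype.card {w | c w = i₀})) := by
      exact_mod_cast h4
    have e5 : (dsum G U D : ℝ) ≤ n * d := by exact_mod_cast h7
    have e6 : (#(turanGraph n (r' + 1)).edgeFinset : ℝ) ≤ extremalNumber n L := by
      exact_mod_cast h8
    have e7 : (#G.edgeFinset : ℝ) = extremalNumber n L + 1 := by exact_mod_cast hG
    have e8 : (1 - 1 / (r' : ℝ) + ε) * (#U : ℝ) ^ 2 ≤ (1 - 1 / (r' : ℝ) + ε) * (n : ℝ) ^ 2 := by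
      apply mul_le_mul_of_nonneg_left
      · have : (0 : ℝ) ≤ #U := Nat.cast_nonneg _
        nlinarith
      · have : 1 / (r' : ℝ) ≤ 1 := by rw [div_le_one (by linarith)]; exact hr'R
        linarith
    have e9 : 1 / (r' : ℝ) - 1 / ((r' + 1 : ℕ) : ℝ) = 2 * ε := by
      rw [hε]; push_cast; field_simp; ring
    have e10 : ((r' + 1 : ℕ) : ℝ) ^ 2 = ((r' : ℝ) + 1) ^ 2 := by push_cast; ring
    rw [e10] at h9
    have e11 : ε * (n : ℝ) ^ 2 ≤ d ^ 2 + 2 * (n * d) + 2 * ((r' : ℝ) + 1) ^ 2 := by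
      have : (1 - 1 / ((r' + 1 : ℕ) : ℝ)) * (n : ℝ) ^ 2 -
          (1 - 1 / (r' : ℝ) + ε) * (n : ℝ) ^ 2 = ε * (n : ℝ) ^ 2 := by
        have : (1 - 1 / ((r' + 1 : ℕ) : ℝ)) = (1 - 1 / (r' : ℝ) + ε) + ε := by linarith
        rw [this]; ring
      linarith
    have e12 : K / ε < n := lt_of_le_of_lt (Nat.le_ceil _) (by exact_mod_cast hnK)
    rw [div_lt_iff₀ hε0] at e12
    have e13 : K * n < (n * ε) * n := by
      apply mul_lt_mul_of_pos_right e12; linarith
    have e14 : (d : ℝ) ^ 2 + 2 * (n * d) + 2 * ((r' : ℝ) + 1) ^ 2 ≤ K * n := by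
      rw [hK]
      have a1 : (d : ℝ) ^ 2 ≤ d ^ 2 * n := le_mul_of_one_le_right (by positivity) hn0
      have a2 : 2 * ((r' : ℝ) + 1) ^ 2 ≤ 2 * ((r' : ℝ) + 1) ^ 2 * n :=
        le_mul_of_one_le_right (by positivity) hn0
      have a3 : ((d : ℝ) ^ 2 + 2 * d + 2 * (r' + 1) ^ 2) * n =
          d ^ 2 * n + 2 * (n * d) + 2 * ((r' : ℝ) + 1) ^ 2 * n := by ring
      rw [a3]
      linarith
    have e15 : ((n : ℝ) * ε) * n = ε * (n : ℝ) ^ 2 := by ring
    rw [e15] at e13
    linarith

end Pool.Agent.Helper49.Copies
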