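import Pool.Agent.Helper49.CopiesMain

/-!
# A component with one or two edges: `A(n; L) → ∞`
-/

open Finset Fintype Filter

namespace Pool.Agent.Helper49.Copies

open SimpleGraph

theorem bip_copy {V W : Type} [Fintype W] [DecidableEq V] [DecidableEq W]
    {L : SimpleGraph W} (G : SimpleGraph V) (Q : Set W) [DecidablePred (· ∈ Q)]
    (col : W → Bool) (hcol : ∀ a b, L.Adj a b → col a ≠ col b) (T N : Finset V)
    (hTN : ∀ t ∈ T, ∀ y ∈ N, G.Adj t y)
    (hT : #(univ.filter (fun a => a ∈ Q ∧ col a = true)) ≤ #T) (hN : card W ≤ #N) :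
    ∃ g : Copy (L.induce Q) G, (∀ a : Q, col a = true → g a ∈ T) ∧
      ∀ a : Q, col a = false → g a ∈ N := by
  classical
  have hcT : Fintype.card (univ.filter (fun a => a ∈ Q ∧ col a = true) : Finset W) ≤
      Fintype.card T := by
    rw [Fintype.card_coe, Fintype.card_coe]; exact hT
  obtain ⟨φ⟩ := Function.Embedding.nonempty_of_card_le hcT
  have hcN : Fintype.card W ≤ Fintype.card N := by
    rw [Fintype.card_coe]; exact hN
  obtain ⟨ψ⟩ := Function.Embedding.nonempty_of_card_le hcN
  have hmem : ∀ a : Q, col a = true → (a : W) ∈ univ.filter (fun a => a ∈ Q ∧ col a = true) := by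
    intro a ha
    rw [mem_filter]
    exact ⟨mem_univ _, a.2, ha⟩
  let g : Q → V := fun a => if h : col a = true then φ ⟨a, hmem a h⟩ else ψ a
  have hgt : ∀ a : Q, ∀ h : col a = true, g a = φ ⟨a, hmem a h⟩ := by
    intro a h; simp [g, h]
  have hgf : ∀ a : Q, ∀ h : col a = false, g a = ψ a := by
    intro a h; simp [g, h]
  have hTN' : ∀ t ∈ T, ∀ y ∈ N, t ≠ y := fun t ht y hy => (hTN t ht y hy).ne
  refine ⟨⟨⟨g, ?_⟩, ?_⟩, ?_, ?_⟩
  · intro a b hab
    have h := hcol a b hab
    cases ha : col a <;> cases hb : col b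
    · exact absurd (ha.trans hb.symm) h
    · rw [hgf a ha, hgt b hb]
      exact (hTN _ (φ _).2 _ (ψ _).2).symm
    · rw [hgt a ha, hgf b hb]
      exact hTN _ (φ _).2 _ (ψ _).2
    · exact absurd (ha.trans hb.symm) h
  · intro a b hab
    change g a = g b at hab
    cases ha : col a <;> cases hb : col b
    · rw [hgf a ha, hgf b hb] at hab
      exact Subtype.ext (ψ.injective (Subtype.ext hab))
    · rw [hgf a ha, hgt b hb] at hab
      exact absurd hab (hTN' _ (φ _).2 _ (ψ _).2).symm
    · rw [hgt a ha, hgf b hb] at hab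
      exact absurd hab (hTN' _ (φ _).2 _ (ψ _).2)
    · rw [hgt a ha, hgt b hb] at hab
      have := φ.injective (Subtype.ext hab)
      rw [Subtype.mk.injEq] at this
      exact Subtype.ext this
  · intro a ha
    change g a ∈ T
    rw [hgt a ha]; exact (φ _).2
  · intro a ha
    change g a ∈ N
    rw [hgf a ha]; exact (ψ _).2

/-- Gluing two pieces. -/
theorem glue_two {V W : Type} {L : SimpleGraph W} {G : SimpleGraph V} (c : W → Bool)
    (hc : ∀ a b, L.Adj a b → c a = c b)
    (g₁ : Copy (L.induce {w | c w = true}) G) (g₂ : Copy (L.induce {w | c w = false}) G)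
    (hg : ∀ a b, g₁ a ≠ g₂ b) :
    ∃ f : Copy L G, (∀ a, f (a : {w | c w = true}) = g₁ a) ∧
      (∀ a, f (a : {w | c w = false}) = g₂ a) := by
  let g : ∀ i : Bool, Copy (L.induce {w | c w = i}) G := fun i => match i with
    | true => g₁
    | false => g₂
  obtain ⟨f, hf⟩ := glue c hc g (by
    intro i j hij a b
    cases i <;> cases j
    · exact absurd rfl hij
    · exact fun h => hg b a h.symm
    · exact hg a b
    · exact absurd rfl hij)
  refine ⟨f, ?_, ?_⟩
  · rintro ⟨a, ha⟩
    rw [hf]
    have : ∀ (i : Bool) (hi : c a = i), g (c a) ⟨a, rfl⟩ = g i ⟨a, hi⟩ := by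
      intro i hi; subst hi; rfl
    exact this true ha
  · rintro ⟨a, ha⟩
    rw [hf]
    have : ∀ (i : Bool) (hi : c a = i), g (c a) ⟨a, rfl⟩ = g i ⟨a, hi⟩ := by
      intro i hi; subst hi; rfl
    exact this false ha

theorem tendsto_small_star_aux {W : Type} [Fintype W] (L : SimpleGraph W)
    (hac : L.IsAcyclic) (hiso : ∀ a, ∃ b, L.Adj a b) (c : W → Bool)
    (hc : ∀ a b, L.Adj a b → c a = c b) (u : W) (hu : c u = true)
    (hstar : ∀ a b, c a = true → c b = true → L.Adj a b → a = u ∨ b = u)
    (hsize : ∀ [DecidableEq W], #(univ.filter (fun a => c a = true ∧ a ≠ u)) ≤ 2)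
    (hother : ∃ a, c a = false) :
    Tendsto (fun n => minCopies n L) atTop atTop := by
  classical
  have hLne : L ≠ ⊥ := by
    rintro rfl
    obtain ⟨b, hb⟩ := hiso u
    exact hb
  -- minimal colouring
  have hcolex : (univ.filter (fun col : W → Bool => ∀ a b, L.Adj a b → col a ≠ col b)).Nonempty := by
    obtain ⟨C⟩ := hac.colorable_two
    refine ⟨fun w => decide (C w = 0), ?_⟩
    rw [mem_filter]
    refine ⟨mem_univ _, ?_⟩
    intro a b hab h
    have h1 := C.valid hab
    have h2 : ∀ x : Fin 2, x = 0 ∨ x = 1 := by decide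
    simp only [decide_eq_decide] at h
    rcases h2 (C a) with h3 | h3 <;> rcases h2 (C b) with h4 | h4 <;> simp_all
  obtain ⟨col, hcol, hmin⟩ := exists_min_image _
    (fun col : W → Bool => #(univ.filter (fun w => c w = false ∧ col w = true))) hcolex
  rw [mem_filter] at hcol
  replace hcol := hcol.2
  set m := #(univ.filter (fun w => c w = false ∧ col w = true)) with hm
  have hmin' : ∀ col' : W → Bool, (∀ a b, L.Adj a b → col' a ≠ col' b) →
      m ≤ #(univ.filter (fun w => c w = false ∧ col' w = true)) := by
    intro col' hcol'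
    exact hmin col' (by rw [mem_filter]; exact ⟨mem_univ _, hcol'⟩)
  -- lower bound for the extremal number
  have hlow : ∀ n, m ≤ n → m * (n - m) ≤ extremalNumber n L := by
    intro n hn
    obtain ⟨X₀, -, hX₀⟩ : ∃ X₀ ⊆ (univ : Finset (Fin n)), #X₀ = m :=
      exists_subset_card_eq (by rw [Finset.card_univ, Fintype.card_fin]; exact hn)
    have hfree : L.Free (hubGraph (⊥ : SimpleGraph (Fin n)) X₀ univ) := by
      rintro ⟨f⟩
      have hadj : ∀ a b, L.Adj a b → decide (f a ∈ X₀) ≠ decide (f b ∈ X₀) := by
        intro a b hab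
        have h := f.toHom.map_rel' hab
        change (hubGraph _ _ _).Adj (f a) (f b) at h
        rcases h with h | h | h
        · simp [h.1, h.2]
        · simp [h.1, h.2]
        · exact absurd (mem_univ _) h.1
      have h1 := hmin' (fun w => decide (f w ∈ X₀)) hadj
      obtain ⟨b, hb⟩ := hiso u
      have hcb : c b = true := by rw [← hc u b hb, hu]
      -- a vertex of the small piece in X₀
      obtain ⟨z, hz, hzX⟩ : ∃ z, c z = true ∧ f z ∈ X₀ := by
        by_contra hcon
        push Not at hcon
        have h2 := hadj u b hb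
        simp [hcon u hu, hcon b hcb] at h2
      have h3 : #(insert z (univ.filter (fun w => c w = false ∧ decide (f w ∈ X₀) = true))) ≤
          #X₀ := by
        apply card_le_card_of_injOn (fun w => f w)
        · intro w hw
          simp only [coe_insert, Set.mem_insert_iff, mem_coe, mem_filter, mem_univ, true_and,
            decide_eq_true_eq] at hw
          rcases hw with rfl | hw
          · exact hzX
          · exact hw.2
        · intro a _ b _ hab; exact f.injective hab
      rw [card_insert_of_notMem (by simp [hz]), hX₀] at h3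
      omega
    have h1 := card_edgeFinset_le_extremalNumber hfree
    have h2 := hubGraph_card (⊥ : SimpleGraph (Fin n)) X₀ univ (subset_univ _)
    rw [Fintype.card_fin, hX₀] at h2
    rw [Fintype.card_fin] at h1
    omega
  have hm1 : 1 ≤ m := by
    obtain ⟨a, ha⟩ := hother
    obtain ⟨b, hb⟩ := hiso a
    have hcb : c b = false := by rw [← hc a b hb, ha]
    have h1 := hcol a b hb
    rw [hm, Nat.one_le_iff_ne_zero, ← Nat.pos_iff_ne_zero, card_pos]
    cases h2 : col a
    · refine ⟨b, ?_⟩
      rw [mem_filter]
      refine ⟨mem_univ _, hcb, ?_⟩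
      cases h3 : col b
      · exact absurd (h2.trans h3.symm) h1
      · rfl
    · exact ⟨a, by rw [mem_filter]; exact ⟨mem_univ _, ha, h2⟩⟩
  apply tendsto_minCopies_of L hLne
  intro d
  set M₀ := d + card W + 2 with hM₀
  set M' := d + 2 * card W with hM'
  filter_upwards [eventually_gt_atTop
    (2 * (m * m + card W * (2 ^ card W * M') + d * M₀ + 1))] with n hn G _ hG D hDd hD
  obtain ⟨f₀⟩ := copy_of_extremal hG
  set X := univ.filter (fun x : Fin n => M₀ ≤ G.degree x) with hX
  -- Claim A
  have hA : ∀ g : Copy (L.induce {w | c w = false}) G, ∀ x ∈ X, ∃ a, g a = x := by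
    intro g x hx
    by_contra hcon
    push Not at hcon
    rw [hX, mem_filter] at hx
    let R : Finset (Fin n) := D ∪ univ.image g
    have hRcard : #R ≤ d + card W := by
      refine (card_union_le _ _).trans (Nat.add_le_add hDd ?_)
      exact card_image_le.trans (Fintype.card_subtype_le _)
    obtain ⟨g₁, hg1, hg2⟩ := star_copy G {w | c w = true} u
      (fun a b ha hb hab => hstar a b ha hb hab) x R (by
        have := hsize
        simp only [Set.mem_ofPred_eq]
        omega)
    obtain ⟨f, hf1, -⟩ := glue_two c hc g₁ g (by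
      intro a b
      by_cases h : (a : W) = u
      · rw [hg1 a h]; exact (hcon b).symm
      · intro hab
        apply (hg2 a h).2
        rw [hab]
        exact mem_union_right _ (mem_image_of_mem _ (mem_univ _)))
    obtain ⟨b, hb⟩ := hiso u
    have hcb : c b = true := by rw [← hc u b hb, hu]
    have h1 := hD f b
    rw [show f b = g₁ ⟨b, hcb⟩ from hf1 ⟨b, hcb⟩] at h1
    exact (hg2 ⟨b, hcb⟩ hb.ne').2 (mem_union_left _ h1)
  have hf₀ : ∀ x ∈ X, ∃ a, c a = false ∧ f₀ a = x := by
    intro x hx
    obtain ⟨a, ha⟩ := hA (piece c f₀ false) x hx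
    exact ⟨a, a.2, ha⟩
  have hXD : X ⊆ D := by
    intro x hx
    obtain ⟨a, -, ha⟩ := hf₀ x hx
    rw [← ha]; exact hD f₀ a
  have hXW : #X ≤ card W := by
    have : X ⊆ univ.image f₀ := by
      intro x hx
      obtain ⟨a, -, ha⟩ := hf₀ x hx
      rw [← ha]; exact mem_image_of_mem _ (mem_univ _)
    exact (card_le_card this).trans card_image_le
  -- no m-set of hubs has a large common neighbourhood
  have hT : ∀ T ∈ X.powersetCard m, #(univ.filter (fun y => ∀ t ∈ T, G.Adj t y)) < M' := by
    intro T hTX
    rw [mem_powersetCard] at hTX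
    by_contra hcon
    push Not at hcon
    set N := univ.filter (fun y => ∀ t ∈ T, G.Adj t y) with hN
    have hTN : ∀ t ∈ T, ∀ y ∈ N, G.Adj t y := by
      intro t ht y hy
      rw [hN, mem_filter] at hy
      exact hy.2 t ht
    have hsub : ∀ S : Finset (Fin n), #S ≤ d + card W → card W ≤ #(N \ S) := by
      intro S hS
      have := le_card_sdiff S N
      omega
    -- T = X
    have hXT : X ⊆ T := by
      obtain ⟨g, hg1, hg2⟩ := bip_copy (L := L) G {w | c w = false} col hcol T (N \ X)
        (fun t ht y hy => hTN t ht y (sdiff_subset hy)) (by rw [hTX.2]; exact hm.ge)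
        (hsub X (by omega))
      intro x hx
      obtain ⟨a, ha⟩ := hA g x hx
      cases h : col a
      · have := hg2 a h
        rw [ha, Finset.mem_sdiff] at this
        exact absurd hx this.2
      · rw [← ha]; exact hg1 a h
    obtain ⟨g, hg1, hg2⟩ := bip_copy (L := L) G {w | c w = false} col hcol T (N \ D)
      (fun t ht y hy => hTN t ht y (sdiff_subset hy)) (by rw [hTX.2]; exact hm.ge)
      (hsub D (by omega))
    obtain ⟨f, -, hf2⟩ := glue_two c hc (piece c f₀ true) g (by
      intro a b
      rw [piece_apply]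
      cases h : col b
      · have := hg2 b h
        rw [Finset.mem_sdiff] at this
        intro hab
        exact this.2 (hab ▸ hD f₀ a)
      · have := hg1 b h
        intro hab
        obtain ⟨z, hz, hz'⟩ := hf₀ (g b) (hTX.1 this)
        have : (a : W) = z := f₀.injective (hab.trans hz'.symm)
        have h3 : c (a : W) = true := a.2
        rw [this, hz] at h3
        exact absurd h3 (by simp))
    -- a vertex of colour false in the other piece
    obtain ⟨z, hz, hz'⟩ : ∃ z, c z = false ∧ col z = false := by
      obtain ⟨a, ha⟩ := hother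
      obtain ⟨b, hb⟩ := hiso a
      have hcb : c b = false := by rw [← hc a b hb, ha]
      have h1 := hcol a b hb
      cases h2 : col a
      · exact ⟨a, ha, h2⟩
      · cases h3 : col b
        · exact ⟨b, hcb, h3⟩
        · exact absurd (h2.trans h3.symm) h1
    have h1 := hD f z
    rw [show f z = g ⟨z, hz⟩ from hf2 ⟨z, hz⟩] at h1
    have h2 := hg2 ⟨z, hz⟩ hz'
    rw [Finset.mem_sdiff] at h2
    exact h2.2 h1
  -- count
  set Y := univ.filter (fun y : Fin n => m ≤ #(X.filter (fun x => G.Adj x y))) with hY
  have hYcard : #Y ≤ 2 ^ card W * M' := by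
    have h1 : Y ⊆ (X.powersetCard m).biUnion
        (fun T => univ.filter (fun y => ∀ t ∈ T, G.Adj t y)) := by
      intro y hy
      rw [hY, mem_filter] at hy
      obtain ⟨T, hT1, hT2⟩ := exists_subset_card_eq hy.2
      rw [mem_biUnion]
      refine ⟨T, ?_, ?_⟩
      · rw [mem_powersetCard]
        exact ⟨hT1.trans (filter_subset _ _), hT2⟩
      · rw [mem_filter]
        refine ⟨mem_univ _, ?_⟩
        intro t ht
        have := hT1 ht
        rw [mem_filter] at this
        exact this.2
    refine (card_le_card h1).trans ?_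
    refine (card_biUnion_le_card_mul _ _ M' (fun T hT' => (hT T hT').le)).trans ?_
    apply Nat.mul_le_mul_right
    rw [card_powersetCard]
    exact (Nat.choose_le_two_pow _ _).trans (Nat.pow_le_pow_right (by norm_num) hXW)
  have hsumX : ∑ x ∈ X, G.degree x ≤ (m - 1) * n + card W * (2 ^ card W * M') := by
    have h1 : ∑ x ∈ X, G.degree x = ∑ y : Fin n, #(X.filter (fun x => G.Adj x y)) := by
      have h2 : ∀ x, G.degree x = #(univ.filter (fun y => G.Adj x y)) := by
        intro x
        rw [← card_neighborFinset_eq_degree]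
        congr 1
        ext y; simp
      simp_rw [h2]
      exact sum_card_bipartiteAbove_eq_sum_card_bipartiteBelow (r := fun x y => G.Adj x y)
    rw [h1, ← Finset.sum_filter_add_sum_filter_not univ
      (fun y : Fin n => m ≤ #(X.filter (fun x => G.Adj x y)))]
    rw [add_comm]
    refine Nat.add_le_add ?_ ?_
    · refine (Finset.sum_le_card_nsmul _ _ (m - 1) ?_).trans ?_
      · intro y hy
        rw [mem_filter] at hy
        omega
      · rw [smul_eq_mul, mul_comm]
        apply Nat.mul_le_mul_left
        exact (card_filter_le _ _).trans (by rw [Finset.card_univ, Fintype.card_fin])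
    · refine (Finset.sum_le_card_nsmul _ _ (card W) ?_).trans ?_
      · intro y _
        exact (card_filter_le _ _).trans hXW
      · rw [smul_eq_mul, mul_comm]
        exact Nat.mul_le_mul_left _ hYcard
  have hsumD : ∑ x ∈ D, G.degree x ≤ (m - 1) * n + card W * (2 ^ card W * M') + d * M₀ := by
    rw [← Finset.sum_filter_add_sum_filter_not D (fun x => M₀ ≤ G.degree x)]
    refine Nat.add_le_add (le_trans ?_ hsumX) ?_
    · apply Finset.sum_le_sum_of_subset
      intro x hx
      rw [mem_filter] at hx
      rw [hX, mem_filter]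
      exact ⟨mem_univ _, hx.2⟩
    · refine (Finset.sum_le_card_nsmul _ _ M₀ ?_).trans ?_
      · intro x hx
        rw [mem_filter] at hx
        omega
      · rw [smul_eq_mul]
        exact Nat.mul_le_mul_right _ ((card_filter_le _ _).trans hDd)
  -- edges outside D
  have hout : 2 * #(G.induce ((D : Set (Fin n))ᶜ)).edgeFinset ≤ n := by
    rw [← sum_degrees_eq_twice_card_edges]
    have hdeg : ∀ x, (G.induce ((D : Set (Fin n))ᶜ)).degree x ≤ 1 := by
      intro x
      by_contra hcon
      push Not at hcon
      obtain ⟨g, hg1, hg2⟩ := star_copy (G.induce ((D : Set (Fin n))ᶜ)) {w | c w = true} u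
        (fun a b ha hb hab => hstar a b ha hb hab) x ∅ (by
          have := hsize
          simp only [Set.mem_ofPred_eq, Finset.card_empty, add_zero]
          omega)
      refine piece_free c hc D hD f₀ true ⟨u, hu⟩ ((Copy.induce G _).comp g) ?_
      intro a
      have h := (g a).2
      rw [Set.mem_compl_iff, Finset.mem_coe] at h
      exact h
    refine (Finset.sum_le_card_nsmul _ _ 1 (fun x _ => hdeg x)).trans ?_
    rw [smul_eq_mul, mul_one, Finset.card_univ]
    refine (Fintype.card_subtype_le _).trans ?_
    rw [Fintype.card_fin]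
  have h1 := card_edges_le G D
  have hmn : m ≤ n := by nlinarith
  have h2 := hlow n hmn
  obtain ⟨l, rfl⟩ : ∃ l, n = l + m := ⟨n - m, by omega⟩
  rw [Nat.add_sub_cancel] at h2
  obtain ⟨q, hq⟩ : ∃ q, m = q + 1 := ⟨m - 1, by omega⟩
  have h3 : (m - 1) * (l + m) = m * l + m * m - (l + m) := by
    rw [hq, Nat.add_sub_cancel]
    have : (q + 1) * l + (q + 1) * (q + 1) = q * (l + (q + 1)) + (l + (q + 1)) := by ring
    omega
  have h4 : l + m ≤ m * l + m * m := by nlinarith
  omega

end Pool.Agent.Helper49.Copies
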