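import Pool.Agent.Helper49.CopiesMain

/-!
# Erdős–Stone with edges, complete multipartite tiles
-/

open Finset Fintype Filter

namespace Pool.Agent.Helper49.Copies

open SimpleGraph

theorem ex_step {W : Type} (K : SimpleGraph W) (m b : ℕ)
    (h : ∀ (G : SimpleGraph (Fin (m + 1))) [DecidableRel G.Adj], K.Free G → G.minDegree ≤ b) :
    extremalNumber (m + 1) K ≤ extremalNumber m K + b := by
  classical
  conv_lhs => rw [← Fintype.card_fin (m + 1)]
  rw [extremalNumber_le_iff]
  intro G _ hfree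
  obtain ⟨v, hv⟩ := G.exists_minimal_degree_vertex
  have h1 := card_edgeFinset_deleteIncidenceSet_le_extremalNumber hfree v
  rw [G.card_edgeFinset_deleteIncidenceSet v, Fintype.card_fin, Nat.add_sub_cancel] at h1
  have h2 := h G hfree
  omega

/-- The edge version of the Erdős–Stone theorem. -/
theorem es_edges (r t : ℕ) (hr : 1 ≤ r) {ε : ℝ} (hε : 0 < ε) :
    ∀ᶠ n : ℕ in atTop, (extremalNumber n (completeEquipartiteGraph (r + 1) t) : ℝ) ≤
      (1 - 1 / r + ε) * n ^ 2 / 2 := by
  classical
  have hε4 : 0 < ε / 4 := by linarith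
  have h0 := eventually_completeEquipartiteGraph_isContained_of_minDegree hε4 r t
  rw [eventually_atTop] at h0
  obtain ⟨N, hN⟩ := h0
  set a : ℝ := 1 - 1 / r + ε / 4 with ha
  have hr' : (1 : ℝ) ≤ r := by exact_mod_cast hr
  have hr1 : (1 : ℝ) / r ≤ 1 := by
    rw [div_le_one (by linarith)]; exact hr'
  have hr0 : (0 : ℝ) ≤ 1 / r := by positivity
  have ha0 : 0 ≤ a := by rw [ha]; linarith
  have ha1 : a ≤ 1 + ε := by rw [ha]; linarith
  set K := completeEquipartiteGraph (r + 1) t with hK
  set E : ℝ := (extremalNumber N K : ℝ) with hE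
  have hstep : ∀ n, N ≤ n → (extremalNumber n K : ℝ) ≤ E + a * (n * (n + 1)) / 2 := by
    intro n hn
    induction n, hn using Nat.le_induction with
    | base =>
      have : 0 ≤ a * ((N : ℝ) * (N + 1)) / 2 := by positivity
      linarith
    | succ n hn ih =>
      have h1 : extremalNumber (n + 1) K ≤ extremalNumber n K + ⌊a * (n + 1 : ℕ)⌋₊ := by
        apply ex_step
        intro G _ hfree
        apply Nat.le_floor
        by_contra hcon
        push Not at hcon
        exact hfree (hN (n + 1) (by omega) hcon.le)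
      have h2 : (extremalNumber (n + 1) K : ℝ) ≤ extremalNumber n K + ⌊a * (n + 1 : ℕ)⌋₊ := by
        exact_mod_cast h1
      have h3 : (⌊a * ((n + 1 : ℕ) : ℝ)⌋₊ : ℝ) ≤ a * (n + 1 : ℕ) :=
        Nat.floor_le (by positivity)
      push_cast at h3 ⊢
      push_cast at h2
      nlinarith
  have hE0 : 0 ≤ E := Nat.cast_nonneg _
  filter_upwards [eventually_ge_atTop N, eventually_ge_atTop 1,
    eventually_ge_atTop ⌈(E + (1 + ε) / 2) / (3 * ε / 8)⌉₊] with n hn1 hn2 hn3
  have h1 := hstep n hn1
  have h2 : (E + (1 + ε) / 2) / (3 * ε / 8) ≤ n := (Nat.le_ceil _).trans (by exact_mod_cast hn3)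
  rw [div_le_iff₀ (by positivity)] at h2
  have h3 : (1 : ℝ) ≤ n := by exact_mod_cast hn2
  have h4 : (E + (1 + ε) / 2) * n ≤ (n * (3 * ε / 8)) * n :=
    mul_le_mul_of_nonneg_right h2 (by linarith)
  have h5 : E ≤ E * n := le_mul_of_one_le_right hE0 h3
  have h6 : a * n ≤ (1 + ε) * n := mul_le_mul_of_nonneg_right ha1 (by linarith)
  have h7 : (1 - 1 / (r : ℝ) + ε) = a + 3 * ε / 4 := by rw [ha]; ring
  rw [h7]
  nlinarith

/-- Embedding a graph with a proper colouring in a complete multipartite configuration. -/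
theorem multipartite_copy {V W κ : Type} [Fintype W] [DecidableEq V] [DecidableEq κ]
    (J : SimpleGraph W) (G : SimpleGraph V)
    (c : W → κ) (hc : ∀ a b, J.Adj a b → c a ≠ c b) (A : κ → Finset V)
    (hA : ∀ i j, i ≠ j → ∀ a ∈ A i, ∀ b ∈ A j, G.Adj a b)
    (hcard : ∀ i, #{w | c w = i} ≤ #(A i)) : ∃ f : Copy J G, ∀ w, f w ∈ A (c w) := by
  classical
  have h1 : ∀ i, Nonempty ({w // c w = i} ↪ A i) := by
    intro i
    rw [Function.Embedding.nonempty_iff_card_le, Fintype.card_subtype, Fintype.card_coe]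
    exact hcard i
  have e := fun i => (h1 i).some
  refine ⟨⟨⟨fun w => (e (c w) ⟨w, rfl⟩ : V), ?_⟩, ?_⟩, fun w => (e (c w) ⟨w, rfl⟩).2⟩
  · intro a b hab
    exact hA _ _ (hc a b hab) _ (e (c a) ⟨a, rfl⟩).2 _ (e (c b) ⟨b, rfl⟩).2
  · intro a b hab
    change (e (c a) ⟨a, rfl⟩ : V) = (e (c b) ⟨b, rfl⟩ : V) at hab
    by_cases hcab : c a = c b
    · have h2 : ∀ (i : κ) (hi : c b = i), e (c b) ⟨b, rfl⟩ = hi ▸ e i ⟨b, hi⟩ := by
        intro i hi; subst hi; rfl
      have key : ∀ (i j : κ) (ha : c a = i) (hb : c b = j), i = j →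
          (e i ⟨a, ha⟩ : V) = (e j ⟨b, hb⟩ : V) → a = b := by
        intro i j ha hb hij h
        subst hij
        have := (e i).injective (Subtype.ext h)
        simpa using this
      exact key _ _ rfl rfl hcab hab
    · exact absurd hab (hA _ _ hcab _ (e (c a) ⟨a, rfl⟩).2 _ (e (c b) ⟨b, rfl⟩).2).ne

/-- A complete `r`-partite configuration with parts of size `t`. -/
def IsTile {V : Type} (G : SimpleGraph V) (r t : ℕ) (T : Fin r → Finset V) : Prop :=
  (∀ i, #(T i) = t) ∧ ∀ i j, i ≠ j → ∀ a ∈ T i, ∀ b ∈ T j, G.Adj a b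

def tileSet {V : Type} [DecidableEq V] {r : ℕ} (T : Fin r → Finset V) : Finset V :=
  univ.biUnion T

theorem mem_tileSet {V : Type} [DecidableEq V] {r : ℕ} (T : Fin r → Finset V) (v : V) :
    v ∈ tileSet T ↔ ∃ i, v ∈ T i := by
  simp [tileSet]

theorem IsTile.pairwiseDisjoint {V : Type} [DecidableEq V] {G : SimpleGraph V} {r t : ℕ}
    {T : Fin r → Finset V} (hT : IsTile G r t T) :
    Set.PairwiseDisjoint (↑(univ : Finset (Fin r))) T := by
  intro i _ j _ hij
  change Disjoint (T i) (T j)
  rw [Finset.disjoint_left]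
  intro a ha hb
  exact (hT.2 i j hij a ha a hb).ne rfl

theorem IsTile.sum {V : Type} [DecidableEq V] {G : SimpleGraph V} {r t : ℕ}
    {T : Fin r → Finset V} (hT : IsTile G r t T) (f : V → ℕ) :
    ∑ v ∈ tileSet T, f v = ∑ i, ∑ v ∈ T i, f v :=
  Finset.sum_biUnion hT.pairwiseDisjoint

theorem IsTile.card {V : Type} [DecidableEq V] {G : SimpleGraph V} {r t : ℕ}
    {T : Fin r → Finset V} (hT : IsTile G r t T) : #(tileSet T) = r * t := by
  unfold tileSet
  rw [Finset.card_biUnion (fun i _ j _ hij => hT.pairwiseDisjoint (by simp) (by simp) hij)]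
  simp [hT.1]

theorem IsTile.card_filter {V : Type} [DecidableEq V] {G : SimpleGraph V} {r t : ℕ}
    {T : Fin r → Finset V} (hT : IsTile G r t T) (p : V → Prop) [DecidablePred p] :
    #{v ∈ tileSet T | p v} = ∑ i, #{v ∈ T i | p v} := by
  simp_rw [Finset.card_filter]
  exact hT.sum _

/-- Few vertices have many neighbours in each part of a tile. -/
theorem card_rich_le {V W : Type} [Fintype W] [DecidableEq V] (G : SimpleGraph V)
    [DecidableRel G.Adj] (J : SimpleGraph W) (r : ℕ) (hJ : J.Colorable (r + 1)) (U : Finset V)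
    (hU : ∀ f : Copy J G, ∃ w, f w ∉ U) (t : ℕ) (T : Fin r → Finset V) (hT : IsTile G r t T)
    (hTU : tileSet T ⊆ U) (m : ℕ) (hm : card W ≤ m) :
    #{w ∈ U | ∀ j, m ≤ #{v ∈ T j | G.Adj w v}} ≤ m * 2 ^ (r * t) := by
  classical
  by_contra hcon
  push Not at hcon
  set R := {w ∈ U | ∀ j, m ≤ #{v ∈ T j | G.Adj w v}} with hR
  obtain ⟨Q, -, hQ⟩ := exists_lt_card_fiber_of_mul_lt_card_of_maps_to (s := R)
    (t := (tileSet T).powerset) (f := fun w => {v ∈ tileSet T | G.Adj w v}) (n := m)
    (by intro w _; rw [mem_powerset]; exact filter_subset _ _)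
    (by rw [card_powerset, hT.card, mul_comm]; exact hcon)
  set F := {w ∈ R | {v ∈ tileSet T | G.Adj w v} = Q} with hF
  obtain ⟨C⟩ := hJ
  have hFQ : ∀ w ∈ F, ∀ v ∈ Q, G.Adj w v := by
    intro w hw v hv
    rw [hF, mem_filter] at hw
    rw [← hw.2, mem_filter] at hv
    exact hv.2
  obtain ⟨f, hf⟩ := multipartite_copy J G (fun w => C w) (fun a b hab => C.valid hab)
    (Fin.cons F (fun j => T j ∩ Q)) (by
      intro i j
      refine Fin.cases ?_ (fun i => ?_) i
      · refine Fin.cases ?_ (fun j => ?_) j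
        · intro h; exact absurd rfl h
        · intro _ a ha b hb
          rw [Fin.cons_zero] at ha
          rw [Fin.cons_succ, mem_inter] at hb
          exact hFQ a ha b hb.2
      · refine Fin.cases ?_ (fun j => ?_) j
        · intro _ a ha b hb
          rw [Fin.cons_zero] at hb
          rw [Fin.cons_succ, mem_inter] at ha
          exact (hFQ b hb a ha.2).symm
        · intro hij a ha b hb
          rw [Fin.cons_succ, mem_inter] at ha hb
          exact hT.2 i j (fun h => hij (by rw [h])) a ha.1 b hb.1) (by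
      intro i
      refine (card_le_univ _).trans (hm.trans ?_)
      refine Fin.cases ?_ (fun j => ?_) i
      · rw [Fin.cons_zero]; exact hQ.le
      · rw [Fin.cons_succ]
        obtain ⟨w, hw⟩ : F.Nonempty := by
          rw [← Finset.card_pos]; omega
        rw [hF, mem_filter] at hw
        have h1 := hw.1
        rw [hR, mem_filter] at h1
        refine (h1.2 j).trans (card_le_card ?_)
        intro v hv
        rw [mem_filter] at hv
        rw [mem_inter, ← hw.2, mem_filter, mem_tileSet]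
        exact ⟨hv.1, ⟨j, hv.1⟩, hv.2⟩)
  obtain ⟨w, hw⟩ := hU f
  apply hw
  have h1 := hf w
  revert h1
  refine Fin.cases ?_ (fun j => ?_) (C w)
  · intro h1
    rw [Fin.cons_zero, hF, mem_filter, hR, mem_filter] at h1
    exact h1.1.1
  · intro h1
    rw [Fin.cons_succ, mem_inter] at h1
    exact hTU (by rw [mem_tileSet]; exact ⟨j, h1.1⟩)

/-- The number of ordered pairs `(v, w) ∈ A × B` which are edges. -/
def dsum {V : Type} (G : SimpleGraph V) [DecidableRel G.Adj] (A B : Finset V) : ℕ :=
  ∑ v ∈ A, #{w ∈ B | G.Adj v w}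

theorem dsum_comm {V : Type} (G : SimpleGraph V) [DecidableRel G.Adj] (A B : Finset V) :
    dsum G A B = dsum G B A := by
  unfold dsum
  simp_rw [Finset.card_filter]
  rw [Finset.sum_comm]
  simp_rw [G.adj_comm]

theorem dsum_le {V : Type} (G : SimpleGraph V) [DecidableRel G.Adj] (A B : Finset V) :
    dsum G A B ≤ #A * #B := by
  unfold dsum
  rw [← smul_eq_mul]
  apply Finset.sum_le_card_nsmul
  intro v _
  exact Finset.card_filter_le _ _

theorem dsum_union_left {V : Type} [DecidableEq V] (G : SimpleGraph V) [DecidableRel G.Adj]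
    (A A' B : Finset V) (h : Disjoint A A') :
    dsum G (A ∪ A') B = dsum G A B + dsum G A' B :=
  Finset.sum_union h

theorem dsum_union_right {V : Type} [DecidableEq V] (G : SimpleGraph V) [DecidableRel G.Adj]
    (A B B' : Finset V) (h : Disjoint B B') :
    dsum G A (B ∪ B') = dsum G A B + dsum G A B' := by
  rw [dsum_comm, dsum_union_left G B B' A h, dsum_comm G B A, dsum_comm G B' A]

theorem tile_degree_le {V W : Type} [Fintype W] [DecidableEq V] (G : SimpleGraph V)
    [DecidableRel G.Adj] (J : SimpleGraph W) (r : ℕ) (hJ : J.Colorable (r + 1)) (U : Finset V)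
    (hU : ∀ f : Copy J G, ∃ w, f w ∉ U) (t : ℕ) (T : Fin r → Finset V) (hT : IsTile G r t T)
    (hTU : tileSet T ⊆ U) (m : ℕ) (hm : card W ≤ m) (Q : Finset V) (hQ : Q ⊆ U) :
    dsum G (tileSet T) Q ≤ ((r - 1) * t + m) * #Q + m * 2 ^ (r * t) * (r * t) := by
  classical
  rw [dsum_comm]
  unfold dsum
  have h1 : ∀ w ∈ Q, #{v ∈ tileSet T | G.Adj w v} ≤ ((r - 1) * t + m) +
      if (∀ j, m ≤ #{v ∈ T j | G.Adj w v}) then r * t else 0 := by
    intro w _
    split_ifs with h
    · have := card_filter_le (tileSet T) (fun v => G.Adj w v)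
      rw [hT.card] at this
      omega
    · push Not at h
      obtain ⟨j, hj⟩ := h
      rw [hT.card_filter, ← Finset.add_sum_erase _ _ (mem_univ j)]
      have h2 : ∑ i ∈ univ.erase j, #{v ∈ T i | G.Adj w v} ≤ (r - 1) * t := by
        have h3 : #(univ.erase j) = r - 1 := by
          rw [card_erase_of_mem (mem_univ _), Finset.card_univ, Fintype.card_fin]
        rw [← h3, ← smul_eq_mul]
        apply Finset.sum_le_card_nsmul
        intro i _
        refine (card_filter_le _ _).trans ?_
        rw [hT.1 i]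
      omega
  refine (Finset.sum_le_sum h1).trans ?_
  rw [Finset.sum_add_distrib, Finset.sum_const, smul_eq_mul, ← Finset.sum_filter,
    Finset.sum_const, smul_eq_mul, mul_comm (#Q)]
  refine Nat.add_le_add_left (Nat.mul_le_mul_right _ ?_) _
  refine (card_le_card ?_).trans (card_rich_le G J r hJ U hU t T hT hTU m hm)
  intro w hw
  rw [mem_filter] at hw ⊢
  exact ⟨hQ hw.1, hw.2⟩

/-- Disjoint tiles in `U` with union `Z`. -/
inductive Tiling {V : Type} [DecidableEq V] (G : SimpleGraph V) (r t : ℕ) (U : Finset V) :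
    Finset V → ℕ → Prop
  | nil : Tiling G r t U ∅ 0
  | cons {Z : Finset V} {q : ℕ} (T : Fin r → Finset V) : Tiling G r t U Z q → IsTile G r t T →
      tileSet T ⊆ U \ Z → Tiling G r t U (Z ∪ tileSet T) (q + 1)

theorem Tiling.subset {V : Type} [DecidableEq V] {G : SimpleGraph V} {r t : ℕ} {U Z : Finset V}
    {q : ℕ} (h : Tiling G r t U Z q) : Z ⊆ U := by
  induction h with
  | nil => exact empty_subset _
  | cons T _ _ hTU ih => exact union_subset ih (hTU.trans sdiff_subset)

theorem Tiling.card {V : Type} [DecidableEq V] {G : SimpleGraph V} {r t : ℕ} {U Z : Finset V}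
    {q : ℕ} (h : Tiling G r t U Z q) : #Z = q * (r * t) := by
  induction h with
  | nil => simp
  | @cons Z q T _ hT hTU ih =>
    rw [card_union_of_disjoint, ih, hT.card]
    · ring
    · rw [Finset.disjoint_left]
      intro a ha hb
      exact (mem_sdiff.mp (hTU hb)).2 ha

theorem Tiling.sum_le {V : Type} [DecidableEq V] {G : SimpleGraph V} {r t : ℕ} {U Z : Finset V}
    {q : ℕ} (h : Tiling G r t U Z q) (f : V → ℕ) (B : ℕ)
    (hB : ∀ T, IsTile G r t T → tileSet T ⊆ U → ∑ v ∈ tileSet T, f v ≤ B) :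
    ∑ v ∈ Z, f v ≤ q * B := by
  induction h with
  | nil => simp
  | @cons Z q T _ hT hTU ih =>
    rw [Finset.sum_union]
    · have := hB T hT (hTU.trans sdiff_subset)
      rw [Nat.add_mul, one_mul]
      exact Nat.add_le_add ih this
    · rw [Finset.disjoint_left]
      intro a ha hb
      exact (mem_sdiff.mp (hTU hb)).2 ha

theorem exists_maximal_tiling {V : Type} [DecidableEq V] (G : SimpleGraph V) (r t : ℕ)
    (hrt : 0 < r * t) (U : Finset V) : ∃ Z q, Tiling G r t U Z q ∧
      ∀ T, IsTile G r t T → ¬ tileSet T ⊆ U \ Z := by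
  have key : ∀ k Z q, #(U \ Z) ≤ k → Tiling G r t U Z q → ∃ Z q, Tiling G r t U Z q ∧
      ∀ T, IsTile G r t T → ¬ tileSet T ⊆ U \ Z := by
    intro k
    induction k with
    | zero =>
      intro Z q hk hZ
      refine ⟨Z, q, hZ, fun T hT hTU => ?_⟩
      have := card_le_card hTU
      rw [hT.card] at this
      omega
    | succ k ih =>
      intro Z q hk hZ
      by_cases h : ∃ T, IsTile G r t T ∧ tileSet T ⊆ U \ Z
      · obtain ⟨T, hT, hTU⟩ := h
        refine ih (Z ∪ tileSet T) (q + 1) ?_ (Tiling.cons T hZ hT hTU)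
        have h1 : U \ (Z ∪ tileSet T) = (U \ Z) \ tileSet T := by
          ext x; simp [and_assoc]
        rw [h1, card_sdiff_of_subset hTU, hT.card]
        omega
      · push Not at h
        exact ⟨Z, q, hZ, h⟩
  exact key _ ∅ 0 le_rfl Tiling.nil

theorem isTile_of_copy {V : Type} [DecidableEq V] (G : SimpleGraph V) (r t : ℕ) (U : Finset V)
    (h : completeEquipartiteGraph r t ⊑ G.induce (U : Set V)) :
    ∃ T, IsTile G r t T ∧ tileSet T ⊆ U := by
  classical
  obtain ⟨f⟩ := h
  refine ⟨fun i => univ.image (fun j => (f (i, j) : V)), ⟨?_, ?_⟩, ?_⟩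
  · intro i
    rw [card_image_of_injective, Finset.card_univ, Fintype.card_fin]
    intro a b hab
    have := f.injective (Subtype.ext hab)
    simpa using this
  · intro i j hij a ha b hb
    rw [mem_image] at ha hb
    obtain ⟨x, -, rfl⟩ := ha
    obtain ⟨y, -, rfl⟩ := hb
    have h1 : (completeEquipartiteGraph r t).Adj (i, x) (j, y) := by
      simpa using hij
    exact f.toHom.map_rel' h1
  · intro a ha
    rw [mem_tileSet] at ha
    obtain ⟨i, hi⟩ := ha
    rw [mem_image] at hi
    obtain ⟨x, -, rfl⟩ := hi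
    exact_mod_cast (f (i, x)).2

theorem dsum_self_eq {V : Type} [Fintype V] [DecidableEq V] (G : SimpleGraph V)
    [DecidableRel G.Adj] (U : Finset V) :
    dsum G U U = 2 * #(G.induce (U : Set V)).edgeFinset := by
  classical
  rw [← sum_degrees_eq_twice_card_edges]
  unfold dsum
  rw [← Finset.sum_coe_sort U]
  apply Finset.sum_congr rfl
  intro v _
  rw [← card_neighborFinset_eq_degree]
  refine Finset.card_bij' (fun w hw => (⟨w, by
      rw [mem_filter] at hw; exact_mod_cast hw.1⟩ : (U : Set V)))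
    (fun w _ => (w : V)) ?_ ?_ ?_ ?_
  · intro w hw
    rw [mem_filter] at hw
    rw [mem_neighborFinset]
    exact hw.2
  · intro w hw
    rw [mem_neighborFinset] at hw
    rw [mem_filter]
    exact ⟨by exact_mod_cast w.2, hw⟩
  · intro w _; rfl
  · intro w _; rfl

end Pool.Agent.Helper49.Copies
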