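import Pool.Agent.Helper49.CopiesStone

/-!
# Tilings which cover almost everything
-/

open Finset Fintype Filter

namespace Pool.Agent.Helper49.Copies

open SimpleGraph

set_option maxHeartbeats 2000000 in
theorem cover_real {R r' m t η N u C₁ C' v₀ q d₁ d₂ d₃ : ℝ} (hr' : 1 ≤ r') (hR : R = r' + 1)
    (ht : 1 ≤ t) (hm : 0 ≤ m) (hη : 0 < η) (hmt : m / t ≤ η ^ 2 / (4 * R ^ 2)) (hu0 : 0 ≤ u)
    (hN1 : 1 ≤ N) (huN : u ≤ N) (hC₁ : 0 ≤ C₁) (hv₀ : 0 ≤ v₀)
    (h4 : N = q * ((r' + 1) * t) + u)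
    (hbig : (2 * C₁ + |C'| + v₀) * (4 * R ^ 2) < N * η ^ 2)
    (h2 : d₁ ≤ q * ((r' * t + m) * N + C₁ * ((r' + 1) * t)))
    (h3 : d₂ ≤ q * ((r' * t + m) * u + C₁ * ((r' + 1) * t)))
    (h5 : d₃ ≤ (1 - 1 / r' + 1 / (2 * R ^ 2)) * u ^ 2 + v₀)
    (hd : (1 - 1 / R) * N ^ 2 - C' * N ≤ d₁ + (d₂ + d₃)) : u ≤ η * N := by
  have hR2 : 2 ≤ R := by linarith
  have hR0 : 0 < R := by linarith
  by_contra hcon
  push Not at hcon
  have hqt : q * t = (N - u) / R := by
    rw [eq_div_iff hR0.ne', hR]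
    linarith
  have hsum : d₁ + d₂ ≤ (N - u) / R * (r' + m / t) * (N + u) + 2 * C₁ * N := by
    have e1 : q * ((r' * t + m) * N + C₁ * ((r' + 1) * t)) +
        q * ((r' * t + m) * u + C₁ * ((r' + 1) * t)) =
        (q * t) * (r' + m / t) * (N + u) + 2 * C₁ * (q * ((r' + 1) * t)) := by
      field_simp
      ring
    have e2 : q * ((r' + 1) * t) ≤ N := by linarith
    have e3 : 2 * C₁ * (q * ((r' + 1) * t)) ≤ 2 * C₁ * N := by
      apply mul_le_mul_of_nonneg_left e2; positivity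
    rw [hqt] at e1
    linarith
  have hr'R : r' / R = 1 - 1 / R := by
    rw [hR]; field_simp; ring
  have e2 : 0 ≤ N ^ 2 - u ^ 2 := by nlinarith
  have hmain : (N - u) / R * (r' + m / t) * (N + u) ≤
      (1 - 1 / R) * (N ^ 2 - u ^ 2) + η ^ 2 / (4 * R ^ 2) * N ^ 2 := by
    have e1 : (N - u) / R * (r' + m / t) * (N + u) =
        (r' / R) * (N ^ 2 - u ^ 2) + (m / t) / R * (N ^ 2 - u ^ 2) := by
      ring
    rw [e1, hr'R]
    have e3 : m / t / R * (N ^ 2 - u ^ 2) ≤ η ^ 2 / (4 * R ^ 2) * N ^ 2 := by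
      have e4 : m / t / R ≤ m / t := by
        apply div_le_self (by positivity); linarith
      have e5 : N ^ 2 - u ^ 2 ≤ N ^ 2 := by nlinarith
      exact mul_le_mul (e4.trans hmt) e5 e2 (by positivity)
    linarith
  have hinv : 1 / (R ^ 2) ≤ 1 / r' - 1 / R := by
    have e1 : 1 / r' - 1 / R = 1 / (r' * R) := by
      rw [hR]; field_simp; ring
    rw [e1]
    apply one_div_le_one_div_of_le (by positivity)
    rw [hR]
    nlinarith
  have hfin : 1 / (2 * R ^ 2) * u ^ 2 ≤ η ^ 2 / (4 * R ^ 2) * N ^ 2 + (2 * C₁ + |C'|) * N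
      + v₀ := by
    have e1 : 1 / (2 * R ^ 2) * u ^ 2 = (1 / R ^ 2) * u ^ 2 - 1 / (2 * R ^ 2) * u ^ 2 := by
      field_simp; ring
    have e6 : (1 / R ^ 2) * u ^ 2 ≤ (1 / r' - 1 / R) * u ^ 2 :=
      mul_le_mul_of_nonneg_right hinv (by positivity)
    have e3 : C' * N ≤ |C'| * N := mul_le_mul_of_nonneg_right (le_abs_self _) (by linarith)
    rw [e1]
    nlinarith
  have hcon2 : η ^ 2 * N ^ 2 ≤ u ^ 2 := by
    have := mul_self_le_mul_self (by positivity) hcon.le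
    nlinarith
  have e1 : 1 / (2 * R ^ 2) * (η ^ 2 * N ^ 2) ≤ 1 / (2 * R ^ 2) * u ^ 2 :=
    mul_le_mul_of_nonneg_left hcon2 (by positivity)
  have e7 : 1 / (2 * R ^ 2) * (η ^ 2 * N ^ 2) - η ^ 2 / (4 * R ^ 2) * N ^ 2 =
      (N * η ^ 2) * N / (4 * R ^ 2) := by
    field_simp; ring
  have e3 : (2 * C₁ + |C'|) * N + v₀ ≤ (2 * C₁ + |C'| + v₀) * N := by
    have : v₀ ≤ v₀ * N := le_mul_of_one_le_right (by positivity) hN1
    nlinarith
  have e4 : (2 * C₁ + |C'| + v₀) * N < (N * η ^ 2) * N / (4 * R ^ 2) := by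
    rw [lt_div_iff₀ (by positivity)]
    nlinarith
  linarith

/-- A dense `J`-free graph, `χ(J) ≤ r + 1`, can be almost covered by complete `r`-partite tiles. -/
theorem exists_cover (r m : ℕ) (hr : 1 ≤ r) (η : ℝ) (hη : 0 < η) : ∃ t₀ : ℕ, ∀ t ≥ t₀,
    ∀ C' : ℝ, ∃ N₀ : ℕ, ∀ {V W : Type} [Fintype V] [DecidableEq V] [Fintype W]
    (G : SimpleGraph V) [DecidableRel G.Adj] (J : SimpleGraph W), J.Colorable (r + 1) →
    card W ≤ m → ∀ U : Finset V, (∀ f : Copy J G, ∃ w, f w ∉ U) → N₀ ≤ #U →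
    (1 - 1 / (r : ℝ)) * (#U : ℝ) ^ 2 - C' * #U ≤ dsum G U U →
    ∃ Z q, Tiling G r t U Z q ∧ (#(U \ Z) : ℝ) ≤ η * #U := by
  classical
  rcases Nat.lt_or_ge r 2 with hr2 | hr2
  · obtain rfl : r = 1 := by omega
    refine ⟨1, fun t ht C' => ⟨⌈(t : ℝ) / η⌉₊, ?_⟩⟩
    intro V W _ _ _ G _ J _ _ U _ hN _
    obtain ⟨Z, q, hZ, hmax⟩ := exists_maximal_tiling G 1 t (by omega) U
    refine ⟨Z, q, hZ, ?_⟩
    have h1 : #(U \ Z) < t := by
      by_contra hcon
      push Not at hcon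
      obtain ⟨S, hS, hSt⟩ := exists_subset_card_eq hcon
      apply hmax (fun _ => S)
      · exact ⟨fun _ => hSt, fun i j hij => absurd (Subsingleton.elim i j) hij⟩
      · intro a ha
        rw [mem_tileSet] at ha
        obtain ⟨_, ha⟩ := ha
        exact hS ha
    have h2 : (t : ℝ) / η ≤ #U := (Nat.le_ceil _).trans (by exact_mod_cast hN)
    rw [div_le_iff₀ hη] at h2
    have h3 : (#(U \ Z) : ℝ) ≤ t := by exact_mod_cast h1.le
    linarith
  · obtain ⟨r', rfl⟩ : ∃ r', r = r' + 1 := ⟨r - 1, by omega⟩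
    have hr' : 1 ≤ r' := by omega
    have hrR : (1 : ℝ) ≤ r' := by exact_mod_cast hr'
    set R : ℝ := (r' : ℝ) + 1 with hR
    have hRcast : ((r' + 1 : ℕ) : ℝ) = R := by push_cast; rfl
    have hR2 : 2 ≤ R := by linarith
    set ε : ℝ := 1 / (2 * R ^ 2) with hε
    have hε0 : 0 < ε := by positivity
    refine ⟨max 1 ⌈4 * R ^ 2 * m / η ^ 2⌉₊, ?_⟩
    intro t ht C'
    have ht1 : 1 ≤ t := le_trans (le_max_left _ _) ht
    have ht2 : 4 * R ^ 2 * m / η ^ 2 ≤ t :=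
      (Nat.le_ceil _).trans (by exact_mod_cast le_trans (le_max_right _ _) ht)
    have htR : (1 : ℝ) ≤ t := by exact_mod_cast ht1
    have hmt : (m : ℝ) / t ≤ η ^ 2 / (4 * R ^ 2) := by
      rw [div_le_iff₀ (by positivity)] at ht2
      rw [div_le_div_iff₀ (by positivity) (by positivity)]
      nlinarith
    obtain ⟨u₀, hu₀⟩ := eventually_atTop.mp (es_edges r' t hr' hε0)
    set C₁ : ℕ := m * 2 ^ ((r' + 1) * t) with hC₁
    set N₀ : ℕ := max 1 (⌈(2 * C₁ + |C'| + u₀ ^ 2) * (4 * R ^ 2) / η ^ 2⌉₊ + 1) with hN₀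
    refine ⟨N₀, ?_⟩
    intro V W _ _ _ G _ J hJ hJm U hU hN hdense
    obtain ⟨Z, q, hZ, hmax⟩ := exists_maximal_tiling G (r' + 1) t (by positivity) U
    refine ⟨Z, q, hZ, ?_⟩
    by_contra hcon
    push Not at hcon
    set A := U \ Z with hA
    have hZA : Disjoint Z A := Finset.disjoint_sdiff
    have hZAU : Z ∪ A = U := Finset.union_sdiff_of_subset hZ.subset
    have hAU : A ⊆ U := sdiff_subset
    have hfree : (completeEquipartiteGraph (r' + 1) t).Free (G.induce (A : Set V)) := by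
      intro h
      obtain ⟨T, hT, hTA⟩ := isTile_of_copy G (r' + 1) t A h
      exact hmax T hT hTA
    have hAA : (dsum G A A : ℝ) ≤ (1 - 1 / r' + ε) * (#A : ℝ) ^ 2 + u₀ ^ 2 := by
      have hpos : 0 ≤ (1 - 1 / (r' : ℝ) + ε) * (#A : ℝ) ^ 2 := by
        have : (1 : ℝ) / r' ≤ 1 := by rw [div_le_one (by linarith)]; exact hrR
        have : 0 ≤ 1 - 1 / (r' : ℝ) + ε := by linarith
        positivity
      by_cases hu : u₀ ≤ #A
      · have h1 := card_edgeFinset_le_extremalNumber hfree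
        have h2 : card (A : Set V) = #A := by simp
        rw [h2] at h1
        have h3 := hu₀ _ hu
        have h4 : (#(G.induce (A : Set V)).edgeFinset : ℝ) ≤
            extremalNumber (#A) (completeEquipartiteGraph (r' + 1) t) := by exact_mod_cast h1
        rw [dsum_self_eq]
        push_cast
        have : (0 : ℝ) ≤ (u₀ : ℝ) ^ 2 := by positivity
        linarith
      · push Not at hu
        have h1 := dsum_le G A A
        have h2 : (dsum G A A : ℝ) ≤ (#A : ℝ) * #A := by exact_mod_cast h1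
        have h3 : (#A : ℝ) ≤ u₀ := by exact_mod_cast hu.le
        have h4 : (0 : ℝ) ≤ #A := Nat.cast_nonneg _
        nlinarith
    have hZQ : ∀ Q ⊆ U, dsum G Z Q ≤
        q * ((r' * t + m) * #Q + C₁ * ((r' + 1) * t)) := by
      intro Q hQ
      apply hZ.sum_le
      intro T hT hTU
      have := tile_degree_le G J (r' + 1) hJ U hU t T hT hTU m hJm Q hQ
      rw [Nat.add_sub_cancel] at this
      exact this
    have h1 : dsum G U U = dsum G Z U + (dsum G Z A + dsum G A A) := by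
      conv_lhs => rw [← hZAU, dsum_union_left G Z A (Z ∪ A) hZA, hZAU]
      congr 1
      rw [dsum_comm]
      conv_lhs => rw [← hZAU, dsum_union_left G Z A A hZA]
    have h2 := hZQ U (Finset.Subset.refl _)
    have h3 := hZQ A hAU
    have h4 : #U = q * ((r' + 1) * t) + #A := by
      rw [← hZAU, card_union_of_disjoint hZA, hZ.card]
    -- real numbers
    have h2' : (dsum G Z U : ℝ) ≤ q * ((r' * t + m) * #U + C₁ * ((r' + 1) * t)) := by
      exact_mod_cast h2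
    have h3' : (dsum G Z A : ℝ) ≤ q * ((r' * t + m) * #A + C₁ * ((r' + 1) * t)) := by
      exact_mod_cast h3
    have h1' : (dsum G U U : ℝ) = dsum G Z U + (dsum G Z A + dsum G A A) := by exact_mod_cast h1
    have h4' : (#U : ℝ) = q * ((r' + 1) * t) + #A := by exact_mod_cast h4
    have hN1 : (1 : ℝ) ≤ #U := by
      have : 1 ≤ #U := le_trans (le_max_left _ _) hN
      exact_mod_cast this
    have huN : (#A : ℝ) ≤ #U := by exact_mod_cast card_le_card hAU
    have hNbig : (2 * C₁ + |C'| + (u₀ : ℝ) ^ 2) * (4 * R ^ 2) < #U * η ^ 2 := by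
      have h5 : ⌈(2 * C₁ + |C'| + u₀ ^ 2) * (4 * R ^ 2) / η ^ 2⌉₊ + 1 ≤ #U :=
        le_trans (le_max_right _ _) hN
      have h7 := Nat.le_ceil ((2 * C₁ + |C'| + u₀ ^ 2) * (4 * R ^ 2) / η ^ 2)
      have h8 : ((⌈(2 * C₁ + |C'| + u₀ ^ 2) * (4 * R ^ 2) / η ^ 2⌉₊ + 1 : ℕ) : ℝ) ≤ #U :=
        Nat.cast_le.mpr h5
      push_cast at h8
      rw [← div_lt_iff₀ (by positivity)]
      linarith
    rw [hRcast, h1'] at hdense
    exact absurd (cover_real hrR hR htR (Nat.cast_nonneg m) hη hmt (Nat.cast_nonneg _) hN1 huN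
      (Nat.cast_nonneg C₁) (by positivity) h4' hNbig h2' h3' hAA hdense) (not_le.mpr hcon)

end Pool.Agent.Helper49.Copies
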