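import Pool.Agent.Helper49.CopiesTiling

/-!
# Edges between the core and the rest
-/

open Finset Fintype Filter

namespace Pool.Agent.Helper49.Copies

open SimpleGraph

/-- Popular types in a tile. -/
theorem tile_core_le {V W : Type} [Fintype W] [DecidableEq V] (G : SimpleGraph V)
    [DecidableRel G.Adj] (J : SimpleGraph W) (r : ℕ) (hr : 1 ≤ r) (c : J.Coloring (Fin (r + 1)))
    (hc1 : ∃ w, c w ≠ 0) (D D' : Finset V)
    (hno : ∀ g : Copy J G, (∀ a, g a ∈ D' ∨ g a ∉ D) → (∃ a, g a ∉ D) → False)
    (t m s : ℕ) (hm : card W ≤ m) (hs : #{w | c w = 0} = s)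
    (T : Fin r → Finset V) (hT : IsTile G r t T) (hTD : ∀ v ∈ tileSet T, v ∉ D)
    (ht : 2 ^ #D' * m < t) :
    dsum G (tileSet T) D' + t ≤ t * ((r - 1) * #D' + s) + r * (2 ^ #D' * m * #D') := by
  classical
  set nb : V → Finset V := fun v => {x ∈ D' | G.Adj v x} with hnb
  have hnbD : ∀ v, nb v ∈ D'.powerset := by
    intro v; rw [mem_powerset]; exact filter_subset _ _
  have hex : ∀ j, ∃ S ∈ D'.powerset.filter (fun S => m ≤ #{v ∈ T j | nb v = S}),
      ∀ S' ∈ D'.powerset.filter (fun S => m ≤ #{v ∈ T j | nb v = S}), #S' ≤ #S := by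
    intro j
    apply exists_max_image
    obtain ⟨S, hS, hS'⟩ := exists_lt_card_fiber_of_mul_lt_card_of_maps_to (s := T j)
      (t := D'.powerset) (f := nb) (n := m) (fun v _ => hnbD v)
      (by rw [card_powerset, hT.1 j]; exact ht)
    exact ⟨S, by rw [mem_filter]; exact ⟨hS, hS'.le⟩⟩
  choose S hS hSmax using hex
  have hpart : ∀ j, ∑ v ∈ T j, #(nb v) ≤ t * #(S j) + 2 ^ #D' * m * #D' := by
    intro j
    rw [← Finset.sum_filter_add_sum_filter_not (T j) (fun v => m ≤ #{v' ∈ T j | nb v' = nb v})]
    refine Nat.add_le_add ?_ ?_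
    · refine (Finset.sum_le_card_nsmul _ _ (#(S j)) ?_).trans ?_
      · intro v hv
        rw [mem_filter] at hv
        exact hSmax j _ (by rw [mem_filter]; exact ⟨hnbD v, hv.2⟩)
      · rw [smul_eq_mul]
        refine Nat.mul_le_mul_right _ ((card_filter_le _ _).trans ?_)
        rw [hT.1 j]
    · refine (Finset.sum_le_card_nsmul _ _ (#D') ?_).trans ?_
      · intro v _
        exact card_filter_le _ _
      · rw [smul_eq_mul]
        refine Nat.mul_le_mul_right _ ?_
        have := card_le_mul_card_image_of_maps_to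
          (s := (T j).filter (fun v => ¬ m ≤ #{v' ∈ T j | nb v' = nb v})) (t := D'.powerset)
          (f := nb) (fun v _ => hnbD v) m (by
            intro S' _
            rcases ((T j).filter (fun v => ¬ m ≤ #{v' ∈ T j | nb v' = nb v})).filter
              (fun v => nb v = S') |>.eq_empty_or_nonempty with h | ⟨v, hv⟩
            · rw [h]; simp
            · rw [mem_filter, mem_filter] at hv
              refine le_trans (card_le_card ?_) (not_le.mp hv.1.2).le
              intro v' hv'
              rw [mem_filter, mem_filter] at hv'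
              rw [mem_filter]
              exact ⟨hv'.1.1, hv'.2.trans hv.2.symm⟩)
        rw [card_powerset] at this
        rw [mul_comm]
        exact this
  set Y := {x ∈ D' | ∀ j, x ∈ S j} with hY
  have hYs : #Y + 1 ≤ s := by
    by_contra hcon
    push Not at hcon
    obtain ⟨f, hf⟩ := multipartite_copy J G (fun w => c w) (fun a b hab => c.valid hab)
      (Fin.cons Y (fun j => {v ∈ T j | nb v = S j})) (by
        have key : ∀ x ∈ Y, ∀ j, ∀ v ∈ T j, nb v = S j → G.Adj x v := by
          intro x hx j v _ hvS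
          rw [hY, mem_filter] at hx
          have h1 := hx.2 j
          rw [← hvS, hnb, mem_filter] at h1
          exact h1.2.symm
        intro i j
        refine Fin.cases ?_ (fun i => ?_) i
        · refine Fin.cases ?_ (fun j => ?_) j
          · intro h; exact absurd rfl h
          · intro _ a ha b hb
            rw [Fin.cons_zero] at ha
            rw [Fin.cons_succ, mem_filter] at hb
            exact key a ha j b hb.1 hb.2
        · refine Fin.cases ?_ (fun j => ?_) j
          · intro _ a ha b hb
            rw [Fin.cons_zero] at hb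
            rw [Fin.cons_succ, mem_filter] at ha
            exact (key b hb i a ha.1 ha.2).symm
          · intro hij a ha b hb
            rw [Fin.cons_succ, mem_filter] at ha hb
            exact hT.2 i j (fun h => hij (by rw [h])) a ha.1 b hb.1) (by
        intro i
        refine Fin.cases ?_ (fun j => ?_) i
        · rw [Fin.cons_zero, hs]
          omega
        · rw [Fin.cons_succ]
          have := hS j
          rw [mem_filter] at this
          exact (card_le_univ _).trans (hm.trans this.2))
    refine hno f ?_ ?_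
    · intro a
      have h1 := hf a
      revert h1
      refine Fin.cases ?_ (fun j => ?_) (c a)
      · intro h1
        rw [Fin.cons_zero, hY, mem_filter] at h1
        exact Or.inl h1.1
      · intro h1
        rw [Fin.cons_succ, mem_filter] at h1
        exact Or.inr (hTD _ (by rw [mem_tileSet]; exact ⟨j, h1.1⟩))
    · obtain ⟨w, hw⟩ := hc1
      refine ⟨w, ?_⟩
      have h1 := hf w
      revert h1 hw
      refine Fin.cases ?_ (fun j => ?_) (c w)
      · intro h; exact absurd rfl h
      · intro _ h1
        rw [Fin.cons_succ, mem_filter] at h1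
        exact hTD _ (by rw [mem_tileSet]; exact ⟨j, h1.1⟩)
  have hSsum : ∑ j, #(S j) ≤ (r - 1) * #D' + #Y := by
    have h1 : ∀ j, #(S j) = #{x ∈ D' | x ∈ S j} := by
      intro j
      have h2 := hS j
      rw [mem_filter, mem_powerset] at h2
      congr 1
      ext x
      rw [mem_filter]
      exact ⟨fun h => ⟨h2.1 h, h⟩, fun h => h.2⟩
    simp_rw [h1, Finset.card_filter]
    rw [Finset.sum_comm, hY, Finset.card_filter]
    have h3 : (r - 1) * #D' = ∑ _x ∈ D', (r - 1) := by
      rw [Finset.sum_const, smul_eq_mul, mul_comm]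
    rw [h3, ← Finset.sum_add_distrib]
    apply Finset.sum_le_sum
    intro x _
    rw [← Finset.card_filter]
    split_ifs with h
    · refine (card_filter_le _ _).trans ?_
      rw [Finset.card_univ, Fintype.card_fin]
      omega
    · push Not at h
      obtain ⟨j, hj⟩ := h
      have h4 : #{j | x ∈ S j} < #(univ : Finset (Fin r)) := by
        apply card_lt_card
        rw [Finset.ssubset_univ_iff]
        intro h5
        have : j ∈ ({j | x ∈ S j} : Finset (Fin r)) := by rw [h5]; exact mem_univ _
        rw [mem_filter] at this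
        exact hj this.2
      rw [Finset.card_univ, Fintype.card_fin] at h4
      omega
  have h1 : dsum G (tileSet T) D' ≤ ∑ j, (t * #(S j) + 2 ^ #D' * m * #D') := by
    unfold dsum
    rw [hT.sum]
    exact Finset.sum_le_sum (fun j _ => hpart j)
  rw [Finset.sum_add_distrib, ← Finset.mul_sum, Finset.sum_const, Finset.card_univ,
    Fintype.card_fin, smul_eq_mul] at h1
  have h2 : t * ∑ j, #(S j) + t ≤ t * ((r - 1) * #D' + s) := by
    calc t * ∑ j, #(S j) + t = t * (∑ j, #(S j) + 1) := by ring
      _ ≤ t * ((r - 1) * #D' + s) := Nat.mul_le_mul_left _ (by omega)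
  omega

/-- No copy of a piece uses only its own part of the core and the outside. -/
theorem piece_part_free {V W ι : Type} [Fintype W] [DecidableEq V]
    [DecidableEq ι] {L : SimpleGraph W} {G : SimpleGraph V} (c : W → ι)
    (hc : ∀ a b, L.Adj a b → c a = c b) (D : Finset V)
    (hD : ∀ (f : Copy L G) (w : W), f w ∈ D) (f₀ : Copy L G) (label : V → ι)
    (hlabel : ∀ w, label (f₀ w) = c w) (i : ι)
    (g : Copy (L.induce {w | c w = i}) G)
    (hg : ∀ a, g a ∈ D.filter (fun x => label x = i) ∨ g a ∉ D) (hg' : ∃ a, g a ∉ D) :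
    False := by
  classical
  let g' : ∀ j, Copy (L.induce {w | c w = j}) G := fun j =>
    if hj : j = i then hj ▸ g else piece c f₀ j
  have hg'0 : g' i = g := by simp [g']
  have hg'1 : ∀ j (hj : j ≠ i), g' j = piece c f₀ j := by
    intro j hj; simp [g', hj]
  have key : ∀ (l : ι), l ≠ i → ∀ a (b : {w | c w = l}), g a ≠ f₀ b := by
    intro l hl a b hcon
    rcases hg a with h | h
    · rw [mem_filter, hcon, hlabel b, b.2] at h
      exact hl h.2
    · exact h (hcon ▸ hD f₀ b)
  obtain ⟨f, hf⟩ := glue c hc g' (by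
    intro j l hjl a b
    by_cases hj : j = i
    · subst hj
      have hl : l ≠ j := fun h => hjl h.symm
      rw [hg'0, hg'1 l hl]
      exact key l hl a b
    · by_cases hl : l = i
      · subst hl
        rw [hg'0, hg'1 j hj]
        exact (key j hj b a).symm
      · rw [hg'1 j hj, hg'1 l hl, piece_apply, piece_apply]
        intro hcon
        have : (a : W) = b := f₀.injective hcon
        apply hjl
        rw [← a.2, ← b.2, this])
  obtain ⟨⟨a, rfl⟩, ha⟩ := hg'
  have h1 := hD f a
  rw [hf a, hg'0] at h1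
  exact ha h1

theorem exists_label {V W ι : Type} [DecidableEq V] {L : SimpleGraph W} {G : SimpleGraph V}
    (c : W → ι) (i₀ : ι) (f₀ : Copy L G) : ∃ label : V → ι, ∀ w, label (f₀ w) = c w := by
  classical
  refine ⟨fun x => if h : ∃ w, f₀ w = x then c h.choose else i₀, ?_⟩
  intro w
  have h : ∃ w', f₀ w' = f₀ w := ⟨w, rfl⟩
  have h1 : h.choose = w := f₀.injective h.choose_spec
  simp only
  rw [dif_pos h, h1]

/-- Edges between a tile and the core. -/
theorem tile_core_total {V W ι : Type} [Fintype W] [DecidableEq V] [Fintype ι]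
    [DecidableEq ι] {L : SimpleGraph W} {G : SimpleGraph V} [DecidableRel G.Adj] (c : W → ι)
    (hc : ∀ a b, L.Adj a b → c a = c b) (D : Finset V)
    (hD : ∀ (f : Copy L G) (w : W), f w ∈ D) (f₀ : Copy L G) (label : V → ι)
    (hlabel : ∀ w, label (f₀ w) = c w) (S : Finset ι) (r : ℕ) (hr : 1 ≤ r)
    (C : L.Coloring (Fin (r + 1))) (hC1 : ∀ i, ∃ w, c w = i ∧ C w ≠ 0) (t d : ℕ) (hd : #D ≤ d)
    (ht : 2 ^ d * card W < t) (T : Fin r → Finset V) (hT : IsTile G r t T)
    (hTD : ∀ v ∈ tileSet T, v ∉ D) :
    dsum G (tileSet T) (D.filter (fun x => label x ∈ S)) + #S * t ≤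
      t * ((r - 1) * #(D.filter (fun x => label x ∈ S)) + #{w | C w = 0 ∧ c w ∈ S}) +
        #S * (r * (2 ^ d * card W * d)) := by
  classical
  have h1 : dsum G (tileSet T) (D.filter (fun x => label x ∈ S)) =
      ∑ i ∈ S, dsum G (tileSet T) (D.filter (fun x => label x = i)) := by
    unfold dsum
    rw [Finset.sum_comm]
    apply Finset.sum_congr rfl
    intro v _
    rw [card_eq_sum_card_fiberwise (f := label) (t := S) (fun x hx => by
      rw [mem_coe, mem_filter, mem_filter] at hx
      exact hx.1.2)]
    apply Finset.sum_congr rfl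
    intro i hi
    rw [Finset.filter_filter, Finset.filter_filter]
    congr 1
    ext x
    simp only [mem_filter]
    constructor
    · rintro ⟨h1, h2, h3, h4⟩; exact ⟨⟨h1, h4⟩, h3⟩
    · rintro ⟨⟨h1, h2⟩, h3⟩; exact ⟨h1, h2 ▸ hi, h3, h2⟩
  have h2 : #(D.filter (fun x => label x ∈ S)) = ∑ i ∈ S, #(D.filter (fun x => label x = i)) := by
    rw [card_eq_sum_card_fiberwise (f := label) (t := S) (fun x hx => by
      rw [mem_coe, mem_filter] at hx
      exact hx.2)]
    apply Finset.sum_congr rfl
    intro i hi
    rw [Finset.filter_filter]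
    congr 1
    ext x
    simp only [mem_filter]
    constructor
    · rintro ⟨h1, h2, h3⟩; exact ⟨h1, h3⟩
    · rintro ⟨h1, h2⟩; exact ⟨h1, h2 ▸ hi, h2⟩
  have h3 : #{w | C w = 0 ∧ c w ∈ S} = ∑ i ∈ S, #{w | C w = 0 ∧ c w = i} := by
    rw [card_eq_sum_card_fiberwise (f := c) (t := S) (fun x hx => by
      rw [mem_coe, mem_filter] at hx
      exact hx.2.2)]
    apply Finset.sum_congr rfl
    intro i hi
    rw [Finset.filter_filter]
    congr 1
    ext x
    simp only [mem_filter]
    constructor
    · rintro ⟨h1, ⟨h2, h3⟩, h4⟩; exact ⟨h1, h2, h4⟩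
    · rintro ⟨h1, h2, h3⟩; exact ⟨h1, ⟨h2, h3 ▸ hi⟩, h3⟩
  have h4 : ∀ i ∈ S, dsum G (tileSet T) (D.filter (fun x => label x = i)) + t ≤
      t * ((r - 1) * #(D.filter (fun x => label x = i)) + #{w | C w = 0 ∧ c w = i}) +
        r * (2 ^ d * card W * d) := by
    intro i _
    set D' := D.filter (fun x => label x = i) with hD'
    have hD'd : #D' ≤ d := (card_filter_le _ _).trans hd
    let C' : (L.induce {w | c w = i}).Coloring (Fin (r + 1)) :=
      Coloring.mk (fun a => C a) (fun {a b} hab => C.valid hab)
    have hpow : 2 ^ #D' ≤ 2 ^ d := Nat.pow_le_pow_right (by norm_num) hD'd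
    have h5 := tile_core_le G (L.induce {w | c w = i}) r hr C' (by
      obtain ⟨w, hw, hw'⟩ := hC1 i
      exact ⟨⟨w, hw⟩, hw'⟩) D D' (fun g hg hg' =>
        piece_part_free c hc D hD f₀ label hlabel i g hg hg') t (card W) _
        (Fintype.card_subtype_le _) rfl T hT hTD
        (lt_of_le_of_lt (Nat.mul_le_mul_right _ hpow) ht)
    have h6 : #{w : {w | c w = i} | C' w = 0} = #{w | C w = 0 ∧ c w = i} := by
      rw [← Finset.card_map (Function.Embedding.subtype _)]
      congr 1
      ext w
      rw [Finset.mem_map, mem_filter]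
      constructor
      · rintro ⟨a, ha, rfl⟩
        rw [mem_filter] at ha
        exact ⟨mem_univ _, ha.2, a.2⟩
      · rintro ⟨-, ha, hb⟩
        exact ⟨⟨w, hb⟩, by rw [mem_filter]; exact ⟨mem_univ _, ha⟩, rfl⟩
    rw [h6] at h5
    refine h5.trans (Nat.add_le_add_left (Nat.mul_le_mul_left _ ?_) _)
    exact Nat.mul_le_mul (Nat.mul_le_mul_right _ hpow) hD'd
  have h5 := Finset.sum_le_sum h4
  rw [Finset.sum_add_distrib, Finset.sum_add_distrib, ← Finset.mul_sum, Finset.sum_add_distrib,
    ← Finset.mul_sum, ← h1, ← h2, ← h3, Finset.sum_const, Finset.sum_const,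
    smul_eq_mul, smul_eq_mul] at h5
  exact h5

end Pool.Agent.Helper49.Copies
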