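import Mathlib

/-!
# Near-chain families: the combinatorial core

A near-chain family is a family of `0/1` sequences `a w : ℕ → Bool` (`w` ranges over the white
vertices, the argument is a *time*, i.e. a black vertex in the order of nondecreasing degree), such
that for times `p < q < m` at most one `w` is present at `p` and absent at `q`.
-/

namespace Pool.Agent.Helper49.NearChain

open Finset

/-- number of `t ∈ [x,y)` with `a t = true` -/
def c1 (a : ℕ → Bool) (x y : ℕ) : ℕ := ((Ico x y).filter (fun t => a t = true)).card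

/-- number of `t ∈ [x,y)` with `a t = false` -/
def c0 (a : ℕ → Bool) (x y : ℕ) : ℕ := ((Ico x y).filter (fun t => a t = false)).card

lemma c1_add_c0 (a : ℕ → Bool) (x y : ℕ) : c1 a x y + c0 a x y = y - x := by
  unfold c1 c0
  have h := Finset.card_filter_add_card_filter_not (s := Ico x y) (fun t => a t = true)
  simp only [Bool.not_eq_true, Nat.card_Ico] at h
  exact h

lemma c1_succ (a : ℕ → Bool) {x y : ℕ} (h : x ≤ y) (hy : a y = false) :
    c1 a x (y+1) = c1 a x y := by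
  unfold c1
  congr 1
  ext t
  simp only [mem_filter, mem_Ico]
  constructor
  · rintro ⟨⟨h1, h2⟩, h3⟩
    refine ⟨⟨h1, ?_⟩, h3⟩
    rcases Nat.lt_succ_iff_lt_or_eq.mp h2 with h4 | h4
    · exact h4
    · subst h4; rw [hy] at h3; cases h3
  · rintro ⟨⟨h1, h2⟩, h3⟩
    exact ⟨⟨h1, by omega⟩, h3⟩

/-- A near-chain family with thresholds satisfying the prefix-majority property. -/
structure Fam (W : Type*) where
  m : ℕ
  a : W → ℕ → Bool
  τ : W → ℕ
  NC : ∀ w w', w ≠ w' → ∀ p q, p < q → q < m → a w p = true → a w' p = true →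
    a w q = false → a w' q = false → False
  PM : ∀ w j, τ w ≤ j → j < m → c0 (a w) (τ w) (j+1) ≤ c1 (a w) (τ w) (j+1)

namespace Fam

variable {W : Type*} (F : Fam W)

/-- `w` is a late exception at time `i`. -/
def Late (i : ℕ) (w : W) : Prop := F.τ w ≤ i ∧ F.a w i = false

lemma Late.half {F : Fam W} {i : ℕ} {w : W} (h : F.Late i w) (hi : i < F.m) :
    F.τ w < i ∧ i - F.τ w + 1 ≤ 2 * c1 (F.a w) (F.τ w) i := by
  obtain ⟨h1, h2⟩ := h
  have hpm := F.PM w i h1 hi
  have h3 := c1_add_c0 (F.a w) (F.τ w) (i+1)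
  have h4 := c1_succ (F.a w) h1 h2
  have h5 : i - F.τ w + 1 ≤ 2 * c1 (F.a w) (F.τ w) i := by omega
  refine ⟨?_, h5⟩
  by_contra hcon
  have h6 : F.τ w = i := by omega
  rw [h6] at h5
  have h7 : c1 (F.a w) i i = 0 := by simp [c1]
  omega

/-- the zeros of `w` between the threshold plus a quarter of `2^s` and the end of the third block -/
def FZ (s : ℕ) (w : W) : Finset ℕ :=
  (Ico (F.τ w + 2^s/4) (min F.m ((F.τ w / 2^s + 3) * 2^s))).filter (fun q => F.a w q = false)

/-- number of far zeros -/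
def Z (s : ℕ) (w : W) : ℕ := (F.FZ s w).card

lemma mem_FZ {s : ℕ} {w : W} {q : ℕ} : q ∈ F.FZ s w ↔
    F.τ w + 2^s/4 ≤ q ∧ q < F.m ∧ q < (F.τ w / 2^s + 3) * 2^s ∧ F.a w q = false := by
  simp only [FZ, mem_filter, mem_Ico, lt_min_iff]
  tauto

/-- a far zero has many ones before it -/
lemma ones_before {s : ℕ} {w : W} {q : ℕ} (hq : q ∈ F.FZ s w) :
    2^s ≤ 8 * c1 (F.a w) (F.τ w) q := by
  rw [mem_FZ] at hq
  obtain ⟨h1, h2, h3, h4⟩ := hq
  have hl : F.Late q w := ⟨le_trans (Nat.le_add_right _ _) h1, h4⟩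
  have := hl.half h2
  have hp : 0 < 2^s := by positivity
  omega

/-- the inversions of `w` in the window of three blocks -/
def Inv (s : ℕ) (y : ℕ) (w : W) : Finset (ℕ × ℕ) :=
  ((Ico (y * 2^s) ((y+3) * 2^s)) ×ˢ (Ico (y * 2^s) ((y+3) * 2^s))).filter
    (fun z => z.1 < z.2 ∧ z.2 < F.m ∧ F.a w z.1 = true ∧ F.a w z.2 = false)

lemma card_Inv {s y : ℕ} {w : W} (hw : F.τ w / 2^s = y) :
    F.Z s w * 2^s ≤ 8 * (F.Inv s y w).card := by
  have hpos : 0 < 2^s := by positivity
  have hy1 : y * 2^s ≤ F.τ w := by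
    rw [← hw]; exact Nat.div_mul_le_self _ _
  have key : ∑ q ∈ F.FZ s w, c1 (F.a w) (F.τ w) q ≤ (F.Inv s y w).card := by
    have : ∑ q ∈ F.FZ s w, c1 (F.a w) (F.τ w) q =
        ((F.FZ s w).sigma (fun q => (Ico (F.τ w) q).filter (fun t => F.a w t = true))).card := by
      rw [Finset.card_sigma]; rfl
    rw [this]
    apply Finset.card_le_card_of_injOn (fun z => (z.2, z.1))
    · intro z hz
      simp only [coe_sigma, Set.mem_sigma_iff, mem_coe, mem_filter, mem_Ico] at hz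
      obtain ⟨h1, ⟨h2, h3⟩, h4⟩ := hz
      rw [mem_FZ] at h1
      obtain ⟨h5, h6, h7, h8⟩ := h1
      rw [hw] at h7
      simp only [Inv, coe_filter, mem_product, mem_Ico, Set.mem_ofPred_eq]
      refine ⟨⟨⟨by omega, by omega⟩, ⟨by omega, by omega⟩⟩, h3, h6, h4, h8⟩
    · rintro ⟨q, p⟩ _ ⟨q', p'⟩ _ h
      simp only [Prod.mk.injEq] at h
      obtain ⟨h1, h2⟩ := h
      subst h1; subst h2; rfl
  have h2 : (F.FZ s w).card * 2^s ≤ ∑ q ∈ F.FZ s w, 8 * c1 (F.a w) (F.τ w) q := by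
    rw [← smul_eq_mul]
    apply Finset.card_nsmul_le_sum
    intro q hq
    exact F.ones_before hq
  rw [← Finset.mul_sum] at h2
  unfold Z
  omega

lemma sum_Z [Fintype W] [DecidableEq W] (s y : ℕ) :
    ∑ w ∈ univ.filter (fun w => F.τ w / 2^s = y), F.Z s w ≤ 72 * 2^s := by
  have hpos : 0 < 2^s := by positivity
  set S := univ.filter (fun w => F.τ w / 2^s = y) with hS
  have h1 : ∑ w ∈ S, (F.Inv s y w).card = (S.biUnion (F.Inv s y)).card := by
    rw [Finset.card_biUnion]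
    intro w _ w' _ hne
    rw [Function.onFun, Finset.disjoint_left]
    rintro ⟨p, q⟩ h h'
    simp only [Inv, mem_filter] at h h'
    exact F.NC w w' hne p q h.2.1 h.2.2.1 h.2.2.2.1 h'.2.2.2.1 h.2.2.2.2 h'.2.2.2.2
  have h2 : (S.biUnion (F.Inv s y)).card ≤ (3 * 2^s) * (3 * 2^s) := by
    have : S.biUnion (F.Inv s y) ⊆
        (Ico (y * 2^s) ((y+3) * 2^s)) ×ˢ (Ico (y * 2^s) ((y+3) * 2^s)) := by
      intro z hz
      rw [mem_biUnion] at hz
      obtain ⟨w, _, hz⟩ := hz
      exact (mem_filter.mp hz).1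
    have h3 := Finset.card_le_card this
    rw [card_product, Nat.card_Ico] at h3
    have h4 : (y+3) * 2^s - y * 2^s = 3 * 2^s := by
      rw [← Nat.sub_mul]; congr 1; omega
    rwa [h4] at h3
  have h3 : (∑ w ∈ S, F.Z s w) * 2^s ≤ 8 * ∑ w ∈ S, (F.Inv s y w).card := by
    rw [Finset.sum_mul, Finset.mul_sum]
    apply Finset.sum_le_sum
    intro w hw
    rw [hS, mem_filter] at hw
    exact F.card_Inv hw.2
  rw [h1] at h3
  have h4 : (∑ w ∈ S, F.Z s w) * 2^s ≤ (72 * 2^s) * 2^s := by nlinarith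
  exact Nat.le_of_mul_le_mul_right h4 hpos

/-- two late exceptions at the same time are never both present before. -/
lemma Late.disj {F : Fam W} {i : ℕ} {u v : W} (hi : i < F.m) (hu : F.Late i u) (hv : F.Late i v)
    (huv : u ≠ v) {p : ℕ} (hp : p < i) (h1 : F.a u p = true) : F.a v p = false := by
  by_contra h2
  rw [Bool.not_eq_false] at h2
  exact F.NC u v huv p i hp hi h1 h2 hu.2 hv.2

lemma Late.lt_end {F : Fam W} {i s : ℕ} {u : W} (h2 : i - F.τ u < 2^(s+1)) :
    i < (F.τ u / 2^s + 3) * 2^s := by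
  have h3 : F.τ u < (F.τ u / 2^s + 1) * 2^s := by
    rw [mul_comm]; exact Nat.lt_mul_div_succ _ (by positivity)
  rw [pow_succ] at h2
  have h4 : (F.τ u / 2^s + 3) * 2^s = (F.τ u / 2^s + 1) * 2^s + 2^s * 2 := by ring
  omega

lemma one_le_Z {i s : ℕ} {u : W} (hi : i < F.m) (hu : F.Late i u)
    (h1 : 2^s ≤ i - F.τ u) (h2 : i - F.τ u < 2^(s+1)) : 1 ≤ F.Z s u := by
  unfold Z
  rw [Nat.succ_le_iff, Finset.card_pos]
  refine ⟨i, ?_⟩
  rw [mem_FZ]
  refine ⟨?_, hi, Late.lt_end h2, hu.2⟩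
  have := hu.1
  omega

lemma rich {i s σ : ℕ} {u v : W} (hi : i < F.m) (hu : F.Late i u) (hv : F.Late i v)
    (h1 : 2^s ≤ i - F.τ u) (h2 : i - F.τ u < 2^(s+1))
    (h3 : 2^σ ≤ i - F.τ v) (h4 : i - F.τ v < 2^(σ+1)) (hσ : σ < s) : 2^σ ≤ 2 * F.Z s u := by
  have huv : v ≠ u := by
    rintro rfl
    have : 2^(σ+1) ≤ 2^s := Nat.pow_le_pow_right (by norm_num) hσ
    omega
  have hhalf := hv.half hi
  have hpow : 2^(σ+1) ≤ 2^s := Nat.pow_le_pow_right (by norm_num) hσ
  have hτu := (hu.half hi).1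
  -- ones of `v` in `[τ v, i)`
  have hsub : (Ico (F.τ v) i).filter (fun t => F.a v t = true) ⊆
      F.FZ s u ∪ Ico (F.τ v) (F.τ u + 2^s/4) := by
    intro t ht
    rw [mem_filter, mem_Ico] at ht
    obtain ⟨⟨ht1, ht2⟩, ht3⟩ := ht
    rw [mem_union, mem_Ico]
    by_cases hfar : F.τ u + 2^s/4 ≤ t
    · left
      rw [mem_FZ]
      refine ⟨hfar, by omega, ?_, hv.disj hi hu huv ht2 ht3⟩
      exact lt_trans ht2 (Late.lt_end h2)
    · right
      omega
  have hcard := Finset.card_le_card hsub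
  have hun := Finset.card_union_le (F.FZ s u) (Ico (F.τ v) (F.τ u + 2^s/4))
  rw [Nat.card_Ico] at hun
  have hc1 : c1 (F.a v) (F.τ v) i ≤ F.Z s u + (F.τ u + 2^s/4 - F.τ v) := by
    unfold c1 Z
    omega
  rw [pow_succ] at h2 h4 hpow
  omega

/-- at most three late exceptions per scale -/
lemma card_scale [Fintype W] {i s : ℕ} (hi : i < F.m) (S : Finset W)
    (hS : ∀ u ∈ S, F.Late i u ∧ 2^s ≤ i - F.τ u ∧ i - F.τ u < 2^(s+1)) : S.card ≤ 3 := by
  classical
  have hpos : 0 < 2^s := by positivity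
  have h1 : ∑ u ∈ S, c1 (F.a u) (F.τ u) i =
      (S.biUnion (fun u => (Ico (F.τ u) i).filter (fun t => F.a u t = true))).card := by
    rw [Finset.card_biUnion]
    · rfl
    · intro u hu v hv huv
      rw [Function.onFun, Finset.disjoint_left]
      intro t ht ht'
      rw [mem_filter, mem_Ico] at ht ht'
      have := (hS u hu).1.disj hi (hS v hv).1 huv ht.1.2 ht.2
      rw [ht'.2] at this
      cases this
  have h2 : (S.biUnion (fun u => (Ico (F.τ u) i).filter (fun t => F.a u t = true))).card ≤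
      2^(s+1) - 1 := by
    have hsub : S.biUnion (fun u => (Ico (F.τ u) i).filter (fun t => F.a u t = true)) ⊆
        Ico (i + 1 - 2^(s+1)) i := by
      intro t ht
      rw [mem_biUnion] at ht
      obtain ⟨u, hu, ht⟩ := ht
      rw [mem_filter, mem_Ico] at ht
      rw [mem_Ico]
      have := hS u hu
      omega
    have := Finset.card_le_card hsub
    rw [Nat.card_Ico] at this
    omega
  have h3 : S.card * (2^s + 1) ≤ ∑ u ∈ S, 2 * c1 (F.a u) (F.τ u) i := by
    rw [← smul_eq_mul]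
    apply Finset.card_nsmul_le_sum
    intro u hu
    have := hS u hu
    have := this.1.half hi
    omega
  rw [← Finset.mul_sum] at h3
  by_contra hcon
  have h4 : 4 * (2^s+1) ≤ S.card * (2^s+1) := Nat.mul_le_mul_right _ (by omega)
  rw [pow_succ] at h2
  omega

end Fam

end Pool.Agent.Helper49.NearChain
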