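import Mathlib
import Pool.Agent.Helper49.NearChain

/-!
# Near-chain families: good intervals of scales and names
-/

namespace Pool.Agent.Helper49.NearChain

open Finset

/-- a memory cell of 22 bits -/
abbrev Cell : Type := Fin (2^22)

namespace Fam

variable {W : Type*} (F : Fam W)

/-- the dyadic interval of scales `{s | s / 2^k = x}` is good for `w` -/
def Good (w : W) (k x : ℕ) : Prop :=
  ∃ s, s / 2^k = x ∧ 2^s ≤ 2^(2^k+1) * F.Z s w

lemma card_rich [Fintype W] [DecidableEq W] (s y b : ℕ) (S : Finset W)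
    (hS : ∀ w ∈ S, F.τ w / 2^s = y ∧ 2^s ≤ 2^(b+1) * F.Z s w) : S.card ≤ 144 * 2^b := by
  have hpos : 0 < 2^s := by positivity
  have h1 : S.card * 2^s ≤ ∑ w ∈ S, 2^(b+1) * F.Z s w := by
    rw [← smul_eq_mul]
    apply Finset.card_nsmul_le_sum
    intro w hw
    exact (hS w hw).2
  rw [← Finset.mul_sum] at h1
  have h2 : ∑ w ∈ S, F.Z s w ≤ ∑ w ∈ univ.filter (fun w => F.τ w / 2^s = y), F.Z s w := by
    apply Finset.sum_le_sum_of_subset
    intro w hw
    simp [(hS w hw).1]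
  have h3 := F.sum_Z s y
  have h4 : S.card * 2^s ≤ (144 * 2^b) * 2^s := by
    calc S.card * 2^s ≤ 2^(b+1) * ∑ w ∈ S, F.Z s w := h1
      _ ≤ 2^(b+1) * (72 * 2^s) := Nat.mul_le_mul_left _ (le_trans h2 h3)
      _ = (144 * 2^b) * 2^s := by rw [pow_succ]; ring
  exact Nat.le_of_mul_le_mul_right h4 hpos

lemma card_good [Fintype W] [DecidableEq W] (k x Y : ℕ) (S : Finset W)
    (hS : ∀ w ∈ S, F.Good w k x ∧ F.τ w / 2^((x+1)*2^k) = Y) : S.card ≤ 2^(11 * 2^k) := by
  classical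
  set A : ℕ → ℕ → Finset W := fun s y =>
    univ.filter (fun w => F.τ w / 2^s = y ∧ 2^s ≤ 2^(2^k+1) * F.Z s w) with hA
  have hAcard : ∀ s y, (A s y).card ≤ 144 * 2^(2^k) := by
    intro s y
    apply F.card_rich s y (2^k)
    intro w hw
    rw [hA] at hw
    simpa using hw
  have hsub : S ⊆ (Ico (x * 2^k) ((x+1) * 2^k)).biUnion (fun s =>
      (Ico (Y * 2^((x+1)*2^k - s)) ((Y+1) * 2^((x+1)*2^k - s))).biUnion (fun y => A s y)) := by
    intro w hw
    obtain ⟨⟨s, hs1, hs2⟩, hY⟩ := hS w hw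
    rw [mem_biUnion]
    have hpk : 0 < 2^k := by positivity
    have hs3 : x * 2^k ≤ s := by rw [← hs1]; exact Nat.div_mul_le_self _ _
    have hs4 : s < (x+1) * 2^k := by
      rw [← hs1, mul_comm]; exact Nat.lt_mul_div_succ _ hpk
    refine ⟨s, by rw [mem_Ico]; exact ⟨hs3, hs4⟩, ?_⟩
    rw [mem_biUnion]
    refine ⟨F.τ w / 2^s, ?_, ?_⟩
    · have hdiv : F.τ w / 2^s / 2^((x+1)*2^k - s) = Y := by
        rw [Nat.div_div_eq_div_mul, ← pow_add, Nat.add_sub_cancel' hs4.le, hY]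
      have hpp : 0 < 2^((x+1)*2^k - s) := by positivity
      rw [mem_Ico]
      constructor
      · rw [← hdiv]; exact Nat.div_mul_le_self _ _
      · rw [← hdiv, mul_comm]; exact Nat.lt_mul_div_succ _ hpp
    · rw [hA]; simp [hs2]
  have h1 : S.card ≤ 2^k * (2^(2^k) * (144 * 2^(2^k))) := by
    refine le_trans (Finset.card_le_card hsub) ?_
    refine le_trans Finset.card_biUnion_le ?_
    have h2 : ∀ s ∈ Ico (x * 2^k) ((x+1) * 2^k),
        ((Ico (Y * 2^((x+1)*2^k - s)) ((Y+1) * 2^((x+1)*2^k - s))).biUnion (fun y => A s y)).card ≤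
        2^(2^k) * (144 * 2^(2^k)) := by
      intro s hs
      rw [mem_Ico] at hs
      refine le_trans Finset.card_biUnion_le ?_
      refine le_trans (Finset.sum_le_card_nsmul _ _ _ (fun y _ => hAcard s y)) ?_
      rw [smul_eq_mul, Nat.card_Ico]
      have h3 : (Y+1) * 2^((x+1)*2^k - s) - Y * 2^((x+1)*2^k - s) = 2^((x+1)*2^k - s) := by
        rw [← Nat.sub_mul]; simp
      rw [h3]
      apply Nat.mul_le_mul_right
      apply Nat.pow_le_pow_right (by norm_num)
      have : (x+1) * 2^k = x * 2^k + 2^k := by ring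
      omega
    refine le_trans (Finset.sum_le_card_nsmul _ _ _ h2) ?_
    rw [smul_eq_mul, Nat.card_Ico]
    apply Nat.mul_le_mul_right
    have : (x+1) * 2^k = x * 2^k + 2^k := by ring
    have hp : 0 < 2^k := by positivity
    omega
  refine le_trans h1 ?_
  have h5 : 2^k ≤ 2^(2^k) := Nat.pow_le_pow_right (by norm_num) Nat.lt_two_pow_self.le
  have h6 : 144 ≤ 2^(8 * 2^k) := by
    calc 144 ≤ 2^8 := by norm_num
      _ ≤ 2^(8 * 2^k) := by
        apply Nat.pow_le_pow_right (by norm_num)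
        have : 0 < 2^k := by positivity
        omega
  calc 2^k * (2^(2^k) * (144 * 2^(2^k)))
      ≤ 2^(2^k) * (2^(2^k) * (2^(8 * 2^k) * 2^(2^k))) := by gcongr
    _ = 2^(11 * 2^k) := by
      rw [← pow_add, ← pow_add, ← pow_add]; congr 1; ring

lemma exists_names [Fintype W] : ∃ nm : W → ℕ → ℕ → ℕ → Cell, ∀ k x w w', F.Good w k x →
    F.Good w' k x → F.τ w / 2^((x+1)*2^k) = F.τ w' / 2^((x+1)*2^k) →
    (∀ j < 2^(k-1), nm w k x j = nm w' k x j) → w = w' := by
  classical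
  have key : ∀ k x Y, ∃ e : W → ℕ → Cell, ∀ w w',
      (F.Good w k x ∧ F.τ w / 2^((x+1)*2^k) = Y) → (F.Good w' k x ∧ F.τ w' / 2^((x+1)*2^k) = Y) →
      (∀ j < 2^(k-1), e w j = e w' j) → w = w' := by
    intro k x Y
    set S : Finset W := univ.filter (fun w => F.Good w k x ∧ F.τ w / 2^((x+1)*2^k) = Y) with hS
    have hcard : S.card ≤ 2^(11 * 2^k) := by
      apply F.card_good k x Y S
      intro w hw
      rw [hS] at hw
      simpa using hw
    have hcard2 : Fintype.card S ≤ Fintype.card (Fin (2^(k-1)) → Cell) := by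
      rw [Fintype.card_coe, Fintype.card_fun, Fintype.card_fin, Fintype.card_fin, ← pow_mul]
      refine le_trans hcard ?_
      apply Nat.pow_le_pow_right (by norm_num)
      rcases Nat.eq_zero_or_pos k with hk | hk
      · subst hk; norm_num
      · obtain ⟨k', rfl⟩ := Nat.exists_eq_succ_of_ne_zero (by omega : k ≠ 0)
        rw [Nat.succ_eq_add_one, Nat.add_sub_cancel, pow_succ]
        omega
    obtain ⟨e⟩ := Function.Embedding.nonempty_of_card_le hcard2
    refine ⟨fun w j => if h : w ∈ S ∧ j < 2^(k-1) then e ⟨w, h.1⟩ ⟨j, h.2⟩ else 0, ?_⟩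
    intro w w' hw hw' hj
    have hwS : w ∈ S := by rw [hS]; simpa using hw
    have hwS' : w' ∈ S := by rw [hS]; simpa using hw'
    have h1 : e ⟨w, hwS⟩ = e ⟨w', hwS'⟩ := by
      funext ⟨j, hjlt⟩
      have h2 := hj j hjlt
      simp only [hwS, hwS', hjlt, and_self, dite_true] at h2
      exact h2
    have h3 := e.injective h1
    exact congrArg Subtype.val h3
  choose e he using key
  refine ⟨fun w k x => e k x (F.τ w / 2^((x+1)*2^k)) w, ?_⟩
  intro k x w w' hw hw' hY hj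
  refine he k x (F.τ w / 2^((x+1)*2^k)) w w' ⟨hw, rfl⟩ ⟨hw', hY.symm⟩ ?_
  intro j hjlt
  have := hj j hjlt
  simp only at this
  rw [this, hY]

lemma Good.mono {F : Fam W} {w : W} {s k k' : ℕ} (hk : k ≤ k') (h : F.Good w k (s / 2^k)) :
    F.Good w k' (s / 2^k') := by
  obtain ⟨s1, h1, h2⟩ := h
  refine ⟨s1, ?_, ?_⟩
  · obtain ⟨d, rfl⟩ := Nat.exists_eq_add_of_le hk
    rw [pow_add, ← Nat.div_div_eq_div_mul, ← Nat.div_div_eq_div_mul, h1]
  · refine le_trans h2 (Nat.mul_le_mul_right _ ?_)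
    apply Nat.pow_le_pow_right (by norm_num)
    have : 2^k ≤ 2^k' := Nat.pow_le_pow_right (by norm_num) hk
    omega

/-- the smallest `k` such that the dyadic interval of length `2^k` around `s` is good for `w` -/
noncomputable def kmin (w : W) (s : ℕ) : ℕ := sInf {k | F.Good w k (s / 2^k)}

lemma kmin_spec {w : W} {s k : ℕ} (h : F.Good w k (s / 2^k)) :
    F.Good w (F.kmin w s) (s / 2^(F.kmin w s)) ∧ F.kmin w s ≤ k :=
  ⟨Nat.sInf_mem (s := {k | F.Good w k (s / 2^k)}) ⟨k, h⟩, Nat.sInf_le h⟩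

lemma not_good_of_lt_kmin {w : W} {s k : ℕ} (h : k < F.kmin w s) : ¬ F.Good w k (s / 2^k) :=
  Nat.notMem_of_lt_sInf h

lemma kmin_eq {w : W} {s k : ℕ} (h : F.Good w k (s / 2^k))
    (h2 : ∀ k' < k, ¬ F.Good w k' (s / 2^k')) : F.kmin w s = k := by
  obtain ⟨h3, h4⟩ := F.kmin_spec h
  by_contra hne
  exact h2 _ (by omega) h3

/-- all scales in the same child have the same smallest good interval -/
lemma kmin_child {w : W} {s k j : ℕ} (h : F.Good w k (s / 2^k)) (hk : F.kmin w s = k)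
    (hj : j < 2^(k-1)) :
    F.kmin w ((s / 2^(k-1)) * 2^(k-1) + j) = k ∧
    ((s / 2^(k-1)) * 2^(k-1) + j) / 2^k = s / 2^k ∧
    ((s / 2^(k-1)) * 2^(k-1) + j) % 2^(k-1) = j := by
  set s' := (s / 2^(k-1)) * 2^(k-1) + j with hs'
  have hpos : 0 < 2^(k-1) := by positivity
  have hmod : s' % 2^(k-1) = j := by
    rw [hs', Nat.mul_add_mod_self_right, Nat.mod_eq_of_lt hj]
  have hdiv1 : s' / 2^(k-1) = s / 2^(k-1) := by
    rw [hs', add_comm, Nat.add_mul_div_right _ _ hpos, Nat.div_eq_of_lt hj, zero_add]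
  have hdiv : s' / 2^k = s / 2^k := by
    rcases Nat.eq_zero_or_pos k with hk0 | hk0
    · subst hk0
      simpa using hdiv1
    · have : 2^k = 2^(k-1) * 2 := by rw [← pow_succ]; congr 1; omega
      rw [this, ← Nat.div_div_eq_div_mul, ← Nat.div_div_eq_div_mul, hdiv1]
  refine ⟨?_, hdiv, hmod⟩
  apply F.kmin_eq
  · rw [hdiv]; exact h
  · intro k' hk' hg
    have hk1 : F.Good w (k-1) (s' / 2^(k-1)) := hg.mono (by omega)
    rw [hdiv1] at hk1
    exact F.not_good_of_lt_kmin (by omega : k - 1 < F.kmin w s) hk1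

/-- `u` is a late exception at time `i` at scale `s` -/
def At (i s : ℕ) (u : W) : Prop := F.Late i u ∧ 2^s ≤ i - F.τ u ∧ i - F.τ u < 2^(s+1)

/-- scale `s` is active at time `i` -/
def Act (i s : ℕ) : Prop := ∃ u, F.At i s u

/-- `g` is the gap below the scale `s` at time `i` -/
def Gap (i s g : ℕ) : Prop :=
  1 ≤ g ∧ g ≤ s + 1 ∧ (∀ s'', s'' < s → s < s'' + g → ¬ F.Act i s'') ∧
    (g = s + 1 ∨ F.Act i (s - g))

lemma exists_gap (i s : ℕ) : ∃ g, F.Gap i s g := by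
  classical
  by_cases h : ∃ g, 1 ≤ g ∧ g ≤ s ∧ F.Act i (s - g)
  · refine ⟨Nat.find h, (Nat.find_spec h).1, by have := (Nat.find_spec h).2.1; omega, ?_,
      Or.inr (Nat.find_spec h).2.2⟩
    intro s'' h1 h2 h3
    apply Nat.find_min h (m := s - s'') (by omega)
    refine ⟨by omega, by omega, ?_⟩
    rwa [show s - (s - s'') = s'' by omega]
  · refine ⟨s + 1, by omega, le_rfl, ?_, Or.inl rfl⟩
    intro s'' h1 h2 h3
    apply h
    refine ⟨s - s'', by omega, by omega, ?_⟩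
    rwa [show s - (s - s'') = s'' by omega]

lemma rich_of_gap {i s g : ℕ} {u : W} (hi : i < F.m) (hu : F.At i s u) (hg : F.Gap i s g) :
    2^s ≤ 2^(g+1) * F.Z s u := by
  obtain ⟨hg1, hg2, _, hg3⟩ := hg
  rcases hg3 with hg3 | ⟨v, hv⟩
  · have h1 : 1 ≤ F.Z s u := F.one_le_Z hi hu.1 hu.2.1 hu.2.2
    calc 2^s ≤ 2^(g+1) := Nat.pow_le_pow_right (by norm_num) (by omega)
      _ = 2^(g+1) * 1 := (mul_one _).symm
      _ ≤ 2^(g+1) * F.Z s u := Nat.mul_le_mul_left _ h1
  · by_cases hgs : g = s + 1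
    · have h1 : 1 ≤ F.Z s u := F.one_le_Z hi hu.1 hu.2.1 hu.2.2
      calc 2^s ≤ 2^(g+1) := Nat.pow_le_pow_right (by norm_num) (by omega)
        _ = 2^(g+1) * 1 := (mul_one _).symm
        _ ≤ 2^(g+1) * F.Z s u := Nat.mul_le_mul_left _ h1
    · have h1 := F.rich hi hu.1 hv.1 hu.2.1 hu.2.2 hv.2.1 hv.2.2 (by omega)
      calc 2^s = 2^g * 2^(s-g) := by rw [← pow_add]; congr 1; omega
        _ ≤ 2^g * (2 * F.Z s u) := Nat.mul_le_mul_left _ h1
        _ = 2^(g+1) * F.Z s u := by rw [pow_succ]; ring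

lemma kmin_bound {i s g : ℕ} {u : W} (hi : i < F.m) (hu : F.At i s u) (hg : F.Gap i s g) :
    F.Good u (F.kmin u s) (s / 2^(F.kmin u s)) ∧ 2^(F.kmin u s - 1) ≤ g ∧
      (∀ K, s < 2^K → F.kmin u s ≤ K) := by
  have h1 := F.rich_of_gap hi hu hg
  obtain ⟨hg1, hg2, _, _⟩ := hg
  have hle : g ≤ 2^(Nat.clog 2 g) := Nat.le_pow_clog (by norm_num) g
  have hgood : F.Good u (Nat.clog 2 g) (s / 2^(Nat.clog 2 g)) := by
    refine ⟨s, rfl, le_trans h1 (Nat.mul_le_mul_right _ ?_)⟩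
    apply Nat.pow_le_pow_right (by norm_num)
    omega
  obtain ⟨h2, h3⟩ := F.kmin_spec hgood
  refine ⟨h2, ?_, ?_⟩
  · have h4 : 2^(F.kmin u s - 1) ≤ 2^(Nat.clog 2 g - 1) :=
      Nat.pow_le_pow_right (by norm_num) (by omega)
    refine le_trans h4 ?_
    rcases Nat.lt_or_ge 1 g with hg' | hg'
    · exact (Nat.pow_pred_clog_lt_self (by norm_num) hg').le
    · have : g = 1 := by omega
      subst this
      simp
  · intro K hK
    refine le_trans h3 ?_
    apply Nat.clog_le_of_le_pow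
    omega

end Fam

end Pool.Agent.Helper49.NearChain
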