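import Mathlib
import Pool.Agent.Helper49.NearChainNames

/-!
# Near-chain families: the labelling of late exceptions
-/

namespace Pool.Agent.Helper49.NearChain

open Finset

/-- read a function on `Fin N` at an arbitrary natural number -/
def rd {α : Type*} {N : ℕ} (hN : 0 < N) (f : Fin N → α) (x : ℕ) : α := f ⟨x % N, Nat.mod_lt _ hN⟩

lemma rd_of_lt {α : Type*} {N : ℕ} (hN : 0 < N) (g : ℕ → α) {x : ℕ} (hx : x < N) :
    rd hN (fun y : Fin N => g y.1) x = g x := by
  simp [rd, Nat.mod_eq_of_lt hx]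

/-- the label of a black vertex for late exceptions: its index, the set of active scales, and
three tracks of cells -/
abbrev BLab (K : ℕ) : Type :=
  Fin (2^(2^K)) × (Fin (2^K) → Bool) × (Fin 3 → Fin (2^K) → Cell × Bool × Bool × Bool)

/-- the label of a white vertex for late exceptions: its threshold, the set of good dyadic
intervals of scales (in heap order) and one track of cells -/
abbrev WLab (K : ℕ) : Type :=
  Fin (2^(2^K)) × (Fin (2^(K+1)) → Bool) × (Fin (2^K) → Cell)

lemma two_pow_pos' (n : ℕ) : 0 < 2^n := by positivity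

/-- the decoder for late exceptions -/
def DecP (K : ℕ) (b : BLab K) (w : WLab K) : Prop :=
  w.1.1 < b.1.1 ∧ rd (two_pow_pos' K) b.2.1 (Nat.log 2 (b.1.1 - w.1.1)) = true ∧
  ∃ k, k ≤ K ∧
    rd (two_pow_pos' (K+1)) w.2.1 (2^(K-k) + Nat.log 2 (b.1.1 - w.1.1) / 2^k) = true ∧
    (∀ k' < k, rd (two_pow_pos' (K+1)) w.2.1 (2^(K-k') + Nat.log 2 (b.1.1 - w.1.1) / 2^k') = false) ∧
    ∃ t, ∀ j < 2^(k-1),
      rd (two_pow_pos' K) (b.2.2 t) (Nat.log 2 (b.1.1 - w.1.1) - j) =
        (rd (two_pow_pos' K) w.2.2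
            ((Nat.log 2 (b.1.1 - w.1.1) / 2^(k-1)) * 2^(k-1) + j),
          decide (j + 1 = 2^(k-1)), decide (k = 0),
          decide (w.1.1 / 2^((Nat.log 2 (b.1.1 - w.1.1) / 2^k + 1) * 2^k) =
            b.1.1 / 2^((Nat.log 2 (b.1.1 - w.1.1) / 2^k + 1) * 2^k)))

namespace Fam

variable {W : Type*} (F : Fam W)

/-- the cell with offset `j` of the record of the exception `u` at time `i` and scale `s` -/
noncomputable def cell (nm : W → ℕ → ℕ → ℕ → Cell) (i s : ℕ) (u : W) (j : ℕ) :
    Cell × Bool × Bool × Bool :=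
  (nm u (F.kmin u s) (s / 2^(F.kmin u s)) j, decide (j + 1 = 2^(F.kmin u s - 1)),
    decide (F.kmin u s = 0),
    decide (F.τ u / 2^((s / 2^(F.kmin u s) + 1) * 2^(F.kmin u s)) =
      i / 2^((s / 2^(F.kmin u s) + 1) * 2^(F.kmin u s))))

lemma exists_tracks [Fintype W] (nm : W → ℕ → ℕ → ℕ → Cell) {i : ℕ} (hi : i < F.m) :
    ∃ (f : ℕ → Fin 3 → Option W) (P : Fin 3 → ℕ → Cell × Bool × Bool × Bool),
      (∀ s, F.Act i s → (∀ t, ∃ u, f s t = some u ∧ F.At i s u) ∧
        (∀ u, F.At i s u → ∃ t, f s t = some u)) ∧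
      (∀ s g, F.Act i s → F.Gap i s g → ∀ t u, f s t = some u → ∀ j < g,
        P t (s - j) = F.cell nm i s u j) := by
  classical
  have h1 : ∀ s, ∃ f : Fin 3 → Option W, F.Act i s → (∀ t, ∃ u, f t = some u ∧ F.At i s u) ∧
        (∀ u, F.At i s u → ∃ t, f t = some u) := by
    intro s
    by_cases hact : F.Act i s
    · set S : Finset W := univ.filter (fun u => F.At i s u) with hS
      have hcard : S.card ≤ 3 := by
        apply F.card_scale hi S (s := s)
        intro u hu
        rw [hS, mem_filter] at hu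
        exact hu.2
      obtain ⟨u0, hu0⟩ := hact
      have hu0S : u0 ∈ S := by rw [hS]; simpa using hu0
      -- a surjection from `Fin 3` to `S`
      have : ∃ g : Fin 3 → S, Function.Surjective g := by
        have hc : Fintype.card S ≤ Fintype.card (Fin 3) := by
          rw [Fintype.card_coe, Fintype.card_fin]; exact hcard
        obtain ⟨e⟩ := Function.Embedding.nonempty_of_card_le hc
        have : Nonempty S := ⟨⟨u0, hu0S⟩⟩
        exact ⟨Function.invFun e, Function.invFun_surjective e.injective⟩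
      obtain ⟨g, hg⟩ := this
      refine ⟨fun t => some (g t).1, fun _ => ⟨?_, ?_⟩⟩
      · intro t
        refine ⟨(g t).1, rfl, ?_⟩
        have h2 : ∀ u, u ∈ S → F.At i s u := by
          intro u hu
          rw [hS, mem_filter] at hu
          exact hu.2
        exact h2 _ (g t).2
      · intro u hu
        have huS : u ∈ S := by rw [hS]; simpa using hu
        obtain ⟨t, ht⟩ := hg ⟨u, huS⟩
        exact ⟨t, by simp only [ht]⟩
    · exact ⟨fun _ => none, fun h => absurd h hact⟩
  choose f hf using h1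
  refine ⟨f, fun t s' => match f (sInf {s | s' ≤ s ∧ F.Act i s}) t with
    | some u => F.cell nm i (sInf {s | s' ≤ s ∧ F.Act i s}) u (sInf {s | s' ≤ s ∧ F.Act i s} - s')
    | none => (0, false, false, false), hf, ?_⟩
  intro s g hact hg t u hu j hj
  obtain ⟨hg1, hg2, hg3, _⟩ := hg
  have hinf : sInf {s'' | s - j ≤ s'' ∧ F.Act i s''} = s := by
    have hmem : s ∈ {s'' | s - j ≤ s'' ∧ F.Act i s''} := ⟨by omega, hact⟩
    have h1 := Nat.sInf_le hmem
    have h2 := Nat.sInf_mem (s := {s'' | s - j ≤ s'' ∧ F.Act i s''}) ⟨s, hmem⟩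
    obtain ⟨h3, h4⟩ := h2
    by_contra hne
    exact hg3 _ (by omega) (by omega) h4
  simp only [hinf, hu]
  rw [show s - (s - j) = j by omega]

end Fam

lemma heap_index {K k s : ℕ} (hk : k ≤ K) (hs : s < 2^K) :
    s / 2^k < 2^(K-k) ∧ 2^(K-k) + s / 2^k < 2^(K+1) ∧ Nat.log 2 (2^(K-k) + s / 2^k) = K - k := by
  have h1 : s / 2^k < 2^(K-k) := by
    rw [Nat.div_lt_iff_lt_mul (by positivity), ← pow_add, Nat.sub_add_cancel hk]
    exact hs
  have h2 : 2^(K-k) ≤ 2^K := Nat.pow_le_pow_right (by norm_num) (by omega)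
  have h3 : 0 < 2^(K-k) := by positivity
  generalize s / 2^k = x at h1 ⊢
  refine ⟨h1, ?_, ?_⟩
  · rw [pow_succ]; omega
  · rw [Nat.log_eq_iff (Or.inr ⟨by norm_num, by omega⟩), pow_succ]
    omega

lemma base_lt {K k s j : ℕ} (hk : k ≤ K) (hs : s < 2^K) (hj : j < 2^(k-1)) :
    (s / 2^(k-1)) * 2^(k-1) + j < 2^K := by
  have hpos : 0 < 2^(k-1) := by positivity
  have h1 : s / 2^(k-1) < 2^(K-(k-1)) := by
    rw [Nat.div_lt_iff_lt_mul hpos, ← pow_add, Nat.sub_add_cancel (by omega)]
    exact hs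
  calc (s / 2^(k-1)) * 2^(k-1) + j < (s / 2^(k-1)) * 2^(k-1) + 2^(k-1) := by omega
    _ = (s / 2^(k-1) + 1) * 2^(k-1) := by ring
    _ ≤ 2^(K-(k-1)) * 2^(k-1) := Nat.mul_le_mul_right _ h1
    _ = 2^K := by rw [← pow_add, Nat.sub_add_cancel (by omega)]

theorem late_label {W : Type*} [Fintype W] (F : Fam W) (K : ℕ) (hm : F.m < 2^(2^K))
    (hτ : ∀ w, F.τ w ≤ F.m) :
    ∃ (β : ℕ → BLab K) (ω : W → WLab K), (∀ i < F.m, (β i).1.1 = i) ∧
      (∀ w, (ω w).1.1 = F.τ w) ∧
      ∀ i < F.m, ∀ w, DecP K (β i) (ω w) ↔ F.Late i w := by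
  classical
  obtain ⟨nm, hnm⟩ := F.exists_names
  -- tracks
  have htr : ∀ i : ℕ, ∃ (f : ℕ → Fin 3 → Option W) (P : Fin 3 → ℕ → Cell × Bool × Bool × Bool),
      i < F.m → (∀ s, F.Act i s → (∀ t, ∃ u, f s t = some u ∧ F.At i s u) ∧
        (∀ u, F.At i s u → ∃ t, f s t = some u)) ∧
      (∀ s g, F.Act i s → F.Gap i s g → ∀ t u, f s t = some u → ∀ j < g,
        P t (s - j) = F.cell nm i s u j) := by
    intro i
    by_cases hi : i < F.m
    · obtain ⟨f, P, h1, h2⟩ := F.exists_tracks nm hi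
      exact ⟨f, P, fun _ => ⟨h1, h2⟩⟩
    · exact ⟨fun _ _ => none, fun _ _ => (0, false, false, false), fun h => absurd h hi⟩
  choose f P hfP using htr
  have hLpos : 0 < 2^(2^K) := by positivity
  refine ⟨fun i => (⟨i % 2^(2^K), Nat.mod_lt _ hLpos⟩, fun s => decide (F.Act i s.1),
      fun t s => P i t s.1),
    fun w => (⟨F.τ w, lt_of_le_of_lt (hτ w) hm⟩,
      fun n => decide (F.Good w (K - Nat.log 2 n.1) (n.1 - 2^(Nat.log 2 n.1))),
      fun s => nm w (F.kmin w s.1) (s.1 / 2^(F.kmin w s.1)) (s.1 % 2^(F.kmin w s.1 - 1))),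
    ?_, fun _ => rfl, ?_⟩
  · intro i hi
    exact Nat.mod_eq_of_lt (lt_trans hi hm)
  intro i hi w
  obtain ⟨hf, hP⟩ := hfP i hi
  have himod : i % 2^(2^K) = i := Nat.mod_eq_of_lt (lt_trans hi hm)
  unfold DecP
  simp only [himod]
  -- facts about the scale
  set s := Nat.log 2 (i - F.τ w) with hs
  have hsK : F.τ w < i → s < 2^K := by
    intro h
    rw [hs]
    apply Nat.log_lt_of_lt_pow (by omega)
    have : i < 2^(2^K) := lt_trans hi hm
    omega
  have hscale : F.τ w < i → 2^s ≤ i - F.τ w ∧ i - F.τ w < 2^(s+1) := by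
    intro h
    exact ⟨Nat.pow_log_le_self 2 (by omega), Nat.lt_pow_succ_log_self (by norm_num) _⟩
  -- reading the flags
  have hflag : ∀ k, k ≤ K → s < 2^K →
      (rd (two_pow_pos' (K+1)) (fun n : Fin (2^(K+1)) =>
        decide (F.Good w (K - Nat.log 2 n.1) (n.1 - 2^(Nat.log 2 n.1)))) (2^(K-k) + s / 2^k)) =
      decide (F.Good w k (s / 2^k)) := by
    intro k hk hsK'
    obtain ⟨h1, h2, h3⟩ := heap_index hk hsK'
    rw [rd_of_lt (two_pow_pos' (K+1))
      (fun n => decide (F.Good w (K - Nat.log 2 n) (n - 2^(Nat.log 2 n)))) h2]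
    simp only [h3]
    rw [show K - (K - k) = k by omega, Nat.add_sub_cancel_left]
  -- reading the cells of `w`
  have hcellw : ∀ k, k ≤ K → s < 2^K → F.Good w k (s / 2^k) → F.kmin w s = k → ∀ j < 2^(k-1),
      (rd (two_pow_pos' K) (fun s' : Fin (2^K) =>
        nm w (F.kmin w s'.1) (s'.1 / 2^(F.kmin w s'.1)) (s'.1 % 2^(F.kmin w s'.1 - 1)))
        ((s / 2^(k-1)) * 2^(k-1) + j)) = nm w k (s / 2^k) j := by
    intro k hk hsK' hg hkm j hj
    rw [rd_of_lt (two_pow_pos' K)
      (fun s' => nm w (F.kmin w s') (s' / 2^(F.kmin w s')) (s' % 2^(F.kmin w s' - 1)))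
      (base_lt hk hsK' hj)]
    obtain ⟨h1, h2, h3⟩ := F.kmin_child hg hkm hj
    simp only [h1, h2, h3]
  -- reading the cells of `i`
  have hcelli : ∀ t j, s < 2^K →
      rd (two_pow_pos' K) (fun s' : Fin (2^K) => P i t s'.1) (s - j) = P i t (s - j) := by
    intro t j hsK'
    exact rd_of_lt (two_pow_pos' K) (P i t) (by omega)
  constructor
  · rintro ⟨hlt, hact, k, hkK, hG, hG', t, hcells⟩
    have hsK' := hsK hlt
    rw [rd_of_lt (two_pow_pos' K) (fun s => decide (F.Act i s)) hsK', decide_eq_true_iff] at hact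
    rw [hflag k hkK hsK', decide_eq_true_iff] at hG
    have hG'' : ∀ k' < k, ¬ F.Good w k' (s / 2^k') := by
      intro k' hk'
      have := hG' k' hk'
      rw [hflag k' (by omega) hsK', decide_eq_false_iff_not] at this
      exact this
    have hkm : F.kmin w s = k := F.kmin_eq hG hG''
    obtain ⟨g, hg⟩ := F.exists_gap i s
    obtain ⟨u, hfu, hAt⟩ := (hf s hact).1 t
    obtain ⟨hgood, hkg, _⟩ := F.kmin_bound hi hAt hg
    set ku := F.kmin u s with hku
    have hPc : ∀ j < g, P i t (s - j) = F.cell nm i s u j := hP s g hact hg t u hfu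
    -- the two records agree where both are defined
    have hagree : ∀ j, j < g → j < 2^(k-1) →
        F.cell nm i s u j = (nm w k (s / 2^k) j, decide (j + 1 = 2^(k-1)), decide (k = 0),
          decide (F.τ w / 2^((s / 2^k + 1) * 2^k) = i / 2^((s / 2^k + 1) * 2^k))) := by
      intro j hj1 hj2
      rw [← hPc j hj1, ← hcelli t j hsK', hcells j hj2, hcellw k hkK hsK' hG hkm j hj2]
    have hposk : 0 < 2^(k-1) := by positivity
    have hposu : 0 < 2^(ku-1) := by positivity
    have hg1 : 1 ≤ g := hg.1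
    -- the lengths agree
    have hpow : 2^(ku-1) = 2^(k-1) := by
      rcases lt_trichotomy (2^(ku-1)) (2^(k-1)) with h | h | h
      · exfalso
        have h1 := hagree (2^(ku-1) - 1) (by omega) (by omega)
        simp only [Fam.cell, Prod.mk.injEq, ← hku] at h1
        have h2 := h1.2.1
        rw [show 2^(ku-1) - 1 + 1 = 2^(ku-1) by omega, decide_eq_decide] at h2
        have h3 := h2.mp rfl
        omega
      · exact h
      · exfalso
        have h1 := hagree (2^(k-1) - 1) (by omega) (by omega)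
        simp only [Fam.cell, Prod.mk.injEq, ← hku] at h1
        have h2 := h1.2.1
        rw [show 2^(k-1) - 1 + 1 = 2^(k-1) by omega, decide_eq_decide] at h2
        have h3 := h2.mpr rfl
        omega
    have h0 := hagree 0 (by omega) hposk
    simp only [Fam.cell, Prod.mk.injEq, ← hku] at h0
    obtain ⟨_, _, h03, h04⟩ := h0
    have hkk : ku = k := by
      have h1 : ku - 1 = k - 1 := Nat.pow_right_injective (le_refl 2) hpow
      have h2 : ku = 0 ↔ k = 0 := decide_eq_decide.mp h03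
      omega
    -- the blocks agree
    set T := (s / 2^k + 1) * 2^k with hT
    have hblock : F.τ u / 2^T = F.τ w / 2^T := by
      rw [decide_eq_decide, hkk, ← hT] at h04
      have hposT : 0 < 2^T := by positivity
      have hsT : 2^(s+1) ≤ 2^T := by
        apply Nat.pow_le_pow_right (by norm_num)
        rw [hT, mul_comm]
        exact Nat.lt_mul_div_succ _ (by positivity)
      have hw := hscale hlt
      have hu := hAt.2.2
      have hule := hAt.1.1
      have key : ∀ a, a ≤ i → i - a < 2^T → a / 2^T ≠ i / 2^T → a / 2^T = i / 2^T - 1 := by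
        intro a h1 h2 h3
        have h4 : a / 2^T ≤ i / 2^T := Nat.div_le_div_right h1
        have h5 : i / 2^T ≤ (a + 2^T) / 2^T := Nat.div_le_div_right (by omega)
        rw [Nat.add_div_right _ hposT] at h5
        generalize a / 2^T = A at h3 h4 h5 ⊢
        generalize i / 2^T = I at h3 h4 h5 ⊢
        omega
      by_cases hc : F.τ w / 2^T = i / 2^T
      · rw [h04.mpr hc, hc]
      · rw [key _ hule (by omega) (fun h => hc (h04.mp h)), key _ hlt.le (by omega) hc]
    have huw : u = w := by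
      apply hnm k (s / 2^k) u w
      · rw [← hkk]; exact hgood
      · exact hG
      · exact hblock
      · intro j hj
        have h1 := hagree j (by omega) hj
        simp only [Fam.cell, Prod.mk.injEq, ← hku] at h1
        have h2 := h1.1
        rw [hkk] at h2
        exact h2
    rw [← huw]
    exact hAt.1
  · intro hlate
    have hlt : F.τ w < i := (hlate.half hi).1
    have hsK' := hsK hlt
    have hw := hscale hlt
    have hAt : F.At i s w := ⟨hlate, hw.1, hw.2⟩
    have hact : F.Act i s := ⟨w, hAt⟩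
    obtain ⟨g, hg⟩ := F.exists_gap i s
    obtain ⟨hgood, hkg, hkK⟩ := F.kmin_bound hi hAt hg
    obtain ⟨t, ht⟩ := (hf s hact).2 w hAt
    refine ⟨hlt, ?_, F.kmin w s, hkK K hsK', ?_, ?_, t, ?_⟩
    · rw [rd_of_lt (two_pow_pos' K) (fun s => decide (F.Act i s)) hsK', decide_eq_true_iff]
      exact hact
    · rw [hflag _ (hkK K hsK') hsK', decide_eq_true_iff]
      exact hgood
    · intro k' hk'
      rw [hflag _ (by have := hkK K hsK'; omega) hsK', decide_eq_false_iff_not]
      exact F.not_good_of_lt_kmin hk'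
    · intro j hj
      rw [hcelli t j hsK', hP s g hact hg t w ht j (by omega),
        hcellw _ (hkK K hsK') hsK' hgood rfl j hj]
      rfl

end Pool.Agent.Helper49.NearChain
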