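import Mathlib
import Pool.Agent.Helper49.NearChainLabel

/-!
# Near-chain families: thresholds, reversal, and the complete labelling
-/

namespace Pool.Agent.Helper49.NearChain

open Finset

lemma c1_add {a : ℕ → Bool} {x y z : ℕ} (h1 : x ≤ y) (h2 : y ≤ z) :
    c1 a x y + c1 a y z = c1 a x z := by
  unfold c1
  rw [← Finset.card_union_of_disjoint]
  · congr 1
    ext t
    simp only [mem_union, mem_filter, mem_Ico]
    constructor
    · rintro (⟨⟨h3, h4⟩, h5⟩ | ⟨⟨h3, h4⟩, h5⟩)
      · exact ⟨⟨h3, by omega⟩, h5⟩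
      · exact ⟨⟨by omega, h4⟩, h5⟩
    · rintro ⟨⟨h3, h4⟩, h5⟩
      rcases Nat.lt_or_ge t y with h | h
      · exact Or.inl ⟨⟨h3, h⟩, h5⟩
      · exact Or.inr ⟨⟨h, h4⟩, h5⟩
  · rw [Finset.disjoint_left]
    intro t ht ht'
    rw [mem_filter, mem_Ico] at ht ht'
    omega

/-- a threshold minimising the number of exceptions -/
lemma exists_threshold (a : ℕ → Bool) (m : ℕ) : ∃ τ, τ ≤ m ∧
    (∀ j, τ ≤ j → j < m → c0 a τ (j+1) ≤ c1 a τ (j+1)) ∧
    (∀ j, j < τ → c1 a j τ ≤ c0 a j τ) := by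
  obtain ⟨τ, hτ, hmin⟩ := Finset.exists_min_image (range (m+1)) (fun τ => c1 a 0 τ + c0 a τ m)
    ⟨0, by simp⟩
  rw [mem_range] at hτ
  refine ⟨τ, by omega, ?_, ?_⟩
  · intro j h1 h2
    have h3 := hmin (j+1) (by rw [mem_range]; omega)
    have h4 := c1_add (a := a) (Nat.zero_le τ) (show τ ≤ j+1 by omega)
    have h5 := c1_add (a := a) (show τ ≤ j+1 by omega) (show j+1 ≤ m by omega)
    have h6 := c1_add_c0 a τ m
    have h7 := c1_add_c0 a (j+1) m
    have h8 := c1_add_c0 a τ (j+1)
    omega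
  · intro j h1
    have h3 := hmin j (by rw [mem_range]; omega)
    have h4 := c1_add (a := a) (Nat.zero_le j) (show j ≤ τ by omega)
    have h5 := c1_add (a := a) (show j ≤ τ by omega) (show τ ≤ m by omega)
    have h6 := c1_add_c0 a τ m
    have h7 := c1_add_c0 a j m
    have h8 := c1_add_c0 a j τ
    omega

/-- the reversed and complemented sequence -/
def rev (m : ℕ) (a : ℕ → Bool) (i : ℕ) : Bool := !(a (m - 1 - i))

lemma c1_rev {m : ℕ} {a : ℕ → Bool} {x y : ℕ} (hy : y ≤ m) :
    c1 (rev m a) x y = c0 a (m - y) (m - x) := by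
  unfold c1 c0
  apply Finset.card_bij (fun t _ => m - 1 - t)
  · intro t ht
    simp only [rev, mem_filter, mem_Ico, Bool.not_eq_true'] at ht ⊢
    exact ⟨by omega, ht.2⟩
  · intro t ht t' ht' h
    rw [mem_filter, mem_Ico] at ht ht'
    omega
  · intro t ht
    rw [mem_filter, mem_Ico] at ht
    refine ⟨m - 1 - t, ?_, by omega⟩
    simp only [rev, mem_filter, mem_Ico, Bool.not_eq_true']
    refine ⟨by omega, ?_⟩
    rw [show m - 1 - (m - 1 - t) = t by omega]
    exact ht.2

lemma c0_rev {m : ℕ} {a : ℕ → Bool} {x y : ℕ} (hy : y ≤ m) :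
    c0 (rev m a) x y = c1 a (m - y) (m - x) := by
  have h1 := c1_add_c0 (rev m a) x y
  have h2 := c1_add_c0 a (m - y) (m - x)
  have h3 := c1_rev (a := a) (x := x) hy
  omega

/-- the complete decoder -/
def AdjP (K : ℕ) (b : BLab K × BLab K) (w : WLab K × WLab K) : Prop :=
  (w.1.1.1 ≤ b.1.1.1 ∧ ¬ DecP K b.1 w.1) ∨ (b.1.1.1 < w.1.1.1 ∧ DecP K b.2 w.2)

theorem family_label {W : Type*} [Fintype W] (m : ℕ) (a : W → ℕ → Bool)
    (NC : ∀ w w', w ≠ w' → ∀ p q, p < q → q < m → a w p = true → a w' p = true →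
      a w q = false → a w' q = false → False)
    (K : ℕ) (hm : m < 2^(2^K)) :
    ∃ (β : ℕ → BLab K × BLab K) (ω : W → WLab K × WLab K),
      ∀ i < m, ∀ w, AdjP K (β i) (ω w) ↔ a w i = true := by
  have hth := fun w => exists_threshold (a w) m
  choose τ hτm hPM hSM using hth
  let F1 : Fam W := ⟨m, a, τ, NC, hPM⟩
  let F2 : Fam W :=
    { m := m
      a := fun w => rev m (a w)
      τ := fun w => m - τ w
      NC := by
        intro w w' hne p q hpq hqm h1 h2 h3 h4
        simp only [rev, Bool.not_eq_true', Bool.not_eq_false'] at h1 h2 h3 h4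
        exact NC w w' hne (m-1-q) (m-1-p) (by omega) (by omega) h3 h4 h1 h2
      PM := by
        intro w j h1 h2
        have h3 := hτm w
        rw [c1_rev (show j + 1 ≤ m by omega), c0_rev (show j + 1 ≤ m by omega),
          show m - (m - τ w) = τ w by omega]
        exact hSM w (m - (j+1)) (by omega) }
  obtain ⟨β1, ω1, hβ1, hω1, h1⟩ := late_label F1 K hm hτm
  obtain ⟨β2, ω2, hβ2, hω2, h2⟩ := late_label F2 K hm (fun w => Nat.sub_le _ _)
  refine ⟨fun i => (β1 i, β2 (m - 1 - i)), fun w => (ω1 w, ω2 w), ?_⟩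
  intro i hi w
  unfold AdjP
  simp only
  rw [hβ1 i hi, hω1 w, h1 i hi w, h2 (m-1-i) (by show m - 1 - i < m; omega) w]
  simp only [F1, F2, Fam.Late]
  have hτ := hτm w
  have e1 : m - τ w ≤ m - 1 - i ↔ i < τ w := by omega
  have e2 : rev m (a w) (m-1-i) = false ↔ a w i = true := by
    simp only [rev, Bool.not_eq_false']
    rw [show m - 1 - (m - 1 - i) = i by omega]
  rw [e1, e2]
  by_cases hc : τ w ≤ i
  · have hc' : ¬ i < τ w := by omega
    simp [hc, hc']
  · have hc' : i < τ w := by omega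
    simp [hc, hc']

/-- the type of all labels with parameter `K` -/
abbrev Lab (K : ℕ) : Type := (BLab K × BLab K) ⊕ (WLab K × WLab K)

lemma card_BLab (K : ℕ) : Fintype.card (BLab K) = 2^(77 * 2^K) := by
  simp only [BLab, Cell, Fintype.card_prod, Fintype.card_fun, Fintype.card_fin, Fintype.card_bool]
  have : (2:ℕ)^22 * (2 * (2 * 2)) = 2^25 := by norm_num
  rw [this, ← pow_mul, ← pow_mul, ← pow_add, ← pow_add]
  congr 1
  ring

lemma card_WLab (K : ℕ) : Fintype.card (WLab K) = 2^(25 * 2^K) := by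
  simp only [WLab, Cell, Fintype.card_prod, Fintype.card_fun, Fintype.card_fin, Fintype.card_bool]
  rw [← pow_mul, ← pow_add, ← pow_add]
  congr 1
  rw [pow_succ]
  ring

lemma card_Lab (K : ℕ) : Fintype.card (Lab K) ≤ 2^(155 * 2^K) := by
  have h1 : Fintype.card (Lab K) = 2^(154 * 2^K) + 2^(50 * 2^K) := by
    have hB : Fintype.card (BLab K × BLab K) = 2^(154 * 2^K) := by
      rw [Fintype.card_prod (BLab K) (BLab K), card_BLab, ← pow_add]
      congr 1
      ring
    have hW : Fintype.card (WLab K × WLab K) = 2^(50 * 2^K) := by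
      rw [Fintype.card_prod (WLab K) (WLab K), card_WLab, ← pow_add]
      congr 1
      ring
    rw [Fintype.card_sum, hB, hW]
  rw [h1]
  have hpos : 0 < 2^K := by positivity
  have h2 : 2^(50 * 2^K) ≤ 2^(154 * 2^K) := Nat.pow_le_pow_right (by norm_num) (by omega)
  calc 2^(154 * 2^K) + 2^(50 * 2^K) ≤ 2^(154 * 2^K) * 2 := by omega
    _ = 2^(154 * 2^K + 1) := by rw [pow_succ]
    _ ≤ 2^(155 * 2^K) := Nat.pow_le_pow_right (by norm_num) (by omega)

lemma exists_encoding : ∃ enc : ∀ K, Lab K → List Bool, (∀ K, Function.Injective (enc K)) ∧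
    ∀ K x, (enc K x).length = 155 * 2^K := by
  have key : ∀ K, ∃ e : Lab K → List Bool, Function.Injective e ∧ ∀ x, (e x).length = 155 * 2^K := by
    intro K
    have hc : Fintype.card (Lab K) ≤ Fintype.card (List.Vector Bool (155 * 2^K)) := by
      rw [card_vector, Fintype.card_bool]
      exact card_Lab K
    obtain ⟨e⟩ := Function.Embedding.nonempty_of_card_le hc
    exact ⟨fun x => (e x).1, fun x y h => e.injective (Subtype.ext h), fun x => (e x).2⟩
  choose e he using key
  exact ⟨e, fun K => (he K).1, fun K => (he K).2⟩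

/-- decoding of labels (both orders) -/
def LabP (K : ℕ) : Lab K → Lab K → Prop
  | Sum.inl b, Sum.inr w => AdjP K b w
  | Sum.inr w, Sum.inl b => AdjP K b w
  | _, _ => False

/-- One decoder for all parameters. -/
theorem exists_decoder : ∃ (enc : ∀ K, Lab K → List Bool) (f : List Bool → List Bool → Bool),
    (∀ K x, (enc K x).length = 155 * 2^K) ∧
    ∀ K (x y : Lab K), f (enc K x) (enc K y) = true ↔ LabP K x y := by
  classical
  obtain ⟨enc, hinj, hlen⟩ := exists_encoding
  refine ⟨enc, fun u v => decide (∃ K, ∃ x y : Lab K, enc K x = u ∧ enc K y = v ∧ LabP K x y),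
    hlen, ?_⟩
  intro K x y
  rw [decide_eq_true_iff]
  constructor
  · rintro ⟨K', x', y', hx, hy, h⟩
    have hK : K' = K := by
      have h1 := hlen K' x'
      rw [hx, hlen K x] at h1
      have h2 : 2^K = 2^K' := by omega
      exact (Nat.pow_right_injective (le_refl 2) h2).symm
    subst hK
    rw [← hinj K' hx, ← hinj K' hy]
    exact h
  · intro h
    exact ⟨K, x, y, rfl, rfl, h⟩

/-- a good parameter for `n` -/
lemma exists_parameter (n : ℕ) (hn : 2 ≤ n) :
    ∃ K, n < 2^(2^K) ∧ ((155 * 2^K : ℕ) : ℝ) ≤ 310 * Real.logb 2 n := by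
  classical
  have hex : ∃ K, n < 2^(2^K) := by
    refine ⟨n, ?_⟩
    calc n < 2^n := Nat.lt_two_pow_self
      _ ≤ 2^(2^n) := Nat.pow_le_pow_right (by norm_num) Nat.lt_two_pow_self.le
  refine ⟨Nat.find hex, Nat.find_spec hex, ?_⟩
  set K := Nat.find hex with hK
  have hspec : n < 2^(2^K) := Nat.find_spec hex
  rcases Nat.eq_zero_or_pos K with h0 | h0
  · rw [h0] at hspec
    norm_num at hspec
    omega
  · have h1 : ¬ n < 2^(2^(K-1)) := Nat.find_min hex (by omega)
    have h2 : ((2:ℝ)^(2^(K-1) : ℕ)) ≤ n := by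
      exact_mod_cast (not_lt.mp h1)
    have h3 : ((2^(K-1) : ℕ) : ℝ) ≤ Real.logb 2 n := by
      rw [Real.le_logb_iff_rpow_le (by norm_num) (by exact_mod_cast (by omega : 0 < n)),
        Real.rpow_natCast]
      exact h2
    have h4 : 2^K = 2 * 2^(K-1) := by
      rw [← pow_succ']; congr 1; omega
    rw [h4]
    push_cast at h3 ⊢
    linarith

end Pool.Agent.Helper49.NearChain
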