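import Pool.Agent.Helper49.SymToricDefs

/-! # Theory of the toric ideal of `S_n` -/

open MvPolynomial
open scoped MonomialOrder

namespace Pool.Agent.Helper49.SymToric

variable {n : ℕ} {k : Type*} [Field k]

/-- The exponent vector of the image of a variable. -/
noncomputable def psi (M : LatticePoint n) : ((Fin n × Fin n) ⊕ Unit) →₀ ℕ :=
  Finsupp.equivFunOnFinite.symm (Sum.elim (fun p => M.toMatrix p.1 p.2) (fun _ => 1))

/-- The exponent vector of the image of a monomial. -/
noncomputable def phi : (LatticePoint n →₀ ℕ) →+ (((Fin n × Fin n) ⊕ Unit) →₀ ℕ) :=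
  Finsupp.liftAddHom fun M => (AddMonoidHom.flip (smulAddHom ℕ _)) (psi M)

theorem phi_single (M : LatticePoint n) (e : ℕ) : phi (Finsupp.single M e) = e • psi M := by
  simp [phi]

theorem toricMap_X (M : LatticePoint n) :
    toricMap k n (X M) = monomial (psi M) 1 := by
  classical
  rw [toricMap, aeval_X]
  rw [monomial_eq, map_one, one_mul, Finsupp.prod_fintype _ _ (by simp), Fintype.prod_sum_type,
    Fintype.prod_prod_type]
  simp [psi]

theorem toricMap_monomial (a : LatticePoint n →₀ ℕ) (c : k) :
    toricMap k n (monomial a c) = monomial (phi a) c := by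
  classical
  induction a using Finsupp.induction_linear generalizing c with
  | zero =>
    simp only [map_zero]
    rw [← C_apply, ← C_apply, toricMap, aeval_C]
    rfl
  | add f g hf hg =>
    have : (monomial (f + g) c : MvPolynomial (LatticePoint n) k) = monomial f c * monomial g 1 := by
      rw [monomial_mul, mul_one]
    rw [this, map_mul, hf, hg, monomial_mul, mul_one, map_add]
  | single M e =>
    have : (monomial (Finsupp.single M e) c : MvPolynomial (LatticePoint n) k) = C c * X M ^ e := by
      rw [X_pow_eq_monomial, C_mul_monomial, mul_one]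
    rw [this, map_mul, map_pow, toricMap_X, phi_single, monomial_pow, one_pow]
    have hC : toricMap k n (C c) = C c := by rw [toricMap, aeval_C]; rfl
    rw [hC, C_mul_monomial, mul_one]

theorem phi_inl (a : LatticePoint n →₀ ℕ) (i j : Fin n) :
    phi a (Sum.inl (i, j)) = matrixOf a i j := by
  induction a using Finsupp.induction_linear with
  | zero => simp [matrixOf]
  | add f g hf hg =>
    rw [map_add, Finsupp.add_apply, hf, hg, matrixOf, matrixOf, matrixOf,
      Finsupp.sum_add_index' (by simp) (by intros; rw [add_smul])]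
    rfl
  | single M e =>
    rw [phi_single, matrixOf, Finsupp.sum_single_index (by simp)]
    simp [psi]

theorem phi_inr (a : LatticePoint n →₀ ℕ) : phi a (Sum.inr ()) = a.degree := by
  induction a using Finsupp.induction_linear with
  | zero => simp
  | add f g hf hg => rw [map_add, map_add, Finsupp.add_apply, hf, hg]
  | single M e =>
    rw [phi_single, Finsupp.degree_single]
    simp [psi]

theorem phi_eq_iff {a b : LatticePoint n →₀ ℕ} :
    phi a = phi b ↔ matrixOf a = matrixOf b ∧ a.degree = b.degree := by
  constructor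
  · intro h
    refine ⟨?_, by rw [← phi_inr, ← phi_inr, h]⟩
    ext i j
    rw [← phi_inl, ← phi_inl, h]
  · rintro ⟨h1, h2⟩
    ext x
    rcases x with ⟨i, j⟩ | ⟨⟩
    · rw [phi_inl, phi_inl, h1]
    · rw [phi_inr, phi_inr, h2]

theorem matrixOf_add (a b : LatticePoint n →₀ ℕ) : matrixOf (a + b) = matrixOf a + matrixOf b := by
  rw [matrixOf, matrixOf, matrixOf, Finsupp.sum_add_index' (by simp) (by intros; rw [add_smul])]

theorem matrixOf_single (M : LatticePoint n) (e : ℕ) :
    matrixOf (Finsupp.single M e) = e • M.toMatrix := by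
  rw [matrixOf, Finsupp.sum_single_index (by simp)]

open Classical in
theorem coeff_toricMap (f : MvPolynomial (LatticePoint n) k) (e : ((Fin n × Fin n) ⊕ Unit) →₀ ℕ) :
    coeff e (toricMap k n f) = ∑ a ∈ f.support, if phi a = e then coeff a f else 0 := by
  conv_lhs => rw [f.as_sum]
  rw [map_sum, coeff_sum]
  refine Finset.sum_congr rfl fun a _ => ?_
  rw [toricMap_monomial, coeff_monomial]

theorem mem_toricIdeal {f : MvPolynomial (LatticePoint n) k} :
    f ∈ toricIdeal k n ↔ toricMap k n f = 0 := by
  rw [toricIdeal, RingHom.mem_ker]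

theorem binomial_mem {a b : LatticePoint n →₀ ℕ} (h : phi a = phi b) :
    (monomial a 1 - monomial b 1 : MvPolynomial (LatticePoint n) k) ∈ toricIdeal k n := by
  rw [mem_toricIdeal, map_sub, toricMap_monomial, toricMap_monomial, h, sub_self]

section order

variable (m : MonomialOrder (LatticePoint n))

/-- The monomial with exponent vector `w` is the smallest one in its fibre. -/
def Standard (w : LatticePoint n →₀ ℕ) : Prop := ∀ b, phi b = phi w → ¬ b ≺[m] w

variable {m}

theorem not_standard_degree {f : MvPolynomial (LatticePoint n) k} (hf : f ∈ toricIdeal k n)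
    (h0 : f ≠ 0) : ¬ Standard m (m.degree f) := by
  classical
  intro hs
  have h := coeff_toricMap f (phi (m.degree f))
  rw [mem_toricIdeal.1 hf, coeff_zero, Finset.sum_eq_single_of_mem (m.degree f)
    (m.degree_mem_support h0)] at h
  · rw [if_pos rfl] at h
    exact (m.coeff_degree_ne_zero_iff.2 h0) h.symm
  · intro b hb hne
    rw [if_neg]
    intro hphi
    refine hs b hphi (lt_of_le_of_ne (m.le_degree hb) ?_)
    intro he
    exact hne (m.toSyn.injective he)

/-- The smallest monomial of a fibre. -/
theorem exists_normalForm (u : LatticePoint n →₀ ℕ) :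
    ∃ v, phi v = phi u ∧ Standard m v ∧ v ≼[m] u := by
  obtain ⟨s, hs, hmin⟩ := WellFounded.has_min (wellFounded_lt (α := m.syn))
    {s | phi (m.toSyn.symm s) = phi u} ⟨m.toSyn u, by simp⟩
  refine ⟨m.toSyn.symm s, hs, ?_, ?_⟩
  · intro b hb hlt
    refine hmin (m.toSyn b) ?_ ?_
    · simp only [Set.mem_ofPred_eq, AddEquiv.symm_apply_apply]
      rw [hb]; exact hs
    · simpa using hlt
  · have := hmin (m.toSyn u) (by simp)
    simpa using this

variable (m) in
/-- The smallest monomial in the fibre of `u`. -/
noncomputable def nf (u : LatticePoint n →₀ ℕ) : LatticePoint n →₀ ℕ :=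
  (exists_normalForm (m := m) u).choose

theorem phi_nf (u : LatticePoint n →₀ ℕ) : phi (nf m u) = phi u :=
  (exists_normalForm (m := m) u).choose_spec.1

theorem standard_nf (u : LatticePoint n →₀ ℕ) : Standard m (nf m u) :=
  (exists_normalForm (m := m) u).choose_spec.2.1

theorem nf_le (u : LatticePoint n →₀ ℕ) : nf m u ≼[m] u :=
  (exists_normalForm (m := m) u).choose_spec.2.2

theorem nf_lt {u : LatticePoint n →₀ ℕ} (hu : ¬ Standard m u) : nf m u ≺[m] u := by
  refine lt_of_le_of_ne (nf_le u) fun h => hu ?_
  have := m.toSyn.injective h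
  rw [← this]
  exact standard_nf u

theorem Standard.mono {w u : LatticePoint n →₀ ℕ} (hu : Standard m u) (h : w ≤ u) :
    Standard m w := by
  intro b hb hlt
  obtain ⟨c, rfl⟩ := exists_add_of_le h
  refine hu (b + c) (by rw [map_add, map_add, hb]) ?_
  rw [map_add, map_add]
  exact (add_lt_add_iff_right _).2 hlt

variable (k) in
/-- The binomial with leading monomial `u`. -/
noncomputable def binom (m : MonomialOrder (LatticePoint n)) (u : LatticePoint n →₀ ℕ) :
    MvPolynomial (LatticePoint n) k :=
  monomial u 1 - monomial (nf m u) 1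

theorem binom_mem (u : LatticePoint n →₀ ℕ) : binom k m u ∈ toricIdeal k n :=
  binomial_mem (phi_nf u).symm

theorem degree_binom {u : LatticePoint n →₀ ℕ} (hu : ¬ Standard m u) :
    m.degree (binom k m u) = u := by
  classical
  rw [binom, sub_eq_add_neg, ← map_neg, m.degree_add_of_lt, m.degree_monomial, if_neg one_ne_zero]
  rw [m.degree_monomial, m.degree_monomial, if_neg (neg_ne_zero.2 one_ne_zero), if_neg one_ne_zero]
  exact nf_lt hu

theorem nf_ne {u : LatticePoint n →₀ ℕ} (hu : ¬ Standard m u) : nf m u ≠ u := by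
  intro h
  have := nf_lt hu
  rw [h] at this
  exact lt_irrefl _ this

theorem monic_binom {u : LatticePoint n →₀ ℕ} (hu : ¬ Standard m u) :
    m.Monic (binom k m u) := by
  classical
  rw [MonomialOrder.Monic, MonomialOrder.leadingCoeff, degree_binom hu, binom, coeff_sub,
    coeff_monomial, coeff_monomial, if_pos rfl, if_neg (nf_ne hu), sub_zero]

theorem binom_ne_zero {u : LatticePoint n →₀ ℕ} (hu : ¬ Standard m u) : binom k m u ≠ 0 :=
  (monic_binom hu).ne_zero

theorem support_binom {u c : LatticePoint n →₀ ℕ} (hc : c ∈ (binom k m u).support) :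
    c = u ∨ c = nf m u := by
  classical
  rw [binom, mem_support_iff, coeff_sub, coeff_monomial, coeff_monomial] at hc
  by_contra! h
  rw [if_neg (fun e => h.1 e.symm), if_neg (fun e => h.2 e.symm)] at hc
  simp at hc

/-- The minimal non-standard monomials. -/
def MinNonStandard (m : MonomialOrder (LatticePoint n)) (u : LatticePoint n →₀ ℕ) : Prop :=
  ¬ Standard m u ∧ ∀ w ≤ u, ¬ Standard m w → w = u

theorem exists_minNonStandard {w : LatticePoint n →₀ ℕ} (hw : ¬ Standard m w) :
    ∃ u ≤ w, MinNonStandard m u := by
  obtain ⟨u, ⟨hu, hul⟩, hmin⟩ := WellFounded.has_min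
    (wellFounded_lt (α := LatticePoint n →₀ ℕ)) {u | ¬ Standard m u ∧ u ≤ w} ⟨w, hw, le_rfl⟩
  refine ⟨u, hul, hu, fun v hv hnv => ?_⟩
  by_contra hne
  exact hmin v ⟨hnv, hv.trans hul⟩ (lt_of_le_of_ne hv hne)

variable (k) in
/-- The reduced Groebner basis. -/
def basis (m : MonomialOrder (LatticePoint n)) : Set (MvPolynomial (LatticePoint n) k) :=
  {g | ∃ u, MinNonStandard m u ∧ g = binom k m u}

theorem isReducedGroebnerBasis_basis :
    IsReducedGroebnerBasis m (toricIdeal k n) (basis k m) where
  finite := by
    have hfin : {u : LatticePoint n →₀ ℕ | MinNonStandard m u}.Finite := by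
      apply WellQuasiOrderedLE.finite_of_isAntichain
      intro u hu v hv hne hle
      exact hne (hv.2 u hle hu.1)
    refine (hfin.image (binom k m)).subset ?_
    rintro g ⟨u, hu, rfl⟩
    exact ⟨u, hu, rfl⟩
  mem := by
    rintro g ⟨u, hu, rfl⟩
    exact binom_mem u
  monic := by
    rintro g ⟨u, hu, rfl⟩
    exact monic_binom hu.1
  exists_degree_le := by
    intro f hf h0
    obtain ⟨u, hu, hmin⟩ := exists_minNonStandard (not_standard_degree (m := m) hf h0)
    exact ⟨_, ⟨u, hmin, rfl⟩, by rwa [degree_binom hmin.1]⟩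
  reduced := by
    rintro g ⟨u, hu, rfl⟩ h ⟨v, hv, rfl⟩ hne c hc hle
    rw [degree_binom hv.1] at hle
    rcases support_binom hc with rfl | rfl
    · exact hne (by rw [hu.2 v hle hv.1])
    · exact hv.1 ((standard_nf u).mono hle)

/-- Every reduced Groebner basis contains the binomials of the minimal non-standard monomials. -/
theorem binom_mem_of_isReducedGroebnerBasis {G : Set (MvPolynomial (LatticePoint n) k)}
    (hG : IsReducedGroebnerBasis m (toricIdeal k n) G) {u : LatticePoint n →₀ ℕ}
    (hu : MinNonStandard m u) : binom k m u ∈ G := by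
  classical
  obtain ⟨g, hg, hle⟩ := hG.exists_degree_le _ (binom_mem (k := k) (m := m) u)
    (binom_ne_zero hu.1)
  rw [degree_binom hu.1] at hle
  have hg0 : g ≠ 0 := (hG.monic g hg).ne_zero
  have hdeg : m.degree g = u := hu.2 _ hle (not_standard_degree (hG.mem g hg) hg0)
  suffices h : g - binom k m u = 0 by
    rw [sub_eq_zero] at h
    rwa [← h]
  by_contra hne
  have hmem : g - binom k m u ∈ toricIdeal k n := sub_mem (hG.mem g hg) (binom_mem u)
  have hns := not_standard_degree (m := m) hmem hne
  set w := m.degree (g - binom k m u) with hw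
  have hwsup : w ∈ (g - binom k m u).support := m.degree_mem_support hne
  have hcoef : coeff w (g - binom k m u) ≠ 0 := mem_support_iff.1 hwsup
  rw [coeff_sub] at hcoef
  have hwu : w ≠ u := by
    intro h
    rw [h] at hcoef
    have h1 : coeff u g = 1 := by
      have := (hG.monic g hg).coeff_degree
      rwa [hdeg] at this
    have h2 : coeff u (binom k m u) = 1 := by
      have := (monic_binom (k := k) hu.1).coeff_degree
      rwa [degree_binom hu.1] at this
    rw [h1, h2, sub_self] at hcoef
    exact hcoef rfl
  have hwn : w ≠ nf m u := by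
    intro h
    rw [h] at hns
    exact hns (standard_nf u)
  have hb : coeff w (binom k m u) = 0 := by
    by_contra hb
    rcases support_binom (mem_support_iff.2 hb) with h | h
    · exact hwu h
    · exact hwn h
  rw [hb, sub_zero] at hcoef
  have hwg : w ∈ g.support := mem_support_iff.2 hcoef
  obtain ⟨h, hh, hlew⟩ := hG.exists_degree_le _ (binom_mem (k := k) (m := m) w)
    (binom_ne_zero hns)
  rw [degree_binom hns] at hlew
  by_cases hhg : h = g
  · subst hhg
    rw [hdeg] at hlew
    have h1 : w ≼[m] u := by
      have := m.le_degree hwg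
      rwa [hdeg] at this
    have h2 : u ≼[m] w := m.toSyn_monotone hlew
    exact hwu (m.toSyn.injective (le_antisymm h1 h2))
  · exact hG.reduced g hg h hh hhg w hwg hlew

theorem eq_basis {G : Set (MvPolynomial (LatticePoint n) k)}
    (hG : IsReducedGroebnerBasis m (toricIdeal k n) G) : G = basis k m := by
  ext g
  constructor
  · intro hg
    have hg0 : g ≠ 0 := (hG.monic g hg).ne_zero
    obtain ⟨u, hu, hmin⟩ := exists_minNonStandard (not_standard_degree (m := m) (hG.mem g hg) hg0)
    have hb := binom_mem_of_isReducedGroebnerBasis hG hmin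
    by_cases h : binom k m u = g
    · exact ⟨u, hmin, h.symm⟩
    · exfalso
      refine hG.reduced g hg _ hb h (m.degree g) (m.degree_mem_support hg0) ?_
      rwa [degree_binom hmin.1]
  · rintro ⟨u, hu, rfl⟩
    exact binom_mem_of_isReducedGroebnerBasis hG hu

theorem existsUnique_basis :
    ∃! G : Set (MvPolynomial (LatticePoint n) k), IsReducedGroebnerBasis m (toricIdeal k n) G :=
  ⟨basis k m, isReducedGroebnerBasis_basis, fun _ h => eq_basis h⟩

end order

theorem LatticePoint.eq_of_le {K M : LatticePoint n} (h : ∀ i j, K.toMatrix i j ≤ M.toMatrix i j) :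
    K = M := by
  ext i j
  have h1 : ∑ j, K.toMatrix i j = ∑ j, M.toMatrix i j := by rw [K.rowSum, M.rowSum]
  exact (Finset.sum_eq_sum_iff_of_le (fun j _ => h i j)).1 h1 j (Finset.mem_univ j)

theorem standard_zero {m : MonomialOrder (LatticePoint n)} :
    Standard m (0 : LatticePoint n →₀ ℕ) := by
  intro b _ hlt
  rw [map_zero] at hlt
  exact absurd hlt (not_lt.2 (m.zero_le _))

/-- The monomial of degree three with variables `M₁, M₂, M₃`. -/
noncomputable def cubic (M₁ M₂ M₃ : LatticePoint n) : LatticePoint n →₀ ℕ :=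
  Finsupp.single M₁ 1 + Finsupp.single M₂ 1 + Finsupp.single M₃ 1

theorem degree_cubic (M₁ M₂ M₃ : LatticePoint n) : (cubic M₁ M₂ M₃).degree = 3 := by
  simp [cubic]

theorem matrixOf_cubic (M₁ M₂ M₃ : LatticePoint n) :
    matrixOf (cubic M₁ M₂ M₃) = M₁.toMatrix + M₂.toMatrix + M₃.toMatrix := by
  simp [cubic, matrixOf_add, matrixOf_single]

theorem mem_support_cubic {M₁ M₂ M₃ L : LatticePoint n} :
    L ∈ (cubic M₁ M₂ M₃).support ↔ L = M₁ ∨ L = M₂ ∨ L = M₃ := by
  classical
  rw [Finsupp.mem_support_iff, cubic, Finsupp.add_apply, Finsupp.add_apply, Finsupp.single_apply,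
    Finsupp.single_apply, Finsupp.single_apply]
  by_cases h1 : L = M₁
  · simp [h1]
  by_cases h2 : L = M₂
  · simp [h2]
  by_cases h3 : L = M₃
  · simp [h3]
  simp [h1, h2, h3, Ne.symm (h1 : L ≠ M₁), Ne.symm (h2 : L ≠ M₂), Ne.symm (h3 : L ≠ M₃)]

/-! ### The degree reverse lexicographic order -/

section grevlex

variable [LinearOrder (LatticePoint n)]

theorem grevlex_lt_iff {a b : LatticePoint n →₀ ℕ} :
    a ≺[grevlex (LatticePoint n)] b ↔
      a.degree < b.degree ∨ (a.degree = b.degree ∧ toLex b < toLex a) :=
  toGrevLex_lt_iff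

/-- A monomial containing a variable smaller than all the variables of `u` is smaller than `u`
in the degree reverse lexicographic order, if it has the same degree. -/
theorem grevlex_lt_of_small {b u : LatticePoint n →₀ ℕ} (h : b.degree = u.degree)
    (K : LatticePoint n) (hK : K ∈ b.support) (hu : ∀ M ∈ u.support, K < M) :
    b ≺[grevlex (LatticePoint n)] u := by
  rw [grevlex_lt_iff]
  right
  refine ⟨h, ?_⟩
  set L := b.support.min' ⟨K, hK⟩ with hL
  have hLb : L ∈ b.support := Finset.min'_mem _ _
  have hLK : L ≤ K := Finset.min'_le _ _ hK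
  have hLu : L ∉ u.support := fun hc => absurd (hu L hc) (not_lt.2 hLK)
  have hlt : ∃ i, (∀ j < i, u j = b j) ∧ u i < b i := by
    refine ⟨L, fun j hj => ?_, ?_⟩
    · have h1 : j ∉ u.support := fun hc => absurd (hu j hc) (not_lt.2 (hj.le.trans hLK))
      have h2 : j ∉ b.support := fun hc => absurd (Finset.min'_le _ _ hc) (not_le.2 hj)
      rw [Finsupp.notMem_support_iff.1 h1, Finsupp.notMem_support_iff.1 h2]
    · rw [Finsupp.notMem_support_iff.1 hLu]
      exact Nat.pos_of_ne_zero (Finsupp.mem_support_iff.1 hLb)
  exact hlt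

theorem MinNonStandard.exists_small {w : LatticePoint n →₀ ℕ}
    (hw : MinNonStandard (grevlex (LatticePoint n)) w) :
    ∃ K : LatticePoint n, (∀ i j, K.toMatrix i j ≤ matrixOf w i j) ∧ ∀ M ∈ w.support, K < M := by
  classical
  obtain ⟨h1, h2⟩ := hw
  rw [Standard] at h1
  push Not at h1
  obtain ⟨b, hb, hlt⟩ := h1
  have hphi := phi_eq_iff.1 hb
  -- the supports are disjoint
  have hdisj : ∀ M ∈ w.support, M ∉ b.support := by
    intro M hM hMb
    have hwM : Finsupp.single M 1 ≤ w := by
      rw [Finsupp.single_le_iff]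
      exact Nat.one_le_iff_ne_zero.2 (Finsupp.mem_support_iff.1 hM)
    have hbM : Finsupp.single M 1 ≤ b := by
      rw [Finsupp.single_le_iff]
      exact Nat.one_le_iff_ne_zero.2 (Finsupp.mem_support_iff.1 hMb)
    obtain ⟨w', rfl⟩ := exists_add_of_le hwM
    obtain ⟨b', rfl⟩ := exists_add_of_le hbM
    have hns : ¬ Standard (grevlex (LatticePoint n)) w' := by
      intro hs
      refine hs b' ?_ ?_
      · rw [map_add, map_add] at hb
        exact add_left_cancel hb
      · rw [map_add, map_add] at hlt
        exact (add_lt_add_iff_left _).1 hlt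
    have := h2 w' le_add_self hns
    have h3 := congrArg (fun f => f M) this
    simp at h3
  rw [grevlex_lt_iff] at hlt
  rcases hlt with hlt | ⟨-, hlt⟩
  · exact absurd hphi.2 hlt.ne
  have hex : ∃ i, (∀ j < i, w j = b j) ∧ w i < b i := hlt
  obtain ⟨i, hi1, hi2⟩ := hex
  have hib : i ∈ b.support := Finsupp.mem_support_iff.2 (by omega)
  refine ⟨i, fun x y => ?_, fun M hM => ?_⟩
  · rw [← hphi.1]
    have hle : Finsupp.single i 1 ≤ b := by
      rw [Finsupp.single_le_iff]
      exact Nat.one_le_iff_ne_zero.2 (Finsupp.mem_support_iff.1 hib)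
    obtain ⟨b', rfl⟩ := exists_add_of_le hle
    rw [matrixOf_add, matrixOf_single, one_smul, Matrix.add_apply]
    exact Nat.le_add_right _ _
  · have hMb := hdisj M hM
    rcases lt_trichotomy i M with h | h | h
    · exact h
    · exact absurd (h ▸ hib) hMb
    · have := hi1 M h
      rw [Finsupp.notMem_support_iff.1 hMb] at this
      exact absurd this (Finsupp.mem_support_iff.1 hM)

/-- A criterion for a monomial of degree two to be standard. -/
theorem standard_pair {M N : LatticePoint n}
    (h : ∀ K : LatticePoint n, (∀ i j, K.toMatrix i j ≤ M.toMatrix i j + N.toMatrix i j) →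
      K < M → ¬ K < N) :
    Standard (grevlex (LatticePoint n)) (Finsupp.single M 1 + Finsupp.single N 1) := by
  classical
  by_contra hns
  obtain ⟨u, hu, hmin⟩ := exists_minNonStandard hns
  obtain ⟨K, hK1, hK2⟩ := hmin.exists_small
  have hle : ∀ i j, matrixOf u i j ≤ M.toMatrix i j + N.toMatrix i j := by
    intro i j
    obtain ⟨v, hv⟩ := exists_add_of_le hu
    have := congrFun (congrFun (congrArg matrixOf hv) i) j
    rw [matrixOf_add, matrixOf_add, matrixOf_single, matrixOf_single, one_smul, one_smul,
      Matrix.add_apply, Matrix.add_apply] at this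
    omega
  by_cases hM : M ∈ u.support
  · by_cases hN : N ∈ u.support
    · exact h K (fun i j => (hK1 i j).trans (hle i j)) (hK2 M hM) (hK2 N hN)
    · -- `u = M`
      have hu' : u ≤ Finsupp.single M 1 := by
        intro L
        have h1 := hu L
        rw [Finsupp.add_apply] at h1
        by_cases hL : L = N
        · subst hL
          rw [Finsupp.notMem_support_iff.1 hN]
          exact Nat.zero_le _
        · rw [Finsupp.single_apply (a := N), if_neg (fun e => hL e.symm)] at h1
          exact h1
      obtain ⟨v, hv⟩ := exists_add_of_le hu'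
      have hKM : K = M := LatticePoint.eq_of_le fun i j => by
        have := congrFun (congrFun (congrArg matrixOf hv) i) j
        rw [matrixOf_add, matrixOf_single, one_smul, Matrix.add_apply] at this
        have := hK1 i j
        omega
      exact absurd (hK2 M hM) (by rw [hKM]; exact lt_irrefl _)
  · by_cases hN : N ∈ u.support
    · have hu' : u ≤ Finsupp.single N 1 := by
        intro L
        have h1 := hu L
        rw [Finsupp.add_apply] at h1
        by_cases hL : L = M
        · subst hL
          rw [Finsupp.notMem_support_iff.1 hM]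
          exact Nat.zero_le _
        · rw [Finsupp.single_apply (a := M), if_neg (fun e => hL e.symm)] at h1
          simpa using h1
      obtain ⟨v, hv⟩ := exists_add_of_le hu'
      have hKN : K = N := LatticePoint.eq_of_le fun i j => by
        have := congrFun (congrFun (congrArg matrixOf hv) i) j
        rw [matrixOf_add, matrixOf_single, one_smul, Matrix.add_apply] at this
        have := hK1 i j
        omega
      exact absurd (hK2 N hN) (by rw [hKN]; exact lt_irrefl _)
    · have hu0 : u = 0 := by
        ext L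
        have h1 := hu L
        rw [Finsupp.add_apply] at h1
        by_cases hLM : L = M
        · subst hLM
          rw [Finsupp.notMem_support_iff.1 hM]; rfl
        by_cases hLN : L = N
        · subst hLN
          rw [Finsupp.notMem_support_iff.1 hN]; rfl
        rw [Finsupp.single_apply, if_neg (fun e => hLM e.symm), Finsupp.single_apply,
          if_neg (fun e => hLN e.symm)] at h1
        simpa using h1
      rw [hu0] at hmin
      exact hmin.1 standard_zero

/-- A criterion for a cubic monomial to be a minimal non-standard monomial. -/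
theorem minNonStandard_cubic {M₁ M₂ M₃ N₁ N₂ N₃ : LatticePoint n}
    (hsum : M₁.toMatrix + M₂.toMatrix + M₃.toMatrix = N₁.toMatrix + N₂.toMatrix + N₃.toMatrix)
    (h1 : N₁ < M₁) (h2 : N₁ < M₂) (h3 : N₁ < M₃)
    (h12 : ∀ K : LatticePoint n, (∀ i j, K.toMatrix i j ≤ M₁.toMatrix i j + M₂.toMatrix i j) →
      K < M₁ → ¬ K < M₂)
    (h13 : ∀ K : LatticePoint n, (∀ i j, K.toMatrix i j ≤ M₁.toMatrix i j + M₃.toMatrix i j) →
      K < M₁ → ¬ K < M₃)
    (h23 : ∀ K : LatticePoint n, (∀ i j, K.toMatrix i j ≤ M₂.toMatrix i j + M₃.toMatrix i j) →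
      K < M₂ → ¬ K < M₃) :
    MinNonStandard (grevlex (LatticePoint n)) (cubic M₁ M₂ M₃) := by
  classical
  constructor
  · intro hs
    refine hs (cubic N₁ N₂ N₃) ?_ ?_
    · rw [phi_eq_iff, matrixOf_cubic, matrixOf_cubic, degree_cubic, degree_cubic]
      exact ⟨hsum.symm, rfl⟩
    · refine grevlex_lt_of_small (by rw [degree_cubic, degree_cubic]) N₁
        (mem_support_cubic.2 (Or.inl rfl)) fun M hM => ?_
      rcases mem_support_cubic.1 hM with rfl | rfl | rfl
      · exact h1
      · exact h2
      · exact h3
  · intro w hw hns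
    by_contra hne
    obtain ⟨L, hL⟩ : ∃ L, w L < cubic M₁ M₂ M₃ L := by
      by_contra hcon
      push Not at hcon
      exact hne (le_antisymm hw hcon)
    have hLs : L ∈ (cubic M₁ M₂ M₃).support := Finsupp.mem_support_iff.2 (by omega)
    have key : ∀ v : LatticePoint n →₀ ℕ, cubic M₁ M₂ M₃ = v + Finsupp.single L 1 → w ≤ v := by
      intro v hv x
      have hx := hw x
      rw [hv, Finsupp.add_apply] at hx
      rw [hv, Finsupp.add_apply] at hL
      by_cases hxL : x = L
      · subst hxL
        rw [Finsupp.single_eq_same] at hL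
        omega
      · rw [Finsupp.single_apply, if_neg (fun e => hxL e.symm)] at hx
        exact hx
    rcases mem_support_cubic.1 hLs with rfl | rfl | rfl
    · exact hns ((standard_pair h23).mono (key _ (by rw [cubic]; abel)))
    · exact hns ((standard_pair h13).mono (key _ (by rw [cubic]; abel)))
    · exact hns ((standard_pair h12).mono (key _ (by rw [cubic])))

/-- The conclusion for the reduced Groebner basis. -/
theorem exists_mem_of_minNonStandard {G : Set (MvPolynomial (LatticePoint n) k)}
    (hG : IsReducedGroebnerBasis (grevlex (LatticePoint n)) (toricIdeal k n) G)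
    {u : LatticePoint n →₀ ℕ} (hu : MinNonStandard (grevlex (LatticePoint n)) u) :
    ∃ v, (monomial u 1 - monomial v 1 : MvPolynomial (LatticePoint n) k) ∈ G ∧
      v ≠ u ∧ v.degree = u.degree ∧ matrixOf v = matrixOf u :=
  ⟨nf _ u, binom_mem_of_isReducedGroebnerBasis hG hu, nf_ne hu.1, (phi_eq_iff.1 (phi_nf u)).2,
    (phi_eq_iff.1 (phi_nf u)).1⟩

end grevlex

end Pool.Agent.Helper49.SymToric
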