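import Mathlib

/-!
# The toric ideal of the polytope of symmetric matrices with line sums 2

Definitions: lattice points of `S_n`, toric ideal, degree reverse lexicographic order, reduced
Groebner bases and block forms.
-/

open MvPolynomial

namespace Pool.Agent.Helper49.SymToric

/-! ### The degree reverse lexicographic order -/

/-- The exponent vectors `σ →₀ ℕ`, to be equipped with the degree reverse lexicographic order. -/
def GrevLex (σ : Type*) : Type _ := σ →₀ ℕ

noncomputable instance {σ : Type*} : AddCommMonoid (GrevLex σ) :=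
  inferInstanceAs (AddCommMonoid (σ →₀ ℕ))

/-- The identity map `(σ →₀ ℕ) → GrevLex σ`. -/
noncomputable def toGrevLex {σ : Type*} : (σ →₀ ℕ) ≃+ GrevLex σ := AddEquiv.refl _

/-- Exponent vectors are first compared by their degree and then by the *dual* of the
lexicographic order which gives priority to the smallest variable: among monomials of the same
degree, the one with the larger exponent at the smallest variable where they differ is smaller. -/
noncomputable def grevLexKey {σ : Type*} (a : GrevLex σ) : ℕ ×ₗ (Lex (σ →₀ ℕ))ᵒᵈ :=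
  toLex ((toGrevLex.symm a).degree, OrderDual.toDual (toLex (toGrevLex.symm a)))

theorem grevLexKey_injective {σ : Type*} : Function.Injective (grevLexKey (σ := σ)) := by
  intro a b h
  have h2 := congrArg (fun x => (ofLex x).2) h
  exact toGrevLex.symm.injective h2

noncomputable instance {σ : Type*} [LinearOrder σ] : LinearOrder (GrevLex σ) :=
  LinearOrder.lift' grevLexKey grevLexKey_injective

theorem toGrevLex_le_iff {σ : Type*} [LinearOrder σ] {a b : σ →₀ ℕ} :
    toGrevLex a ≤ toGrevLex b ↔
      a.degree < b.degree ∨ (a.degree = b.degree ∧ toLex b ≤ toLex a) := by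
  change grevLexKey (toGrevLex a) ≤ grevLexKey (toGrevLex b) ↔ _
  rw [grevLexKey, grevLexKey, Prod.Lex.toLex_le_toLex]
  rfl

theorem toGrevLex_lt_iff {σ : Type*} [LinearOrder σ] {a b : σ →₀ ℕ} :
    toGrevLex a < toGrevLex b ↔
      a.degree < b.degree ∨ (a.degree = b.degree ∧ toLex b < toLex a) := by
  change grevLexKey (toGrevLex a) < grevLexKey (toGrevLex b) ↔ _
  rw [grevLexKey, grevLexKey, Prod.Lex.toLex_lt_toLex]
  rfl

instance {σ : Type*} [LinearOrder σ] : IsOrderedAddMonoid (GrevLex σ) where
  add_le_add_left a b h c := by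
    obtain ⟨a, rfl⟩ := toGrevLex.surjective a
    obtain ⟨b, rfl⟩ := toGrevLex.surjective b
    obtain ⟨c, rfl⟩ := toGrevLex.surjective c
    rw [← map_add, ← map_add, toGrevLex_le_iff]
    rw [toGrevLex_le_iff] at h
    rcases h with h | ⟨h, h'⟩
    · left; rw [map_add, map_add]; omega
    · right
      refine ⟨by rw [map_add, map_add]; omega, ?_⟩
      rw [toLex_add, toLex_add]
      exact add_le_add_left h' _

theorem toGrevLex_monotone {σ : Type*} [LinearOrder σ] :
    Monotone (toGrevLex : (σ →₀ ℕ) → GrevLex σ) := by
  intro a b h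
  rw [toGrevLex_le_iff]
  obtain ⟨c, rfl⟩ := exists_add_of_le h
  rcases Nat.eq_zero_or_pos c.degree with hc | hc
  · right
    rw [Finsupp.degree_eq_zero_iff] at hc
    simp [hc]
  · left; rw [map_add]; omega

/-- The degree reverse lexicographic order on the monomials in finitely many variables, for a
given linear order on the variables. -/
noncomputable def grevlex (σ : Type*) [LinearOrder σ] [Finite σ] : MonomialOrder σ where
  syn := GrevLex σ
  toSyn := toGrevLex
  toSyn_monotone := toGrevLex_monotone
  wellFoundedLT_syn := by
    have : WellQuasiOrderedLE (GrevLex σ) :=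
      Monotone.wellQuasiOrderedLE_of_wellQuasiOrderedLE_of_surjective
        toGrevLex_monotone toGrevLex.surjective
    infer_instance

/-! ### Reduced Groebner bases -/

/-- `G` is the reduced Groebner basis of the ideal `I` with respect to the monomial order `m`:
a finite set of monic elements of `I` whose leading monomials generate the initial ideal of `I`,
such that no monomial of an element of `G` is divisible by the leading monomial of another
element of `G`. -/
structure IsReducedGroebnerBasis {σ k : Type*} [Field k] (m : MonomialOrder σ)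
    (I : Ideal (MvPolynomial σ k)) (G : Set (MvPolynomial σ k)) : Prop where
  finite : G.Finite
  mem : ∀ g ∈ G, g ∈ I
  monic : ∀ g ∈ G, m.Monic g
  exists_degree_le : ∀ f ∈ I, f ≠ 0 → ∃ g ∈ G, m.degree g ≤ m.degree f
  reduced : ∀ g ∈ G, ∀ h ∈ G, h ≠ g → ∀ c ∈ g.support, ¬ m.degree h ≤ c

/-! ### The polytope `S_n` and its toric ideal -/

/-- The lattice points of the polytope `S_n`: symmetric `n × n` matrices of natural numbers in
which every row (hence every column) sums to `2`. -/
@[ext]
structure LatticePoint (n : ℕ) where
  /-- the underlying matrix -/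
  toMatrix : Matrix (Fin n) (Fin n) ℕ
  isSymm : toMatrix.IsSymm
  rowSum : ∀ i, ∑ j, toMatrix i j = 2

theorem LatticePoint.entry_le {n : ℕ} (M : LatticePoint n) (i j : Fin n) : M.toMatrix i j ≤ 2 := by
  rw [← M.rowSum i]
  exact Finset.single_le_sum (f := fun j => M.toMatrix i j) (fun _ _ => Nat.zero_le _)
    (Finset.mem_univ j)

instance (n : ℕ) : Finite (LatticePoint n) := by
  refine Finite.of_injective
    (fun (M : LatticePoint n) (i j : Fin n) => (⟨M.toMatrix i j, Nat.lt_succ_of_le (M.entry_le i j)⟩ : Fin 3))
    fun M N h => ?_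
  ext i j
  have := congrFun (congrFun h i) j
  simpa using this

/-- The number of entries equal to `2`. -/
def numTwos {n : ℕ} (M : LatticePoint n) : ℕ :=
  (Finset.univ.filter fun p : Fin n × Fin n => M.toMatrix p.1 p.2 = 2).card

/-- The homomorphism `t_M ↦ x^M z`. The variable `x_{ij}` is `X (Sum.inl (i, j))` and `z` is
`X (Sum.inr ())`. -/
noncomputable def toricMap (k : Type*) [Field k] (n : ℕ) :
    MvPolynomial (LatticePoint n) k →ₐ[k] MvPolynomial ((Fin n × Fin n) ⊕ Unit) k :=
  aeval fun M => (∏ i, ∏ j, X (Sum.inl (i, j)) ^ M.toMatrix i j) * X (Sum.inr ())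

/-- The toric ideal of `S_n`. -/
noncomputable def toricIdeal (k : Type*) [Field k] (n : ℕ) : Ideal (MvPolynomial (LatticePoint n) k) :=
  RingHom.ker (toricMap k n)

/-- The sum, with multiplicity, of the lattice points indexing the variables of the monomial
with exponent vector `a`. -/
noncomputable def matrixOf {n : ℕ} (a : LatticePoint n →₀ ℕ) : Matrix (Fin n) (Fin n) ℕ :=
  a.sum fun M e => e • M.toMatrix

/-- The matrix `A` has a block form: the index set is the disjoint union of two nonempty sets
`V` and `Vᶜ` with `A i j = 0` for `i ∈ V` and `j ∉ V`. -/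
def HasBlockForm {n : ℕ} (A : Matrix (Fin n) (Fin n) ℕ) : Prop :=
  ∃ V : Set (Fin n), V.Nonempty ∧ Vᶜ.Nonempty ∧ ∀ i ∈ V, ∀ j ∉ V, A i j = 0

end Pool.Agent.Helper49.SymToric
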