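import Pool.Agent.Helper49.SymToric

/-! # Lattice points with a fixed diagonal block `2 I_r` -/

open MvPolynomial
open scoped MonomialOrder

namespace Pool.Agent.Helper49.SymToric

variable {m : ℕ} (r : ℕ)

/-- The lattice point `X ⊕ 2 I_r`. -/
def extend (X : LatticePoint m) : LatticePoint (m + r) where
  toMatrix := Matrix.reindex finSumFinEquiv finSumFinEquiv
    (Matrix.fromBlocks X.toMatrix 0 0 (Matrix.diagonal fun _ : Fin r => 2))
  isSymm := by
    have h : (Matrix.fromBlocks X.toMatrix 0 0 (Matrix.diagonal fun _ : Fin r => 2)).IsSymm :=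
      Matrix.IsSymm.fromBlocks X.isSymm (by simp) (Matrix.isSymm_diagonal _)
    ext i j
    exact h.apply _ _
  rowSum := by
    intro i
    obtain ⟨i, rfl⟩ := finSumFinEquiv.surjective i
    rw [← Equiv.sum_comp finSumFinEquiv]
    simp only [Matrix.reindex_apply, Matrix.submatrix_apply, Equiv.symm_apply_apply]
    rw [Fintype.sum_sum_type]
    rcases i with i | i
    · simpa using X.rowSum i
    · simp [Matrix.diagonal_apply]

theorem extend_apply (X : LatticePoint m) (i j : Fin m ⊕ Fin r) :
    (extend r X).toMatrix (finSumFinEquiv i) (finSumFinEquiv j) =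
      Matrix.fromBlocks X.toMatrix 0 0 (Matrix.diagonal fun _ : Fin r => 2) i j := by
  simp [extend]

theorem extend_apply_left (X : LatticePoint m) (i j : Fin m) :
    (extend r X).toMatrix (Fin.castAdd r i) (Fin.castAdd r j) = X.toMatrix i j :=
  extend_apply r X (Sum.inl i) (Sum.inl j)

theorem extend_injective : Function.Injective (extend r : LatticePoint m → LatticePoint (m + r)) := by
  intro X Y h
  ext i j
  rw [← extend_apply_left r X, ← extend_apply_left r Y, h]

theorem exists_eq_extend {K : LatticePoint (m + r)} {X Y : LatticePoint m}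
    (h : ∀ i j, K.toMatrix i j ≤ (extend r X).toMatrix i j + (extend r Y).toMatrix i j) :
    ∃ K' : LatticePoint m, K = extend r K' ∧
      ∀ i j, K'.toMatrix i j ≤ X.toMatrix i j + Y.toMatrix i j := by
  have h' : ∀ i j : Fin m ⊕ Fin r, K.toMatrix (finSumFinEquiv i) (finSumFinEquiv j) ≤
      Matrix.fromBlocks X.toMatrix 0 0 (Matrix.diagonal fun _ : Fin r => 2) i j +
      Matrix.fromBlocks Y.toMatrix 0 0 (Matrix.diagonal fun _ : Fin r => 2) i j := by
    intro i j
    have := h (finSumFinEquiv i) (finSumFinEquiv j)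
    rwa [extend_apply, extend_apply] at this
  have hlr : ∀ (i : Fin m) (j : Fin r),
      K.toMatrix (finSumFinEquiv (Sum.inl i)) (finSumFinEquiv (Sum.inr j)) = 0 := by
    intro i j
    simpa using h' (Sum.inl i) (Sum.inr j)
  have hrl : ∀ (i : Fin r) (j : Fin m),
      K.toMatrix (finSumFinEquiv (Sum.inr i)) (finSumFinEquiv (Sum.inl j)) = 0 := by
    intro i j
    simpa using h' (Sum.inr i) (Sum.inl j)
  have hrr0 : ∀ (i j : Fin r), i ≠ j →
      K.toMatrix (finSumFinEquiv (Sum.inr i)) (finSumFinEquiv (Sum.inr j)) = 0 := by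
    intro i j hij
    simpa [Matrix.diagonal_apply, hij] using h' (Sum.inr i) (Sum.inr j)
  have hrr : ∀ (i : Fin r),
      K.toMatrix (finSumFinEquiv (Sum.inr i)) (finSumFinEquiv (Sum.inr i)) = 2 := by
    intro i
    have h1 := K.rowSum (finSumFinEquiv (Sum.inr i))
    rw [← Equiv.sum_comp finSumFinEquiv, Fintype.sum_sum_type,
      Finset.sum_eq_zero (fun j _ => hrl i j), zero_add,
      Finset.sum_eq_single i (fun j _ hj => hrr0 i j (Ne.symm hj)) (by simp)] at h1
    exact h1
  refine ⟨⟨fun i j => K.toMatrix (finSumFinEquiv (Sum.inl i)) (finSumFinEquiv (Sum.inl j)),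
    ?_, ?_⟩, ?_, ?_⟩
  · ext i j
    exact K.isSymm.apply _ _
  · intro i
    have h1 := K.rowSum (finSumFinEquiv (Sum.inl i))
    rw [← Equiv.sum_comp finSumFinEquiv, Fintype.sum_sum_type,
      Finset.sum_eq_zero (s := (Finset.univ : Finset (Fin r))) (fun j _ => hlr i j), add_zero] at h1
    exact h1
  · ext i j
    obtain ⟨i, rfl⟩ := finSumFinEquiv.surjective i
    obtain ⟨j, rfl⟩ := finSumFinEquiv.surjective j
    rw [extend_apply]
    rcases i with i | i <;> rcases j with j | j
    · rfl
    · rw [hlr]; rfl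
    · rw [hrl]; rfl
    · by_cases hij : i = j
      · subst hij
        rw [hrr, Matrix.fromBlocks_apply₂₂, Matrix.diagonal_apply_eq]
      · rw [hrr0 _ _ hij, Matrix.fromBlocks_apply₂₂, Matrix.diagonal_apply_ne _ hij]
  · intro i j
    exact h' (Sum.inl i) (Sum.inl j)

theorem numTwos_eq_sum {n : ℕ} (K : LatticePoint n) :
    numTwos K = ∑ i, ∑ j, if K.toMatrix i j = 2 then 1 else 0 := by
  rw [numTwos, Finset.card_filter, Fintype.sum_prod_type]

theorem numTwos_extend (X : LatticePoint m) : numTwos (extend r X) = numTwos X + r := by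
  rw [numTwos_eq_sum, numTwos_eq_sum, ← Equiv.sum_comp finSumFinEquiv, Fintype.sum_sum_type]
  congr 1
  · refine Finset.sum_congr rfl fun i _ => ?_
    rw [← Equiv.sum_comp finSumFinEquiv, Fintype.sum_sum_type]
    simp only [extend_apply, Matrix.fromBlocks_apply₁₁, Matrix.fromBlocks_apply₁₂,
      Matrix.zero_apply]
    rw [Finset.sum_eq_zero (s := (Finset.univ : Finset (Fin r))) (fun _ _ => by simp), add_zero]
  · calc _ = ∑ _i : Fin r, 1 := by
          refine Finset.sum_congr rfl fun i _ => ?_
          rw [← Equiv.sum_comp finSumFinEquiv, Fintype.sum_sum_type]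
          simp only [extend_apply]
          simp [Matrix.diagonal_apply]
      _ = r := by simp

theorem sum_extend {X₁ X₂ X₃ Y₁ Y₂ Y₃ : LatticePoint m}
    (h : X₁.toMatrix + X₂.toMatrix + X₃.toMatrix = Y₁.toMatrix + Y₂.toMatrix + Y₃.toMatrix) :
    (extend r X₁).toMatrix + (extend r X₂).toMatrix + (extend r X₃).toMatrix =
      (extend r Y₁).toMatrix + (extend r Y₂).toMatrix + (extend r Y₃).toMatrix := by
  ext i j
  obtain ⟨i, rfl⟩ := finSumFinEquiv.surjective i
  obtain ⟨j, rfl⟩ := finSumFinEquiv.surjective j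
  simp only [Matrix.add_apply, extend_apply]
  rcases i with i | i <;> rcases j with j | j
  · exact congrFun (congrFun h i) j
  all_goals simp

theorem hasBlockForm_extend (hr : 0 < r) (hm : 0 < m) (X₁ X₂ X₃ : LatticePoint m) :
    HasBlockForm ((extend r X₁).toMatrix + (extend r X₂).toMatrix + (extend r X₃).toMatrix) := by
  refine ⟨Set.range (Fin.castAdd r), ⟨_, ⟨⟨0, hm⟩, rfl⟩⟩, ⟨Fin.natAdd m ⟨0, hr⟩, ?_⟩, ?_⟩
  · rintro ⟨i, hi⟩
    have := congrArg Fin.val hi
    simp at this
    omega
  · rintro _ ⟨i, rfl⟩ j hj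
    obtain ⟨j, rfl⟩ := finSumFinEquiv.surjective j
    rcases j with j | j
    · exact absurd ⟨j, rfl⟩ hj
    · have h := fun X : LatticePoint m => extend_apply r X (Sum.inl i) (Sum.inr j)
      simp only [finSumFinEquiv_apply_left, Matrix.fromBlocks_apply₁₂, Matrix.zero_apply] at h
      simp only [Matrix.add_apply, h, add_zero]

end Pool.Agent.Helper49.SymToric
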